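import Mathlib

/-! Primitive recursive functions and recursively enumerable predicates, tagged for `fun_prop`;
least fixed points of finitary recursively enumerable rule systems. -/

namespace Pool.Agent.Lib.MP_a1ec0a_al

variable {α β γ δ : Type} [Primcodable α] [Primcodable β] [Primcodable γ] [Primcodable δ]

@[fun_prop] def PR (f : α → β) : Prop := Primrec f

namespace PR

theorem congr {f g : α → β} (hf : PR f) (h : ∀ a, f a = g a) : PR g := Primrec.of_eq hf h

@[fun_prop] theorem id' : PR (fun a : α => a) := Primrec.id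
@[fun_prop] theorem const (b : β) : PR (fun _ : α => b) := Primrec.const b
@[fun_prop] theorem comp {f : β → γ} {g : α → β} (hf : PR f) (hg : PR g) :
    PR (fun a => f (g a)) := Primrec.comp hf hg
@[fun_prop] theorem prodMk {f : α → β} {g : α → γ} (hf : PR f) (hg : PR g) :
    PR (fun a => (f a, g a)) := Primrec.pair hf hg
@[fun_prop] theorem fst {f : α → β × γ} (hf : PR f) : PR (fun a => (f a).1) :=
  Primrec.fst.comp hf
@[fun_prop] theorem snd {f : α → β × γ} (hf : PR f) : PR (fun a => (f a).2) :=
  Primrec.snd.comp hf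
@[fun_prop] theorem cond {b : α → Bool} {f g : α → β} (hb : PR b) (hf : PR f) (hg : PR g) :
    PR (fun a => bif b a then f a else g a) := Primrec.cond hb hf hg
@[fun_prop] theorem not {b : α → Bool} (hb : PR b) : PR (fun a => !b a) := Primrec.not.comp hb
@[fun_prop] theorem and {b c : α → Bool} (hb : PR b) (hc : PR c) : PR (fun a => b a && c a) :=
  Primrec.and.comp hb hc
@[fun_prop] theorem or {b c : α → Bool} (hb : PR b) (hc : PR c) : PR (fun a => b a || c a) :=
  Primrec.or.comp hb hc
@[fun_prop] theorem beq [DecidableEq β] {f g : α → β} (hf : PR f) (hg : PR g) :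
    PR (fun a => f a == g a) := Primrec.beq.comp hf hg
@[fun_prop] theorem cons {f : α → β} {l : α → List β} (hf : PR f) (hl : PR l) :
    PR (fun a => f a :: l a) := Primrec.list_cons.comp hf hl
@[fun_prop] theorem append {l l' : α → List β} (hl : PR l) (hl' : PR l') :
    PR (fun a => l a ++ l' a) := Primrec.list_append.comp hl hl'
@[fun_prop] theorem reverse {l : α → List β} (hl : PR l) : PR (fun a => (l a).reverse) :=
  Primrec.list_reverse.comp hl
@[fun_prop] theorem length {l : α → List β} (hl : PR l) : PR (fun a => (l a).length) :=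
  Primrec.list_length.comp hl
@[fun_prop] theorem range {n : α → ℕ} (hn : PR n) : PR (fun a => List.range (n a)) :=
  Primrec.list_range.comp hn
@[fun_prop] theorem map {f : α → β → γ} {l : α → List β}
    (hf : PR fun p : α × β => f p.1 p.2) (hl : PR l) : PR fun a => (l a).map (f a) :=
  Primrec.list_map hl hf
@[fun_prop] theorem flatMap {f : α → β → List γ} {l : α → List β}
    (hf : PR fun p : α × β => f p.1 p.2) (hl : PR l) : PR fun a => (l a).flatMap (f a) :=
  Primrec.list_flatMap hl hf
@[fun_prop] theorem foldr {f : α → β → γ → γ} {l : α → List β} {i : α → γ}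
    (hf : PR fun p : α × β × γ => f p.1 p.2.1 p.2.2) (hl : PR l) (hi : PR i) :
    PR fun a => (l a).foldr (f a) (i a) :=
  Primrec.list_foldr (h := fun a p => f a p.1 p.2) hl hi hf
@[fun_prop] theorem foldl {f : α → γ → β → γ} {l : α → List β} {i : α → γ}
    (hf : PR fun p : α × γ × β => f p.1 p.2.1 p.2.2) (hl : PR l) (hi : PR i) :
    PR fun a => (l a).foldl (f a) (i a) :=
  Primrec.list_foldl (h := fun a p => f a p.1 p.2) hl hi hf
@[fun_prop] theorem filter {f : α → β → Bool} {l : α → List β}
    (hf : PR fun p : α × β => f p.1 p.2) (hl : PR l) : PR fun a => (l a).filter (f a) :=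
  (flatMap (f := fun a b => bif f a b then [b] else [])
    (cond hf (by fun_prop) (const [])) hl).congr fun a => by
    induction l a with
    | nil => rfl
    | cons b t ih => cases h : f a b <;> simp [ih, h]
@[fun_prop] theorem any {f : α → β → Bool} {l : α → List β}
    (hf : PR fun p : α × β => f p.1 p.2) (hl : PR l) : PR fun a => (l a).any (f a) :=
  (foldr (f := fun a b s => f a b || s) (or (comp (g := fun p : α × β × Bool => (p.1, p.2.1)) hf
    (by fun_prop)) (by fun_prop)) hl (const false)).congr fun a => by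
    induction l a with
    | nil => rfl
    | cons b t ih => simp [ih]
@[fun_prop] theorem all {f : α → β → Bool} {l : α → List β}
    (hf : PR fun p : α × β => f p.1 p.2) (hl : PR l) : PR fun a => (l a).all (f a) :=
  (foldr (f := fun a b s => f a b && s) (and (comp (g := fun p : α × β × Bool => (p.1, p.2.1)) hf
    (by fun_prop)) (by fun_prop)) hl (const true)).congr fun a => by
    induction l a with
    | nil => rfl
    | cons b t ih => simp [ih]
@[fun_prop] theorem add {m n : α → ℕ} (hm : PR m) (hn : PR n) : PR (fun a => m a + n a) :=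
  Primrec.nat_add.comp hm hn
@[fun_prop] theorem sub {m n : α → ℕ} (hm : PR m) (hn : PR n) : PR (fun a => m a - n a) :=
  Primrec.nat_sub.comp hm hn
@[fun_prop] theorem mul {m n : α → ℕ} (hm : PR m) (hn : PR n) : PR (fun a => m a * n a) :=
  Primrec.nat_mul.comp hm hn
@[fun_prop] theorem pow {m n : α → ℕ} (hm : PR m) (hn : PR n) : PR (fun a => m a ^ n a) :=
  Primrec₂.comp (f := fun a b : ℕ => a ^ b) (Primrec₂.unpaired'.1 Nat.Primrec.pow) hm hn
@[fun_prop] theorem ble {m n : α → ℕ} (hm : PR m) (hn : PR n) :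
    PR (fun a => Nat.ble (m a) (n a)) :=
  (Primrec.nat_le.comp hm hn).decide.of_eq fun a => by
    rw [Bool.eq_iff_iff]; simp
@[fun_prop] theorem replicate {n : α → ℕ} {f : α → β} (hn : PR n) (hf : PR f) :
    PR (fun a => List.replicate (n a) (f a)) :=
  (map (f := fun a _ => f a) (l := fun a => List.range (n a)) (by fun_prop) (range hn)).congr
    fun a => by simp
@[fun_prop] theorem getD {l : α → List β} {n : α → ℕ} {d : α → β} (hl : PR l) (hn : PR n)
    (hd : PR d) : PR (fun a => (l a).getD (n a) (d a)) :=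
  (Primrec.option_getD.comp (Primrec.list_getElem?.comp hl hn) hd).of_eq fun a => by
    simp [List.getD_eq_getElem?_getD]

/-- Case analysis on a list. -/
def lcases (l : List β) (g : γ) (h : β → List β → γ) : γ :=
  match l with
  | [] => g
  | b :: t => h b t

@[fun_prop] theorem lcases' {l : α → List β} {g : α → γ} {h : α → β → List β → γ} (hl : PR l)
    (hg : PR g) (hh : PR fun p : α × β × List β => h p.1 p.2.1 p.2.2) :
    PR (fun a => lcases (l a) (g a) (h a)) :=
  (Primrec.list_casesOn (h := fun a p => h a p.1 p.2) hl hg hh).of_eq fun a => by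
    cases l a <;> rfl

@[fun_prop] theorem invRev {l : α → List (β × Bool)} (hl : PR l) :
    PR (fun a => FreeGroup.invRev (l a)) := by
  unfold FreeGroup.invRev; fun_prop

@[fun_prop] theorem reduce [DecidableEq β] {l : α → List (β × Bool)} (hl : PR l) :
    PR (fun a => FreeGroup.reduce (l a)) := by
  refine (foldr (f := fun _ (x : β × Bool) (s : List (β × Bool)) => lcases s [x] fun y t =>
    bif (x.1 == y.1 && x.2 == !y.2) then t else x :: y :: t) (i := fun _ => [])
    (by fun_prop) hl (const [])).congr fun a => ?_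
  induction l a with
  | nil => rfl
  | cons x t ih =>
    rw [List.foldr_cons, ih, FreeGroup.reduce.cons]
    cases FreeGroup.reduce t with
    | nil => rfl
    | cons y t' =>
      by_cases h : x.1 = y.1 ∧ x.2 = !y.2
      · simp [lcases, h]
      · simp only [lcases, h, if_false]
        have : (x.1 == y.1 && x.2 == !y.2) = false := by simpa using h
        rw [this]; rfl

end PR

/-- Recursively enumerable predicates, in existential form. -/
@[fun_prop] def S1 (p : α → Prop) : Prop :=
  ∃ R : α × ℕ → Bool, PR R ∧ ∀ a, p a ↔ ∃ n, R (a, n) = true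

/-- Bounded universal quantifier. -/
def AllL (l : List β) (p : β → Prop) : Prop := ∀ x ∈ l, p x

namespace S1

theorem congr {p q : α → Prop} (hp : S1 p) (h : ∀ a, p a ↔ q a) : S1 q := by
  obtain ⟨R, hR, e⟩ := hp
  exact ⟨R, hR, fun a => (h a).symm.trans (e a)⟩

theorem comp {p : β → Prop} {g : α → β} (hp : S1 p) (hg : PR g) : S1 (fun a => p (g a)) := by
  obtain ⟨R, hR, e⟩ := hp
  exact ⟨fun x => R (g x.1, x.2), by fun_prop, fun a => e _⟩

@[fun_prop] theorem eq {f g : α → β} (hf : PR f) (hg : PR g) : S1 (fun a => f a = g a) := by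
  classical
  exact ⟨fun x => f x.1 == g x.1, by fun_prop, fun a => by simp⟩

@[fun_prop] theorem and {p q : α → Prop} (hp : S1 p) (hq : S1 q) : S1 (fun a => p a ∧ q a) := by
  obtain ⟨R, hR, e⟩ := hp
  obtain ⟨R', hR', e'⟩ := hq
  have hu : PR Nat.unpair := Primrec.unpair
  refine ⟨fun x => R (x.1, x.2.unpair.1) && R' (x.1, x.2.unpair.2), by fun_prop, fun a => ?_⟩
  beta_reduce
  rw [e, e']
  constructor
  · rintro ⟨⟨n, hn⟩, ⟨m, hm⟩⟩
    exact ⟨Nat.pair n m, by simp [hn, hm]⟩
  · rintro ⟨n, hn⟩
    simp only [Bool.and_eq_true] at hn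
    exact ⟨⟨_, hn.1⟩, ⟨_, hn.2⟩⟩

@[fun_prop] theorem or {p q : α → Prop} (hp : S1 p) (hq : S1 q) : S1 (fun a => p a ∨ q a) := by
  obtain ⟨R, hR, e⟩ := hp
  obtain ⟨R', hR', e'⟩ := hq
  refine ⟨fun x => R x || R' x, by fun_prop, fun a => ?_⟩
  beta_reduce
  rw [e, e']
  simp [exists_or]

@[fun_prop] theorem ex {p : α → β → Prop} (hp : S1 fun x : α × β => p x.1 x.2) :
    S1 (fun a => ∃ b, p a b) := by
  obtain ⟨R, hR, e⟩ := hp
  have hu : PR Nat.unpair := Primrec.unpair
  refine ⟨fun x => ((Encodable.decode (α := β) x.2.unpair.1).map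
    fun b => R ((x.1, b), x.2.unpair.2)).getD false, ?_, fun a => ?_⟩
  · refine Primrec.option_getD.comp (Primrec.option_map (Primrec.decode.comp ?_) ?_)
      (Primrec.const _)
    · change PR _; fun_prop
    · change PR _; fun_prop
  · constructor
    · rintro ⟨b, hb⟩
      obtain ⟨n, hn⟩ := (e (a, b)).1 hb
      exact ⟨Nat.pair (Encodable.encode b) n, by simp [hn]⟩
    · rintro ⟨n, hn⟩
      cases h : Encodable.decode (α := β) n.unpair.1 with
      | none => simp [h] at hn
      | some b => exact ⟨b, (e (a, b)).2 ⟨_, by simpa [h] using hn⟩⟩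

@[fun_prop] theorem all {p : α → β → Prop} {l : α → List β}
    (hp : S1 fun x : α × β => p x.1 x.2) (hl : PR l) : S1 (fun a => AllL (l a) (p a)) := by
  obtain ⟨R, hR, e⟩ := hp
  refine ⟨fun x => (l x.1).all fun b => (List.range x.2).any fun n => R ((x.1, b), n),
    by fun_prop, fun a => ?_⟩
  simp only [AllL, List.all_eq_true, List.any_eq_true, List.mem_range]
  constructor
  · generalize l a = L
    intro h
    induction L with
    | nil => exact ⟨0, by simp⟩
    | cons b t ih =>
      obtain ⟨N, hN⟩ := ih fun x hx => h x (List.mem_cons_of_mem _ hx)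
      obtain ⟨n, hn⟩ := (e (a, b)).1 (h b List.mem_cons_self)
      refine ⟨max N (n + 1), fun x hx => ?_⟩
      rcases List.mem_cons.1 hx with rfl | hx
      · exact ⟨n, by omega, hn⟩
      · obtain ⟨k, hk, hk'⟩ := hN x hx
        exact ⟨k, by omega, hk'⟩
  · rintro ⟨N, hN⟩ x hx
    obtain ⟨k, -, hk⟩ := hN x hx
    exact (e (a, x)).2 ⟨k, hk⟩

theorem re {p : α → Prop} (hp : S1 p) : REPred p := by
  obtain ⟨R, hR, e⟩ := hp
  have h : Partrec fun a => Nat.rfind fun n => (Part.some (R (a, n)) : Part Bool) :=
    Partrec.rfind (Primrec.to_comp hR).partrec.to₂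
  refine h.dom_re.of_eq fun a => ?_
  rw [e, Nat.rfind_dom]
  simp

end S1

/-- The closure of a finitary rule system. -/
inductive Der {J : Type} (Rule : J → List J → Prop) : J → Prop
  | mk (j : J) (l : List J) : Rule j l → (∀ i ∈ l, Der Rule i) → Der Rule j

theorem Der.sound {J : Type} {Rule : J → List J → Prop} {Sem : J → Prop}
    (h : ∀ j l, Rule j l → (∀ i ∈ l, Sem i) → Sem j) {j : J} (hj : Der Rule j) : Sem j := by
  induction hj with
  | mk j l hr _ ih => exact h j l hr ih

theorem Der.s1 {Rule : α → List α → Prop} (hR : S1 fun x : α × List α => Rule x.1 x.2) :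
    S1 (Der Rule) := by
  classical
  have h1 : S1 fun a : α => ∃ C : List (α × ℕ × List α),
      (C.any fun e => e.1 == a) = true ∧ AllL C fun e => Rule e.1 e.2.2 ∧
        (e.2.2.all fun k => C.any fun e' => e'.1 == k && Nat.ble (e'.2.1 + 1) e.2.1) = true := by
    refine S1.ex (S1.and (by fun_prop) (S1.all (S1.and ?_ (by fun_prop)) (by fun_prop)))
    exact hR.comp (g := fun x : (α × List (α × ℕ × List α)) × (α × ℕ × List α) =>
      (x.2.1, x.2.2.2)) (by fun_prop)
  refine h1.congr fun a => ?_
  simp only [AllL, List.any_eq_true, List.all_eq_true, beq_iff_eq, Bool.and_eq_true,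
    Nat.ble_eq]
  constructor
  · rintro ⟨C, ⟨e, he, rfl⟩, hC⟩
    have : ∀ n, ∀ e ∈ C, e.2.1 < n → Der Rule e.1 := by
      intro n
      induction n with
      | zero => intro e _ h; omega
      | succ n ih =>
        intro e he h
        refine Der.mk _ _ (hC e he).1 fun k hk => ?_
        obtain ⟨e', he', rfl, h'⟩ := (hC e he).2 k hk
        exact ih e' he' (by omega)
    exact this _ e he (Nat.lt_succ_self _)
  · intro h
    induction h with
    | mk j l hr _ ih =>
      have : ∀ l' : List α, (∀ i ∈ l', i ∈ l) → ∃ (C : List (α × ℕ × List α)) (N : ℕ),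
          (∀ k ∈ l', ∃ e' ∈ C, e'.1 = k ∧ e'.2.1 + 1 ≤ N) ∧ ∀ e ∈ C, Rule e.1 e.2.2 ∧
            ∀ k ∈ e.2.2, ∃ e' ∈ C, e'.1 = k ∧ e'.2.1 + 1 ≤ e.2.1 := by
        intro l'
        induction l' with
        | nil => exact fun _ => ⟨[], 0, by simp, by simp⟩
        | cons b t ih' =>
          intro hl
          obtain ⟨C, N, h1, h2⟩ := ih' fun i hi => hl i (List.mem_cons_of_mem _ hi)
          obtain ⟨C', ⟨e, he, heb⟩, h3⟩ := ih b (hl b List.mem_cons_self)
          refine ⟨C ++ C', max N (e.2.1 + 1), fun k hk => ?_, fun e' he' => ?_⟩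
          · rcases List.mem_cons.1 hk with rfl | hk
            · exact ⟨e, List.mem_append_right _ he, heb, by omega⟩
            · obtain ⟨e', a1, a2, a3⟩ := h1 k hk
              exact ⟨e', List.mem_append_left _ a1, a2, by omega⟩
          · rcases List.mem_append.1 he' with he' | he'
            · refine ⟨(h2 e' he').1, fun k hk => ?_⟩
              obtain ⟨e'', a1, a2⟩ := (h2 e' he').2 k hk
              exact ⟨e'', List.mem_append_left _ a1, a2⟩
            · refine ⟨(h3 e' he').1, fun k hk => ?_⟩
              obtain ⟨e'', a1, a2⟩ := (h3 e' he').2 k hk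
              exact ⟨e'', List.mem_append_right _ a1, a2⟩
      obtain ⟨C, N, h1, h2⟩ := this l fun _ h => h
      refine ⟨(j, N, l) :: C, ⟨_, List.mem_cons_self, rfl⟩, fun e he => ?_⟩
      rcases List.mem_cons.1 he with rfl | he
      · refine ⟨hr, fun k hk => ?_⟩
        obtain ⟨e', a1, a2⟩ := h1 k hk
        exact ⟨e', List.mem_cons_of_mem _ a1, a2⟩
      · refine ⟨(h2 e he).1, fun k hk => ?_⟩
        obtain ⟨e', a1, a2⟩ := (h2 e he).2 k hk
        exact ⟨e', List.mem_cons_of_mem _ a1, a2⟩

end Pool.Agent.Lib.MP_a1ec0a_al
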