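import Pool.Agent.Lib.MP_a1ec0a_al.Garside

/-! Convexity arguments in bridged graphs. -/

namespace Pool.Agent.Lib.MP_a1ec0a_al

namespace TriSys

variable {V : Type} {X : TriSys V}

theorem desc (p q' : V) : ∀ (k : ℕ) (q : V), X.d q q' = k → X.d q' p < X.d q p →
    ∃ s, X.r q s ∧ X.d s q' + 1 = X.d q q' ∧ X.d s p + 1 = X.d q p := by
  intro k
  induction k with
  | zero => intro q h h'; rw [d_zero h] at h'; omega
  | succ k ih =>
    intro q h h'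
    obtain ⟨q1, a1, a2⟩ := d_step h
    have l1 := d_lip a1 p
    have l2 := d_lip (X.symm a1) p
    by_cases c1 : X.d q1 p + 1 = X.d q p
    · exact ⟨q1, a1, by omega, c1⟩
    obtain ⟨s1, b1, b2, b3⟩ := ih q1 a2 (by omega)
    by_cases c2 : X.d q1 p = X.d q p
    · obtain ⟨m, m1, m2, m3⟩ := tc a1 (n := X.d s1 p) (q := p) (by omega) (by omega)
      have := d_lip (clique (q := p) m2 b1 (by omega) b3) q'
      have := d_lip m1 q'
      exact ⟨m, m1, by omega, by omega⟩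
    · have := d_lip (clique (q := p) (X.symm a1) b1 (by omega) b3) q'
      omega

theorem desc2 (p q : V) : ∀ (k : ℕ) (v : V), X.d v q = k → X.d q p < X.d v p + X.d v q →
    ∃ s, X.r v s ∧ X.d s q + 1 = X.d v q ∧ X.d s p ≤ X.d v p := by
  intro k
  induction k with
  | zero => intro v h h'; rw [d_zero h, d_self] at h'; omega
  | succ k ih =>
    intro v h h'
    obtain ⟨v1, a1, a2⟩ := d_step h
    have l2 := d_lip (X.symm a1) p
    by_cases c1 : X.d v1 p ≤ X.d v p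
    · exact ⟨v1, a1, by omega, c1⟩
    obtain ⟨s1, b1, b2, b3⟩ := ih v1 a2 (by omega)
    have l1 := d_lip b1 p
    by_cases c2 : X.d s1 p = X.d v1 p
    · obtain ⟨m, m1, m2, m3⟩ := tc b1 (n := X.d v p) (q := p) (by omega) (by omega)
      have h3 := clique (q := p) (X.symm a1) m1 (by omega) (by omega)
      have := d_lip (X.symm m2) q
      have := d_lip h3 q
      exact ⟨m, h3, by omega, by omega⟩
    · have := d_lip (clique (q := p) (X.symm a1) b1 (by omega) (by omega)) q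
      omega

def Conv (X : TriSys V) (Y : Set V) : Prop :=
  ∀ p ∈ Y, ∀ q ∈ Y, ∀ s, X.r q s → X.d s p + 1 = X.d q p → s ∈ Y

theorem conv_of_local {Y : Set V}
    (hc : ∀ p ∈ Y, ∀ q ∈ Y, ∃ n, DD (fun a b => X.r a b ∧ b ∈ Y) n q p)
    (hl : ∀ p ∈ Y, ∀ m ∈ Y, ∀ q ∈ Y, ∀ m', X.r p m → X.r m q → ¬ X.r p q → X.r p m' →
      X.r m' q → X.r m m' → m' ∈ Y) : X.Conv Y := by
  have mono : ∀ {n a b}, DD (fun a b => X.r a b ∧ b ∈ Y) n a b → X.d a b ≤ n := by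
    intro n a b h
    refine d_le ?_
    induction h with
    | zero v => exact DD.zero v
    | succ h1 _ ih => exact DD.succ h1.1 ih
  have h1 : ∀ (p : V) (n : ℕ), ∀ q ∈ Y, DD (fun a b => X.r a b ∧ b ∈ Y) n q p →
      DD (fun a b => X.r a b ∧ b ∈ Y) (X.d q p) q p := by
    intro p n
    induction n using Nat.strong_induction_on with
    | _ n ih =>
    intro q hq h
    cases h with
    | zero => rw [d_self]; exact DD.zero _
    | @succ n _ q1 _ a1 a2 =>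
      have a3 := ih n (by omega) q1 a1.2 a2
      have a4 := mono a2
      have l1 := d_lip a1.1 p
      have l2 := d_lip (X.symm a1.1) p
      by_cases c1 : X.d q p = X.d q1 p + 1
      · rw [c1]; exact DD.succ a1 a3
      by_cases c0 : X.d q p = 0
      · rw [c0, d_zero c0]; exact DD.zero _
      obtain ⟨k, hk⟩ : ∃ k, X.d q1 p = k + 1 := ⟨X.d q1 p - 1, by omega⟩
      rw [hk] at a3
      cases a3 with
      | @succ _ _ q2 _ b1 b2 =>
      have l3 := d_lip b1.1 p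
      have l4 := mono b2
      by_cases c2 : X.r q q2
      · exact ih (k + 1) (by omega) q hq (DD.succ ⟨c2, b1.2⟩ b2)
      by_cases c3 : X.d q p = k + 1
      · obtain ⟨m, m1, m2, m3⟩ := tc a1.1 c3 hk
        have m4 := clique (q := p) m2 b1.1 (by omega) (by omega)
        have m5 := hl q hq q1 a1.2 q2 b1.2 m a1.1 b1.1 c2 m1 m4 m2
        have := ih (k + 1) (by omega) m m5 (DD.succ ⟨m4, b1.2⟩ b2)
        rw [c3, ← m3]
        exact DD.succ ⟨m1, m5⟩ this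
      · exact absurd (clique (q := p) (X.symm a1.1) b1.1 (by omega) (by omega)) c2
  intro p hp
  have : ∀ n, ∀ q ∈ Y, X.d q p = n → ∀ s, X.r q s → X.d s p + 1 = X.d q p → s ∈ Y := by
    intro n
    induction n using Nat.strong_induction_on with
    | _ n ih =>
    intro q hq hn s hs hd
    obtain ⟨N, hN⟩ := hc p hp q hq
    have a1 := h1 p N q hq hN
    rw [← hd] at a1
    cases a1 with
    | @succ _ _ y _ b1 b2 =>
    have l1 := mono b2
    have l2 := d_lip b1.1 p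
    have b3 := clique (q := p) hs b1.1 hd (by omega)
    by_cases c0 : X.d s p = 0
    · rw [d_zero c0]; exact hp
    obtain ⟨z, z1, z2, z3⟩ := tc b3 (n := X.d s p - 1) (q := p) (by omega) (by omega)
    have z4 := ih _ (by omega) y b1.2 rfl z z2 (by omega)
    refine hl z z4 y b1.2 q hq s (X.symm z2) (X.symm b1.1) (fun h => ?_) (X.symm z1) (X.symm hs)
      (X.symm b3)
    have := d_lip (X.symm h) p
    omega
  exact fun q hq => this _ q hq rfl

theorem Conv.far {C : Set V} (hC : X.Conv C) {p q : V} (hq : q ∈ C)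
    (h : ∀ s ∈ C, X.r q s → X.d s p + 1 ≠ X.d q p) : ∀ q' ∈ C, X.d q p ≤ X.d q' p := by
  intro q' hq'
  by_contra hn
  obtain ⟨s, a1, a2, a3⟩ := desc (X := X) p q' _ q rfl (by omega)
  exact h s (hC q' hq' q hq s a1 a2) a1 a3

/-- Corner condition. -/
def Corner (X : TriSys V) (B C : Set V) : Prop :=
  ∀ v ∈ B, v ∈ C → ∀ s ∈ B, ∀ t ∈ C, X.r v s → X.r v t → X.r s t → s ∈ C ∨ t ∈ B

theorem Corner.symm {B C : Set V} (h : X.Corner B C) : X.Corner C B :=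
  fun v h1 h2 s h3 t h4 h5 h6 h7 => (h v h2 h1 t h4 s h3 h6 h5 (X.symm h7)).symm

theorem gate {B C : Set V} (hB : X.Conv B) (hC : X.Conv C) (hQ : X.Corner B C)
    (hne : ∃ v ∈ B, v ∈ C) {p q : V} (hp : p ∈ B) (hq : q ∈ C) :
    ∃ v ∈ B, v ∈ C ∧ X.d v p + X.d v q ≤ X.d q p := by
  classical
  have hex : ∃ n, ∃ v ∈ B, v ∈ C ∧ X.d v p + X.d v q = n := by
    obtain ⟨v, h1, h2⟩ := hne; exact ⟨_, v, h1, h2, rfl⟩
  obtain ⟨v, h1, h2, h3⟩ := Nat.find_spec hex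
  have hmin : ∀ v' ∈ B, v' ∈ C → X.d v p + X.d v q ≤ X.d v' p + X.d v' q := fun v' a b =>
    h3 ▸ Nat.find_min' hex ⟨v', a, b, rfl⟩
  refine ⟨v, h1, h2, ?_⟩
  by_contra hn
  obtain ⟨s, a1, a2, a3⟩ := desc2 (X := X) p q _ v rfl (by omega)
  have hs := hC q hq v h2 s a1 a2
  have l1 := d_lip a1 p
  by_cases c1 : X.d s p + 1 = X.d v p
  · have := hmin s (hB p hp v h1 s a1 c1) hs; omega
  by_cases c0 : X.d v p = 0
  · have e1 := d_zero c0
    have e2 : s = p := d_zero (X := X) (by omega)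
    rw [e1, e2] at a2; omega
  obtain ⟨t, t1, t2, t3⟩ := tc a1 (n := X.d v p - 1) (q := p) (by omega) (by omega)
  have ht := hB p hp v h1 t t1 (by omega)
  rcases hQ v h1 h2 t ht s hs t1 a1 (X.symm t2) with h | h
  · have := hmin t ht h
    have := d_lip (X.symm t2) q
    omega
  · have := hmin s h hs; omega

/-- Propagation condition. -/
def Prop3 (X : TriSys V) (B C1 C2 : Set V) : Prop :=
  ∀ v ∈ B, v ∈ C1 → v ∈ C2 → ∀ v' ∈ C1, v' ∈ C2 → X.r v v' → v' ∈ B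

theorem Prop3.symm {B C1 C2 : Set V} (h : X.Prop3 B C1 C2) : X.Prop3 B C2 C1 :=
  fun v h1 h2 h3 v' h4 h5 h6 => h v h1 h3 h2 v' h5 h4 h6

theorem trap_aux {B C1 C2 : Set V} (hB : X.Conv B) (h1 : X.Conv C1) (h2 : X.Conv C2)
    (hQ1 : X.Corner B C1) (hP : X.Prop3 B C1 C2) {p q v u : V} (hp : p ∈ C1) (hq : q ∈ C2)
    (hv : v ∈ B) (hv' : v ∈ C1) (hu : u ∈ B) (hu' : u ∈ C2)
    (hmin : ∀ v' ∈ B, v' ∈ C1 → ∀ u' ∈ B, u' ∈ C2 →
      X.d v p + X.d v u + X.d u q ≤ X.d v' p + X.d v' u' + X.d u' q)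
    (hd : X.d v u + X.d u q ≤ X.d v q) : X.d v q ≤ X.d p q := by
  by_contra hn
  obtain ⟨s, a1, a2, a3⟩ := desc (X := X) q p _ v rfl (by omega)
  have hs := h1 p hp v hv' s a1 a2
  have t0 := X.d_tri v u q
  by_cases c0 : X.d v u = 0
  · obtain rfl := d_zero c0
    have hs2 := h2 q hq v hu' s a1 a3
    have hs3 := hP v hv hv' hu' s hs hs2 a1
    have := hmin s hs3 hs s hs3 hs2
    rw [d_self, d_self] at this
    omega
  obtain ⟨t, t1, t2⟩ := d_step (n := X.d v u - 1) (show X.d v u = _ by omega)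
  have ht := hB u hu v hv t t1 (by omega)
  have t3 := X.d_tri t u q
  have t4 := d_lip t1 q
  have t5 := clique (q := q) t1 a1 (by omega) a3
  rcases hQ1 v hv hv' t ht s hs t1 a1 t5 with h | h
  · have := hmin t ht h u hu hu'
    have := d_lip t5 p
    omega
  · have := hmin s h hs u hu hu'
    have := d_lip (X.symm t5) u
    omega

theorem trap {B C1 C2 : Set V} (hB : X.Conv B) (h1 : X.Conv C1) (h2 : X.Conv C2)
    (hQ1 : X.Corner B C1) (hQ2 : X.Corner B C2) (hP : X.Prop3 B C1 C2)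
    (hne1 : ∃ v ∈ B, v ∈ C1) (hne2 : ∃ v ∈ B, v ∈ C2) {p q : V} (hp : p ∈ C1) (hq : q ∈ C2)
    (hp' : ∀ p' ∈ C1, X.d p q ≤ X.d p' q) (hq' : ∀ q' ∈ C2, X.d q p ≤ X.d q' p) :
    (p ∈ B ∧ q ∈ B) ∨ ∃ s ∈ C1, X.r p s ∧ s ≠ p ∧ X.d s q = X.d p q ∧
      ∃ u ∈ C2, X.d u s < X.d p q := by
  classical
  have hex : ∃ n, ∃ v ∈ B, v ∈ C1 ∧ ∃ u ∈ B, u ∈ C2 ∧ X.d v p + X.d v u + X.d u q = n := by
    obtain ⟨v, a1, a2⟩ := hne1
    obtain ⟨u, a3, a4⟩ := hne2
    exact ⟨_, v, a1, a2, u, a3, a4, rfl⟩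
  obtain ⟨v, a1, a2, u, a3, a4, a5⟩ := Nat.find_spec hex
  have hmin : ∀ v' ∈ B, v' ∈ C1 → ∀ u' ∈ B, u' ∈ C2 →
      X.d v p + X.d v u + X.d u q ≤ X.d v' p + X.d v' u' + X.d u' q := fun v' a b u' c e =>
    a5 ▸ Nat.find_min' hex ⟨v', a, b, u', c, e, rfl⟩
  obtain ⟨v', b1, b2, b3⟩ := gate hB h1 hQ1 hne1 a3 hp
  obtain ⟨u', c1, c2, c3⟩ := gate hB h2 hQ2 hne2 a1 hq
  have e1 := hmin v' b1 b2 u a3 a4
  have e2 := hmin v a1 a2 u' c1 c2
  have s1 := X.d_comm v u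
  have s2 := X.d_comm v u'
  have s3 := X.d_comm q v
  have s4 := X.d_comm p u
  have s5 := X.d_comm p q
  have f1 := trap_aux hB h1 h2 hQ1 hP hp hq a1 a2 a3 a4
    hmin (by omega)
  have f2 := trap_aux hB h2 h1 hQ2 hP.symm hq hp a3 a4 a1 a2
    (fun w x y w' x' y' => by have := hmin w' x' y' w x y; have := X.d_comm w' w; omega)
    (by omega)
  have g1 := hp' v a2
  have g2 := hq' u a4
  have g3 := X.d_tri v u q
  have g4 := X.d_tri u v p
  by_cases c0 : X.d v p = 0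
  · left
    exact ⟨d_zero c0 ▸ a1, d_zero (X := X) (u := u) (v := q) (by omega) ▸ a3⟩
  right
  have s6 := X.d_comm v p
  obtain ⟨s, t1, t2⟩ := d_step (n := X.d p v - 1) (show X.d p v = _ by omega)
  have hs := h1 v a2 p hp s t1 (by omega)
  refine ⟨s, hs, t1, by rintro rfl; omega, ?_, u, a4, ?_⟩
  · have g5 := hp' s hs
    have g6 := d_lip (X.symm t1) q
    by_contra hn
    obtain ⟨s2, k1, k2, k3⟩ := desc (X := X) q v _ s rfl (by omega)
    have := d_lip (clique (q := q) (X.symm t1) k1 (by omega) k3) v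
    omega
  · have := X.d_tri u v s
    have := X.d_comm v s
    omega

theorem trap0 {B C1 C2 : Set V} (hB : X.Conv B) (h1 : X.Conv C1) (h2 : X.Conv C2)
    (hQ1 : X.Corner B C1) (hQ2 : X.Corner B C2) (hP : X.Prop3 B C1 C2)
    (hne1 : ∃ v ∈ B, v ∈ C1) (hne2 : ∃ v ∈ B, v ∈ C2) {p : V} (hp : p ∈ C1) (hq : p ∈ C2) :
    p ∈ B := by
  rcases trap hB h1 h2 hQ1 hQ2 hP hne1 hne2 hp hq (by simp [d_self]) (by simp [d_self]) with
    h | ⟨s, -, -, -, -, u, -, h⟩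
  · exact h.1
  · rw [d_self] at h; omega

theorem exists_closest {C1 C2 : Set V} (h1 : C1.Nonempty) (h2 : C2.Nonempty) :
    ∃ p ∈ C1, ∃ q ∈ C2, ∀ p' ∈ C1, ∀ q' ∈ C2, X.d p q ≤ X.d p' q' := by
  classical
  have hex : ∃ n, ∃ p ∈ C1, ∃ q ∈ C2, X.d p q = n := by
    obtain ⟨p, hp⟩ := h1
    obtain ⟨q, hq⟩ := h2
    exact ⟨_, p, hp, q, hq, rfl⟩
  obtain ⟨p, a1, q, a2, a3⟩ := Nat.find_spec hex
  exact ⟨p, a1, q, a2, fun p' b1 q' b2 => a3 ▸ Nat.find_min' hex ⟨p', b1, q', b2, rfl⟩⟩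

theorem trap_min {B C1 C2 : Set V} (hB : X.Conv B) (h1 : X.Conv C1) (h2 : X.Conv C2)
    (hQ1 : X.Corner B C1) (hQ2 : X.Corner B C2) (hP : X.Prop3 B C1 C2)
    (hne1 : ∃ v ∈ B, v ∈ C1) (hne2 : ∃ v ∈ B, v ∈ C2) {p q : V} (hp : p ∈ C1) (hq : q ∈ C2)
    (hm : ∀ p' ∈ C1, ∀ q' ∈ C2, X.d p q ≤ X.d p' q') : p ∈ B := by
  rcases trap hB h1 h2 hQ1 hQ2 hP hne1 hne2 hp hq (fun p' h => hm p' h q hq)
    (fun q' h => by rw [X.d_comm q, X.d_comm q']; exact hm p hp q' h) with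
    h | ⟨s, a, -, -, -, u, b, h⟩
  · exact h.1
  · have := hm s a u b
    rw [X.d_comm s] at this; omega

end TriSys

end Pool.Agent.Lib.MP_a1ec0a_al
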