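import Pool.Agent.Lib.MP_a1ec0a_al.Cosets
import Pool.Agent.Lib.MP_a1ec0a_al.Bridged

/-! The coset complex of a triangle of the Dynkin graph. -/

namespace Pool.Agent.Lib.MP_a1ec0a_al

variable {Γ : SimpleGraph ℕ} {U : Set ℕ} {x y z : ℕ}

def inT (x y z t : ℕ) : Prop := t = x ∨ t = y ∨ t = z

structure IsTri (Γ : SimpleGraph ℕ) (U : Set ℕ) (x y z : ℕ) : Prop where
  hx : x ∈ U
  hy : y ∈ U
  hz : z ∈ U
  xy : Γ.Adj x y
  yz : Γ.Adj y z
  xz : Γ.Adj x z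
  girth : ∀ t, inT x y z t → Girth Γ (U \ {t})

def Ok (U : Set ℕ) (x y z : ℕ) (p : Vx Γ) : Prop := inT x y z p.1 ∧ p.2 ∈ Par Γ U

def vSetoid (Γ : SimpleGraph ℕ) (U : Set ℕ) (x y z : ℕ) : Setoid {p : Vx Γ // Ok U x y z p} where
  r p q := p.1.1 = q.1.1 ∧ Mt U p.1 q.1
  iseqv := ⟨fun _ => ⟨rfl, Mt.refl _⟩, fun h => ⟨h.1.symm, h.2.symm⟩,
    fun h h' => ⟨h.1.trans h'.1, h.2.symm.trans_eq h.1.symm h'.2⟩⟩

def XV (Γ : SimpleGraph ℕ) (U : Set ℕ) (x y z : ℕ) := Quotient (vSetoid Γ U x y z)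

noncomputable def XV.o (v : XV Γ U x y z) : Vx Γ := (Quotient.out v).1

open Classical in
noncomputable def mkV (U : Set ℕ) (x y z : ℕ) (p : Vx Γ) : XV Γ U x y z :=
  if h : Ok U x y z p then Quotient.mk _ ⟨p, h⟩
  else Quotient.mk _ ⟨(x, 1), Or.inl rfl, one_mem _⟩

theorem XV.ok (v : XV Γ U x y z) : Ok U x y z v.o := (Quotient.out v).2

theorem mkV_spec {p : Vx Γ} (h : Ok U x y z p) :
    (mkV U x y z p).o.1 = p.1 ∧ Mt U (mkV U x y z p).o p := by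
  rw [mkV, dif_pos h]
  exact Quotient.mk_out (s := vSetoid Γ U x y z) ⟨p, h⟩

theorem XV.eq {u v : XV Γ U x y z} (e : u.o.1 = v.o.1) (h : Mt U u.o v.o) : u = v := by
  rw [← Quotient.out_eq u, ← Quotient.out_eq v]
  exact Quotient.sound ⟨e, h⟩

attribute [irreducible] XV.o mkV

theorem mt_mkV {p : Vx Γ} (h : Ok U x y z p) (q : Vx Γ) :
    Mt U (mkV U x y z p).o q ↔ Mt U p q :=
  ⟨fun h' => (mkV_spec h).2.trans_eq (mkV_spec h).1 h',
    fun h' => (mkV_spec h).2.symm.trans_eq (mkV_spec h).1.symm h'⟩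

theorem mt_mkV' {p : Vx Γ} (h : Ok U x y z p) (q : Vx Γ) :
    Mt U q (mkV U x y z p).o ↔ Mt U q p :=
  ⟨fun h' => ((mt_mkV h q).1 h'.symm).symm, fun h' => ((mt_mkV h q).2 h'.symm).symm⟩

theorem in_mkV {p : Vx Γ} (h : Ok U x y z p) (g : AG Γ) :
    In U (mkV U x y z p).o g ↔ In U p g :=
  ⟨(mkV_spec h).2.in_of (mkV_spec h).1, (mkV_spec h).2.symm.in_of (mkV_spec h).1.symm⟩

theorem In.par {p : Vx Γ} (h : p.2 ∈ Par Γ U) {g : AG Γ} (hg : In U p g) : g ∈ Par Γ U := by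
  have := mul_mem h (Par_mono Set.sdiff_subset hg)
  simpa using this

theorem mkV_eq {v : XV Γ U x y z} {g : AG Γ} (h : In U v.o g) : mkV U x y z (v.o.1, g) = v := by
  have : Ok U x y z (v.o.1, g) := ⟨v.ok.1, h.par v.ok.2⟩
  exact XV.eq (mkV_spec this).1 ((mt_mkV this _).2 (h.mt _).symm)

def tpN (x y t : ℕ) : ℤ := if t = x then 0 else if t = y then 1 else 2

theorem IsTri.tp_eq (h : IsTri Γ U x y z) {s t : ℕ} (hs : inT x y z s) (ht : inT x y z t)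
    (e : (tpN x y s - tpN x y t) % 3 = 0) : s = t := by
  have := h.xy.ne; have := h.yz.ne; have := h.xz.ne
  unfold tpN at e
  rcases hs with rfl | rfl | rfl <;> rcases ht with rfl | rfl | rfl <;> simp_all <;>
    split_ifs at e <;> simp_all

theorem IsTri.adj (h : IsTri Γ U x y z) {s t : ℕ} (hs : inT x y z s) (ht : inT x y z t)
    (e : s ≠ t) : Γ.Adj s t := by
  have := h.xy; have := h.yz; have := h.xz
  have := h.xy.symm; have := h.yz.symm; have := h.xz.symm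
  rcases hs with rfl | rfl | rfl <;> rcases ht with rfl | rfl | rfl <;> simp_all

theorem IsTri.avoid (h : IsTri Γ U x y z) (s s' : ℕ) : ∃ t, inT x y z t ∧ s ≠ t ∧ s' ≠ t := by
  have := h.xy.ne; have := h.yz.ne; have := h.xz.ne
  unfold inT
  by_cases c1 : s ≠ x ∧ s' ≠ x
  · exact ⟨x, by simp, c1⟩
  by_cases c2 : s ≠ y ∧ s' ≠ y
  · exact ⟨y, by simp, c2⟩
  exact ⟨z, by simp, by omega, by omega⟩

theorem In.mul_s {p : Vx Γ} {g k : AG Γ} {s : ℕ} (hg : In U p g) (hs : s ∈ U) (hne : s ≠ p.1)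
    (hk : k ∈ Par Γ {s}) : In U p (g * k) :=
  hg.mul' (Par_mono (Set.singleton_subset_iff.2 (And.intro hs hne)) hk)

theorem dd_sub (h : IsTri Γ U x y z) {J : Set ℕ} (hJ : J ⊆ U) {g : AG Γ} (hg : g ∈ Par Γ U)
    (Y : Set (XV Γ U x y z)) (hY : ∀ k ∈ Par Γ J, ∀ v : XV Γ U x y z, In U v.o (g * k) → v ∈ Y)
    {k : AG Γ} (hk : k ∈ Par Γ J) : ∀ u v : XV Γ U x y z, In U u.o (g * k) → In U v.o g →
      ∃ n, DD (fun a b => Mt U a.o b.o ∧ b ∈ Y) n u v := by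
  have step : ∀ k ∈ Par Γ J, ∀ s ∈ J, ∀ e ∈ Par Γ {s}, (∀ u v : XV Γ U x y z,
      In U u.o (g * k) → In U v.o g → ∃ n, DD (fun a b => Mt U a.o b.o ∧ b ∈ Y) n u v) →
      ∀ u v : XV Γ U x y z, In U u.o (g * (k * e)) → In U v.o g →
      ∃ n, DD (fun a b => Mt U a.o b.o ∧ b ∈ Y) n u v := by
    intro k hk s hs e he ih u v hu hv
    obtain ⟨t, t1, t2, -⟩ := h.avoid s s
    have ok : Ok U x y z (t, g * k) := ⟨t1, mul_mem hg (Par_mono hJ hk)⟩
    have i1 : In U (mkV U x y z (t, g * k)).o (g * k) := (in_mkV ok _).2 (In.self _)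
    obtain ⟨n, hn⟩ := ih _ v i1 hv
    have i2 : In U (mkV U x y z (t, g * k)).o (g * (k * e)) := by
      rw [in_mkV ok, ← mul_assoc]
      exact (In.self (U := U) (t, g * k)).mul_s (hJ hs) t2 he
    have i3 : Mt U u.o (mkV U x y z (t, g * k)).o := ⟨_, hu, i2⟩
    generalize mkV U x y z (t, g * k) = m at *
    exact ⟨n + 1, DD.succ (v' := m) ⟨i3, hY k hk _ i1⟩ hn⟩
  refine Par_ind (p := fun k => ∀ u v : XV Γ U x y z, In U u.o (g * k) → In U v.o g →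
      ∃ n, DD (fun a b => Mt U a.o b.o ∧ b ∈ Y) n u v) ?_ ?_ ?_ hk
  · intro u v hu hv
    have h1 := hY 1 (one_mem _) v (by rwa [mul_one])
    rw [mul_one] at hu
    exact ⟨1, DD.succ (n := 0) (v' := v) (And.intro (Exists.intro g ⟨hu, hv⟩) h1) (DD.zero v)⟩
  · intro k hk s hs ih
    exact step k hk s hs (gen Γ s) (gen_mem (Set.mem_singleton s)) ih
  · intro k hk s hs ih
    exact step k hk s hs (gen Γ s)⁻¹ (inv_mem (gen_mem (Set.mem_singleton s))) ih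

section SC

variable {E : Type} {base : E → XV Γ U x y z} {ψ : XV Γ U x y z → E → E}

structure LocSys (base : E → XV Γ U x y z) (ψ : XV Γ U x y z → E → E) : Prop where
  h1 : ∀ v e, Mt U (base e).o v.o → base (ψ v e) = v
  h2 : ∀ e, ψ (base e) e = e
  h3 : ∀ e v' v'', Mt U (base e).o v'.o → Mt U v'.o v''.o → Mt U (base e).o v''.o →
    ψ v'' (ψ v' e) = ψ v'' e

def TotS (base : E → XV Γ U x y z) :=
  {p : AG Γ × E // p.1 ∈ Par Γ U ∧ In U (base p.2).o p.1 ∧ (base p.2).o.1 = x}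

theorem okx {g : AG Γ} (hg : g ∈ Par Γ U) : Ok U x y z (x, g) := ⟨Or.inl rfl, hg⟩

/-- Transport from a vertex to a chamber containing it. -/
noncomputable def FF (L : LocSys base ψ) (e : E) (g : AG Γ) (hg : In U (base e).o g) :
    TotS base :=
  ⟨(g, ψ (mkV U x y z (x, g)) e), hg.par (base e).ok.2, by
    have ok := okx (x := x) (y := y) (z := z) (hg.par (base e).ok.2)
    rw [L.h1 _ _ ((mt_mkV' ok _).2 (hg.mt _))]
    exact ⟨(in_mkV ok _).2 (In.self _), (mkV_spec ok).1⟩⟩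

theorem LocSys.back (L : LocSys base ψ) {v : XV Γ U x y z} {e : E} (h : Mt U (base e).o v.o) :
    ψ (base e) (ψ v e) = e := by
  rw [L.h3 e v _ h h.symm (Mt.refl _), L.h2]

theorem FF_of (L : LocSys base ψ) (p : TotS base) {c : XV Γ U x y z} (hc : In U c.o p.1.1) :
    ∃ h : In U (base (ψ c p.1.2)).o p.1.1, p = FF L (ψ c p.1.2) p.1.1 h := by
  have m : Mt U (base p.1.2).o c.o := ⟨_, p.2.2.1, hc⟩
  refine ⟨by rw [L.h1 _ _ m]; exact hc, Subtype.ext (Prod.ext rfl ?_)⟩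
  change p.1.2 = ψ (mkV U x y z (x, p.1.1)) _
  have := mkV_eq p.2.2.1
  rw [p.2.2.2] at this
  rw [this, L.back m]

theorem IsTri.ok_avoid (h : IsTri Γ U x y z) (s : ℕ) {g : AG Γ} (hg : g ∈ Par Γ U) :
    Ok U x y z ((h.avoid s s).choose, g) := ⟨(h.avoid s s).choose_spec.1, hg⟩

noncomputable def mvS (h : IsTri Γ U x y z) (L : LocSys base ψ) {s : ℕ} (hs : s ∈ U)
    (k : AG Γ) (hk : k ∈ Par Γ {s}) (p : TotS base) : TotS base :=
  FF L (ψ (mkV U x y z ((h.avoid s s).choose, p.1.1)) p.1.2) (p.1.1 * k) (by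
    have ok := h.ok_avoid s p.2.1
    rw [L.h1 _ _ ((mt_mkV' ok _).2 (p.2.2.1.mt _)), in_mkV ok]
    exact (In.self (U := U) (_, p.1.1)).mul_s hs (h.avoid s s).choose_spec.2.1 hk)

theorem mvS_FF (h : IsTri Γ U x y z) (L : LocSys base ψ) {s : ℕ} (hs : s ∈ U)
    (k : AG Γ) (hk : k ∈ Par Γ {s}) (e : E) (g : AG Γ) (hg : In U (base e).o g)
    (hg' : In U (base e).o (g * k)) : mvS h L hs k hk (FF L e g hg) = FF L e (g * k) hg' := by
  have hp := hg.par (base e).ok.2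
  have ok := h.ok_avoid s hp
  have ok1 := okx (x := x) (y := y) (z := z) hp
  have ok2 := okx (x := x) (y := y) (z := z) (hg'.par (base e).ok.2)
  refine Subtype.ext (Prod.ext rfl ?_)
  change ψ (mkV U x y z (x, g * k)) (ψ (mkV U x y z (_, g)) (ψ (mkV U x y z (x, g)) e)) =
    ψ (mkV U x y z (x, g * k)) e
  rw [L.h3 e _ _ ((mt_mkV' ok1 _).2 (hg.mt _)) ((mt_mkV ok1 _).2 ((mt_mkV' ok _).2
    ((In.self _).mt _))) ((mt_mkV' ok _).2 (hg.mt _))]
  refine L.h3 e _ _ ((mt_mkV' ok _).2 (hg.mt _)) ((mt_mkV ok _).2 ((mt_mkV' ok2 _).2 (In.mt ?_ _)))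
    ((mt_mkV' ok2 _).2 (hg'.mt _))
  exact (In.self (U := U) (_, g)).mul_s hs (h.avoid s s).choose_spec.2.1 hk

theorem FF_congr (L : LocSys base ψ) (e : E) {g g' : AG Γ} (hg : In U (base e).o g) (h : g = g') :
    FF L e g hg = FF L e g' (h ▸ hg) := by subst h; rfl

theorem exists_FF (h : IsTri Γ U x y z) (L : LocSys base ψ) (p : TotS base) (s s' : ℕ) :
    ∃ (e : E) (g : AG Γ) (hg : In U (base e).o g), p = FF L e g hg ∧
      s ≠ (base e).o.1 ∧ s' ≠ (base e).o.1 := by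
  obtain ⟨t, t1, t2, t3⟩ := h.avoid s s'
  have ok : Ok U x y z (t, p.1.1) := ⟨t1, p.2.1⟩
  obtain ⟨h1, h2⟩ := FF_of L p ((in_mkV ok _).2 (In.self _))
  refine ⟨_, _, h1, h2, ?_⟩
  rw [L.h1 _ _ ((mt_mkV' ok _).2 (p.2.2.1.mt _)), (mkV_spec ok).1]
  exact ⟨t2, t3⟩

theorem mvS_inv (h : IsTri Γ U x y z) (L : LocSys base ψ) {s : ℕ} (hs : s ∈ U)
    (k k' : AG Γ) (hk : k ∈ Par Γ {s}) (hk' : k' ∈ Par Γ {s}) (e : k * k' = 1) (p : TotS base) :
    mvS h L hs k' hk' (mvS h L hs k hk p) = p := by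
  obtain ⟨e, g, hg, rfl, h1, -⟩ := exists_FF h L p s s
  rw [mvS_FF h L hs k hk e g hg (hg.mul_s hs h1 hk),
    mvS_FF h L hs k' hk' e _ _ ((hg.mul_s hs h1 hk).mul_s hs h1 hk')]
  exact FF_congr _ _ _ (by rw [mul_assoc, ‹k * k' = 1›, mul_one])

open Classical in
noncomputable def kapS (h : IsTri Γ U x y z) (L : LocSys base ψ) (s : ℕ) :
    (Equiv.Perm (TotS base))ᵐᵒᵖ :=
  if hs : s ∈ U then MulOpposite.op
    { toFun := mvS h L hs (gen Γ s) (gen_mem rfl)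
      invFun := mvS h L hs (gen Γ s)⁻¹ (inv_mem (gen_mem rfl))
      left_inv := mvS_inv h L hs _ _ _ _ (mul_inv_cancel _)
      right_inv := mvS_inv h L hs _ _ _ _ (inv_mul_cancel _) }
  else 1

theorem kapS_FF (h : IsTri Γ U x y z) (L : LocSys base ψ) {s : ℕ} (hs : s ∈ U) (e : E)
    (g : AG Γ) (hg : In U (base e).o g) (hne : s ≠ (base e).o.1) :
    (kapS h L s).unop (FF L e g hg) = FF L e (g * gen Γ s) (hg.mul_s hs hne (gen_mem rfl)) := by
  rw [kapS, dif_pos hs]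
  exact mvS_FF h L hs _ (gen_mem rfl) e g hg _

theorem kapS_FF' (h : IsTri Γ U x y z) (L : LocSys base ψ) {s : ℕ} (hs : s ∈ U) (e : E)
    (g : AG Γ) (hg : In U (base e).o g) (hne : s ≠ (base e).o.1) :
    ((kapS h L s)⁻¹).unop (FF L e g hg) =
      FF L e (g * (gen Γ s)⁻¹) (hg.mul_s hs hne (inv_mem (gen_mem rfl))) := by
  rw [kapS, dif_pos hs]
  exact mvS_FF h L hs _ (inv_mem (gen_mem rfl)) e g hg _

theorem kapS_rel (h : IsTri Γ U x y z) (L : LocSys base ψ) : ArtRel Γ U (kapS h L) := by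
  intro s hs t ht
  constructor <;> intro ha <;> apply MulOpposite.unop_injective <;> ext1 p <;>
    obtain ⟨e, g, hg, rfl, h1, h2⟩ := exists_FF h L p s t <;>
    simp only [MulOpposite.unop_mul, Equiv.Perm.mul_apply]
  · rw [kapS_FF h L hs _ _ _ h1, kapS_FF h L ht _ _ _ h2, kapS_FF h L hs _ _ _ h1,
      kapS_FF h L ht _ _ _ h2, kapS_FF h L hs _ _ _ h1, kapS_FF h L ht _ _ _ h2]
    refine FF_congr _ _ _ ?_
    have := (gen_rel (Γ := Γ) U s hs t ht).1 ha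
    simp only [mul_assoc] at this ⊢
    rw [this]
  · rw [kapS_FF h L hs _ _ _ h1, kapS_FF h L ht _ _ _ h2, kapS_FF h L ht _ _ _ h2,
      kapS_FF h L hs _ _ _ h1]
    refine FF_congr _ _ _ ?_
    have := (gen_rel (Γ := Γ) U s hs t ht).2 ha
    simp only [mul_assoc] at this ⊢
    rw [this]

theorem val_FF (h : IsTri Γ U x y z) (L : LocSys base ψ) (e : E) (g : AG Γ)
    (hg : In U (base e).o g) {k : AG Γ} (hk : k ∈ Par Γ (U \ {(base e).o.1})) :
    ∀ hg', (val (kapS_rel h L) k).unop (FF L e g hg) = FF L e (g * k) hg' := by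
  refine Par_ind (p := fun k => ∀ hg', (val (kapS_rel h L) k).unop (FF L e g hg) =
    FF L e (g * k) hg') (fun _ => ?_) (fun k hk s hs ih _ => ?_) (fun k hk s hs ih _ => ?_) hk
  · rw [val_one]; exact FF_congr _ _ hg (mul_one _).symm
  · rw [val_mul _ (Par_mono Set.sdiff_subset hk), val_gen _ hs.1, MulOpposite.unop_mul,
      Equiv.Perm.mul_apply, ih (hg.mul' hk), kapS_FF h L hs.1 _ _ _ hs.2]
    exact FF_congr _ _ _ (mul_assoc _ _ _)
  · rw [val_mul _ (Par_mono Set.sdiff_subset hk), val_inv _ (gen_mem hs.1), val_gen _ hs.1,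
      MulOpposite.unop_mul, Equiv.Perm.mul_apply, ih (hg.mul' hk), kapS_FF' h L hs.1 _ _ _ hs.2]
    exact FF_congr _ _ _ (mul_assoc _ _ _)

theorem val_fst (h : IsTri Γ U x y z) (L : LocSys base ψ) (p : TotS base) {k : AG Γ}
    (hk : k ∈ Par Γ U) : ((val (kapS_rel h L) k).unop p).1.1 = p.1.1 * k := by
  refine Par_ind (p := fun k => ((val (kapS_rel h L) k).unop p).1.1 = p.1.1 * k) ?_
    (fun k hk s hs ih => ?_) (fun k hk s hs ih => ?_) hk
  · simp [val_one]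
  · rw [val_mul _ hk, val_gen _ hs, MulOpposite.unop_mul, Equiv.Perm.mul_apply, kapS, dif_pos hs,
      ← mul_assoc, ← ih]
    rfl
  · rw [val_mul _ hk, val_inv _ (gen_mem hs), val_gen _ hs, MulOpposite.unop_mul,
      Equiv.Perm.mul_apply, kapS, dif_pos hs, ← mul_assoc, ← ih]
    rfl

theorem IsTri.sc (h : IsTri Γ U x y z) (L : LocSys base ψ) (e0 : E) :
    ∃ σ : XV Γ U x y z → E, σ (base e0) = e0 ∧ (∀ v, base (σ v) = v) ∧
      ∀ v v', Mt U v.o v'.o → ψ v' (σ v) = σ v' := by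
  have hp := (base e0).ok.2
  let S : AG Γ → TotS base := fun g =>
    (val (kapS_rel h L) ((base e0).o.2⁻¹ * g)).unop (FF L e0 _ (In.self _))
  have S1 : ∀ g ∈ Par Γ U, (S g).1.1 = g := fun g hg => by
    rw [val_fst h L _ (mul_mem (inv_mem hp) hg)]
    simp [FF]
  have S2 : ∀ {v : XV Γ U x y z} {g}, In U v.o g → Mt U (base (S g).1.2).o v.o := by
    intro v g hg
    have := (S g).2.2.1
    rw [S1 g (hg.par v.ok.2)] at this
    exact ⟨g, this, hg⟩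
  have S3 : ∀ {v : XV Γ U x y z} {g g'}, In U v.o g → In U v.o g' →
      ψ v (S g').1.2 = ψ v (S g).1.2 := by
    intro v g g' hg hg'
    have hgp := hg.par v.ok.2
    obtain ⟨a1, a2⟩ := FF_of L (S g) (c := v) (by rw [S1 g hgp]; exact hg)
    have e1 : S g' = (val (kapS_rel h L) (g⁻¹ * g')).unop (S g) := by
      simp only [S]
      rw [← Equiv.Perm.mul_apply, ← MulOpposite.unop_mul,
        ← val_mul _ (mul_mem (inv_mem hp) hgp)]
      congr 3; group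
    have b1 := L.h1 _ _ (S2 hg)
    have b2 : In U (base (ψ v (S g).1.2)).o ((S g).1.1 * (g⁻¹ * g')) := by
      rw [b1, S1 g hgp]; simpa using hg'
    rw [a2, val_FF h L _ _ a1 (by rw [b1]; exact hg.div hg') b2] at e1
    have e2 : (S g').1.2 = ψ (mkV U x y z (x, (S g).1.1 * (g⁻¹ * g'))) (ψ v (S g).1.2) := by
      rw [e1]; rfl
    have := L.back (e := ψ v (S g).1.2) (v := mkV U x y z (x, (S g).1.1 * (g⁻¹ * g')))
      ((mt_mkV' (okx (b2.par (XV.ok _).2)) _).2 (b2.mt _))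
    rw [b1] at this
    rw [e2, this]
  refine ⟨fun v => ψ v (S v.o.2).1.2, ?_, fun v => L.h1 _ _ (S2 (In.self _)), ?_⟩
  · simp only [S, inv_mul_cancel, val_one]
    exact L.back ((mt_mkV' (okx hp) _).2 ((In.self _).mt _))
  · rintro v v' ⟨g, a, b⟩
    simp only
    rw [S3 a (In.self _), S3 b (In.self _)]
    exact L.h3 _ _ _ (S2 a) ⟨g, a, b⟩ (S2 b)

end SC

noncomputable def IsTri.sys (h : IsTri Γ U x y z) : TriSys (XV Γ U x y z) where
  r u v := Mt U u.o v.o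
  tp v := tpN x y v.o.1
  refl _ := Mt.refl _
  symm := Mt.symm
  eq_of h1 h2 := XV.eq (h.tp_eq (XV.ok _).1 (XV.ok _).1 h2) h1
  l6 := by
    intro v a a' m m' h1 h2 h3 h4 h5 h6 h7 h8 h9 h10 h11 h12
    have e1 := h.tp_eq a.ok.1 a'.ok.1 (by omega)
    have e2 := h.tp_eq m.ok.1 m'.ok.1 (by omega)
    have e3 : a.o.1 ≠ m.o.1 := fun e => by rw [e] at h5; omega
    exact (LP (h.girth _ v.ok.1) h1 h2 h3 h4 e1 (h.adj a.ok.1 m.ok.1 e3) h9 h11 h10 h12).imp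
      (XV.eq e1) (XV.eq e2)
  sc _ _ _ h1 h2 h3 e0 := h.sc ⟨h1, h2, h3⟩ e0
  conn u v := by
    obtain ⟨n, hn⟩ := dd_sub h le_rfl v.ok.2 Set.univ (fun _ _ _ _ => trivial)
      (mul_mem (inv_mem v.ok.2) u.ok.2) u v (by simpa using In.self _) (In.self _)
    refine ⟨n, ?_⟩
    induction hn with
    | zero v => exact DD.zero v
    | succ h1 _ ih => exact DD.succ h1.1 ih

/-- The shadow of a coset. -/
def Sh (U : Set ℕ) (x y z : ℕ) (u : Vx Γ) : Set (XV Γ U x y z) := {v | Mt U u v.o}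

theorem IsTri.adj' (h : IsTri Γ U x y z) {u v : XV Γ U x y z} (h1 : Mt U u.o v.o) (h2 : u ≠ v) :
    Γ.Adj u.o.1 v.o.1 := h.adj u.ok.1 v.ok.1 fun e => h2 (XV.eq e h1)

theorem IsTri.conv (h : IsTri Γ U x y z) (u : Vx Γ) : h.sys.Conv (Sh U x y z u) := by
  refine TriSys.conv_of_local ?_ ?_
  · rintro p ⟨g, a, b⟩ q ⟨g', a', b'⟩
    exact dd_sub h Set.sdiff_subset (b.par p.ok.2) _ (fun k hk v hv => Exists.intro _ ⟨a.mul' hk, hv⟩)
      (a.div a') q p (by simpa using b') b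
  · intro p hp m hm q hq m' h1 h2 h3 h4 h5 h6
    by_cases e : m = m'
    · rwa [← e]
    have e1 : p ≠ m := by rintro rfl; exact h3 h2
    have e2 : m ≠ q := by rintro rfl; exact h3 h1
    have e3 : p ≠ m' := by rintro rfl; exact h3 h5
    have e4 : m' ≠ q := by rintro rfl; exact h3 h4
    have t1 := TriSys.tp_cases h1 e1
    have t2 := TriSys.tp_cases h2 e2
    have t3 := TriSys.tp_cases h4 e3
    have t4 := TriSys.tp_cases h5 e4
    have t5 := TriSys.tp_cases h6 e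
    have e5 : p.o.1 = q.o.1 := h.tp_eq p.ok.1 q.ok.1 (by
      change (h.sys.tp p - h.sys.tp q) % 3 = 0; omega)
    exact ((LP (h.girth _ m.ok.1) h1.symm h2 h6 hm.symm e5 (h.adj' h4 e3) h4 h5.symm
      hp.symm hq.symm).resolve_left h3).symm

theorem IsTri.corner (h : IsTri Γ U x y z) {b c : Vx Γ} (hbc : Mt U b c) :
    h.sys.Corner (Sh U x y z b) (Sh U x y z c) := by
  intro v h1 h2 s h3 t h4 h5 h6 h7
  by_cases e : s = t
  · left; rwa [e]
  exact (LQ (h.girth _ v.ok.1) h1.symm h2.symm h6 h5 (h.adj' h7 e) hbc h4 h7.symm h3.symm).imp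
    Mt.symm Mt.symm

theorem IsTri.prop3 (h : IsTri Γ U x y z) {b c1 c2 : Vx Γ} (e : c1.1 = c2.1)
    (hne : ¬ Mt U c1 c2) (ha : Γ.Adj c1.1 b.1) (h1 : Mt U b c1) (h2 : Mt U b c2) :
    h.sys.Prop3 (Sh U x y z b) (Sh U x y z c1) (Sh U x y z c2) := by
  intro v a1 a2 a3 v' a4 a5 a6
  exact (LP (h.girth _ v.ok.1) a2.symm a3.symm a1.symm a6 e ha h1.symm h2.symm a4 a5).resolve_left
    hne

def InP (U : Set ℕ) (u : Vx Γ) : Prop := ∃ g ∈ Par Γ U, In U u g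

theorem InP.par {u : Vx Γ} (h : InP U u) {g : AG Γ} (hg : In U u g) : g ∈ Par Γ U := by
  obtain ⟨k, a, b⟩ := h
  have := mul_mem a (Par_mono Set.sdiff_subset (b.div hg))
  simpa using this

theorem InP.mt {u v : Vx Γ} (h : InP U u) (h' : Mt U u v) : InP U v :=
  let ⟨g, a, b⟩ := h'; ⟨g, h.par a, b⟩

theorem InP.of_par {u : Vx Γ} (h : u.2 ∈ Par Γ U) : InP U u := ⟨_, h, In.self _⟩

theorem sh_ne {b c : Vx Γ} (hb : InP U b) (hbc : Mt U b c) :
    ∃ v ∈ Sh U x y z b, v ∈ Sh U x y z c := by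
  obtain ⟨g, a, a'⟩ := hbc
  have ok := okx (x := x) (y := y) (z := z) (hb.par a)
  exact ⟨mkV U x y z (x, g), (mt_mkV' ok _).2 (a.mt _), (mt_mkV' ok _).2 (a'.mt _)⟩

theorem IsTri.girth_top (h : IsTri Γ U x y z) : Girth Γ U := by
  intro b _ c _ ha b2 c2 h12 h21 h22
  by_contra hn
  push Not at hn
  have h11 : Mt U (b, (1 : AG Γ)) (c, 1) := (In.self _).mt _
  have i1 : InP U (b, (1 : AG Γ)) := InP.of_par (one_mem _)
  have i2 : InP U (b, b2) := (i1.mt h11).mt h21.symm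
  have n11 := sh_ne (x := x) (y := y) (z := z) i1 h11
  have n12 := sh_ne (x := x) (y := y) (z := z) i1 h12
  have n21 := sh_ne (x := x) (y := y) (z := z) i2 h21
  have n22 := sh_ne (x := x) (y := y) (z := z) i2 h22
  obtain ⟨p, hp, q, hq, hm⟩ := TriSys.exists_closest (X := h.sys)
    (C1 := Sh U x y z (c, 1)) (C2 := Sh U x y z (c, c2))
    (let ⟨v, _, a⟩ := n11; ⟨v, a⟩) (let ⟨v, _, a⟩ := n12; ⟨v, a⟩)
  have p1 := TriSys.trap_min (h.conv _) (h.conv _) (h.conv _) (h.corner h11) (h.corner h12)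
    (h.prop3 rfl hn.2 ha.symm h11 h12) n11 n12 hp hq hm
  have p2 := TriSys.trap_min (h.conv _) (h.conv _) (h.conv _) (h.corner h21) (h.corner h22)
    (h.prop3 rfl hn.2 ha.symm h21 h22) n21 n22 hp hq hm
  have p3 := TriSys.trap0 (h.conv _) (h.conv _) (h.conv _) (h.corner h12.symm)
    (h.corner h22.symm) (h.prop3 rfl hn.1 ha h12.symm h22.symm)
    (let ⟨v, a, b⟩ := n12; ⟨v, b, a⟩) (let ⟨v, a, b⟩ := n22; ⟨v, b, a⟩) p1 p2
  rcases LP (h.girth _ p.ok.1) p1.symm p2.symm hp.symm p3.symm rfl ha h11 h21 h12 h22 with k | k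
  · exact hn.1 k
  · exact hn.2 k

end Pool.Agent.Lib.MP_a1ec0a_al
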