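import Pool.Agent.Lib.MP_a1ec0a_al.Model
import Pool.Agent.Lib.MP_a1ec0a_al.Triangle

/-! The base case: triangle-free claw-free Dynkin graphs. -/

namespace Pool.Agent.Lib.MP_a1ec0a_al

open FreeGroup (of mk lift)

variable {Γ : SimpleGraph ℕ}

def ev (Γ : SimpleGraph ℕ) (w : Wd) : AG Γ := evW (gen Γ) w

theorem ev_mem {U : Set ℕ} {w : Wd} (h : ∀ l ∈ w, l.1 ∈ U) : ev Γ w ∈ Par Γ U :=
  evW_mem fun l hl => gen_mem (h l hl)
@[simp] theorem ev_nil : ev Γ [] = 1 := evW_nil _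
@[simp] theorem ev_append (v w : Wd) : ev Γ (v ++ w) = ev Γ v * ev Γ w := evW_append _ _ _
@[simp] theorem ev_invRev (w : Wd) : ev Γ (FreeGroup.invRev w) = (ev Γ w)⁻¹ := evW_invRev _ _

theorem exists_word {U : Set ℕ} {g : AG Γ} (hg : g ∈ Par Γ U) :
    ∃ w : Wd, (∀ l ∈ w, l.1 ∈ U) ∧ ev Γ w = g := by
  refine Par_ind (p := fun g => ∃ w : Wd, (∀ l ∈ w, l.1 ∈ U) ∧ ev Γ w = g) ⟨[], by simp, by simp⟩
    ?_ ?_ hg
  · rintro _ _ s hs ⟨w, a, rfl⟩
    exact ⟨w ++ [(s, true)], by simpa [or_imp, forall_and, hs] using a, by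
      rw [ev_append, ev, ev, evW_true]; simp⟩
  · rintro _ _ s hs ⟨w, a, rfl⟩
    exact ⟨w ++ [(s, false)], by simpa [or_imp, forall_and, hs] using a, by
      rw [ev_append, ev, ev, evW_false]; simp⟩

theorem exists_word' (g : AG Γ) : ∃ w : Wd, ev Γ w = g :=
  let ⟨w, _, h⟩ := exists_word (Par_univ g); ⟨w, h⟩

theorem Par_comm {A B : Set ℕ} (h : ∀ a ∈ A, ∀ b ∈ B, ¬ Γ.Adj a b) {g r : AG Γ}
    (hg : g ∈ Par Γ A) (hr : r ∈ Par Γ B) : Commute g r := by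
  have : ∀ a ∈ A, Commute (gen Γ a) r := fun a ha =>
    Par_ind (p := fun r => Commute (gen Γ a) r) (Commute.one_right _)
      (fun g _ s hs ih => ih.mul_right ((gen_rel Set.univ a trivial s trivial).2 (h a ha s hs)))
      (fun g _ s hs ih => ih.mul_right (Commute.inv_right
        ((gen_rel Set.univ a trivial s trivial).2 (h a ha s hs)))) hr
  exact Par_ind (p := fun g => Commute g r) (Commute.one_left _)
    (fun g _ s hs ih => ih.mul_left (this s hs))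
    (fun g _ s hs ih => ih.mul_left (this s hs).inv_left) hg

theorem Par_dec {A J : Set ℕ} (h : ∀ a ∈ A, ∀ b ∈ J \ A, ¬ Γ.Adj a b) {g : AG Γ}
    (hg : g ∈ Par Γ J) : ∃ h ∈ Par Γ A, ∃ r ∈ Par Γ (J \ A), g = h * r := by
  have key : ∀ s ∈ J, ∀ k, (∀ Y, s ∈ Y → k ∈ Par Γ Y) → ∀ g,
      (∃ h ∈ Par Γ A, ∃ r ∈ Par Γ (J \ A), g = h * r) →
      ∃ h ∈ Par Γ A, ∃ r ∈ Par Γ (J \ A), g * k = h * r := by
    rintro s hs k hk _ ⟨x, hx, r, hr, rfl⟩
    by_cases c : s ∈ A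
    · exact ⟨x * k, mul_mem hx (hk _ c), r, hr, by
        rw [mul_assoc, mul_assoc, (Par_comm h (hk _ c) hr).eq]⟩
    · exact ⟨x, hx, r * k, mul_mem hr (hk _ ⟨hs, c⟩), mul_assoc _ _ _⟩
  exact Par_ind (p := fun g => ∃ h ∈ Par Γ A, ∃ r ∈ Par Γ (J \ A), g = h * r)
    ⟨1, one_mem _, 1, one_mem _, by simp⟩
    (fun g _ s hs ih => key s hs _ (fun Y hY => gen_mem hY) g ih)
    (fun g _ s hs ih => key s hs _ (fun Y hY => inv_mem (gen_mem hY)) g ih) hg

section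
variable {U : Set ℕ} {K : Type} [Group K] {κ : ℕ → K} (hκ : ArtRel Γ U κ)

theorem val_mem {J : Set ℕ} (hJ : J ⊆ U) {S : Subgroup K} (h : ∀ s ∈ J, κ s ∈ S) {g : AG Γ}
    (hg : g ∈ Par Γ J) : val hκ g ∈ S :=
  Par_ind (p := fun g => val hκ g ∈ S) (by rw [val_one]; exact one_mem _)
    (fun g hg s hs ih => by
      rw [val_mul _ (Par_mono hJ hg), val_gen _ (hJ hs)]; exact mul_mem ih (h s hs))
    (fun g hg s hs ih => by
      rw [val_mul _ (Par_mono hJ hg), val_inv _ (gen_mem (hJ hs)), val_gen _ (hJ hs)]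
      exact mul_mem ih (inv_mem (h s hs))) hg

theorem val_ev {w : Wd} (hw : ∀ l ∈ w, l.1 ∈ U) : val hκ (ev Γ w) = evW κ w := by
  induction w with
  | nil => simp [val_one]
  | cons l w ih =>
    obtain ⟨s, b⟩ := l
    have hs : s ∈ U := hw (s, b) (by simp)
    have := ih fun l hl => hw l (by simp [hl])
    cases b
    · rw [ev, evW_false, evW_false, val_mul _ (inv_mem (gen_mem hs)), val_inv _ (gen_mem hs),
        val_gen _ hs, ← this]; rfl
    · rw [ev, evW_true, evW_true, val_mul _ (gen_mem hs), val_gen _ hs, ← this]; rfl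

theorem ext_apply (g : Par Γ U) : ext hκ g = val hκ g.1 := rfl
end

def subW (tab : ℕ → Wd) (w : Wd) : Wd :=
  w.flatMap fun l => bif l.2 then tab l.1 else FreeGroup.invRev (tab l.1)

theorem evW_subW {K : Type} [Group K] (τ : ℕ → K) (tab : ℕ → Wd) (w : Wd) :
    evW τ (subW tab w) = evW (fun s => evW τ (tab s)) w := by
  induction w with
  | nil => simp [subW]
  | cons l w ih =>
    rw [evW_cons, ← ih, subW, List.flatMap_cons, evW_append]
    cases l.2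
    · simp [evW_invRev, subW]
    · simp [subW]

theorem len_subW {tab : ℕ → Wd} {C : ℕ} (h : ∀ s, (tab s).length ≤ C) (w : Wd) :
    (subW tab w).length ≤ C * w.length := by
  induction w with
  | nil => simp [subW]
  | cons l w ih =>
    rw [subW, List.flatMap_cons, List.length_append, List.length_cons, mul_add, ← subW]
    have := h l.1
    cases l.2 <;> simp <;> omega

noncomputable def gK (Γ : SimpleGraph ℕ) (U : Set ℕ) (s : ℕ) : Par Γ U :=
  ⟨piU U (gen Γ s), piU_mem' _⟩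

theorem gK_val {U : Set ℕ} {s : ℕ} (hs : s ∈ U) : (gK Γ U s).1 = gen Γ s := piU_self (gen_mem hs)

theorem memK {C : Set ℕ} {e : ℕ → ℕ} {lo hi : ℕ} (h : ∀ i, lo ≤ i → i < hi → e i ∈ C)
    (g : Par Γ C) : g ∈ Sub (fun i => gK Γ C (e i)) lo hi ↔ g.1 ∈ Par Γ (e '' Set.Ico lo hi) := by
  rw [← Subgroup.mem_map_iff_mem (Par Γ C).subtype_injective, Sub, MonoidHom.map_closure,
    Par_def (e '' _),
    Set.image_image, Set.image_image,
    Set.image_congr (f := fun i => (Par Γ C).subtype (gK Γ C (e i))) (g := fun i => gen Γ (e i))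
      fun i hi => gK_val (h i hi.1 hi.2)]
  rfl

theorem Ind.br {U C : Set ℕ} {cyc : Prop} {e : ℕ → ℕ} {m lo : ℕ} (h : Ind Γ U cyc e m)
    (hlo : cyc → 1 ≤ lo) (hC : ∀ i < m, e i ∈ C) : BR (fun i => gK Γ C (e i)) lo m := by
  constructor
  · intro i _ hi
    refine Subtype.ext ?_
    simp only [Subgroup.coe_mul, gK_val (hC i (by omega)), gK_val (hC _ hi)]
    exact (gen_rel Set.univ _ trivial _ trivial).1 ((h.adj _ (by omega) _ hi).2 (Or.inl rfl))
  · intro i j h0 h1 h2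
    refine Subtype.ext ?_
    simp only [Subgroup.coe_mul, gK_val (hC i (by omega)), gK_val (hC _ h2)]
    refine (gen_rel Set.univ _ trivial _ trivial).2 fun ha => ?_
    rcases (h.adj _ (by omega) _ h2).1 ha with a | a | ⟨a, b⟩
    · omega
    · omega
    · have := hlo a; omega

structure Mod {U : Set ℕ} {κ : ℕ → MulAut FG} (hκ : ArtRel Γ U κ) (b c lo m : ℕ) (e : ℕ → ℕ)
    (x0 : FG) (R : FG → FG → Prop) : Prop where
  lt : lo < m
  eb : e lo = b
  mem : ∀ i, lo ≤ i → i < m → e i ∈ U \ {c}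
  ne : ∀ i, lo < i → i < m → e i ≠ b
  sg : ∀ i, lo ≤ i → i < m → κ (e i) = sig i
  br : BR (fun i => gK Γ U (e i)) lo m
  nadj : ∀ a ∈ e '' Set.Ico lo m, ∀ s ∈ (U \ {c}) \ e '' Set.Ico lo m, ¬ Γ.Adj a s
  uniq : ∀ z s s', R z s → R z s' → s = s'
  norm : ∀ z s, R z s → s.norm ≤ 2 * (z.norm + m)
  nx0 : x0.norm ≤ m
  stab : ∀ g ∈ Par Γ U, val hκ g x0 = x0 → g ∈ Par Γ (U \ {c})
  key : ∀ h ∈ Par Γ (e '' Set.Ico lo m), ∀ β ∈ Par Γ (U \ {b}), ∀ η ∈ Par Γ (U \ {c}),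
    val hκ (h * β * η) x0 = x0 ∨ R (val hκ (h * β * η) x0) (val hκ h (of lo))

def BND (n l : ℕ) : ℕ := (n + 1) * (2 * (2 * (3 ^ ((2 * n + 3) * l) * n + n) + (n + 1)) + 1)

section Core
variable {U : Set ℕ} {κ : ℕ → MulAut FG} {hκ : ArtRel Γ U κ} {b c lo m : ℕ} {e : ℕ → ℕ}
  {x0 : FG} {R : FG → FG → Prop} (M : Mod hκ b c lo m e x0 R)
include M

theorem Mod.sub : e '' Set.Ico lo m ⊆ U \ {c} := by
  rintro _ ⟨i, hi, rfl⟩; exact M.mem i hi.1 hi.2

theorem Mod.subb : e '' Set.Ico (lo + 1) m ⊆ U \ {b} := by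
  rintro _ ⟨i, hi, rfl⟩; exact ⟨(M.mem i (by have := hi.1; omega) hi.2).1, M.ne i hi.1 hi.2⟩

theorem Mod.hf : ∀ i, lo ≤ i → i < m → ext hκ (gK Γ U (e i)) = sig i := fun i a b => by
  rw [ext_apply, gK_val (M.mem i a b).1, val_gen _ (M.mem i a b).1, M.sg i a b]

theorem Mod.dec {g h : AG Γ} (hg : g ∉ Par Γ (U \ {c})) (hh : h ∈ Par Γ (U \ {c}))
    (hm : Mt U (b, h) (c, g)) : ∃ h0 ∈ Par Γ (e '' Set.Ico lo m), h0⁻¹ * h ∈ Par Γ (U \ {b}) ∧
      R (val hκ g x0) (val hκ h0 (of lo)) := by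
  obtain ⟨h0, a1, r, a2, rfl⟩ := Par_dec M.nadj hh
  obtain ⟨x, b1, b2⟩ := hm
  have a3 : r ∈ Par Γ (U \ {b}) := Par_mono (fun s hs => And.intro hs.1.1 fun e' =>
    hs.2 ⟨lo, ⟨le_rfl, M.lt⟩, M.eb.trans (Eq.symm e')⟩) a2
  have e1 : g = h0 * (r * ((h0 * r)⁻¹ * x)) * (g⁻¹ * x)⁻¹ := by group
  refine ⟨h0, a1, by simpa using a3, ?_⟩
  have := M.key h0 a1 _ (mul_mem a3 b1) _ (inv_mem b2)
  rw [← e1] at this
  refine this.resolve_left fun e' => hg (M.stab g ?_ e')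
  rw [e1]
  exact mul_mem (mul_mem (Par_mono (M.sub.trans Set.sdiff_subset) a1)
    (Par_mono Set.sdiff_subset (mul_mem a3 b1))) (Par_mono Set.sdiff_subset (inv_mem b2))

theorem Mod.girth {b2 c2 : AG Γ} (h1 : Mt U (b, 1) (c, c2)) (h2 : Mt U (b, b2) (c, 1))
    (h3 : Mt U (b, b2) (c, c2)) : Mt U (b, 1) (b, b2) ∨ Mt U (c, 1) (c, c2) := by
  by_cases hg : c2 ∈ Par Γ (U \ {c})
  · exact Or.inr ⟨c2, by simpa [In] using hg, In.self _⟩
  left
  obtain ⟨x, a, a'⟩ := h2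
  obtain ⟨h0, b1, b2, b3⟩ := M.dec hg (one_mem _) h1
  obtain ⟨h0', c1, c2, c3⟩ := M.dec hg (h := x) (by simpa [In] using a')
    ((a.mt b).trans_eq rfl h3)
  have s1 := Par_mono (M.sub.trans Set.sdiff_subset) b1
  have s2 := Par_mono (M.sub.trans Set.sdiff_subset) c1
  have := stab_first M.br (ext hκ) M.hf (g := ⟨h0⁻¹ * h0', mul_mem (inv_mem s1) s2⟩)
    ((memK (fun i a b => (M.mem i a b).1) _).2 (mul_mem (inv_mem b1) c1)) M.lt (by
      rw [ext_apply, val_mul _ (inv_mem s1), val_inv _ s1, MulAut.mul_apply, ← M.uniq _ _ _ b3 c3]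
      simp)
  rw [memK fun i a b => (M.mem i (by omega) b).1] at this
  refine ⟨x, ?_, a⟩
  have := mul_mem (mul_mem (inv_mem b2) (Par_mono M.subb this)) c2
  simpa [In, mul_assoc] using this

theorem Mod.bound {tab : ℕ → Wd} (ht : ∀ s, κ s = evW sig (tab s)) {n : ℕ} (hn : m ≤ n)
    (hl : ∀ s, (tab s).length ≤ 2 * m + 3) {y : Wd} (hy : ∀ l ∈ y, l.1 ∈ U) {b2 : AG Γ}
    (h2 : Mt U (b, b2) (c, 1)) (h3 : Mt U (b, b2) (c, ev Γ y)) :
    ∃ w : Wd, (∀ l ∈ w, l.1 ∈ U \ {c}) ∧ w.length ≤ BND n y.length ∧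
      Mt U (b, ev Γ w) (c, ev Γ y) := by
  by_cases hg : ev Γ y ∈ Par Γ (U \ {c})
  · exact ⟨[], by simp, by simp, 1, by simp [In], by simpa [In] using hg⟩
  obtain ⟨x, a, a'⟩ := h2
  have h4 := (a.mt b).trans_eq rfl h3
  obtain ⟨h0, c1, c2, c3⟩ := M.dec hg (h := x) (by simpa [In] using a') h4
  have s2 := Par_mono (M.sub.trans Set.sdiff_subset) c1
  have n1 := M.norm _ _ c3
  rw [val_ev _ hy, evW_congr (τ' := fun s => evW sig (tab s)) fun l _ => ht l.1, ← evW_subW] at n1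
  have n2 := norm_evW (subW tab y) x0
  have n3 := len_subW hl y
  have n4 : 3 ^ (subW tab y).length * x0.norm ≤ 3 ^ ((2 * n + 3) * y.length) * n :=
    Nat.mul_le_mul (Nat.pow_le_pow_right (by omega)
      (n3.trans (Nat.mul_le_mul_right _ (by omega)))) (M.nx0.trans hn)
  obtain ⟨w, d1, d2, d3⟩ := short_word M.br (ext hκ) M.hf (g := ⟨h0, s2⟩)
    ((memK (fun i a b => (M.mem i a b).1) _).2 c1) M.lt
    (N := 2 * (3 ^ ((2 * n + 3) * y.length) * n + n)) (by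
      rw [ext_apply]; exact n1.trans (by omega))
  rw [memK fun i a b => (M.mem i (by omega) b).1] at d3
  refine ⟨w.map fun l => (e l.1, l.2), fun l hl => ?_, ?_, ?_⟩
  · obtain ⟨l', hl', rfl⟩ := List.mem_map.1 hl
    exact M.mem _ (d1 l' hl').1 (d1 l' hl').2
  · rw [List.length_map]
    exact d2.trans (Nat.mul_le_mul (by omega) (by omega))
  · have e1 : (evW (fun i => gK Γ U (e i)) w).1 = ev Γ (w.map fun l => (e l.1, l.2)) := by
      rw [ev, evW_map]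
      exact (map_evW _ (Par Γ U).subtype w).trans
        (evW_congr fun l hl => gK_val (M.mem _ (d1 l hl).1 (d1 l hl).2).1)
    rw [Subgroup.coe_mul, e1] at d3
    refine Mt.trans_eq (p := (b, x)) (In.mt ?_ b).symm rfl h4
    have := mul_mem (inv_mem (Par_mono M.subb d3)) c2
    simpa [In, mul_assoc] using this

end Core

def rhoW (m : ℕ) : Wd := (0, true) :: (0, true) :: (List.range' 1 (m - 1)).map fun i => (i, true)

theorem ev_rhoW (m : ℕ) : evW sig (rhoW m) = rho m := by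
  have : ∀ j lo, evW sig ((List.range' lo j).map fun i => (i, true)) = TT sig lo j := by
    intro j
    induction j with
    | zero => simp [TT]
    | succ j ih => intro lo; rw [TT_succ', List.range'_succ, List.map_cons, evW_true, ih]
  rw [rhoW, evW_true, evW_true, this, rho, sq, mul_assoc]

open Classical in
noncomputable def tab (cyc : Prop) (e : ℕ → ℕ) (m s : ℕ) : Wd :=
  if s ∈ e '' Set.Iio m then
    if cyc ∧ Function.invFunOn e (Set.Iio m) s = 0 then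
      rhoW m ++ (m - 1, true) :: FreeGroup.invRev (rhoW m)
    else [(Function.invFunOn e (Set.Iio m) s, true)]
  else []

noncomputable def kp (cyc : Prop) (e : ℕ → ℕ) (m s : ℕ) : MulAut FG := evW sig (tab cyc e m s)

theorem len_tab {cyc : Prop} {e : ℕ → ℕ} {m : ℕ} (hm : 0 < m) (s : ℕ) :
    (tab cyc e m s).length ≤ 2 * m + 3 := by
  unfold tab; split_ifs <;> simp [rhoW]; omega

theorem kp_out {cyc : Prop} {e : ℕ → ℕ} {m s : ℕ} (h : s ∉ e '' Set.Iio m) : kp cyc e m s = 1 := by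
  rw [kp, tab, if_neg h, evW_nil]

section Cmp
variable {U : Set ℕ} {cyc : Prop} {e : ℕ → ℕ} {m : ℕ}

theorem Ind.idx (h : Ind Γ U cyc e m) {i : ℕ} (hi : i < m) :
    Function.invFunOn e (Set.Iio m) (e i) = i :=
  Set.InjOn.leftInvOn_invFunOn (fun a ha b hb => h.inj a ha b hb) hi

theorem Ind.kp_sig (h : Ind Γ U cyc e m) {i : ℕ} (hi : i < m) (h0 : cyc → i ≠ 0) :
    kp cyc e m (e i) = sig i := by
  rw [kp, tab, if_pos ⟨i, hi, rfl⟩, h.idx hi, if_neg (fun a => h0 a.1 a.2), evW_true]; simp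

theorem Ind.kp_cyc (h : Ind Γ U True e m) {i : ℕ} (hi : i < m) : kp True e m (e i) = kap m i := by
  by_cases h0 : i = 0
  · rw [kp, tab, if_pos ⟨i, hi, rfl⟩, h.idx hi, if_pos ⟨trivial, h0⟩, evW_append, evW_true,
      evW_invRev, ev_rhoW, kap, if_pos h0, mul_assoc]
  · rw [h.kp_sig hi fun _ => h0, kap, if_neg h0]

theorem Comp.art (h : Comp Γ U cyc e m) (hm : cyc → 4 ≤ m) : ArtRel Γ U (kp cyc e m) := by
  intro s hs t ht
  by_cases c1 : s ∈ e '' Set.Iio m <;> by_cases c2 : t ∈ e '' Set.Iio m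
  · obtain ⟨i, hi, rfl⟩ := c1
    obtain ⟨j, hj, rfl⟩ := c2
    rw [h.adj i hi j hj]
    by_cases c : cyc
    · obtain rfl : cyc = True := by simpa using c
      rw [h.kp_cyc hi, h.kp_cyc hj]
      exact kap_prel (by have := hm trivial; omega) hi hj
    · rw [h.kp_sig hi (c · |>.elim), h.kp_sig hj (c · |>.elim)]
      simpa [pat, c, PRel] using sig_prel i j
  · obtain ⟨i, hi, rfl⟩ := c1
    rw [kp_out c2]
    exact ⟨fun a => absurd a.symm (h.closed t ht (fun j hj e' => c2 ⟨j, hj, e'⟩) i hi), by simp⟩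
  · obtain ⟨i, hi, rfl⟩ := c2
    rw [kp_out c1]
    exact ⟨fun a => absurd a (h.closed s hs (fun j hj e' => c1 ⟨j, hj, e'⟩) i hi), by simp⟩
  · simp [kp_out c1, kp_out c2]

theorem Comp.vmem (h : Comp Γ U cyc e m) (hm : cyc → 4 ≤ m) {J : Set ℕ} (hJ : J ⊆ U)
    {S : Subgroup (MulAut FG)} (hS : ∀ i < m, e i ∈ J → kp cyc e m (e i) ∈ S) {g : AG Γ}
    (hg : g ∈ Par Γ J) : val (h.art hm) g ∈ S := by
  refine val_mem _ hJ (fun s hs => ?_) hg
  by_cases c : s ∈ e '' Set.Iio m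
  · obtain ⟨i, hi, rfl⟩ := c; exact hS i hi hs
  · rw [kp_out c]; exact one_mem _

theorem Ind.sub (h : Ind Γ U cyc e m) (lo : ℕ) : e '' Set.Ico lo m ⊆ U := by
  rintro _ ⟨i, hi, rfl⟩; exact h.mem i hi.2

theorem Comp.dec (h : Comp Γ U cyc e m) (hm : cyc → 4 ≤ m) {g : AG Γ} (hg : g ∈ Par Γ U) :
    ∃ g0 ∈ Par Γ (e '' Set.Ico 0 m), ∃ r ∈ Par Γ (U \ e '' Set.Ico 0 m), g = g0 * r ∧
      val (h.art hm) g = val (h.art hm) g0 := by
  obtain ⟨g0, a, r, b, rfl⟩ := Par_dec (A := e '' Set.Ico 0 m) (by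
    rintro _ ⟨i, hi, rfl⟩ s hs ha
    exact h.closed s hs.1 (fun j hj e' => hs.2 ⟨j, ⟨j.zero_le, hj⟩, e'⟩) i hi.2 ha.symm) hg
  refine ⟨g0, a, r, b, rfl, ?_⟩
  rw [val_mul _ (Par_mono (h.sub 0) a), Subgroup.mem_bot.1 (h.vmem hm Set.sdiff_subset
    (fun i hi hs => (hs.2 (Set.mem_image_of_mem e (Set.mem_Ico.2 ⟨i.zero_le, hi⟩))).elim) b), mul_one]

theorem Comp.nadj (h : Comp Γ U cyc e m) {k : ℕ} (hk : k < m) (hc : cyc → k = 0) :
    ∀ a ∈ e '' Set.Ico (k + 1) m, ∀ s ∈ (U \ {e k}) \ e '' Set.Ico (k + 1) m, ¬ Γ.Adj a s := by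
  rintro _ ⟨i, hi, rfl⟩ s hs ha
  by_cases c : ∃ j < m, e j = s
  · obtain ⟨j, hj, rfl⟩ := c
    have a1 : j ≠ k := fun e' => hs.1.2 (by rw [e']; rfl)
    have a2 : ¬ k + 1 ≤ j := fun e' => hs.2 ⟨j, ⟨e', hj⟩, rfl⟩
    have := hi.1
    rcases (h.adj i hi.2 j hj).1 ha with b | b | ⟨b, -⟩
    · omega
    · omega
    · have := hc b; omega
  · exact h.closed s hs.1.1 (fun j hj e' => c ⟨j, hj, e'⟩) i hi.2 ha.symm

theorem Comp.hf (h : Comp Γ U cyc e m) (hm : cyc → 4 ≤ m) {lo : ℕ} (hlo : cyc → 1 ≤ lo) :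
    ∀ i, lo ≤ i → i < m → ext (h.art hm) (gK Γ U (e i)) = sig i := fun i a b => by
  rw [ext_apply, gK_val (h.mem i b), val_gen _ (h.mem i b),
    h.kp_sig b fun c => by have := hlo c; omega]

theorem Comp.avoid (h : Comp Γ U cyc e m) {k lo hi : ℕ} (hk : k < m) (h1 : hi ≤ m)
    (h2 : k < lo ∨ hi ≤ k) : e '' Set.Ico lo hi ⊆ U \ {e k} := by
  rintro _ ⟨i, hi, rfl⟩
  have := hi.1; have := hi.2
  exact ⟨h.mem i (by omega), fun e' => by have := h.inj i (by omega) k hk e'; omega⟩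

theorem Comp.avoid' {k : ℕ} (hk : k < m) : U \ e '' Set.Ico 0 m ⊆ U \ {e k} :=
  fun _ hs => ⟨hs.1, fun e' => hs.2 ⟨k, ⟨k.zero_le, hk⟩, Eq.symm e'⟩⟩

theorem Comp.path (h : Comp Γ U False e m) {k : ℕ} (hk : k + 1 < m) :
    Mod (h.art False.elim) (e (k + 1)) (e k) (k + 1) m e (prodI of 0 (k + 1)) (RP (k + 1)) where
  lt := hk
  eb := rfl
  mem i a b := h.avoid (by omega) le_rfl (Or.inl (Nat.lt_succ_self k)) ⟨i, ⟨a, b⟩, rfl⟩
  ne i a b e' := by have := h.inj _ b _ hk e'; omega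
  sg i _ b := h.kp_sig b False.elim
  br := h.br False.elim h.mem
  nadj := h.nadj (by omega) False.elim
  uniq _ _ _ := RP.uniq
  norm _ _ a := a.norm.trans (by omega)
  nx0 := by rw [norm_prodI]; omega
  stab g hg e' := by
    obtain ⟨g0, a, r, b, rfl, c⟩ := h.dec False.elim hg
    obtain ⟨g1, a1, g2, a2, a3⟩ := stab_split (h.br (lo := 0) False.elim h.mem) _
      (h.hf False.elim False.elim) (g := ⟨g0, Par_mono (h.sub 0) a⟩)
      ((memK (fun i _ b => h.mem i b) _).2 a) (k := k + 1) (by omega) (by rwa [c] at e')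
    rw [memK fun i _ b => h.mem i (by omega)] at a1 a2
    refine mul_mem ?_ (Par_mono (Comp.avoid' (by omega)) b)
    have a4 : g0 = (g2.1)⁻¹ * (g1.1)⁻¹ := by
      have := congrArg Subtype.val a3
      rw [← mul_inv_rev, eq_inv_iff_mul_eq_one, ← mul_assoc]
      exact this
    rw [a4]
    exact mul_mem (inv_mem (Par_mono (h.avoid (by omega) le_rfl (by omega)) a2))
      (inv_mem (Par_mono (h.avoid (by omega) (by omega) (by omega)) a1))
  key g hg β hβ η hη := by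
    have s1 := Par_mono (h.sub _) hg
    rw [val_mul _ (mul_mem s1 (Par_mono Set.sdiff_subset hβ)), val_mul _ s1]
    refine path_model (h.vmem False.elim (h.sub _) ?_ hg) (h.vmem False.elim Set.sdiff_subset ?_ hβ)
      (SS.fix (J := {k}ᶜ) (h.vmem False.elim Set.sdiff_subset ?_ hη) fun i hi => sig_prod ?_)
    · rintro i hi ⟨j, hj, e'⟩
      rw [h.kp_sig hi False.elim, ← h.inj j hj.2 i hi e']
      exact sig_SS hj.1
    · intro i hi hs
      rw [h.kp_sig hi False.elim]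
      exact sig_SS fun e' => hs.2 (by rw [e']; rfl)
    · intro i hi hs
      rw [h.kp_sig hi False.elim]
      exact sig_SS fun e' => hs.2 (by rw [e']; rfl)
    · simp at hi; omega

theorem Comp.cstab (h : Comp Γ U True e m) (hm : 4 ≤ m) {g : AG Γ}
    (hg : g ∈ Par Γ (e '' Set.Ico 0 m)) (e' : val (h.art fun _ => hm) g (of 0) = of 0) :
    g ∈ Par Γ (e '' Set.Ico 1 m) := by
  have hC : ∀ i < m, e i ∈ e '' Set.Ico 0 m := fun i hi => ⟨i, ⟨i.zero_le, hi⟩, rfl⟩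
  have art : ∀ d : ℕ → ℕ, (∀ i < m, d i < m) →
      (∀ i < m, ∀ j < m, pat True m (d i) (d j) ↔ pat True m i j) → ArtRel Γ (e '' Set.Ico 0 m)
      fun s => gK Γ (e '' Set.Ico 0 m) (e (d (Function.invFunOn e (Set.Iio m) s))) := by
    rintro d d1 d2 _ ⟨i, hi, rfl⟩ _ ⟨j, hj, rfl⟩
    simp only [h.idx hi.2, h.idx hj.2, Subtype.ext_iff, Subgroup.coe_mul,
      gK_val (hC _ (d1 _ hi.2)), gK_val (hC _ (d1 _ hj.2))]
    rw [h.adj _ hi.2 _ hj.2, ← d2 _ hi.2 _ hj.2, ← h.adj _ (d1 _ hi.2) _ (d1 _ hj.2)]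
    exact gen_rel Set.univ _ trivial _ trivial
  have a1 := art (nx m) (fun _ => nx_lt) fun _ a _ b => pat_nx a b
  have a2 := art (pv m) (fun _ => pv_lt) fun _ a _ b => pat_pv a b
  have b1 : ∀ i < m, ext a1 (gK Γ _ (e i)) = gK Γ _ (e (nx m i)) := fun i hi => by
    rw [ext_apply, gK_val (hC i hi), val_gen _ (hC i hi), h.idx hi]
  have b2 : ∀ i < m, ext a2 (gK Γ _ (e i)) = gK Γ _ (e (pv m i)) := fun i hi => by
    rw [ext_apply, gK_val (hC i hi), val_gen _ (hC i hi), h.idx hi]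
  have top : Sub (fun i => gK Γ (e '' Set.Ico 0 m) (e i)) 0 m = ⊤ :=
    eq_top_iff.2 fun g _ => (memK (fun i _ => hC i) g).2 g.2
  have := cyc_stab (by omega) (h.br (fun _ => le_rfl) hC)
    (MonoidHom.toMulEquiv (ext a1) (ext a2)
      (MonoidHom.eq_of_eqOn_dense top (by
        rintro _ ⟨i, hi, rfl⟩; simp [b1 i hi.2, b2 _ (nx_lt hi.2), pv_nx hi.2]))
      (MonoidHom.eq_of_eqOn_dense top (by
        rintro _ ⟨i, hi, rfl⟩; simp [b2 i hi.2, b1 _ (pv_lt hi.2), nx_pv hi.2]))) b1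
    ((ext (h.art fun _ => hm)).comp (Subgroup.inclusion (Par_mono (h.sub 0)))) (fun j hj => by
      change val _ (gK Γ _ (e j)).1 = _
      rw [gK_val (hC j hj), val_gen _ (h.mem j hj), h.kp_cyc hj]) (g := ⟨g, hg⟩) (by simp [top]) e'
  rwa [memK fun i _ => hC i] at this

theorem Comp.cycle (h : Comp Γ U True e m) (hm : 4 ≤ m) :
    Mod (h.art fun _ => hm) (e 1) (e 0) 1 m e (of 0) RC where
  lt := by omega
  eb := rfl
  mem i a b := h.avoid (by omega) le_rfl (Or.inl one_pos) ⟨i, ⟨a, b⟩, rfl⟩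
  ne i a b e' := by have := h.inj _ b _ (by omega) e'; omega
  sg i _ b := h.kp_sig b fun _ => by omega
  br := h.br (fun _ => le_rfl) h.mem
  nadj := h.nadj (by omega) fun _ => rfl
  uniq _ _ _ := RC.uniq
  norm _ _ a := a.norm.trans (by omega)
  nx0 := by simp; omega
  stab g hg e' := by
    obtain ⟨g0, a, r, b, rfl, c⟩ := h.dec (fun _ => hm) hg
    exact mul_mem (Par_mono (h.avoid (by omega) le_rfl (by omega)) (h.cstab hm a (by rwa [c] at e')))
      (Par_mono (Comp.avoid' (by omega)) b)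
  key g hg β hβ η hη := by
    have s1 := Par_mono (h.sub _) hg
    rw [val_mul _ (mul_mem s1 (Par_mono Set.sdiff_subset hβ)), val_mul _ s1]
    obtain ⟨a, a1, a2⟩ := h.vmem (fun _ => hm) Set.sdiff_subset
      (S := (SS (Set.Ici 1)).map (MulAut.conj (sig 0 ^ 2)).toMonoidHom) (fun i hi hs => by
        rw [h.kp_cyc hi, kap]
        split_ifs with h0
        · have : TT sig 1 (m - 1) ∈ SS (Set.Ici 1) :=
            Subgroup.closure_mono (Set.image_mono Set.Ico_subset_Ici_self) (TT_mem 1 (m - 1))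
          exact ⟨_, mul_mem (mul_mem this (sig_SS (show 1 ≤ m - 1 by omega))) (inv_mem this),
            by simp [rho, mul_assoc, -map_pow, -map_mul]⟩
        · have : i ≠ 1 := fun e' => hs.2 (by rw [e']; rfl)
          exact ⟨_, sig_SS (show 1 ≤ i by omega), by
            simp [(sq_comm (j := i) (by omega)).eq, -map_pow]⟩) hβ
    rw [← a2]
    refine cycle_model (h.vmem (fun _ => hm) (h.sub _) ?_ hg) a1 (SS.fix (J := Set.Ici 1)
      (h.vmem (fun _ => hm) Set.sdiff_subset ?_ hη) fun i hi => sig_ne ?_ (by omega))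
    · rintro i hi ⟨j, hj, e'⟩
      obtain rfl := h.inj j hj.2 i hi e'
      rw [h.kp_sig hi fun _ => by have := hj.1; omega]
      exact sig_SS hj.1
    · intro i hi hs
      have : i ≠ 0 := fun e' => hs.2 (by rw [e']; rfl)
      rw [h.kp_sig hi fun _ => this]
      exact sig_SS (show 1 ≤ i by omega)
    · simp at hi; omega

theorem Comp.faith (h : Comp Γ U cyc e m) (hm : cyc → 4 ≤ m) {g : AG Γ}
    (hg : g ∈ Par Γ (e '' Set.Ico 0 m)) (e' : val (h.art hm) g = 1) : g = 1 := by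
  have key : ∀ lo, (cyc → 1 ≤ lo) → g ∈ Par Γ (e '' Set.Ico lo m) → g = 1 := fun lo hlo hg =>
    congrArg Subtype.val (eq_one_of (h.br hlo h.mem) _ (h.hf hm hlo)
      (g := ⟨g, Par_mono (h.sub _) hg⟩) ((memK (fun i _ b => h.mem i b) _).2 hg)
      fun j _ _ => by rw [ext_apply, e']; rfl)
  by_cases c : cyc
  · obtain rfl : cyc = True := by simpa using c
    exact key 1 (fun _ => le_rfl) (h.cstab (hm trivial) hg (by rw [e']; rfl))
  · exact key 0 (c · |>.elim) hg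

end Cmp

variable {U : Set ℕ} {L : List ℕ}

theorem base_girth (hC : ClawFree Γ U) (hT : TriFree Γ U) (hL : ∀ s ∈ U, s ∈ L) : Girth Γ U := by
  intro b hb c hc ha b2 c2
  rcases exists_comp hC hT hL hc hb ha.symm with ⟨e, m, k, h, hk, rfl, rfl⟩ | ⟨e, m, h, hm, rfl, rfl⟩
  · exact (h.path hk).girth
  · exact (h.cycle hm).girth

theorem base_bound (hC : ClawFree Γ U) (hT : TriFree Γ U) (hL : ∀ s ∈ U, s ∈ L) {b c : ℕ}
    (hb : b ∈ U) (hc : c ∈ U) (ha : Γ.Adj b c) {y : Wd} (hy : ∀ l ∈ y, l.1 ∈ U) {b2 : AG Γ}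
    (h2 : Mt U (b, b2) (c, 1)) (h3 : Mt U (b, b2) (c, ev Γ y)) :
    ∃ w : Wd, (∀ l ∈ w, l.1 ∈ U \ {c}) ∧ w.length ≤ BND L.length y.length ∧
      Mt U (b, ev Γ w) (c, ev Γ y) := by
  rcases exists_comp hC hT hL hc hb ha.symm with ⟨e, m, k, h, hk, rfl, rfl⟩ | ⟨e, m, h, hm, rfl, rfl⟩
  · exact (h.path hk).bound (fun _ => rfl) (h.le_card hL) (len_tab (by omega)) hy h2 h3
  · exact (h.cycle hm).bound (fun _ => rfl) (h.le_card hL) (len_tab (by omega)) hy h2 h3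

theorem Par_empty {g : AG Γ} (h : g ∈ Par Γ ∅) : g = 1 := by
  simpa [Par_def] using h

theorem base_ne : ∀ (n : ℕ) (U : Set ℕ), U.Finite → U.ncard = n → ClawFree Γ U → TriFree Γ U →
    ∀ g ∈ Par Γ U, g ≠ 1 → ∃ U' ⊆ U, ∃ (T : ℕ → Wd) (hκ : ArtRel Γ U' fun s => evW sig (T s)),
      g ∈ Par Γ U' ∧ val hκ g ≠ 1 := by
  intro n
  induction n using Nat.strong_induction_on with
  | _ n ih =>
  intro U hU hn hC hT g hg hne
  obtain ⟨c, hc⟩ : U.Nonempty := Set.nonempty_iff_ne_empty.2 fun e => hne (Par_empty (e ▸ hg))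
  obtain ⟨cyc, e, m, h, hm, h0⟩ := exists_comp' hC hT (L := hU.toFinset.toList) (by simp) hc
  obtain ⟨g0, a, r, b, rfl, d⟩ := h.dec hm hg
  by_cases c0 : g0 = 1
  · subst c0
    obtain ⟨U', a1, a2⟩ := ih _ (hn ▸ Set.ncard_lt_ncard (Set.sdiff_ssubset_left_iff.2
      ⟨e 0, h.mem 0 h0, Set.mem_image_of_mem e (Set.mem_Ico.2 ⟨le_rfl, h0⟩)⟩) hU) _ hU.sdiff rfl (hC.mono Set.sdiff_subset)
      (hT.mono Set.sdiff_subset) _ (by simpa using b) hne
    exact ⟨U', a1.trans Set.sdiff_subset, a2⟩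
  · exact ⟨U, le_rfl, tab cyc e m, h.art hm, hg, fun e' => c0 (h.faith hm a (d ▸ e'))⟩

theorem tri_cases (Γ : SimpleGraph ℕ) (U : Set ℕ) : TriFree Γ U ∨
    ∃ x ∈ U, ∃ y ∈ U, ∃ z ∈ U, Γ.Adj x y ∧ Γ.Adj y z ∧ Γ.Adj x z := by
  by_cases h : TriFree Γ U
  · exact Or.inl h
  · right; unfold TriFree at h; push Not at h; exact h

theorem inT.mem {x y z t : ℕ} (h : inT x y z t) (hx : x ∈ U) (hy : y ∈ U) (hz : z ∈ U) : t ∈ U := by
  rcases h with rfl | rfl | rfl <;> assumption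

theorem girth_all : ∀ (n : ℕ) (U : Set ℕ), U.Finite → U.ncard = n → ClawFree Γ U → Girth Γ U := by
  intro n
  induction n using Nat.strong_induction_on with
  | _ n ih =>
  intro U hU hn hC
  rcases tri_cases Γ U with hT | ⟨x, hx, y, hy, z, hz, a, b, c⟩
  · exact base_girth hC hT (L := hU.toFinset.toList) (by simp)
  · exact IsTri.girth_top ⟨hx, hy, hz, a, b, c, fun t ht => ih _ (hn ▸
      Set.ncard_sdiff_singleton_lt_of_mem (ht.mem hx hy hz) hU) _ hU.sdiff rfl (hC.mono Set.sdiff_subset)⟩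

end Pool.Agent.Lib.MP_a1ec0a_al
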