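import Pool.Agent.Lib.MP_a1ec0a_al.Free

/-! The Artin action of braid groups on free groups: faithfulness and stabilisers. -/

namespace Pool.Agent.Lib.MP_a1ec0a_al

open FreeGroup (of mk lift)

def sigF (i j : ℕ) : FG :=
  if j = i then of i * of (i + 1) * (of i)⁻¹ else if j = i + 1 then of i else of j
def sigB (i j : ℕ) : FG :=
  if j = i then of (i + 1) else if j = i + 1 then (of (i + 1))⁻¹ * of i * of (i + 1) else of j

def sig (i : ℕ) : MulAut FG :=
  MonoidHom.toMulEquiv (lift (sigF i)) (lift (sigB i))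
    (by
      ext j
      by_cases h1 : j = i
      · simp [sigF, sigB, h1, mul_assoc]
      · by_cases h2 : j = i + 1 <;> simp [sigF, sigB, h1, h2])
    (by
      ext j
      by_cases h1 : j = i
      · simp [sigF, sigB, h1]
      · by_cases h2 : j = i + 1 <;> simp [sigF, sigB, h1, h2, mul_assoc])

theorem sig_of (i j : ℕ) : sig i (of j) = sigF i j := by simp [sig]
theorem sig_inv_of (i j : ℕ) : (sig i)⁻¹ (of j) = sigB i j := by simp [sig]
theorem sig_self (i : ℕ) : sig i (of i) = of i * of (i + 1) * (of i)⁻¹ := by simp [sig_of, sigF]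
theorem sig_succ (i : ℕ) : sig i (of (i + 1)) = of i := by simp [sig_of, sigF]
theorem sig_ne {i j : ℕ} (h : j ≠ i) (h' : j ≠ i + 1) : sig i (of j) = of j := by
  simp [sig_of, sigF, h, h']
theorem sig_inv_self (i : ℕ) : (sig i)⁻¹ (of i) = of (i + 1) := by rw [sig_inv_of]; simp [sigB]
theorem sig_inv_succ (i : ℕ) : (sig i)⁻¹ (of (i + 1)) = (of (i + 1))⁻¹ * of i * of (i + 1) := by
  rw [sig_inv_of]; simp [sigB]
theorem sig_inv_ne {i j : ℕ} (h : j ≠ i) (h' : j ≠ i + 1) : (sig i)⁻¹ (of j) = of j := by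
  rw [sig_inv_of]; simp [sigB, h, h']

attribute [irreducible] sig

theorem aut_ext {a b : MulAut FG} (h : ∀ j, a (of j) = b (of j)) : a = b := by
  have : (a : FG →* FG) = b := FreeGroup.ext_hom _ _ h
  exact MulEquiv.ext fun x => DFunLike.congr_fun this x

/-- Braid relations among the first `m` elements. -/
def BR {K : Type} [Group K] (τ : ℕ → K) (a m : ℕ) : Prop :=
  (∀ i, a ≤ i → i + 1 < m → τ i * τ (i + 1) * τ i = τ (i + 1) * τ i * τ (i + 1)) ∧
    ∀ i j, a ≤ i → i + 1 < j → j < m → Commute (τ i) (τ j)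

theorem sig_BR (a m : ℕ) : BR sig a m := by
  constructor
  · intro i _ _
    refine aut_ext fun j => ?_
    have a1 : sig (i + 1) (of i) = of i := sig_ne (by omega) (by omega)
    have a2 : sig i (of (i + 1 + 1)) = of (i + 1 + 1) := sig_ne (by omega) (by omega)
    simp only [MulAut.mul_apply]
    by_cases h1 : j = i
    · subst h1; simp [sig_self, sig_succ, a1, a2, mul_assoc]
    by_cases h2 : j = i + 1
    · subst h2; simp [sig_self, sig_succ, a1, a2, mul_assoc]
    by_cases h3 : j = i + 1 + 1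
    · subst h3; simp [sig_self, sig_succ, a1, a2, mul_assoc]
    rw [sig_ne h1 h2, sig_ne h2 h3, sig_ne h1 h2, sig_ne h2 h3]
  · intro i j _ h _
    refine aut_ext fun k => ?_
    have h1 : i ≠ j := by omega
    have h2 : i ≠ j + 1 := by omega
    have h3 : i + 1 ≠ j := by omega
    have h4 : j ≠ i := by omega
    have h5 : j + 1 ≠ i := by omega
    have h6 : j ≠ i + 1 := by omega
    simp only [MulAut.mul_apply, sig_of, sigF]
    split_ifs <;> simp_all [sig_of, sigF, mul_assoc]

theorem BR.shift {K : Type} [Group K] {τ : ℕ → K} {a m : ℕ} (h : BR τ a m) (b : ℕ) (hb : a ≤ b) :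
    BR (fun k => τ (b + k)) 0 (m - b) :=
  ⟨fun i _ hi => h.1 (b + i) (by omega) (by omega),
    fun i j _ h1 h2 => h.2 _ _ (by omega) (by omega) (by omega)⟩

theorem BR.mono {K : Type} [Group K] {τ : ℕ → K} {a m b n : ℕ} (h : BR τ a m) (h1 : a ≤ b)
    (h2 : n ≤ m) : BR τ b n :=
  ⟨fun i _ hi => h.1 i (by omega) (by omega), fun i j _ h1 h2 => h.2 _ _ (by omega) h1 (by omega)⟩

section TypeB

variable {K : Type} [Group K]

def Aseq (t : K) (u : ℕ → K) : ℕ → K
  | 0 => t
  | k + 1 => (u k)⁻¹ * Aseq t u k * u k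

structure BB (t : K) (u : ℕ → K) (n : ℕ) : Prop where
  br : BR u 0 n
  cm : ∀ j, 0 < j → j < n → Commute t (u j)
  b2 : 0 < n → t * u 0 * t * u 0 = u 0 * t * u 0 * t

variable {t : K} {u : ℕ → K} {n : ℕ}

theorem BB.lt (h : BB t u n) : ∀ k j, k < j → j < n → Commute (Aseq t u k) (u j) := by
  intro k
  induction k with
  | zero => exact h.cm
  | succ k ih =>
    intro j h1 h2
    have := h.br.2 k j (Nat.zero_le _) h1 h2
    exact (this.inv_left.mul_left (ih j (by omega) h2)).mul_left this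

theorem BB.eq (h : BB t u n) : ∀ j, j < n → Aseq t u j * u j * Aseq t u j * u j =
    u j * Aseq t u j * u j * Aseq t u j := by
  intro j
  induction j with
  | zero => exact h.b2
  | succ j ih =>
    intro hj
    have e1 : Aseq t u (j + 1) = (u (j + 1) * u j)⁻¹ * Aseq t u j * (u (j + 1) * u j) := by
      rw [Aseq, mul_inv_rev, mul_assoc (u j)⁻¹ (u (j + 1))⁻¹, ← (h.lt j (j + 1) (by omega) hj).inv_right.eq]
      group
    have e2 : u (j + 1) = (u (j + 1) * u j)⁻¹ * u j * (u (j + 1) * u j) := by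
      rw [mul_assoc, ← mul_assoc (u j), h.br.1 j (Nat.zero_le _) hj]; group
    generalize u (j + 1) * u j = c at e1 e2
    rw [e1, e2]
    have := ih (by omega)
    calc _ = c⁻¹ * (Aseq t u j * u j * Aseq t u j * u j) * c := by group
      _ = _ := by rw [this]; group

theorem BB.gt (h : BB t u n) (j : ℕ) : ∀ k, j + 2 + k ≤ n → Commute (Aseq t u (j + 2 + k)) (u j) := by
  intro k
  induction k with
  | zero =>
    intro hk
    have e1 := h.br.1 j (Nat.zero_le _) (by omega)
    have e2 := (h.lt j (j + 1) (by omega) (by omega)).eq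
    change (u (j + 1))⁻¹ * ((u j)⁻¹ * Aseq t u j * u j) * u (j + 1) * u j =
      u j * ((u (j + 1))⁻¹ * ((u j)⁻¹ * Aseq t u j * u j) * u (j + 1))
    have e3 : u j * (u (j + 1))⁻¹ * (u j)⁻¹ = (u (j + 1))⁻¹ * (u j)⁻¹ * u (j + 1) := by
      calc _ = (u (j + 1))⁻¹ * (u j)⁻¹ * (u j * u (j + 1) * u j) * (u (j + 1))⁻¹ * (u j)⁻¹ := by
            group
        _ = _ := by rw [e1]; group
    calc _ = (u (j + 1))⁻¹ * (u j)⁻¹ * Aseq t u j * (u j * u (j + 1) * u j) := by group
      _ = (u (j + 1))⁻¹ * (u j)⁻¹ * (Aseq t u j * u (j + 1)) * u j * u (j + 1) := by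
            rw [e1]; group
      _ = ((u (j + 1))⁻¹ * (u j)⁻¹ * u (j + 1)) * Aseq t u j * u j * u (j + 1) := by
            rw [e2]; group
      _ = _ := by rw [← e3]; group
  | succ k ih =>
    intro hk
    have := (h.br.2 j (j + 2 + k) (Nat.zero_le _) (by omega) (by omega)).symm
    exact (this.inv_left.mul_left (ih (by omega))).mul_left this

def UU (t : K) (u : ℕ → K) (n : ℕ) : Subgroup K := Subgroup.closure (Aseq t u '' Set.Iic n)
def HH (u : ℕ → K) (n : ℕ) : Subgroup K := Subgroup.closure (u '' Set.Iio n)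

theorem A_mem {k : ℕ} (h : k ≤ n) : Aseq t u k ∈ UU t u n := Subgroup.subset_closure ⟨k, h, rfl⟩
theorem u_mem {k : ℕ} (h : k < n) : u k ∈ HH u n := Subgroup.subset_closure ⟨k, h, rfl⟩

theorem BB.conj (h : BB t u n) {j k : ℕ} (hj : j < n) (hk : k ≤ n) :
    u j * Aseq t u k * (u j)⁻¹ ∈ UU t u n ∧ (u j)⁻¹ * Aseq t u k * u j ∈ UU t u n := by
  have hc : Commute (Aseq t u k) (u j) →
      u j * Aseq t u k * (u j)⁻¹ ∈ UU t u n ∧ (u j)⁻¹ * Aseq t u k * u j ∈ UU t u n := fun e => by
    rw [← e.eq, mul_inv_cancel_right, mul_assoc, e.eq, inv_mul_cancel_left]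
    exact ⟨A_mem hk, A_mem hk⟩
  have e := h.eq j hj
  have m1 : Aseq t u j ∈ UU t u n := A_mem hj.le
  have m2 : Aseq t u (j + 1) ∈ UU t u n := A_mem hj
  rcases lt_trichotomy k j with h1 | rfl | h1
  · exact hc (h.lt k j h1 hj)
  · refine ⟨?_, m2⟩
    have : u k * Aseq t u k * (u k)⁻¹ = (Aseq t u k)⁻¹ * Aseq t u (k + 1) * Aseq t u k := by
      rw [Aseq]
      calc _ = (Aseq t u k)⁻¹ * (u k)⁻¹ * (u k * Aseq t u k * u k * Aseq t u k) * (u k)⁻¹ := by
            group
        _ = (Aseq t u k)⁻¹ * (u k)⁻¹ * (Aseq t u k * u k * Aseq t u k * u k) * (u k)⁻¹ := by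
            rw [e]
        _ = _ := by group
    rw [this]
    exact mul_mem (mul_mem (inv_mem m1) m2) m1
  · rcases (Nat.succ_le_of_lt h1).eq_or_lt with rfl | h2
    · constructor
      · rw [Aseq]; simpa [mul_assoc] using m1
      · have : (u j)⁻¹ * Aseq t u (j + 1) * u j =
            Aseq t u (j + 1) * Aseq t u j * (Aseq t u (j + 1))⁻¹ := by
          rw [Aseq]
          calc _ = (u j)⁻¹ * (u j)⁻¹ * (Aseq t u j * u j * Aseq t u j * u j) * (u j)⁻¹ *
                (Aseq t u j)⁻¹ * u j := by group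
            _ = (u j)⁻¹ * (u j)⁻¹ * (u j * Aseq t u j * u j * Aseq t u j) * (u j)⁻¹ *
                (Aseq t u j)⁻¹ * u j := by rw [e]
            _ = _ := by group
        rw [this]
        exact mul_mem (mul_mem m2 m1) (inv_mem m2)
    · obtain ⟨l, rfl⟩ : ∃ l, k = j + 2 + l := ⟨k - (j + 2), by omega⟩
      exact hc (h.gt j l hk)

theorem conj_closure {S : Set K} {c : K} (h : ∀ s ∈ S, c * s * c⁻¹ ∈ Subgroup.closure S) {g : K}
    (hg : g ∈ Subgroup.closure S) : c * g * c⁻¹ ∈ Subgroup.closure S := by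
  have : (Subgroup.closure S).map (MulAut.conj c).toMonoidHom ≤ Subgroup.closure S := by
    rw [MonoidHom.map_closure, Subgroup.closure_le]
    rintro _ ⟨s, hs, rfl⟩
    exact h s hs
  exact this ⟨g, hg, rfl⟩

theorem BB.norm (h : BB t u n) {c g : K} (hc : c ∈ HH u n) (hg : g ∈ UU t u n) :
    c * g * c⁻¹ ∈ UU t u n := by
  induction hc using Subgroup.closure_induction_left generalizing g with
  | one => simpa using hg
  | mul_left x hx y _ ih =>
    obtain ⟨j, hj, rfl⟩ := hx
    have := conj_closure (c := u j) (by rintro _ ⟨k, hk, rfl⟩; exact (h.conj hj hk).1) (ih hg)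
    simpa [mul_assoc, UU] using this
  | inv_mul_cancel x hx y _ ih =>
    obtain ⟨j, hj, rfl⟩ := hx
    have := conj_closure (c := (u j)⁻¹)
      (by rintro _ ⟨k, hk, rfl⟩; simpa [UU] using (h.conj hj hk).2) (ih hg)
    simpa [mul_assoc, UU] using this

def DB (t : K) (u : ℕ → K) (n : ℕ) : Subgroup K := Subgroup.closure (insert t (u '' Set.Iio n))

theorem t_mem_DB : t ∈ DB t u n := Subgroup.subset_closure (Set.mem_insert _ _)
theorem u_mem_DB {k : ℕ} (h : k < n) : u k ∈ DB t u n :=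
  Subgroup.subset_closure (Set.mem_insert_of_mem _ ⟨k, h, rfl⟩)
theorem A_mem_DB {k : ℕ} (h : k ≤ n) : Aseq t u k ∈ DB t u n := by
  induction k with
  | zero => exact t_mem_DB
  | succ k ih => exact mul_mem (mul_mem (inv_mem (u_mem_DB h)) (ih (by omega))) (u_mem_DB h)

theorem BB.dec (h : BB t u n) {g : K} (hg : g ∈ DB t u n) :
    ∃ a ∈ UU t u n, ∃ c ∈ HH u n, g = a * c := by
  have m0 : t ∈ UU t u n := A_mem (k := 0) (Nat.zero_le _)
  induction hg using Subgroup.closure_induction_right with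
  | one => exact ⟨1, one_mem _, 1, one_mem _, by simp⟩
  | mul_right x _ y hy ih =>
    obtain ⟨a, ha, c, hc, rfl⟩ := ih
    rcases hy with rfl | ⟨j, hj, rfl⟩
    · exact ⟨_, mul_mem ha (h.norm hc m0), c, hc, by group⟩
    · exact ⟨a, ha, _, mul_mem hc (u_mem hj), by group⟩
  | mul_inv_cancel x _ y hy ih =>
    obtain ⟨a, ha, c, hc, rfl⟩ := ih
    rcases hy with rfl | ⟨j, hj, rfl⟩
    · exact ⟨_, mul_mem ha (h.norm hc (inv_mem m0)), c, hc, by group⟩
    · exact ⟨a, ha, _, mul_mem hc (inv_mem (u_mem hj)), by group⟩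

def kill (p : ℕ) : FG →* FG := lift fun j => if j = p then 1 else of j

theorem kill_self (p : ℕ) : kill p (of p) = 1 := by simp [kill]
theorem kill_ne {p j : ℕ} (h : j ≠ p) : kill p (of j) = of j := by simp [kill, h]

def RR (p : ℕ) (a : MulAut FG) (w : FG) : Prop :=
  (∀ x, kill p (a x) = kill p x) ∧ ∃ c, a (of p) = c * of p * c⁻¹ ∧ kill p c = w⁻¹

theorem RR.mul {p : ℕ} {a b : MulAut FG} {v w : FG} (h : RR p a v) (h' : RR p b w) :
    RR p (a * b) (v * w) := by
  obtain ⟨a1, c, a2, a3⟩ := h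
  obtain ⟨b1, d, b2, b3⟩ := h'
  refine ⟨fun x => by rw [MulAut.mul_apply, a1, b1], a d * c, ?_, ?_⟩
  · rw [MulAut.mul_apply, b2, map_mul, map_mul, map_inv, a2]; group
  · rw [map_mul, a1, b3, a3, mul_inv_rev]

theorem RR.inv {p : ℕ} {a : MulAut FG} {v : FG} (h : RR p a v) : RR p a⁻¹ v⁻¹ := by
  obtain ⟨a1, c, a2, a3⟩ := h
  have b1 : ∀ x, kill p (a⁻¹ x) = kill p x := fun x => by rw [← a1]; simp
  refine ⟨b1, a⁻¹ c⁻¹, ?_, by rw [b1, map_inv, a3]⟩
  apply a.injective
  simp [a2, mul_assoc]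

theorem kill_sig {p i : ℕ} (h : p < i) (x : FG) : kill p (sig i x) = sig i (kill p x) := by
  have : (kill p).comp (sig i : FG →* FG) = (sig i : FG →* FG).comp (kill p) := by
    refine FreeGroup.ext_hom _ _ fun j => ?_
    have h1 : i ≠ p := by omega
    have h2 : i + 1 ≠ p := by omega
    simp only [MonoidHom.comp_apply, MonoidHom.coe_coe, sig_of, sigF]
    by_cases e : j = p
    · subst e; simp [h1.symm, h2.symm, kill_self]
    · split_ifs <;> simp_all [kill_ne, sig_of, sigF]
  exact DFunLike.congr_fun this x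

theorem RR_A (p k : ℕ) :
    RR p (Aseq (sig p ^ 2) (fun k => sig (p + 1 + k)) k) (of (p + 1 + k))⁻¹ := by
  induction k with
  | zero =>
    constructor
    · have : (kill p).comp ((sig p ^ 2 : MulAut FG) : FG →* FG) = kill p := by
        refine FreeGroup.ext_hom _ _ fun j => ?_
        simp only [MonoidHom.comp_apply, MonoidHom.coe_coe, sq, MulAut.mul_apply]
        by_cases e : j = p
        · subst e; simp [sig_self, sig_succ, kill_self]
        · by_cases e' : j = p + 1
          · subst e'; simp [sig_self, sig_succ, kill_self]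
          · simp [sig_ne e e']
      exact fun x => DFunLike.congr_fun this x
    · refine ⟨of p * of (p + 1), ?_, by simp [kill_self, kill_ne]⟩
      simp only [Aseq, sq, MulAut.mul_apply, sig_self, sig_succ, map_mul, map_inv]; group
  | succ k ih =>
    obtain ⟨a1, c, a2, a3⟩ := ih
    have k1 : ∀ x, kill p ((sig (p + 1 + k))⁻¹ x) = (sig (p + 1 + k))⁻¹ (kill p x) := fun x => by
      apply (sig (p + 1 + k)).injective
      rw [← kill_sig (by omega)]; simp
    refine ⟨fun x => ?_, (sig (p + 1 + k))⁻¹ c, ?_, ?_⟩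
    · simp only [Aseq, MulAut.mul_apply]
      rw [k1, a1, kill_sig (by omega)]; simp
    · simp only [Aseq, MulAut.mul_apply]
      rw [sig_ne (by omega) (by omega), a2, map_mul, map_mul, map_inv,
        sig_inv_ne (by omega) (by omega)]
    · rw [k1, a3, inv_inv, inv_inv, sig_inv_self]; rfl

theorem map_Aseq {K' : Type} [Group K'] (f : K →* K') {t' : K'} {u' : ℕ → K'} (ht : f t = t')
    (hu : ∀ k < n, f (u k) = u' k) {k : ℕ} (hk : k ≤ n) : f (Aseq t u k) = Aseq t' u' k := by
  induction k with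
  | zero => exact ht
  | succ k ih => simp [Aseq, hu k hk, ih (by omega)]

theorem BB.stab (h : BB t u n) (f : K →* MulAut FG) (p : ℕ) (ht : f t = sig p ^ 2)
    (hu : ∀ k < n, f (u k) = sig (p + 1 + k)) {g : K} (hg : g ∈ DB t u n)
    (hf : f g (of p) = of p) : g ∈ HH u n := by
  obtain ⟨a, ha, c, hc, rfl⟩ := h.dec hg
  have h1 : f c (of p) = of p := by
    clear hf hg
    induction hc using Subgroup.closure_induction with
    | mem x hx => obtain ⟨j, hj, rfl⟩ := hx; rw [hu j hj, sig_ne (by omega) (by omega)]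
    | one => simp
    | mul x y _ _ h1 h2 => simp [h1, h2]
    | inv x _ h1 => apply (f x).injective; simp [h1]
  have h2 : ∃ w : FG, a = lift (Aseq t u) w ∧
      RR p (f a) (lift (fun k => (of (p + 1 + k) : FG)⁻¹) w) := by
    clear hf hg
    induction ha using Subgroup.closure_induction with
    | mem x hx =>
      obtain ⟨j, hj, rfl⟩ := hx
      exact ⟨of j, by simp, by rw [map_Aseq f ht hu hj]; simpa using RR_A p j⟩
    | one => exact ⟨1, by simp, by simp, 1, by simp, by simp⟩
    | mul x y _ _ h1 h2 =>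
      obtain ⟨w, rfl, a⟩ := h1
      obtain ⟨w', rfl, b⟩ := h2
      exact ⟨w * w', by simp, by simpa using a.mul b⟩
    | inv x _ h1 =>
      obtain ⟨w, rfl, a⟩ := h1
      exact ⟨w⁻¹, by simp, by simpa using a.inv⟩
  obtain ⟨w, rfl, -, d, h3, h4⟩ := h2
  rw [map_mul, MulAut.mul_apply, h1, h3] at hf
  obtain ⟨m, rfl⟩ := cent hf
  rw [map_zpow, kill_self, one_zpow, eq_comm, inv_eq_one] at h4
  have h5 : (lift fun j => (of (j - (p + 1)) : FG)⁻¹).comp
      (lift fun k => (of (p + 1 + k) : FG)⁻¹) = MonoidHom.id _ := by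
    ext j; simp
  have h6 := DFunLike.congr_fun h5 w
  rw [MonoidHom.comp_apply, h4, map_one] at h6
  rw [show w = 1 from h6.symm]
  simpa using hc

end TypeB

section Faithful

variable {K : Type} [Group K] {τ : ℕ → K} {m : ℕ}

def Sub (τ : ℕ → K) (lo hi : ℕ) : Subgroup K := Subgroup.closure (τ '' Set.Ico lo hi)

theorem mem_Sub {lo hi i : ℕ} (h : lo ≤ i) (h' : i < hi) : τ i ∈ Sub τ lo hi :=
  Subgroup.subset_closure ⟨i, ⟨h, h'⟩, rfl⟩

theorem Sub_mono {lo hi lo' hi' : ℕ} (h : lo' ≤ lo) (h' : hi ≤ hi') : Sub τ lo hi ≤ Sub τ lo' hi' :=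
  Subgroup.closure_mono (Set.image_mono (Set.Ico_subset_Ico h h'))

theorem HH_eq (a n : ℕ) : HH (fun k => τ (a + k)) n = Sub τ a (a + n) := by
  unfold HH Sub
  congr 1
  ext x
  constructor
  · rintro ⟨k, hk, rfl⟩; exact ⟨a + k, ⟨by omega, by simp at hk; omega⟩, rfl⟩
  · rintro ⟨k, hk, rfl⟩
    exact ⟨k - a, by simp at hk ⊢; omega, by simp only; congr 1; have := hk.1; omega⟩

def TT (τ : ℕ → K) (lo j : ℕ) : K := ((List.range' lo j).map τ).prod

theorem TT_succ (lo j : ℕ) : TT τ lo (j + 1) = TT τ lo j * τ (lo + j) := by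
  simp [TT, List.range'_concat]
theorem TT_succ' (lo j : ℕ) : TT τ lo (j + 1) = τ lo * TT τ (lo + 1) j := by
  simp [TT, List.range'_succ]

theorem TT_mem (lo j : ℕ) : TT τ lo j ∈ Sub τ lo (lo + j) := by
  induction j with
  | zero => exact one_mem _
  | succ j ih =>
    rw [TT_succ]
    exact mul_mem (Sub_mono le_rfl (by omega) ih) (mem_Sub (by omega) (by omega))

theorem TT_comm {lo j i : ℕ} (h : BR τ lo m) (h1 : lo + j < i) (h2 : i < m) :
    Commute (TT τ lo j) (τ i) := by
  induction j with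
  | zero => exact Commute.one_left _
  | succ j ih => rw [TT_succ]; exact (ih (by omega)).mul_left (h.2 _ _ (by omega) (by omega) h2)

theorem TT_shift {lo j i : ℕ} (h : BR τ lo m) (h1 : lo ≤ i) (h2 : i + 1 < lo + j) (h3 : lo + j ≤ m) :
    TT τ lo j * τ i = τ (i + 1) * TT τ lo j := by
  induction j with
  | zero => omega
  | succ j ih =>
    rcases (show i + 1 ≤ lo + j by omega).eq_or_lt with e | e
    · obtain ⟨j, rfl⟩ : ∃ k, j = k + 1 := ⟨j - 1, by omega⟩
      obtain rfl : i = lo + j := by omega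
      rw [TT_succ, TT_succ, ← add_assoc, mul_assoc, mul_assoc, ← mul_assoc (τ _),
        h.1 _ (by omega) (by omega), ← mul_assoc, ← mul_assoc,
        (TT_comm h (i := lo + j + 1) (by omega) (by omega)).eq]
      group
    · rw [TT_succ, mul_assoc, ← (h.2 i (lo + j) h1 e (by omega)).eq, ← mul_assoc,
        ih e (by omega), mul_assoc]

theorem braid_zpow {a b : K} (h : a * b * a = b * a * b) (k : ℤ) :
    a * b ^ k * a⁻¹ = b⁻¹ * a ^ k * b := by
  have e : a * b * a⁻¹ = b⁻¹ * a * b := by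
    calc _ = b⁻¹ * (b * a * b) * a⁻¹ := by group
      _ = _ := by rw [← h]; group
  rw [← conj_zpow, e]
  simpa using conj_zpow (i := k) (a := b⁻¹) (b := a)

theorem TT_conj (lo : ℕ) (h : BR τ lo m) (k : ℤ) {j : ℕ} (h1 : lo + j < m) :
    TT τ lo j * τ (lo + j) ^ k * (TT τ lo j)⁻¹ =
      Aseq (τ lo ^ k) (fun i => τ (lo + 1 + i)) j := by
  induction j with
  | zero => simp [TT, Aseq]
  | succ j ih =>
    have e1 := braid_zpow (h.1 (lo + j) (by omega) h1) k
    have e2 := (TT_comm h (j := j) (i := lo + j + 1) (by omega) h1)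
    rw [Aseq, ← ih (by omega), TT_succ, show lo + 1 + j = lo + j + 1 by omega, ← add_assoc]
    calc _ = TT τ lo j * (τ (lo + j) * τ (lo + j + 1) ^ k * (τ (lo + j))⁻¹) * (TT τ lo j)⁻¹ := by
          group
      _ = (TT τ lo j * (τ (lo + j + 1))⁻¹) * τ (lo + j) ^ k *
          (TT τ lo j * (τ (lo + j + 1))⁻¹)⁻¹ := by rw [e1]; group
      _ = _ := by rw [e2.inv_right.eq]; group

theorem BR.bb {lo : ℕ} (h : BR τ lo m) :
    BB (τ lo ^ 2) (fun i => τ (lo + 1 + i)) (m - (lo + 1)) := by
  refine ⟨h.shift _ (by omega), fun j h1 h2 => (h.2 _ _ le_rfl (by omega) (by omega)).pow_left 2, fun h0 => ?_⟩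
  have e := h.1 lo le_rfl (by omega)
  simp only [add_zero]
  generalize τ lo = a at *
  generalize τ (lo + 1) = b at *
  calc _ = a * (a * b * a) * a * b := by rw [sq]; group
    _ = a * (b * a * b) * a * b := by rw [e]
    _ = (a * b * a) * (b * a * b) := by group
    _ = (b * a * b) * (a * b * a) := by rw [← e]
    _ = b * a * (b * a * b) * a := by group
    _ = b * a * (a * b * a) * a := by rw [e]
    _ = _ := by rw [sq]; group

theorem coset_dec (lo : ℕ) (h : BR τ lo m) {g : K} (hg : g ∈ Sub τ lo m) :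
    ∃ d ∈ DB (τ lo ^ 2) (fun i => τ (lo + 1 + i)) (m - (lo + 1)), ∃ j, (j = 0 ∨ lo + j ≤ m) ∧
      g = d * TT τ lo j := by
  have hu : ∀ i, lo < i → i < m →
      τ i ∈ DB (τ lo ^ 2) (fun i => τ (lo + 1 + i)) (m - (lo + 1)) := fun i h1 h2 => by
    have := u_mem_DB (t := τ lo ^ 2) (u := fun i => τ (lo + 1 + i)) (n := m - (lo + 1))
      (k := i - (lo + 1)) (by omega)
    simpa only [show lo + 1 + (i - (lo + 1)) = i by omega] using this
  have hA : ∀ j, lo + j < m → TT τ lo j * τ (lo + j) ^ 2 * (TT τ lo j)⁻¹ ∈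
      DB (τ lo ^ 2) (fun i => τ (lo + 1 + i)) (m - (lo + 1)) := fun j hj => by
    have := TT_conj lo h 2 hj
    rw [zpow_ofNat, zpow_ofNat] at this
    rw [this]
    exact A_mem_DB (by omega)
  induction hg using Subgroup.closure_induction_right with
  | one => exact ⟨1, one_mem _, 0, Or.inl rfl, by simp [TT]⟩
  | mul_right x _ y hy ih =>
    obtain ⟨d, hd, j, hj, rfl⟩ := ih
    obtain ⟨i, ⟨h1, h2⟩, rfl⟩ := hy
    rcases lt_trichotomy i (lo + j) with e | rfl | e
    · rcases (Nat.succ_le_of_lt e).eq_or_lt with e | e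
      · obtain ⟨j, rfl⟩ : ∃ k, j = k + 1 := ⟨j - 1, by omega⟩
        obtain rfl : i = lo + j := by omega
        exact ⟨_, mul_mem hd (hA j h2), j, Or.inr (by omega), by rw [TT_succ, sq]; group⟩
      · exact ⟨_, mul_mem hd (hu (i + 1) (by omega) (by omega)), j, hj, by
          rw [mul_assoc, TT_shift h h1 e (by omega), mul_assoc]⟩
    · exact ⟨d, hd, j + 1, Or.inr (by omega), by rw [TT_succ, mul_assoc]⟩
    · exact ⟨_, mul_mem hd (hu i (by omega) h2), j, hj, by
        rw [mul_assoc, (TT_comm h e h2).eq, mul_assoc]⟩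
  | mul_inv_cancel x _ y hy ih =>
    obtain ⟨d, hd, j, hj, rfl⟩ := ih
    obtain ⟨i, ⟨h1, h2⟩, rfl⟩ := hy
    rcases lt_trichotomy i (lo + j) with e | rfl | e
    · rcases (Nat.succ_le_of_lt e).eq_or_lt with e | e
      · obtain ⟨j, rfl⟩ : ∃ k, j = k + 1 := ⟨j - 1, by omega⟩
        obtain rfl : i = lo + j := by omega
        exact ⟨d, hd, j, Or.inr (by omega), by rw [TT_succ]; group⟩
      · refine ⟨_, mul_mem hd (inv_mem (hu (i + 1) (by omega) (by omega))), j, hj, ?_⟩
        rw [mul_inv_eq_iff_eq_mul, mul_assoc, TT_shift h h1 e (by omega)]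
        group
    · exact ⟨_, mul_mem hd (inv_mem (hA j h2)), j + 1, Or.inr (by omega), by
        rw [TT_succ, sq]; group⟩
    · exact ⟨_, mul_mem hd (inv_mem (hu i (by omega) h2)), j, hj, by
        rw [mul_assoc, (TT_comm h e h2).inv_right.eq, mul_assoc]⟩

theorem closure_inv {M : Type} [Group M] (f : K →* MulAut FG) (φ : FG →* M) {S : Set K}
    (h : ∀ s ∈ S, ∀ j, φ (f s (of j)) = φ (of j)) {g : K} (hg : g ∈ Subgroup.closure S) (x : FG) :
    φ (f g x) = φ x := by
  induction hg using Subgroup.closure_induction generalizing x with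
  | mem s hs =>
    have : φ.comp (f s : FG →* FG) = φ := FreeGroup.ext_hom _ _ (h s hs)
    exact DFunLike.congr_fun this x
  | one => simp
  | mul a b _ _ h1 h2 => simp [h1, h2]
  | inv a _ h1 => rw [← h1]; simp

theorem closure_fix (f : K →* MulAut FG) {S : Set K} {x : FG} (h : ∀ s ∈ S, f s x = x) {g : K}
    (hg : g ∈ Subgroup.closure S) : f g x = x := by
  induction hg using Subgroup.closure_induction with
  | mem s hs => exact h s hs
  | one => simp
  | mul a b _ _ h1 h2 => simp [h1, h2]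
  | inv a _ h1 => apply (f a).injective; simp [h1]

theorem faithful {a : ℕ} (h : BR τ a m) (f : K →* MulAut FG)
    (hf : ∀ i, a ≤ i → i < m → f (τ i) = sig i) :
    ∀ (n lo : ℕ), a ≤ lo → m ≤ lo + n → ∀ g ∈ Sub τ lo m, f g = 1 → g = 1 := by
  intro n
  induction n with
  | zero =>
    intro lo _ h1 g hg _
    rwa [Sub, Set.Ico_eq_empty (by omega), Set.image_empty, Subgroup.closure_empty,
      Subgroup.mem_bot] at hg
  | succ n ih =>
    intro lo h0 h1 g hg e
    by_cases hm : m ≤ lo + 1 + n - 1 - n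
    · exact ih (lo + 1) (by omega) (by omega) g (by
        rwa [Sub, Set.Ico_eq_empty (by omega), ← Set.Ico_eq_empty (a := lo + 1) (b := m) (by omega)]
          at hg) e
    obtain ⟨d, hd, j, hj, rfl⟩ := coset_dec lo (h.mono h0 le_rfl) hg
    have hu : ∀ k < m - (lo + 1), f (τ (lo + 1 + k)) = sig (lo + 1 + k) := fun k hk =>
      hf _ (by omega) (by omega)
    have ht : f (τ lo ^ 2) = sig lo ^ 2 := by rw [map_pow, hf lo h0 (by omega)]
    cases j with
    | zero =>
      simp only [TT, List.range'_zero, List.map_nil, List.prod_nil, mul_one] at e ⊢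
      have := (h.mono h0 le_rfl).bb.stab f lo ht hu hd (by simp [e])
      rw [HH_eq] at this
      exact ih (lo + 1) (by omega) (by omega) d (Sub_mono le_rfl (by omega) this) e
    | succ j =>
      exfalso
      have e1 : f (TT τ lo (j + 1)) (of lo) = of lo * of (lo + 1) * (of lo)⁻¹ := by
        rw [TT_succ', map_mul, MulAut.mul_apply, closure_fix f _ (TT_mem (lo + 1) j),
          hf lo h0 (by omega), sig_self]
        rintro _ ⟨i, hi, rfl⟩
        have := hi.1; have := hi.2
        rw [hf i (by omega) (by omega), sig_ne (by omega) (by omega)]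
      have e2 := closure_inv f (dg lo) (by
        rintro _ (rfl | ⟨i, hi, rfl⟩) j
        · rw [ht, sq, MulAut.mul_apply]
          by_cases e : j = lo
          · subst e; simp [sig_self, sig_succ, dg]
          · by_cases e' : j = lo + 1
            · subst e'; simp [sig_self, sig_succ, dg]
            · simp [sig_ne e e']
        · simp only
          rw [hu i hi, sig_of, sigF]
          have : lo + 1 + i ≠ lo := by omega
          have : lo + 1 + i + 1 ≠ lo := by omega
          split_ifs <;> simp_all [dg]) hd (f (TT τ lo (j + 1)) (of lo))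
      rw [← MulAut.mul_apply, ← map_mul, e, e1] at e2
      simp [dg] at e2

end Faithful

end Pool.Agent.Lib.MP_a1ec0a_al
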