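import Pool.Agent.Lib.MP_a1ec0a_al.Base
import Pool.Agent.Lib.MP_a1ec0a_al.S1

/-! Effective versions of the basic notions. -/

namespace Pool.Agent.Lib.MP_a1ec0a_al

open FreeGroup (of mk lift invRev)

abbrev Mat := List (List ℕ)
abbrev VW := ℕ × Wd

def adjb (M : Mat) (i j : ℕ) : Bool :=
  !(i == j) && ((M.getD i []).getD j 0 == 3 && (M.getD j []).getD i 0 == 3)

def Gr (M : Mat) : SimpleGraph ℕ where
  Adj i j := adjb M i j = true
  symm := ⟨fun i j h => by simp only [adjb] at *; grind⟩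
  loopless := ⟨fun i h => by simp [adjb] at h⟩

theorem Gr_adj {M : Mat} {i j : ℕ} : (Gr M).Adj i j ↔ adjb M i j = true := Iff.rfl

def SL (U : List ℕ) : Set ℕ := {s | s ∈ U}
def del (U : List ℕ) (t : ℕ) : List ℕ := U.filter fun s => !(s == t)

theorem SL_del (U : List ℕ) (t : ℕ) : SL (del U t) = SL U \ {t} := by
  ext s; simp [SL, del]
theorem SL_fin (U : List ℕ) : (SL U).Finite := List.finite_toSet U
theorem len_del {U : List ℕ} {t : ℕ} (h : t ∈ SL U) : (del U t).length < U.length :=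
  List.length_filter_lt_length_iff_exists.2 ⟨t, h, by simp⟩

def vx (M : Mat) (p : VW) : Vx (Gr M) := (p.1, ev (Gr M) p.2)

def OneW (M : Mat) (w : Wd) : Prop := ev (Gr M) w = 1
def ParW (M : Mat) (U : List ℕ) (w : Wd) : Prop := ev (Gr M) w ∈ Par (Gr M) (SL U)
def InW (M : Mat) (U : List ℕ) (p : VW) (x : Wd) : Prop := In (SL U) (vx M p) (ev (Gr M) x)
def MtW (M : Mat) (U : List ℕ) (p q : VW) : Prop := Mt (SL U) (vx M p) (vx M q)
def Let (U : List ℕ) (w : Wd) : Prop := ∀ l ∈ w, l.1 ∈ SL U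
def MemL {β : Type} (l : List β) (b : β) : Prop := b ∈ l

def certW (M : Mat) (L : List (Wd × ℕ × ℕ × Bool)) : Wd :=
  L.flatMap fun c => c.1 ++ ((bif c.2.2.2 then relW (adjb M c.2.1 c.2.2.1) c.2.1 c.2.2.1
    else invRev (relW (adjb M c.2.1 c.2.2.1) c.2.1 c.2.2.1)) ++ invRev c.1)

theorem ev_relW (M : Mat) (s t : ℕ) : ev (Gr M) (relW (adjb M s t) s t) = 1 := by
  have := gen_rel (Γ := Gr M) Set.univ s trivial t trivial
  rw [ev, evW, lift_relW]
  cases h : adjb M s t
  · exact this.2 (by simp [Gr_adj, h])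
  · exact this.1 h

theorem oneW_iff (M : Mat) (w : Wd) :
    OneW M w ↔ ∃ L, FreeGroup.reduce (w ++ certW M L) = [] := by
  constructor
  · intro h
    rw [OneW, ev, evW, ← mk_eq_lift, PresentedGroup.mk_eq_one_iff] at h
    have : ∀ x ∈ Subgroup.normalClosure (rels (Gr M)), ∃ L, mk (certW M L) = x := by
      have key : ∀ y ∈ Group.conjugatesOfSet (rels (Gr M)), ∀ L, (∃ L', mk (certW M L') =
          y * mk (certW M L)) ∧ ∃ L', mk (certW M L') = y⁻¹ * mk (certW M L) := by
        intro y hy L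
        obtain ⟨_, ⟨s, t, rfl⟩, hc⟩ := Group.mem_conjugatesOfSet_iff.1 hy
        obtain ⟨c, rfl⟩ := isConj_iff.1 hc
        have e : ∀ d : Decidable ((Gr M).Adj s t), @decide _ d = adjb M s t := fun d => by
          rw [Bool.eq_iff_iff]; simp [Gr_adj]
        rw [e]
        refine ⟨⟨(c.toWord, s, t, true) :: L, ?_⟩, ⟨(c.toWord, s, t, false) :: L, ?_⟩⟩ <;>
        simp only [certW, List.flatMap_cons, ← FreeGroup.mul_mk, ← FreeGroup.inv_mk, cond_true,
          cond_false, FreeGroup.mk_toWord] <;> group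
      intro x hx
      induction hx using Subgroup.closure_induction_left with
      | one => exact ⟨[], rfl⟩
      | mul_left y hy x _ ih => obtain ⟨L, rfl⟩ := ih; exact (key y hy L).1
      | inv_mul_cancel y hy x _ ih => obtain ⟨L, rfl⟩ := ih; exact (key y hy L).2
    obtain ⟨L, hL⟩ := this _ (inv_mem h)
    refine ⟨L, ?_⟩
    rw [← FreeGroup.toWord_mk, ← FreeGroup.mul_mk, hL, mul_inv_cancel, FreeGroup.toWord_one]
  · rintro ⟨L, hL⟩
    have h1 : ev (Gr M) (certW M L) = 1 := by
      clear hL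
      induction L with
      | nil => simp [certW]
      | cons c L ih =>
        rw [certW, List.flatMap_cons, ev_append, ← certW, ih]
        cases c.2.2.2 <;> simp [ev_relW]
    rw [← FreeGroup.toWord_mk, FreeGroup.toWord_eq_nil_iff] at hL
    have : ev (Gr M) (w ++ certW M L) = 1 := by rw [ev, evW, hL, map_one]
    rwa [ev_append, h1, mul_one] at this

def rfL (M : Mat) (s : ℕ) (v : List ℕ) : List ℕ :=
  v.filter (fun r => !(r == s)) ++
    List.replicate ((v.filter fun r => adjb M s r).length - (v.filter fun r => r == s).length) s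

def stepP (M : Mat) (x : List (ℕ × List ℕ) × Wd) (l : ℕ × Bool) : List (ℕ × List ℕ) × Wd :=
  PR.lcases (x.1.filter fun p => p.2 == [l.1]) (x.1.map fun p => (p.1, rfL M l.1 p.2), x.2)
    fun p _ => (x.1, x.2 ++ [(p.1, l.2)])

def piW (M : Mat) (U : List ℕ) (w : Wd) : Wd :=
  (w.foldl (stepP M) (U.map fun t => (t, [t]), [])).2

noncomputable def cnt (v : List ℕ) : RV := (v.map al).sum

theorem cnt_apply (v : List ℕ) (r : ℕ) : cnt v r = v.count r := by
  induction v with
  | nil => simp [cnt]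
  | cons a v ih =>
    rw [cnt, List.map_cons, List.sum_cons, Finsupp.add_apply, ← cnt, ih, al_apply, List.count_cons]
    split_ifs <;> simp_all; ring

theorem cnt_eq {v : List ℕ} {s : ℕ} : cnt v = al s ↔ v = [s] := by
  refine ⟨fun h => List.perm_singleton.1 (List.perm_iff_count.2 fun r => ?_), ?_⟩
  · have := cnt_apply [s] r
    rw [cnt, List.map_singleton, List.sum_singleton, ← h, cnt_apply] at this
    exact_mod_cast this
  · rintro rfl; simp [cnt]

theorem pr_cnt (M : Mat) (s : ℕ) (v : List ℕ) : pr (Gr M) s (cnt v) =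
    2 * (v.filter fun r => r == s).length - (v.filter fun r => adjb M s r).length := by
  induction v with
  | nil => simp [cnt]
  | cons a v ih =>
    rw [cnt, List.map_cons, List.sum_cons, map_add, ← cnt, ih, pr_al]
    by_cases h : a = s
    · subst h
      have : adjb M a a = false := by simp [adjb]
      simp [cart_self, this]; ring
    · cases h' : adjb M s a
      · simp [cart_nadj (Γ := Gr M) (by simp [Gr_adj, h']) (Ne.symm h), h, h']
      · simp [cart_adj (Γ := Gr M) h', h, h']; ring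

theorem rf_cnt (M : Mat) (s : ℕ) (v : List ℕ) (h : 0 ≤ rf (Gr M) s (cnt v)) :
    rf (Gr M) s (cnt v) = cnt (rfL M s v) := by
  have e : (v.filter fun r => r == s).length = v.count s := by
    rw [List.count_eq_countP, List.countP_eq_length_filter]
  ext r
  by_cases hr : r = s
  · subst hr
    have := h r
    rw [rf_apply, pr_cnt] at this ⊢
    simp only [Finsupp.coe_sub, Finsupp.coe_smul, Pi.sub_apply, Pi.smul_apply, al_self, cnt_apply,
      smul_eq_mul, mul_one, Finsupp.coe_zero, Pi.zero_apply, rfL, List.count_append,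
      List.count_replicate_self, e] at this ⊢
    rw [List.count_eq_zero.2 (show r ∉ v.filter fun r' => !(r' == r) by simp)]
    omega
  · rw [rf_coord hr, cnt_apply, cnt_apply, rfL, List.count_append, List.count_filter (by simp [hr]),
      List.count_replicate]
    simp [Ne.symm hr]

def Inv (M : Mat) (U : List ℕ) (S : List (ℕ × List ℕ)) (y : St (Gr M) (SL U)) : Prop :=
  ∃ f : ℕ → List ℕ, S = U.map (fun t => (t, f t)) ∧ ∀ t ∈ U, y.1 (al t) = cnt (f t)

theorem stepP_spec {M : Mat} {U : List ℕ} {x : List (ℕ × List ℕ) × Wd} {y : St (Gr M) (SL U)}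
    (h : Inv M U x.1 y) (l : ℕ × Bool) (κ : ℕ → AG (Gr M)) (hκ : ∀ t, κ t = ev (Gr M) [(t, l.2)]) :
    Inv M U (stepP M x l).1 (mv κ l.1 (y, ev (Gr M) x.2)).1 ∧
      ev (Gr M) (stepP M x l).2 = (mv κ l.1 (y, ev (Gr M) x.2)).2 := by
  obtain ⟨f, h1, h2⟩ := id h
  unfold stepP
  cases e : x.1.filter fun p => p.2 == [l.1] with
  | nil =>
    have hn : ∀ t ∈ SL U, y.1 (al t) ≠ al l.1 := fun t ht e' => by
      rw [h2 t ht, cnt_eq] at e'
      have : (t, f t) ∈ x.1.filter fun p => p.2 == [l.1] := by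
        rw [List.mem_filter, h1]
        exact ⟨List.mem_map.2 ⟨t, ht, rfl⟩, by simpa using e'⟩
      simp [e] at this
    rw [mv_neg κ y _ hn]
    refine ⟨⟨fun t => rfL M l.1 (f t), by simp [PR.lcases, h1], fun t ht => ?_⟩, rfl⟩
    have := (y.next l.1 hn).pos t ht
    change 0 ≤ rf _ _ (y.1 _) at this
    change rf _ _ (y.1 _) = _
    rw [h2 t ht] at this ⊢
    exact rf_cnt M _ _ this
  | cons p S =>
    have : p ∈ x.1.filter fun p => p.2 == [l.1] := by simp [e]
    rw [List.mem_filter, h1] at this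
    obtain ⟨t, ht, rfl⟩ := List.mem_map.1 this.1
    rw [mv_pos κ y _ ht (by rw [h2 t ht, cnt_eq]; simpa using this.2)]
    exact ⟨h, by simp [PR.lcases, hκ]⟩

theorem ev_piW (M : Mat) (U : List ℕ) (w : Wd) :
    ev (Gr M) (piW M U w) = piU (SL U) (ev (Gr M) w) := by
  have : ∀ (w : Wd) (x : List (ℕ × List ℕ) × Wd) (y : St (Gr M) (SL U)), Inv M U x.1 y →
      ev (Gr M) (w.foldl (stepP M) x).2 =
        (run (gen_rel (SL U)) (ev (Gr M) w) (y, ev (Gr M) x.2)).2 := by
    intro w
    induction w with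
    | nil => intro x y _; simp [run_one]
    | cons l w ih =>
      intro x y h
      obtain ⟨s, b⟩ := l
      cases b
      · obtain ⟨a1, a2⟩ := stepP_spec h (s, false) (fun t => (gen (Gr M) t)⁻¹) fun t => by
          simp [ev, evW_false]
        rw [List.foldl_cons, ih _ _ a1, a2, ev.eq_1 _ (_ :: _), evW_false, run_mul, run_gen_inv]; rfl
      · obtain ⟨a1, a2⟩ := stepP_spec h (s, true) (gen (Gr M)) fun t => by simp [ev, evW_true]
        rw [List.foldl_cons, ih _ _ a1, a2, ev.eq_1 _ (_ :: _), evW_true, run_mul, run_gen]; rfl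
  rw [piW, this w _ (St.one _ _) ⟨fun t => [t], rfl, fun t _ => by simp [cnt, St.one]⟩, piU, val,
    ev_nil]

def retW (M : Mat) (U : List ℕ) (u : VW) (z : Wd) : Wd :=
  u.2 ++ piW M (del U u.1) (invRev u.2 ++ z)

theorem ev_retW (M : Mat) (U : List ℕ) (u : VW) (z : Wd) :
    ev (Gr M) (retW M U u z) = ret (SL U) (vx M u) (ev (Gr M) z) := by
  simp [retW, ev_piW, SL_del, ret, vx]

def naW (M : Mat) (U : List ℕ) (u v : VW) : Wd :=
  invRev (invRev v.2 ++ retW M U u v.2) ++ piW M (del U v.1) (invRev v.2 ++ retW M U u v.2)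

theorem naW_iff {M : Mat} {U : List ℕ} {u v : VW} : ev (Gr M) (naW M U u v) = 1 ↔ MtW M U u v := by
  rw [MtW, mt_iff, naW, ev_append, ev_invRev, ev_piW, inv_mul_eq_one, SL_del, ev_append, ev_invRev,
    ev_retW]
  exact ⟨fun h => by rw [In]; exact h ▸ piU_mem' _, fun h => (piU_self h).symm⟩

def Near (M : Mat) (U : List ℕ) (x y : Wd) : Prop :=
  (ev (Gr M) x)⁻¹ * ev (Gr M) y ∈ Par (Gr M) (SL U)

theorem naW_par {M : Mat} {U : List ℕ} {u v : VW} (h : Near M U u.2 v.2) :
    ParW M U (naW M U u v) := by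
  simp only [ParW, naW, retW, ev_append, ev_invRev, ev_piW, SL_del]
  refine mul_mem (inv_mem ?_) (Par_mono Set.sdiff_subset (piU_mem' _))
  rw [← mul_assoc]
  refine mul_mem ?_ (Par_mono Set.sdiff_subset (piU_mem' _))
  simpa using inv_mem h

def sigW (l : ℕ × Bool) (j : ℕ) : Wd :=
  bif l.2 then bif j == l.1 then [(l.1, true), (l.1 + 1, true), (l.1, false)]
    else bif j == l.1 + 1 then [(l.1, true)] else [(j, true)]
  else bif j == l.1 then [(l.1 + 1, true)]
    else bif j == l.1 + 1 then [(l.1 + 1, false), (l.1, true), (l.1 + 1, true)] else [(j, true)]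

def act (sw x : Wd) : Wd := sw.foldr (fun l y => subW (sigW l) y) x

theorem evW_of (w : Wd) : evW of w = mk w := by rw [evW, FreeGroup.lift_of_apply]

theorem mk_act (sw x : Wd) : mk (act sw x) = evW sig sw (mk x) := by
  induction sw with
  | nil => simp [act]
  | cons l sw ih =>
    rw [act, List.foldr_cons, ← act, ← evW_of, evW_subW, evW_cons, MulAut.mul_apply, ← ih,
      ← evW_of (act sw x)]
    refine Eq.trans (evW_congr fun k _ => ?_)
      (map_evW _ (bif l.2 then sig l.1 else (sig l.1)⁻¹ : MulAut FG).toMonoidHom _).symm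
    obtain ⟨i, b⟩ := l
    cases b
    · change _ = (sig i)⁻¹ (of k.1)
      rw [sig_inv_of, sigB, sigW]
      split_ifs <;> simp [*, evW_true, evW_false, mul_assoc, Bool.cond_eq_ite]
    · change _ = sig i (of k.1)
      rw [sig_of, sigF, sigW]
      split_ifs <;> simp [*, evW_true, evW_false, mul_assoc, Bool.cond_eq_ite]

theorem act_iff (sw : Wd) (j : ℕ) : FreeGroup.reduce (act sw [(j, true)]) = [(j, true)] ↔
    evW sig sw (of j) = of j := by
  rw [← FreeGroup.toWord_mk, mk_act, ← FreeGroup.toWord_of, FreeGroup.toWord_inj]; rfl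

def TrivW (sw : Wd) : Prop := evW sig sw = 1
def NTrivW (sw : Wd) : Prop := evW sig sw ≠ 1

def wordsN (A : List ℕ) (n : ℕ) : List Wd :=
  (List.range n).foldr
    (fun _ W => W ++ W.flatMap fun w => A.flatMap fun s => [(s, true) :: w, (s, false) :: w]) [[]]

theorem mem_wordsN {A : List ℕ} {n : ℕ} {w : Wd} : w ∈ wordsN A n ↔ Let A w ∧ w.length ≤ n := by
  have : ∀ (L : List ℕ) (w : Wd), w ∈ L.foldr (fun _ W => W ++ W.flatMap fun w =>
      A.flatMap fun s => [(s, true) :: w, (s, false) :: w]) [[]] ↔ Let A w ∧ w.length ≤ L.length := by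
    intro L
    induction L with
    | nil => intro w; cases w <;> simp [Let]
    | cons a L ih =>
      intro w
      simp only [List.foldr_cons, List.mem_append, List.mem_flatMap, ih, List.length_cons,
        List.mem_cons, List.not_mem_nil, or_false]
      constructor
      · rintro (h | ⟨v, h, s, hs, rfl | rfl⟩)
        · exact ⟨h.1, by omega⟩
        · exact ⟨List.forall_mem_cons.2 ⟨hs, h.1⟩, by simpa using h.2⟩
        · exact ⟨List.forall_mem_cons.2 ⟨hs, h.1⟩, by simpa using h.2⟩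
      · rintro ⟨h1, h2⟩
        cases w with
        | nil => exact Or.inl ⟨h1, by simp⟩
        | cons l w =>
          obtain ⟨s, b⟩ := l
          have := List.forall_mem_cons.1 h1
          exact Or.inr ⟨w, ⟨this.2, by simpa using h2⟩, s, this.1, by cases b <;> simp⟩
  simpa [wordsN] using this (List.range n) w

section Eff
variable {α β : Type} [Primcodable α] [Primcodable β] {M : α → Mat} {U : α → List ℕ}
  {w x : α → Wd} {p q : α → VW} {s t : α → ℕ}

@[fun_prop] theorem PR.beq' [BEq β] [LawfulBEq β] {f g : α → β} (hf : PR f) (hg : PR g) :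
    PR fun a => f a == g a := by
  classical
  exact (PR.beq hf hg).congr fun a => by rw [Bool.eq_iff_iff]; simp
@[fun_prop] theorem PR.adjb (hM : PR M) (hs : PR s) (ht : PR t) :
    PR fun a => adjb (M a) (s a) (t a) := by unfold Pool.Agent.Lib.MP_a1ec0a_al.adjb; fun_prop
@[fun_prop] theorem PR.del (hU : PR U) (ht : PR t) : PR fun a => del (U a) (t a) := by
  unfold Pool.Agent.Lib.MP_a1ec0a_al.del; fun_prop
@[fun_prop] theorem PR.relW {b : α → Bool} (hb : PR b) (hs : PR s) (ht : PR t) :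
    PR fun a => relW (b a) (s a) (t a) := by unfold Pool.Agent.Lib.MP_a1ec0a_al.relW; fun_prop
@[fun_prop] theorem PR.subW {T : α → ℕ → Wd} (hT : PR fun y : α × ℕ => T y.1 y.2) (hw : PR w) :
    PR fun a => subW (T a) (w a) := by unfold Pool.Agent.Lib.MP_a1ec0a_al.subW; fun_prop
@[fun_prop] theorem PR.rfL (hM : PR M) (hs : PR s) (hU : PR U) :
    PR fun a => rfL (M a) (s a) (U a) := by unfold Pool.Agent.Lib.MP_a1ec0a_al.rfL; fun_prop
@[fun_prop] theorem PR.stepP {y : α → List (ℕ × List ℕ) × Wd} {l : α → ℕ × Bool} (hM : PR M)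
    (hy : PR y) (hl : PR l) : PR fun a => stepP (M a) (y a) (l a) := by
  unfold Pool.Agent.Lib.MP_a1ec0a_al.stepP
  refine PR.lcases' (h := fun a (p : ℕ × List ℕ) _ => ((y a).1, (y a).2 ++ [(p.1, (l a).2)]))
    ?_ ?_ ?_ <;> fun_prop
@[fun_prop] theorem PR.piW (hM : PR M) (hU : PR U) (hw : PR w) :
    PR fun a => piW (M a) (U a) (w a) := by
  unfold Pool.Agent.Lib.MP_a1ec0a_al.piW; fun_prop
@[fun_prop] theorem PR.retW (hM : PR M) (hU : PR U) (hp : PR p) (hw : PR w) :
    PR fun a => retW (M a) (U a) (p a) (w a) := by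
  unfold Pool.Agent.Lib.MP_a1ec0a_al.retW; fun_prop
@[fun_prop] theorem PR.naW (hM : PR M) (hU : PR U) (hp : PR p) (hq : PR q) :
    PR fun a => naW (M a) (U a) (p a) (q a) := by
  unfold Pool.Agent.Lib.MP_a1ec0a_al.naW; fun_prop
@[fun_prop] theorem PR.act (hw : PR w) (hx : PR x) : PR fun a => act (w a) (x a) := by
  unfold Pool.Agent.Lib.MP_a1ec0a_al.act sigW; fun_prop
@[fun_prop] theorem PR.wordsN (hU : PR U) (hs : PR s) : PR fun a => wordsN (U a) (s a) := by
  unfold Pool.Agent.Lib.MP_a1ec0a_al.wordsN; fun_prop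
@[fun_prop] theorem PR.BND (hs : PR s) (ht : PR t) : PR fun a => BND (s a) (t a) := by
  unfold Pool.Agent.Lib.MP_a1ec0a_al.BND; fun_prop

@[fun_prop] theorem S1.ne {f g : α → β} (hf : PR f) (hg : PR g) : S1 fun a => f a ≠ g a := by
  classical
  exact (S1.eq (f := fun a => f a == g a) (g := fun _ => false) (by fun_prop) (by fun_prop)).congr
    fun a => by simp
@[fun_prop] theorem S1.memL {l : α → List β} {f : α → β} (hl : PR l) (hf : PR f) :
    S1 fun a => MemL (l a) (f a) := by
  classical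
  exact (S1.eq (f := fun a => (l a).any fun b => b == f a) (g := fun _ => true) (by fun_prop)
    (by fun_prop)).congr fun a => by simp [MemL]
@[fun_prop] theorem S1.let (hU : PR U) (hw : PR w) : S1 fun a => Let (U a) (w a) :=
  S1.congr (p := fun a => AllL (w a) fun l => MemL (U a) l.1) (by fun_prop) fun _ => Iff.rfl
@[fun_prop] theorem S1.oneW (hM : PR M) (hw : PR w) : S1 fun a => OneW (M a) (w a) :=
  S1.congr (p := fun a => ∃ L, FreeGroup.reduce (w a ++ certW (M a) L) = [])
    (by unfold certW; fun_prop) fun _ => (oneW_iff _ _).symm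
@[fun_prop] theorem S1.parW (hM : PR M) (hU : PR U) (hw : PR w) :
    S1 fun a => ParW (M a) (U a) (w a) :=
  S1.congr (p := fun a => ∃ w', Let (U a) w' ∧ OneW (M a) (invRev (w a) ++ w')) (by fun_prop)
    fun a => by
      simp only [OneW, ev_append, ev_invRev, inv_mul_eq_one]
      exact ⟨fun ⟨w', a, b⟩ => by rw [ParW, b]; exact ev_mem a,
        fun h => let ⟨w', a, b⟩ := exists_word h; ⟨w', a, b.symm⟩⟩
@[fun_prop] theorem S1.inW (hM : PR M) (hU : PR U) (hp : PR p) (hw : PR w) :
    S1 fun a => InW (M a) (U a) (p a) (w a) :=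
  S1.congr (p := fun a => ParW (M a) (del (U a) (p a).1) (invRev (p a).2 ++ w a)) (by fun_prop)
    fun a => by simp [ParW, InW, In, vx, SL_del]
@[fun_prop] theorem S1.mtW (hM : PR M) (hU : PR U) (hp : PR p) (hq : PR q) :
    S1 fun a => MtW (M a) (U a) (p a) (q a) :=
  S1.congr (p := fun a => OneW (M a) (naW (M a) (U a) (p a) (q a))) (by fun_prop)
    fun _ => naW_iff
@[fun_prop] theorem S1.trivW (hw : PR w) : S1 fun a => TrivW (w a) :=
  S1.congr (p := fun a => ∃ N : ℕ, (AllL (w a) fun l => Nat.ble (l.1 + 1) N = true) ∧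
    AllL (List.range (N + 1)) fun j => FreeGroup.reduce (act (w a) [(j, true)]) = [(j, true)])
    (by fun_prop) fun a => by
      simp only [AllL, act_iff, Nat.ble_eq, List.mem_range, TrivW]
      constructor
      · rintro ⟨N, h1, h2⟩
        refine aut_ext fun j => ?_
        by_cases h : j < N + 1
        · exact h2 j h
        · exact evW_fix fun l hl => by have := h1 l hl; exact sig_ne (by omega) (by omega)
      · intro h
        obtain ⟨N, hN⟩ := (List.finite_toSet ((w a).map fun l => l.1 + 1)).bddAbove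
        exact ⟨N, fun l hl => hN (List.mem_map.2 ⟨l, hl, rfl⟩), fun j _ => by rw [h]; rfl⟩
@[fun_prop] theorem S1.ntrivW (hw : PR w) : S1 fun a => NTrivW (w a) :=
  S1.congr (p := fun a => ∃ j : ℕ, FreeGroup.reduce (act (w a) [(j, true)]) ≠ [(j, true)])
    (by fun_prop) fun a => by
      simp only [Ne, act_iff, NTrivW, ← not_forall]
      exact not_congr ⟨fun h => aut_ext h, fun h j => by rw [h]; rfl⟩

end Eff

/-- Monotone finitary conditions on a set of judgments. -/
def Cpt {J : Type} (F : (J → Prop) → Prop) : Prop :=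
  (∀ P Q : J → Prop, (∀ j, P j → Q j) → F P → F Q) ∧
    ∀ P, F P → ∃ l, (∀ i ∈ l, P i) ∧ F (MemL l)

namespace Cpt
variable {J : Type} {F G : (J → Prop) → Prop}
theorem const (q : Prop) : Cpt fun _ : J → Prop => q := ⟨fun _ _ _ h => h, fun _ h => ⟨[], by simp, h⟩⟩
theorem atom (j : J) : Cpt fun P : J → Prop => P j :=
  ⟨fun _ _ h => h j, fun _ h => ⟨[j], by simpa using h, by simp [MemL]⟩⟩
theorem and (hF : Cpt F) (hG : Cpt G) : Cpt fun P => F P ∧ G P :=
  ⟨fun P Q h a => ⟨hF.1 P Q h a.1, hG.1 P Q h a.2⟩, fun P a => by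
    obtain ⟨l, b1, b2⟩ := hF.2 P a.1
    obtain ⟨l', c1, c2⟩ := hG.2 P a.2
    exact ⟨l ++ l', List.forall_mem_append.2 ⟨b1, c1⟩,
      hF.1 _ _ (fun j => List.mem_append_left _) b2, hG.1 _ _ (fun j => List.mem_append_right _) c2⟩⟩
theorem or (hF : Cpt F) (hG : Cpt G) : Cpt fun P => F P ∨ G P :=
  ⟨fun P Q h a => a.imp (hF.1 P Q h) (hG.1 P Q h), fun P a => by
    rcases a with a | a
    · obtain ⟨l, b1, b2⟩ := hF.2 P a; exact ⟨l, b1, Or.inl b2⟩
    · obtain ⟨l, b1, b2⟩ := hG.2 P a; exact ⟨l, b1, Or.inr b2⟩⟩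
theorem ex {β : Type} {F : β → (J → Prop) → Prop} (hF : ∀ b, Cpt (F b)) :
    Cpt fun P => ∃ b, F b P :=
  ⟨fun P Q h ⟨b, a⟩ => ⟨b, (hF b).1 P Q h a⟩, fun P ⟨b, a⟩ =>
    let ⟨l, b1, b2⟩ := (hF b).2 P a; ⟨l, b1, b, b2⟩⟩
theorem all {β : Type} {F : β → (J → Prop) → Prop} (L : List β) (hF : ∀ b, Cpt (F b)) :
    Cpt fun P => AllL L fun b => F b P := by
  induction L with
  | nil => simpa [AllL] using const True
  | cons b L ih => simpa [AllL] using (hF b).and ih
end Cpt

end Pool.Agent.Lib.MP_a1ec0a_al
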