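import Mathlib

/-! Components of triangle-free claw-free graphs are paths and cycles. -/

namespace Pool.Agent.Lib.MP_a1ec0a_al

def ClawFree (Γ : SimpleGraph ℕ) (U : Set ℕ) : Prop :=
  ∀ a ∈ U, ∀ b ∈ U, ∀ c ∈ U, ∀ d ∈ U, Γ.Adj a b → Γ.Adj a c → Γ.Adj a d → b ≠ c → b ≠ d → c ≠ d →
    Γ.Adj b c ∨ Γ.Adj b d ∨ Γ.Adj c d

def TriFree (Γ : SimpleGraph ℕ) (U : Set ℕ) : Prop :=
  ∀ a ∈ U, ∀ b ∈ U, ∀ c ∈ U, Γ.Adj a b → Γ.Adj b c → ¬ Γ.Adj a c

theorem ClawFree.mono {Γ : SimpleGraph ℕ} {U U' : Set ℕ} (h : ClawFree Γ U) (h' : U' ⊆ U) :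
    ClawFree Γ U' := fun a ha b hb c hc d hd => h a (h' ha) b (h' hb) c (h' hc) d (h' hd)

theorem TriFree.mono {Γ : SimpleGraph ℕ} {U U' : Set ℕ} (h : TriFree Γ U) (h' : U' ⊆ U) :
    TriFree Γ U' := fun a ha b hb c hc => h a (h' ha) b (h' hb) c (h' hc)

def pat (cyc : Prop) (m i j : ℕ) : Prop :=
  i + 1 = j ∨ j + 1 = i ∨ (cyc ∧ ((i = 0 ∧ j + 1 = m) ∨ (j = 0 ∧ i + 1 = m)))

structure Ind (Γ : SimpleGraph ℕ) (U : Set ℕ) (cyc : Prop) (e : ℕ → ℕ) (m : ℕ) : Prop where
  mem : ∀ i < m, e i ∈ U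
  inj : ∀ i < m, ∀ j < m, e i = e j → i = j
  adj : ∀ i < m, ∀ j < m, Γ.Adj (e i) (e j) ↔ pat cyc m i j

structure Comp (Γ : SimpleGraph ℕ) (U : Set ℕ) (cyc : Prop) (e : ℕ → ℕ) (m : ℕ) : Prop
    extends Ind Γ U cyc e m where
  closed : ∀ s ∈ U, (∀ i < m, e i ≠ s) → ∀ i < m, ¬ Γ.Adj s (e i)

variable {Γ : SimpleGraph ℕ} {U : Set ℕ}

theorem Ind.le_card {cyc : Prop} {e : ℕ → ℕ} {m : ℕ} (h : Ind Γ U cyc e m) {L : List ℕ}
    (hL : ∀ s ∈ U, s ∈ L) : m ≤ L.length := by
  have := Finset.card_le_card_of_injOn (s := Finset.range m) (t := L.toFinset) e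
    (fun i hi => by simpa using hL _ (h.mem i (by simpa using hi)))
    (fun i hi j hj => h.inj i (by simpa using hi) j (by simpa using hj))
  simpa using this.trans (List.toFinset_card_le L)

def nx (m i : ℕ) : ℕ := if i + 1 = m then 0 else i + 1
def pv (m i : ℕ) : ℕ := if i = 0 then m - 1 else i - 1

theorem nx_lt {m i : ℕ} (h : i < m) : nx m i < m := by unfold nx; split_ifs <;> omega
theorem pv_lt {m i : ℕ} (h : i < m) : pv m i < m := by unfold pv; split_ifs <;> omega
theorem nx_cases (m i : ℕ) : (i + 1 = m ∧ nx m i = 0) ∨ (i + 1 ≠ m ∧ nx m i = i + 1) := by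
  unfold nx; split_ifs with h
  · exact Or.inl ⟨h, rfl⟩
  · exact Or.inr ⟨h, rfl⟩
theorem pv_cases (m i : ℕ) : (i = 0 ∧ pv m i = m - 1) ∨ (i ≠ 0 ∧ pv m i = i - 1) := by
  unfold pv; split_ifs with h
  · exact Or.inl ⟨h, rfl⟩
  · exact Or.inr ⟨h, rfl⟩
theorem pv_nx {m i : ℕ} (h : i < m) : pv m (nx m i) = i := by
  have := nx_cases m i; have := pv_cases m (nx m i); omega
theorem nx_pv {m i : ℕ} (h : i < m) : nx m (pv m i) = i := by
  unfold pv nx; split_ifs <;> omega
theorem pat_nx {m i j : ℕ} (hi : i < m) (hj : j < m) :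
    pat True m (nx m i) (nx m j) ↔ pat True m i j := by
  have := nx_cases m i; have := nx_cases m j
  unfold pat; simp only [true_and]; omega
theorem pat_pv {m i j : ℕ} (hi : i < m) (hj : j < m) :
    pat True m (pv m i) (pv m j) ↔ pat True m i j := by
  rw [← pat_nx (pv_lt hi) (pv_lt hj), nx_pv hi, nx_pv hj]

theorem Comp.rot {e : ℕ → ℕ} {m : ℕ} (h : Comp Γ U True e m) :
    Comp Γ U True (fun i => e (nx m i)) m where
  mem i hi := h.mem _ (nx_lt hi)
  inj i hi j hj e := by rw [← pv_nx hi, h.inj _ (nx_lt hi) _ (nx_lt hj) e, pv_nx hj]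
  adj i hi j hj := by rw [h.adj _ (nx_lt hi) _ (nx_lt hj), pat_nx hi hj]
  closed s hs hne i hi := h.closed s hs
    (fun j hj => by have := hne _ (pv_lt hj); rwa [nx_pv hj] at this) _ (nx_lt hi)

theorem Comp.rot_iter {m : ℕ} (k : ℕ) : ∀ {e : ℕ → ℕ}, Comp Γ U True e m → k + 1 < m →
    ∃ e', Comp Γ U True e' m ∧ e' 0 = e k ∧ e' 1 = e (k + 1) := by
  induction k with
  | zero => exact fun h _ => ⟨_, h, rfl, rfl⟩
  | succ k ih =>
    intro e h hk
    obtain ⟨e', h1, h2, h3⟩ := ih h.rot (by omega)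
    refine ⟨e', h1, ?_, ?_⟩
    · rw [h2, nx, if_neg (by omega)]
    · rw [h3, nx, if_neg (by omega)]

theorem Ind.snoc {e : ℕ → ℕ} {m v : ℕ} (cyc : Prop) (h : Ind Γ U False e m) (hv : v ∈ U)
    (hne : ∀ i < m, e i ≠ v) (ha : ∀ i < m, Γ.Adj v (e i) ↔ i + 1 = m ∨ (cyc ∧ i = 0))
    (hm : cyc → 0 < m) : Ind Γ U cyc (fun i => if i = m then v else e i) (m + 1) where
  mem i hi := by
    split_ifs
    · exact hv
    · exact h.mem i (by omega)
  inj i hi j hj := by
    split_ifs with h1 h2 h2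
    · omega
    · exact fun e' => absurd e'.symm (hne j (by omega))
    · exact fun e' => absurd e' (hne i (by omega))
    · exact h.inj i (by omega) j (by omega)
  adj i hi j hj := by
    unfold pat
    by_cases c : cyc <;> simp only [c, true_and, false_and, or_false, true_implies] at * <;>
      split_ifs with h1 h2 h2
    all_goals first
      | (simp only [SimpleGraph.irrefl, false_iff]; omega)
      | (rw [h.adj i (by omega) j (by omega)]; simp only [pat, false_and, or_false]; omega)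
      | (rw [h.adj i (by omega) j (by omega)]; simp only [pat, false_and, or_false])
      | (rw [ha j (by omega)]; omega)
      | (rw [Γ.adj_comm, ha i (by omega)]; omega)

theorem Ind.cons {e : ℕ → ℕ} {m v : ℕ} (h : Ind Γ U False e m) (hv : v ∈ U)
    (hne : ∀ i < m, e i ≠ v) (ha : ∀ i < m, Γ.Adj v (e i) ↔ i = 0) :
    Ind Γ U False (fun i => if i = 0 then v else e (i - 1)) (m + 1) where
  mem i hi := by
    split_ifs
    · exact hv
    · exact h.mem _ (by omega)
  inj i hi j hj := by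
    split_ifs with h1 h2 h2
    · omega
    · exact fun e' => absurd e'.symm (hne _ (by omega))
    · exact fun e' => absurd e' (hne _ (by omega))
    · exact fun e' => by have := h.inj _ (by omega) _ (by omega) e'; omega
  adj i hi j hj := by
    simp only [pat, false_and, or_false]
    split_ifs with h1 h2 h2
    · simp only [SimpleGraph.irrefl, false_iff]; omega
    · rw [ha _ (by omega)]; omega
    · rw [Γ.adj_comm, ha _ (by omega)]; omega
    · rw [h.adj _ (by omega) _ (by omega)]; simp only [pat, false_and, or_false]; omega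

theorem Ind.no_mid (hC : ClawFree Γ U) (hT : TriFree Γ U) {cyc : Prop} {e : ℕ → ℕ} {m : ℕ}
    (h : Ind Γ U cyc e m) {v i j k : ℕ} (hv : v ∈ U) (hne : ∀ i < m, e i ≠ v) (hi : i < m)
    (hj : j < m) (hk : k < m) (h1 : pat cyc m i j) (h2 : pat cyc m i k) (h3 : j ≠ k) :
    ¬ Γ.Adj v (e i) := by
  intro ha
  have a1 := (h.adj i hi j hj).2 h1
  have a2 := (h.adj i hi k hk).2 h2
  rcases hC _ (h.mem i hi) _ (h.mem j hj) _ (h.mem k hk) v hv a1 a2 ha.symm
    (fun e' => h3 (h.inj j hj k hk e')) (hne j hj) (hne k hk) with b | b | b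
  · exact hT _ (h.mem i hi) _ (h.mem j hj) _ (h.mem k hk) a1 b a2
  · exact hT _ (h.mem i hi) _ (h.mem j hj) _ hv a1 b ha.symm
  · exact hT _ (h.mem i hi) _ (h.mem k hk) _ hv a2 b ha.symm

theorem exists_comp (hC : ClawFree Γ U) (hT : TriFree Γ U) {L : List ℕ} (hL : ∀ s ∈ U, s ∈ L)
    {c b : ℕ} (hc : c ∈ U) (hb : b ∈ U) (ha : Γ.Adj c b) :
    (∃ e m k, Comp Γ U False e m ∧ k + 1 < m ∧ e k = c ∧ e (k + 1) = b) ∨
    (∃ e m, Comp Γ U True e m ∧ 4 ≤ m ∧ e 0 = c ∧ e 1 = b) := by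
  have key : ∀ (n m : ℕ) (e : ℕ → ℕ) (k : ℕ), L.length ≤ m + n → Ind Γ U False e m → k + 1 < m →
      e k = c → e (k + 1) = b →
      (∃ e m k, Comp Γ U False e m ∧ k + 1 < m ∧ e k = c ∧ e (k + 1) = b) ∨
      (∃ e m, Comp Γ U True e m ∧ 4 ≤ m ∧ e 0 = c ∧ e 1 = b) := by
    intro n
    induction n using Nat.strong_induction_on with
    | _ n ih =>
    intro m e k hn h hk e1 e2
    by_cases hcl : ∀ s ∈ U, (∀ i < m, e i ≠ s) → ∀ i < m, ¬ Γ.Adj s (e i)
    · exact Or.inl ⟨e, m, k, ⟨h, hcl⟩, hk, e1, e2⟩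
    push Not at hcl
    obtain ⟨v, hv, hne, i, hi, hvi⟩ := hcl
    have mid : ∀ i < m, Γ.Adj v (e i) → i = 0 ∨ i + 1 = m := fun i hi hvi => by
      by_contra hn
      exact h.no_mid hC hT hv hne hi (j := i - 1) (k := i + 1) (by omega) (by omega)
        (by unfold pat; omega) (by unfold pat; omega) (by omega) hvi
    obtain ⟨m', rfl⟩ : ∃ m', m = m' + 1 := ⟨m - 1, by omega⟩
    by_cases h0 : Γ.Adj v (e 0) <;> by_cases h1 : Γ.Adj v (e m')
    · right
      have h2 := h.snoc True hv hne (fun i hi => ⟨fun a => by have := mid i hi a; tauto, by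
        rintro (a | ⟨-, rfl⟩)
        · rwa [show i = m' by omega]
        · exact h0⟩) (by omega)
      have h3 : 2 ≤ m' := by
        by_contra hn
        obtain rfl : m' = 1 := by omega
        exact hT _ hv _ (h.mem 0 (by omega)) _ (h.mem 1 (by omega)) h0
          ((h.adj 0 (by omega) 1 (by omega)).2 (Or.inl rfl)) h1
      have h4 : Comp Γ U True (fun i => if i = m' + 1 then v else e i) (m' + 1 + 1) :=
        ⟨h2, fun s hs hne i hi => h2.no_mid hC hT hs hne hi (nx_lt hi) (pv_lt hi)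
          (by unfold pat nx; simp only [true_and]; split_ifs <;> omega)
          (by unfold pat pv; simp only [true_and]; split_ifs <;> omega)
          (by unfold nx pv; split_ifs <;> omega)⟩
      obtain ⟨e', a1, a2, a3⟩ := h4.rot_iter k (by omega)
      rw [if_neg (by omega)] at a2 a3
      exact ⟨e', _, a1, by omega, a2.trans e1, a3.trans e2⟩
    · have h2 := h.cons hv hne (fun i hi => ⟨fun a => by
        rcases mid i hi a with b | b
        · exact b
        · exact absurd (by rwa [show m' = i by omega]) h1, by rintro rfl; exact h0⟩)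
      have := h2.le_card hL
      exact ih (n - 1) (by omega) _ _ (k + 1) (by omega) h2 (by omega) (by simpa using e1)
        (by simpa using e2)
    · have h2 := h.snoc False hv hne (fun i hi => ⟨fun a => by
        rcases mid i hi a with b | b
        · exact absurd (b ▸ a) h0
        · exact Or.inl b, by
        rintro (a | ⟨a, -⟩)
        · rwa [show i = m' by omega]
        · exact a.elim⟩) False.elim
      have := h2.le_card hL
      exact ih (n - 1) (by omega) _ _ k (by omega) h2 (by omega)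
        (by rw [if_neg (by omega)]; exact e1) (by rw [if_neg (by omega)]; exact e2)
    · rcases mid i hi hvi with b | b
      · exact absurd (b ▸ hvi) h0
      · exact absurd (by rwa [show m' = i by omega]) h1
  refine key L.length 2 (fun i => if i = 0 then c else b) 0 (by omega) ⟨?_, ?_, ?_⟩ (by omega)
    rfl rfl
  · intro i _; split_ifs <;> assumption
  · intro i hi j hj
    have := ha.ne
    split_ifs <;> omega
  · intro i hi j hj
    simp only [pat, false_and, or_false]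
    split_ifs with h1 h2 h2
    · simp only [SimpleGraph.irrefl, false_iff]; omega
    · simp only [ha, true_iff]; omega
    · simp only [ha.symm, true_iff]; omega
    · simp only [SimpleGraph.irrefl, false_iff]; omega

theorem exists_comp' (hC : ClawFree Γ U) (hT : TriFree Γ U) {L : List ℕ} (hL : ∀ s ∈ U, s ∈ L)
    {c : ℕ} (hc : c ∈ U) : ∃ cyc e m, Comp Γ U cyc e m ∧ (cyc → 4 ≤ m) ∧ 0 < m := by
  by_cases h : ∃ b ∈ U, Γ.Adj c b
  · obtain ⟨b, hb, ha⟩ := h
    rcases exists_comp hC hT hL hc hb ha with ⟨e, m, k, h1, h2, -⟩ | ⟨e, m, h1, h2, -⟩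
    · exact ⟨False, e, m, h1, False.elim, by omega⟩
    · exact ⟨True, e, m, h1, fun _ => h2, by omega⟩
  · refine ⟨False, fun _ => c, 1, ⟨⟨fun _ _ => hc, fun _ _ _ _ _ => by omega, fun i hi j hj => ?_⟩,
      fun s hs _ i _ ha => h ⟨s, hs, ha.symm⟩⟩, False.elim, one_pos⟩
    simp only [pat, SimpleGraph.irrefl, false_and, or_false, false_iff]; omega

end Pool.Agent.Lib.MP_a1ec0a_al
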