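import Pool.Agent.Lib.MP_a1ec0a_al.Sound

/-! Completeness of the certificates. -/

namespace Pool.Agent.Lib.MP_a1ec0a_al

open FreeGroup (of mk lift invRev)

variable {M : Mat} {U : List ℕ} {T : T3}

theorem Mt.near {Γ : SimpleGraph ℕ} {U : Set ℕ} {p q : Vx Γ} (h : Mt U p q) :
    p.2⁻¹ * q.2 ∈ Par Γ U := by
  obtain ⟨x, a, b⟩ := h
  have := mul_mem (Par_mono Set.sdiff_subset a) (inv_mem (Par_mono Set.sdiff_subset b))
  simpa [mul_assoc] using this

theorem Near.symm {x y : Wd} (h : Near M U x y) : Near M U y x := by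
  simpa [Near] using inv_mem h
theorem Near.trans {x y z : Wd} (h : Near M U x y) (h' : Near M U y z) : Near M U x z := by
  simpa [Near, mul_assoc] using mul_mem h h'
theorem ParW.near {x y : Wd} (h : ParW M U x) (h' : ParW M U y) : Near M U x y :=
  mul_mem (inv_mem h) h'
theorem Near.par {x y : Wd} (h : Near M U x y) (h' : ParW M U x) : ParW M U y := by
  simpa [ParW] using mul_mem h' h
theorem MtW.near {p q : VW} (h : MtW M U p q) : Near M U p.2 q.2 := Mt.near h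
theorem InW.near {p : VW} {x y : Wd} (h : InW M U p x) (h' : InW M U p y) :
    Near M (del U p.1) x y := by rw [Near, SL_del]; exact In.div h h'
theorem parW_nil : ParW M U [] := by simp [ParW]
theorem MtW.ex {p q : VW} (h : MtW M U p q) : ∃ x, InW M U p x ∧ InW M U q x := by
  obtain ⟨g, a, b⟩ := h
  obtain ⟨x, rfl⟩ := exists_word' g
  exact ⟨x, a, b⟩
theorem InW.par {p : VW} {x : Wd} (h : InW M U p x) (h' : ParW M U p.2) : ParW M U x :=
  In.par (p := vx M p) h' h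
theorem MtW.glob {u v : VW} {t : ℕ} {x y : Wd} (h1 : InW M U u x) (h2 : InW M U v y)
    (h : MtW M (del U t) (u.1, x) (v.1, y)) : MtW M U u v := by
  rw [MtW, SL_del] at h; exact Pool.Agent.Lib.MP_a1ec0a_al.glob h1 h2 h
theorem InW.self (p : VW) : InW M U p p.2 := In.self _

theorem clNE {w : Wd} (h : RNE DJ M w) : DJ (jNE M w) := DJ_closed _ (Or.inl ⟨rfl, h⟩)
theorem clND {b c : ℕ} {x : Wd} (h : RND DJ M U b c x) : DJ (jND M U b c x) :=
  DJ_closed _ (Or.inr (Or.inl ⟨rfl, h⟩))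
theorem clNP {o : Bool} {p h q : VW} (a : RNP DJ M U T o p h q) : DJ (jNP M U T o p h q) :=
  DJ_closed _ (Or.inr (Or.inr ⟨rfl, a⟩))

def CNE (M : Mat) (U : List ℕ) : Prop := ∀ w, ParW M U w → ev (Gr M) w ≠ 1 → DJ (jNE M w)
def CND (M : Mat) (U : List ℕ) : Prop := ∀ b c x, (Gr M).Adj b c → ParW M U x →
  NDs (SL U) b c 1 (ev (Gr M) x) → DJ (jND M U b c x)

theorem NA.cmp (h : CNE M U) {u v : VW} (h1 : Near M U u.2 v.2) (h2 : ¬ MtW M U u v) :
    NA DJ M U u v := h _ (naW_par h1) fun e => h2 (naW_iff.1 e)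

theorem ND.cmp (h : CND M U) {b c : ℕ} {x y : Wd} (ha : (Gr M).Adj b c) (h1 : Near M U x y)
    (h2 : NDs (SL U) b c (ev (Gr M) x) (ev (Gr M) y)) : ND DJ M U b c x y :=
  h _ _ _ ha (by simpa [ParW, Near] using h1) (by simpa using NDs_iff.2 h2)

theorem ND'.cmp (h : CNE M U) (h' : CND M U) {u v : VW} {b : ℕ} (ha : (Gr M).Adj b v.1)
    (h1 : Near M U u.2 v.2) (h2 : ∀ y, MtW M U u (b, y) → ¬ MtW M U (b, y) v) :
    ND' DJ M U u b v := by
  have a1 : InW M U u (retW M U u v.2) := by rw [InW, ev_retW]; exact ret_in _ _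
  have a2 : MtW M U u (b, retW M U u v.2) := In.mt a1 b
  have a3 := a2.near.symm.trans h1
  refine ⟨NA.cmp h a3 (h2 _ a2), ?_⟩
  by_cases c : NDs (SL U) b v.1 (ev (Gr M) (retW M U u v.2)) (ev (Gr M) v.2)
  · exact Or.inl (ND.cmp h' ha a3 c)
  obtain ⟨g, b1, b2⟩ := not_not.1 c
  obtain ⟨y, rfl⟩ := exists_word' g
  refine Or.inr ⟨y, b1, b2, NA.cmp h a3 fun e => h2 _ a2 ?_,
    NA.cmp h (h1.trans (MtW.near (p := (b, y)) b2).symm) fun e => h2 y e b2⟩
  exact ((Mt.in_of e rfl (In.self _)).mt b).symm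

theorem UC.cmp (h : CNE M U) (h' : CND M U) {u v : VW} {b : ℕ} {Q : Wd → Prop}
    (ha : (Gr M).Adj b v.1) (h1 : Near M U u.2 v.2) (h2 : ¬ MtW M U u v)
    (h3 : ∀ y, MtW M U u (b, y) → MtW M U (b, y) v → Q y) : UC DJ M U u b v Q := by
  by_cases c : ∃ y, MtW M U u (b, y) ∧ MtW M U (b, y) v
  · obtain ⟨y, a, a'⟩ := c
    exact Or.inr ⟨y, a, a', NA.cmp h h1 h2, h3 y a a'⟩
  · exact Or.inl (ND'.cmp h h' ha h1 fun y a a' => c ⟨y, a, a'⟩)

theorem exists_third (H : Tri M U T) (a b : ℕ) : ∃ t, in3 T t ∧ t ≠ a ∧ t ≠ b :=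
  let ⟨t, h1, h2, h3⟩ := H.avoid a b; ⟨t, h1, h2.symm, h3.symm⟩

theorem Tri.triW (H : Tri M U T) : TriW M U T := ⟨H.hx, H.hy, H.hz, H.xy, H.yz, H.xz⟩

section Geo
variable (H : Tri M U T) (I : ∀ t, in3 T t → CNE M (del U t) ∧ CND M (del U t))
include H I

theorem NP.cmp (o : Bool) {q : VW} (oq : OkW M U T q) : ∀ (n : ℕ) (p h : VW), OkW M U T p →
    OkW M U T h → (sysO H o).d (mkW M U T h) (mkW M U T q) = n →
    (sysO H o).IsHead (mkW M U T p) (mkW M U T h) (mkW M U T q) → DJ (jNP M U T o p h q) := by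
  intro n
  induction n with
  | zero =>
    intro p h op oh hd a
    have e := TriSys.d_zero hd
    exact clNP ⟨by rw [← op.tp, ← oh.tp]; exact head_ne a,
      (op.mtW oh).1 ((sysO_r H o _ _).1 a.1),
      Or.inl ⟨by rw [← oh.tp, e, oq.tp], (oh.mtW oq).1 (e ▸ Mt.refl _)⟩⟩
  | succ n ih =>
    intro p h op oh hd a
    obtain ⟨v, a'⟩ := TriSys.exists_head (X := sysO H o) (p := mkW M U T h) (q := mkW M U T q)
      (by omega)
    obtain ⟨h', oh', rfl⟩ := exists_mkW v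
    have n1 : p.1 ≠ h.1 := by rw [← op.tp, ← oh.tp]; exact head_ne a
    have m1 := (op.mtW oh).1 ((sysO_r H o _ _).1 a.1)
    obtain ⟨x1, b1, b2⟩ := m1.ex
    obtain ⟨x2, b3, b4⟩ := ((oh.mtW oh').1 ((sysO_r H o _ _).1 a'.1)).ex
    obtain ⟨t1, t2⟩ := a.triple a'
    refine clNP ⟨n1, m1, Or.inr ⟨h', x1, x2, oh',
      ih h h' oh oh' (by have := a'.2.1; omega) a', b1, b2, b3, b4,
      NA.cmp (I _ oh.1).1 (b2.near b3) fun e =>
        t1 ((sysO_r H o _ _).2 ((op.mtW oh').2 (MtW.glob b1 b4 e))), ?_⟩⟩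
    cases c1 : ori T o p.1 h.1
    · exact Or.inl rfl
    by_cases c2 : h'.1 = p.1
    swap
    · exact Or.inr (Or.inl c2)
    obtain ⟨b, d1, d2, d3⟩ := exists_third H p.1 h.1
    refine Or.inr (Or.inr ⟨b, d1, d2, d3, ND.cmp (I _ oh.1).2 (H.adj d1 op.1 d2) (b2.near b3) ?_⟩)
    rintro ⟨g, e1, e2⟩
    obtain ⟨y, rfl⟩ := exists_word' g
    have k1 := (ori_iff H o (mkW M U T p) (mkW M U T h)).2 (by rw [op.tp, oh.tp, c1])
    obtain ⟨z, f1, f2⟩ := MtW.ex (p := (b, y)) (q := (p.1, x1)) e1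
    have f3 : InW M U h z := by
      refine In.mul b2 ?_
      rw [InW, SL_del] at f2
      exact Par_mono Set.sdiff_subset f2
    have f4 : InW M U (b, y) z := by
      rw [InW, SL_del] at f1
      exact In.glob (In.self (vx M (b, y))) f1
    have om : OkW M U T (b, y) := ⟨d1, (MtW.near (p := h) (q := (b, y)) ⟨_, f3, f4⟩).par oh.2⟩
    refine t2 k1 ((tp_zero H o _ _).2 (by rw [op.tp, oh'.tp, c2])) ⟨mkW M U T (b, y), ?_, ?_, ?_, ?_⟩
    · exact (sysO_r H o _ _).2 ((op.mtW om).2 (MtW.glob (InW.self (b, y)) b1 e1).symm)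
    · exact (sysO_r H o _ _).2 ((oh.mtW om).2 ⟨_, f3, f4⟩)
    · exact (sysO_r H o _ _).2 ((oh'.mtW om).2 (MtW.glob (InW.self (b, y)) b4 (c2 ▸ e2)).symm)
    · have g1 := (tp_zero H o (mkW M U T p) (mkW M U T (b, y))).not.2 (by rwa [op.tp, om.tp])
      have g2 := (tp_zero H o (mkW M U T h) (mkW M U T (b, y))).not.2 (by rwa [oh.tp, om.tp])
      omega

theorem head.cmp (hne : CNE M U) (o : Bool) {C q p : VW} (hC : ParW M U C.2) (oq : OkW M U T q)
    (op : OkW M U T p) (h0 : H.sys.d (mkW M U T q) (mkW M U T p) ≠ 0)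
    (hm : ∀ q' ∈ Sh (SL U) _ _ _ (vx M C),
      H.sys.d (mkW M U T q) (mkW M U T p) ≤ H.sys.d q' (mkW M U T p)) :
    ∃ h, OkW M U T h ∧ (sysO H o).IsHead (mkW M U T q) (mkW M U T h) (mkW M U T p) ∧
      DJ (jNP M U T o q h p) ∧ ¬ MtW M U C h ∧ NA DJ M U C h := by
  have e : ∀ u v, (sysO H o).d u v = H.sys.d u v := by cases o <;> exact fun _ _ => rfl
  obtain ⟨v, a⟩ := TriSys.exists_head (X := sysO H o) (p := mkW M U T q) (q := mkW M U T p)
    (by rwa [e])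
  obtain ⟨h, oh, rfl⟩ := exists_mkW v
  have n : ¬ MtW M U C h := fun m => by
    have := hm _ (oh.mt'.2 m)
    have := a.2.1
    rw [e, e] at this; omega
  exact ⟨h, oh, a, NP.cmp H I o op _ q h oq oh rfl a, n, NA.cmp hne (hC.near oh.2) n⟩

theorem FAR.cmp (hne : CNE M U) {C q p : VW} (hC : ParW M U C.2) (oq : OkW M U T q)
    (op : OkW M U T p) (h0 : H.sys.d (mkW M U T q) (mkW M U T p) ≠ 0)
    (hm : ∀ q' ∈ Sh (SL U) _ _ _ (vx M C),
      H.sys.d (mkW M U T q) (mkW M U T p) ≤ H.sys.d q' (mkW M U T p)) : FAR DJ M U T C q p :=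
  let ⟨h, a1, _, a3, _, a5⟩ := head.cmp H I hne true hC oq op h0 hm
  let ⟨h', b1, _, b3, _, b5⟩ := head.cmp H I hne false hC oq op h0 hm
  ⟨op, h, h', a1, b1, a3, b3, a5, b5⟩

theorem SIDE.cmp (hne : CNE M U) {C C' p h q : VW} {x : Wd} {o : Bool} (hC' : ParW M U C'.2)
    (op : OkW M U T p) (oh : OkW M U T h) (oq : OkW M U T q) (h1 : InW M U C x) (h2 : InW M U p x)
    (a : (sysO H o).IsHead (mkW M U T p) (mkW M U T h) (mkW M U T q)) (n : ¬ MtW M U C h)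
    (hq : MtW M U C' q) (hm : ∀ p' ∈ Sh (SL U) _ _ _ (vx M C), ∀ q' ∈ Sh (SL U) _ _ _ (vx M C'),
      H.sys.d (mkW M U T p) (mkW M U T q) ≤ H.sys.d p' q') : SIDE DJ M U T (C.1, x) p h C' q := by
  have e : ∀ u v, (sysO H o).d u v = H.sys.d u v := by cases o <;> exact fun _ _ => rfl
  obtain ⟨t, a1, a2, a3⟩ := exists_third H p.1 h.1
  obtain ⟨x2, b1, b2⟩ := ((op.mtW oh).1 ((sysO_r H o _ _).1 a.1)).ex
  refine ⟨t, x2, a1, a2, a3, b1, b2, UC.cmp (I _ op.1).1 (I _ op.1).2 (H.adj a1 oh.1 a3)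
    (h2.near b1) (fun m => n (MtW.glob h1 b2 m)) fun y c1 c2 => ?_⟩
  have d1 := MtW.glob h1 (InW.self (t, y)) c1
  have d2 := MtW.glob (InW.self (t, y)) b2 c2
  have os : OkW M U T (t, y) := ⟨a1, d2.near.symm.par oh.2⟩
  have l1 := a.2.1
  rw [e, e] at l1
  have l2 := TriSys.d_lip (X := H.sys) ((os.mtW oh).2 d2) (mkW M U T q)
  have l3 := H.sys.d_comm (mkW M U T q) (mkW M U T (t, y))
  have l4 := hm _ (os.mt'.2 d1) _ (oq.mt'.2 hq)
  refine FAR.cmp H I hne hC' oq os (by omega) fun u hu => ?_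
  have := hm _ (os.mt'.2 d1) u hu
  have := H.sys.d_comm u (mkW M U T (t, y))
  omega

theorem GEO.cmp (hne : CNE M U) {b c : ℕ} {x : Wd} (ha : (Gr M).Adj b c) (hx : ParW M U x)
    (h : NDs (SL U) b c 1 (ev (Gr M) x)) : GEO DJ M U T b c x := by
  have h' : ∀ y, MtW M U (b, y) (c, []) → ¬ MtW M U (b, y) (c, x) := fun y a a' =>
    h ⟨_, by simpa [MtW, vx] using a, a'⟩
  have ne : ∀ {C : VW}, ParW M U C.2 → (Sh (SL U) T.1 T.2.1 T.2.2 (vx M C)).Nonempty :=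
    fun {C} hC => let ⟨v, a, _⟩ := sh_ne (InP.of_par (u := vx M C) hC) (Mt.refl _); ⟨v, a⟩
  obtain ⟨p, hp, q, hq, hm⟩ := TriSys.exists_closest (X := H.sys) (ne (C := (c, [])) parW_nil)
    (ne (C := (c, x)) hx)
  obtain ⟨p, op, rfl⟩ := exists_mkW p
  obtain ⟨q, oq, rfl⟩ := exists_mkW q
  obtain ⟨x1, a1, a2⟩ := MtW.ex (op.mt'.1 hp)
  refine ⟨H.triW, NA.cmp hne (parW_nil.near hx) fun e => ?_, p, x1, op, a1, a2, ?_⟩
  · obtain ⟨y, b1, b2⟩ := e.ex
    exact h' y (In.mt b1 b).symm (In.mt b2 b).symm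
  by_cases c0 : H.sys.d (mkW M U T p) (mkW M U T q) = 0
  · rw [← TriSys.d_zero c0] at hq
    obtain ⟨x2, b1, b2⟩ := MtW.ex (op.mt'.1 hq)
    refine Or.inl ⟨x2, b1, b2, ND.cmp (I _ op.1).2 ha (a2.near b2) ?_⟩
    rintro ⟨g, e1, e2⟩
    obtain ⟨y, rfl⟩ := exists_word' g
    exact h' y (MtW.glob (InW.self (b, y)) a1 e1) (MtW.glob (InW.self (b, y)) b1 e2)
  obtain ⟨h1, b1, b2, b3, b4, b5⟩ := head.cmp H I hne true (C := (c, [])) parW_nil op oq c0
    fun p' hp' => hm p' hp' _ hq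
  obtain ⟨h2, c1, c2, c3, c4, c5⟩ := head.cmp H I hne false (C := (c, [])) parW_nil op oq c0
    fun p' hp' => hm p' hp' _ hq
  have mq : MtW M U (c, x) q := oq.mt'.1 hq
  obtain ⟨x2, d1, d2⟩ := ((op.mtW b1).1 ((sysO_r H true _ _).1 b2.1)).ex
  refine Or.inr ⟨q, h1, h2, oq, b1, c1, mq, b3, c3, b5, c5,
    FAR.cmp H I hne (C := (c, x)) hx oq op (by rwa [TriSys.d_comm]) fun u hu => ?_,
    SIDE.cmp H I hne (C := (c, [])) (C' := (c, x)) hx op b1 oq a1 a2 b2 b4 mq hm,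
    SIDE.cmp H I hne (C := (c, [])) (C' := (c, x)) hx op c1 oq a1 a2 c2 c4 mq hm,
    x2, d1, d2, UC.cmp (v := (c, x1)) (I _ op.1).1 (I _ op.1).2 ha (d1.near a2)
      (fun m => b4 (MtW.glob d2 a1 m).symm) fun y _ e2 => ?_⟩
  · rw [TriSys.d_comm, H.sys.d_comm u]; exact hm _ hp u hu
  · have := MtW.glob (InW.self (b, y)) a1 e2
    exact NA.cmp hne (this.near.trans (parW_nil.near hx)) (h' y this)

end Geo

theorem base_cne (hC : ClawFree (Gr M) Set.univ) (hT : TriFree (Gr M) (SL U)) : CNE M U := by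
  intro w hw hne
  obtain ⟨U', a1, T, hκ, a2, a3⟩ := base_ne _ _ (SL_fin U) rfl (hC.mono (Set.subset_univ _)) hT _
    hw hne
  obtain ⟨w', b1, b2⟩ := exists_word a2
  have fin := (SL_fin U).subset a1
  obtain ⟨N, hN⟩ := fin.bddAbove
  have e : SL fin.toFinset.toList = U' := by ext; simp [SL]
  have e' : ∀ s ∈ U', evW sig (((List.range (N + 1)).map T).getD s []) = evW sig (T s) :=
    fun s hs => by
      have := hN hs
      rw [List.getD_eq_getElem _ _ (by simp; omega)]; simp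
  refine clNE (Or.inl ⟨fin.toFinset.toList, (List.range (N + 1)).map T, w', by rwa [Let, e],
    by rw [OneW, ev_append, ev_invRev, b2, inv_mul_cancel], art_iff.2 ?_, ?_⟩)
  · rw [e]
    intro s hs t ht
    simp only [e' s hs, e' t ht]
    exact hκ s hs t ht
  · rwa [NTrivW, evW_subW, evW_congr (τ' := fun s => evW sig (T s)) fun l hl => e' _ (b1 l hl),
      ← val_ev hκ b1, b2]

theorem base_cnd (hT : TriFree (Gr M) (SL U)) (hne : CNE M U) : CND M U := by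
  intro b c x ha hx h
  have key : ∀ s ∉ SL U, SL U \ {s} = SL U := fun s hs => by simp [hs]
  have hb : b ∈ SL U := by
    by_contra hb
    exact h ⟨1, (In.self _).mt _, _, by simpa [In, key b hb, ParW] using hx, In.self _⟩
  have hc : c ∈ SL U := by
    by_contra hc
    exact h ⟨1, (In.self _).mt _, 1, In.self _, by simpa [In, key c hc, ParW] using hx⟩
  obtain ⟨x', a1, a2⟩ := exists_word hx
  refine clND ⟨ha, Or.inl ⟨hb, hc, tfW_iff.2 hT, x', a1,
    by rw [OneW, ev_append, ev_invRev, a2, inv_mul_cancel], fun w hw => ?_⟩⟩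
  have := ev_mem (Γ := Gr M) (mem_wordsN.1 hw).1
  rw [SL_del] at this
  exact NA.cmp hne (ParW.near (Par_mono Set.sdiff_subset this) hx) fun e =>
    h ⟨_, ⟨_, In.self _, by simpa [In] using this⟩, e⟩

theorem complete (hC : ClawFree (Gr M) Set.univ) : ∀ (n : ℕ) (U : List ℕ), U.length = n →
    CNE M U ∧ CND M U := by
  intro n
  induction n using Nat.strong_induction_on with
  | _ n ih =>
  intro U hn
  rcases tri_cases (Gr M) (SL U) with hT | ⟨x, hx, y, hy, z, hz, a, b, c⟩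
  · exact ⟨base_cne hC hT, base_cnd hT (base_cne hC hT)⟩
  have H : Tri M U (x, y, z) := TriW.tri hC ⟨hx, hy, hz, a, b, c⟩
  have I : ∀ t, in3 (x, y, z) t → CNE M (del U t) ∧ CND M (del U t) := fun t ht =>
    ih _ (hn ▸ len_del (inT.mem ht hx hy hz)) _ rfl
  have hne : CNE M U := by
    intro w hw hne
    by_cases c : ParW M (del U x) w
    · exact (I x (Or.inl rfl)).1 w c hne
    have op : OkW M U (x, y, z) (x, []) := ⟨Or.inl rfl, parW_nil⟩
    have oq : OkW M U (x, y, z) (x, w) := ⟨Or.inl rfl, hw⟩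
    obtain ⟨v, a⟩ := TriSys.exists_head (X := sysO H true) (p := mkW M U _ (x, []))
      (q := mkW M U _ (x, w)) fun e => c (by
        have := Mt.in_of ((oq.mtW op).1 (TriSys.d_zero e ▸ Mt.refl _)) rfl (In.self _)
        simpa [In, vx, ParW, SL_del] using this)
    obtain ⟨h, oh, rfl⟩ := exists_mkW v
    exact clNE (Or.inr ⟨U, _, h, H.triW, hw, oh, NP.cmp H I true oq _ _ h op oh rfl a⟩)
  exact ⟨hne, fun b c x ha hx h => clND ⟨ha, Or.inr ⟨_, GEO.cmp H I hne ha hx h⟩⟩⟩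

theorem DJ_iff (hC : ClawFree (Gr M) Set.univ) (w : Wd) : DJ (jNE M w) ↔ ¬ OneW M w :=
  ⟨DJ_sound hC, (complete hC _ (w.map Prod.fst) rfl).1 w
    (ev_mem fun l hl => List.mem_map.2 ⟨l, hl, rfl⟩)⟩

end Pool.Agent.Lib.MP_a1ec0a_al
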