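import Pool.Agent.Lib.MP_a1ec0a_al.Retract

/-! Cosets of maximal standard parabolic subgroups. -/

namespace Pool.Agent.Lib.MP_a1ec0a_al

variable {Γ : SimpleGraph ℕ}

abbrev Vx (Γ : SimpleGraph ℕ) := ℕ × AG Γ

def In (U : Set ℕ) (p : Vx Γ) (x : AG Γ) : Prop := p.2⁻¹ * x ∈ Par Γ (U \ {p.1})

def Mt (U : Set ℕ) (p q : Vx Γ) : Prop := ∃ x, In U p x ∧ In U q x

variable {U : Set ℕ}

theorem In.self (p : Vx Γ) : In U p p.2 := by simp [In]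
theorem Mt.refl (p : Vx Γ) : Mt U p p := ⟨_, In.self p, In.self p⟩
theorem Mt.symm {p q : Vx Γ} (h : Mt U p q) : Mt U q p := let ⟨x, a, b⟩ := h; ⟨x, b, a⟩
theorem In.div {p : Vx Γ} {x y : AG Γ} (h : In U p x) (h' : In U p y) :
    x⁻¹ * y ∈ Par Γ (U \ {p.1}) := by
  have := mul_mem (inv_mem h) h'
  simpa [mul_assoc] using this
theorem In.mul {p : Vx Γ} {x y : AG Γ} (h : In U p x) (h' : x⁻¹ * y ∈ Par Γ (U \ {p.1})) :
    In U p y := by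
  have := mul_mem h h'
  simpa [mul_assoc, In] using this
theorem In.mul' {p : Vx Γ} {x k : AG Γ} (h : In U p x) (h' : k ∈ Par Γ (U \ {p.1})) :
    In U p (x * k) := h.mul (by simpa using h')
theorem Mt.in_of {p q : Vx Γ} (h : Mt U p q) (e : p.1 = q.1) {x : AG Γ} (hx : In U p x) :
    In U q x := by
  obtain ⟨y, a, b⟩ := h
  exact b.mul (e ▸ a.div hx)
theorem Mt.trans_eq {p q r : Vx Γ} (h : Mt U p q) (e : p.1 = q.1) (h' : Mt U p r) : Mt U q r :=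
  let ⟨x, a, b⟩ := h'; ⟨x, h.in_of e a, b⟩
theorem In.mt {p : Vx Γ} {x : AG Γ} (h : In U p x) (t : ℕ) : Mt U p (t, x) := ⟨x, h, In.self _⟩
theorem In.of_mk {p : Vx Γ} {x y : AG Γ} (h : In U p x) (h' : In U (p.1, x) y) : In U p y :=
  h.mul h'
theorem In.to_mk {p : Vx Γ} {x y : AG Γ} (h : In U p x) (h' : In U p y) : In U (p.1, x) y :=
  h.div h'

theorem In_mul_left (k : AG Γ) (p : Vx Γ) (x : AG Γ) : In U (p.1, k * p.2) (k * x) ↔ In U p x := by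
  simp [In, mul_assoc]
theorem Mt_mul_left (k : AG Γ) (p q : Vx Γ) :
    Mt U (p.1, k * p.2) (q.1, k * q.2) ↔ Mt U p q := by
  constructor
  · rintro ⟨x, a, b⟩
    refine ⟨k⁻¹ * x, ?_, ?_⟩ <;> rw [← In_mul_left k] <;> simpa
  · rintro ⟨x, a, b⟩
    exact ⟨k * x, (In_mul_left k _ _).2 a, (In_mul_left k _ _).2 b⟩

noncomputable def ret (U : Set ℕ) (p : Vx Γ) (z : AG Γ) : AG Γ :=
  p.2 * piU (U \ {p.1}) (p.2⁻¹ * z)

theorem ret_in (p : Vx Γ) (z : AG Γ) : In U p (ret U p z) := by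
  simpa [In, ret] using piU_mem' _

theorem ret_eq {p : Vx Γ} {x : AG Γ} (h : In U p x) (z : AG Γ) :
    ret U p z = x * piU (U \ {p.1}) (x⁻¹ * z) := by
  have : p.2⁻¹ * z = (p.2⁻¹ * x) * (x⁻¹ * z) := by group
  rw [ret, this, piU_mul h]; group

theorem ret_in' {p u : Vx Γ} (h : Mt U p u) {z : AG Γ} (hz : In U u z) : In U u (ret U p z) := by
  obtain ⟨x, a, b⟩ := h
  rw [ret_eq a]
  exact b.mul' (Par_mono Set.inter_subset_left (piU_mem (b.div hz)))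

theorem flag3 {p u v : Vx Γ} (h1 : Mt U p u) (h2 : Mt U p v) (h3 : Mt U u v) :
    ∃ z, In U p z ∧ In U u z ∧ In U v z :=
  let ⟨z, a, b⟩ := h3; ⟨ret U p z, ret_in p z, ret_in' h1 a, ret_in' h2 b⟩

theorem ret3 {p b0 w : Vx Γ} (ha : Γ.Adj b0.1 w.1) (h1 : Mt U p b0) {h : AG Γ} (h2 : In U b0 h)
    (h3 : In U w h) : (∀ z, In U w z → In U b0 (ret U p z)) ∨
      (∀ z, In U w z → In U (w.1, ret U p h) (ret U p z)) := by
  obtain ⟨x, a, b⟩ := h1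
  have e : ∀ z, x⁻¹ * z = x⁻¹ * h * (h⁻¹ * z) := fun z => by group
  rcases piU_three (U := U \ {p.1}) ha (b.div h2) with h4 | h4
  · left
    intro z hz
    refine (ret_in' ⟨x, a, b⟩ h2).mul ?_
    have := h4 _ (h3.div hz)
    rw [ret_eq a, ret_eq a, e z]
    simpa [mul_assoc] using this
  · right
    intro z hz
    have := h4 _ (h3.div hz)
    rw [In, ret_eq a, ret_eq a, e z]
    simpa [mul_assoc] using this

theorem loc {p u v : Vx Γ} {x y : AG Γ} (h1 : In U p x) (h2 : In U u x) (h3 : In U p y)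
    (h4 : In U v y) (h : Mt U u v) : Mt (U \ {p.1}) (u.1, x) (v.1, y) := by
  obtain ⟨z, a, b, c⟩ := flag3 ⟨x, h1, h2⟩ ⟨y, h3, h4⟩ h
  refine ⟨z, Par_mono ?_ (Par_inter (h1.div a) (h2.div b)),
    Par_mono ?_ (Par_inter (h3.div a) (h4.div c))⟩ <;>
  exact fun s hs => ⟨hs.1, hs.2.2⟩

theorem In.glob {u : Vx Γ} {t : ℕ} {x z : AG Γ} (h2 : In U u x)
    (h : In (U \ {t}) (u.1, x) z) : In U u z :=
  h2.mul (Par_mono (U := (U \ {t}) \ {u.1}) (U' := U \ {u.1})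
    (fun _ hs => And.intro hs.1.1 hs.2) h)

theorem glob {u v : Vx Γ} {t : ℕ} {x y : AG Γ} (h2 : In U u x) (h4 : In U v y)
    (h : Mt (U \ {t}) (u.1, x) (v.1, y)) : Mt U u v :=
  let ⟨z, a, b⟩ := h; ⟨z, h2.glob a, h4.glob b⟩

/-- No four-cycles in the coset graph of an edge. -/
def Girth (Γ : SimpleGraph ℕ) (U : Set ℕ) : Prop :=
  ∀ b ∈ U, ∀ c ∈ U, Γ.Adj b c → ∀ b2 c2 : AG Γ, Mt U (b, 1) (c, c2) → Mt U (b, b2) (c, 1) →
    Mt U (b, b2) (c, c2) → Mt U (b, 1) (b, b2) ∨ Mt U (c, 1) (c, c2)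

theorem mt_of_notMem {b1 b2 c : Vx Γ} (hb : b1.1 ∉ U) (h1 : Mt U b1 c)
    (h2 : Mt U b2 c) : Mt U b1 b2 := by
  obtain ⟨x, a, b⟩ := h1
  obtain ⟨y, a', b'⟩ := h2
  refine ⟨y, a.mul (Par_mono ?_ (b.div b')), a'⟩
  rintro s ⟨hs, -⟩
  exact ⟨hs, fun e => hb (e ▸ hs)⟩

theorem Girth.all (hG : Girth Γ U) {b1 b2 c1 c2 : Vx Γ} (e1 : b1.1 = b2.1) (e2 : c1.1 = c2.1)
    (ha : Γ.Adj b1.1 c1.1) (h11 : Mt U b1 c1) (h12 : Mt U b1 c2) (h21 : Mt U b2 c1)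
    (h22 : Mt U b2 c2) : Mt U b1 b2 ∨ Mt U c1 c2 := by
  by_cases hb : b1.1 ∈ U
  swap
  · exact Or.inl (mt_of_notMem hb h11 h21)
  by_cases hc : c1.1 ∈ U
  swap
  · exact Or.inr (mt_of_notMem hc h11.symm h12.symm)
  obtain ⟨x, a, b⟩ := h11
  have key : ∀ p q : Vx Γ, Mt U p q ↔ Mt U (p.1, x⁻¹ * p.2) (q.1, x⁻¹ * q.2) := fun p q =>
    (Mt_mul_left _ _ _).symm
  have k1 := (a.mt b1.1).trans_eq rfl h12
  have k2 := (b.mt c1.1).trans_eq rfl h21.symm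
  rw [key] at k1 k2 h22
  simp only [inv_mul_cancel, ← e1, ← e2] at k1 k2 h22
  rcases hG _ hb _ hc ha _ _ k1 k2.symm h22 with h | h
  · left
    refine (a.mt b1.1).symm.trans_eq rfl ?_
    rw [key]; simpa [← e1] using h
  · right
    refine (b.mt c1.1).symm.trans_eq rfl ?_
    rw [key]; simpa [← e2] using h

theorem Girth.P (hG : Girth Γ U) {c1 c2 w w' : Vx Γ} (e : c1.1 = c2.1) (ha : Γ.Adj c1.1 w.1)
    (h1 : Mt U c1 w) (h2 : Mt U c2 w) (h3 : Mt U c1 w') (h4 : Mt U c2 w') :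
    Mt U c1 c2 ∨ Mt U w w' := by
  obtain ⟨h, a, b⟩ := id h1
  obtain ⟨z, a', b'⟩ := id h2
  rcases ret3 ha h3.symm a b with k | k
  · exact Or.inl ⟨_, k z b', ret_in' h4.symm a'⟩
  · rcases hG.all (c1 := w) (c2 := (w.1, ret U w' h)) e rfl ha h1 ((ret_in' h3.symm a).mt _) h2
      ⟨_, ret_in' h4.symm a', k z b'⟩ with k' | k'
    · exact Or.inl k'
    · exact Or.inr ⟨_, k'.symm.in_of rfl (In.self _), ret_in _ _⟩

theorem Girth.Q (hG : Girth Γ U) {b c t s : Vx Γ} (ha : Γ.Adj s.1 t.1)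
    (h1 : Mt U b c) (h2 : Mt U c t) (h3 : Mt U t s) (h4 : Mt U s b) :
    Mt U s c ∨ Mt U t b := by
  obtain ⟨h, a, b'⟩ := id h3
  obtain ⟨z, a', b''⟩ := id h2
  rcases ret3 ha h4.symm b' a with k | k
  · exact Or.inl ⟨_, k z b'', ret_in' h1 a'⟩
  · rcases hG.P (c1 := t) (c2 := (t.1, ret U b h)) rfl ha.symm h3 ((ret_in' h4.symm b').mt _).symm h2.symm
      ⟨_, k z b'', ret_in' h1 a'⟩ with k' | k'
    · exact Or.inr ⟨_, k'.symm.in_of rfl (In.self _), ret_in _ _⟩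
    · exact Or.inl k'

theorem LP {p : Vx Γ} (hG : Girth Γ (U \ {p.1})) {c1 c2 w w' : Vx Γ} (p1 : Mt U p c1)
    (p2 : Mt U p c2) (p3 : Mt U p w) (p4 : Mt U p w') (e : c1.1 = c2.1) (ha : Γ.Adj c1.1 w.1)
    (h1 : Mt U c1 w) (h2 : Mt U c2 w) (h3 : Mt U c1 w') (h4 : Mt U c2 w') :
    Mt U c1 c2 ∨ Mt U w w' := by
  obtain ⟨x1, a1, b1⟩ := p1
  obtain ⟨x2, a2, b2⟩ := p2
  obtain ⟨x3, a3, b3⟩ := p3
  obtain ⟨x4, a4, b4⟩ := p4
  exact (hG.P (c1 := (c1.1, x1)) (c2 := (c2.1, x2)) (w := (w.1, x3)) (w' := (w'.1, x4)) e ha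
    (loc a1 b1 a3 b3 h1) (loc a2 b2 a3 b3 h2) (loc a1 b1 a4 b4 h3)
    (loc a2 b2 a4 b4 h4)).imp (glob b1 b2) (glob b3 b4)

theorem LQ {p : Vx Γ} (hG : Girth Γ (U \ {p.1})) {b c t s : Vx Γ} (p1 : Mt U p b)
    (p2 : Mt U p c) (p3 : Mt U p t) (p4 : Mt U p s) (ha : Γ.Adj s.1 t.1)
    (h1 : Mt U b c) (h2 : Mt U c t) (h3 : Mt U t s) (h4 : Mt U s b) :
    Mt U s c ∨ Mt U t b := by
  obtain ⟨x1, a1, b1⟩ := p1
  obtain ⟨x2, a2, b2⟩ := p2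
  obtain ⟨x3, a3, b3⟩ := p3
  obtain ⟨x4, a4, b4⟩ := p4
  exact (hG.Q (b := (b.1, x1)) (c := (c.1, x2)) (t := (t.1, x3)) (s := (s.1, x4)) ha
    (loc a1 b1 a2 b2 h1) (loc a2 b2 a3 b3 h2) (loc a3 b3 a4 b4 h3)
    (loc a4 b4 a1 b1 h4)).imp (glob b4 b2) (glob b3 b1)

theorem cand {u c1 b0 : Vx Γ} (ha : Γ.Adj b0.1 c1.1) (h1 : Mt U u b0) (h2 : Mt U b0 c1) :
    Mt U b0 (b0.1, ret U u c1.2) ∨ Mt U b0 (c1.1, ret U u c1.2) := by
  obtain ⟨h, a, b⟩ := h2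
  rcases ret3 ha h1 a b with k | k
  · exact Or.inl ((k _ (In.self _)).mt _)
  · exact Or.inr ⟨_, ret_in' h1 a, In.to_mk (p := (c1.1, ret U u h)) (k _ (In.self _)) (In.self _)⟩

theorem mt_iff (u v : Vx Γ) : Mt U u v ↔ In U v (ret U u v.2) :=
  ⟨fun h => ret_in' h (In.self _), fun h => ⟨_, ret_in _ _, h⟩⟩

end Pool.Agent.Lib.MP_a1ec0a_al
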