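import Pool.Agent.Lib.MP_a1ec0a_al.Complete

/-! The decision procedure. -/

namespace Pool.Agent.Lib.MP_a1ec0a_al

def clawB (M : Mat) : Bool :=
  (List.range M.length).all fun a => (List.range M.length).all fun b =>
    (List.range M.length).all fun c => (List.range M.length).all fun d =>
      !(adjb M a b && adjb M a c && adjb M a d) || b == c || b == d || c == d ||
        adjb M b c || adjb M b d || adjb M c d

theorem adjb_lt {M : Mat} {i j : ℕ} (h : adjb M i j = true) : i < M.length ∧ j < M.length := by
  simp only [adjb, Bool.and_eq_true, beq_iff_eq] at h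
  constructor <;> by_contra hn
  · rw [List.getD_eq_default M _ (by omega)] at h; simp at h
  · rw [List.getD_eq_default M (n := j) _ (by omega)] at h; simp at h

theorem clawB_iff {M : Mat} : clawB M = true ↔ ClawFree (Gr M) Set.univ := by
  simp only [clawB, List.all_eq_true, List.mem_range, Bool.or_eq_true, Bool.not_eq_true',
    beq_iff_eq, ClawFree, Gr_adj, Set.mem_univ, true_implies]
  constructor
  · intro h a b c d h1 h2 h3 h4 h5 h6
    have := h a (adjb_lt h1).1 b (adjb_lt h1).2 c (adjb_lt h2).2 d (adjb_lt h3).2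
    simpa [h1, h2, h3, h4, h5, h6, or_assoc] using this
  · intro h a _ b _ c _ d _
    have := h a b c d
    clear h
    revert this
    cases adjb M a b <;> cases adjb M a c <;> cases adjb M a d <;> simp <;> tauto

theorem exists_decider : ∃ f : Mat × Wd → Bool, Computable f ∧
    ∀ M w, ClawFree (Gr M) Set.univ → (f (M, w) = true ↔ ev (Gr M) w = 1) := by
  have h0 : PR clawB := by unfold clawB; fun_prop
  have h1 : S1 fun x : Mat × Wd => clawB x.1 = true ∧ OneW x.1 x.2 := by fun_prop
  have h2 : S1 fun x : Mat × Wd => ¬ (clawB x.1 = true ∧ OneW x.1 x.2) := by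
    refine S1.congr (p := fun x : Mat × Wd => clawB x.1 = false ∨
      (clawB x.1 = true ∧ DJ (jNE x.1 x.2))) (S1.or (by fun_prop) (S1.and (by fun_prop)
        (DJ_s1.comp (by fun_prop)))) fun x => ?_
    cases h : clawB x.1
    · simp
    · simp [DJ_iff (clawB_iff.1 h)]
  obtain ⟨f, hf, e⟩ := ComputablePred.computable_iff.1
    (ComputablePred.computable_iff_re_compl_re'.2 ⟨h1.re, h2.re⟩)
  refine ⟨f, hf, fun M w hC => ?_⟩
  have := congrFun e (M, w)
  simp only [clawB_iff.2 hC, true_and, eq_iff_iff] at this
  exact this.symm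

end Pool.Agent.Lib.MP_a1ec0a_al
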