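import Mathlib

/-! Lemmas on reduced words: conjugates of generators, Hurwitz-minimal tuples, prefixes. -/

namespace Pool.Agent.Lib.MP_a1ec0a_al

open FreeGroup

abbrev FG := FreeGroup ℕ

def IsCG (y : FG) : Prop := ∃ g p, y = g * of p * g⁻¹

def NEnd (g : FG) (p : ℕ) : Prop := ∀ a ∈ g.toWord.getLast?, a.1 ≠ p

theorem red_append {L L' : List (ℕ × Bool)} (h : IsReduced L) (h' : IsReduced L')
    (e : ∀ a ∈ L.getLast?, ∀ b ∈ L'.head?, a.1 = b.1 → a.2 = b.2) : IsReduced (L ++ L') :=
  List.IsChain.append h h' e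

theorem toWord_of_red {L : List (ℕ × Bool)} (h : IsReduced L) : (mk L).toWord = L := by
  rw [toWord_mk, h.reduce_eq]

theorem toWord_mul_red {g h : FG} (e : IsReduced (g.toWord ++ h.toWord)) :
    (g * h).toWord = g.toWord ++ h.toWord := by rw [toWord_mul, e.reduce_eq]

theorem mk_single (p : ℕ) (b : Bool) : mk [(p, b)] = (of p : FG) ^ (if b then 1 else -1 : ℤ) := by
  cases b
  · simp only [Bool.false_eq_true, if_false, zpow_neg, zpow_one]; rfl
  · simp only [if_true, zpow_one]; rfl

theorem trim (p : ℕ) : ∀ (n : ℕ) (c : FG), c.norm = n →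
    ∃ m : ℤ, NEnd (c * of p ^ m) p ∧ (c * of p ^ m).norm + m.natAbs ≤ c.norm := by
  intro n
  induction n using Nat.strong_induction_on with
  | _ n ih =>
  intro c hc
  by_cases h : NEnd c p
  · exact ⟨0, by simpa using h, by simp⟩
  simp only [NEnd, not_forall, not_not] at h
  obtain ⟨⟨q, b⟩, h1, rfl⟩ := h
  obtain ⟨L, hL⟩ := List.getLast?_eq_some_iff.1 h1
  have e : c = mk L * mk [(q, b)] := by rw [mul_mk, ← hL, mk_toWord]
  have e1 : c.norm = L.length + 1 := by simp [FreeGroup.norm, hL]
  have e2 : (mk L).norm ≤ L.length := norm_mk_le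
  obtain ⟨m, h2, h3⟩ := ih _ (by omega) (mk L) rfl
  have e3 : c * of q ^ (m - if b then 1 else -1) = mk L * of q ^ m := by
    rw [e, mk_single]; group
  refine ⟨m - if b then 1 else -1, e3 ▸ h2, ?_⟩
  rw [e3]
  simp only at h3
  split_ifs <;> omega

theorem toWord_conj {g : FG} {p : ℕ} (h : NEnd g p) (b : Bool) :
    (g * mk [(p, b)] * g⁻¹).toWord = g.toWord ++ (p, b) :: invRev g.toWord := by
  have h1 : IsReduced (g.toWord ++ (p, b) :: invRev g.toWord) := by
    refine red_append isReduced_toWord (red_append (L := [(p, b)]) IsReduced.singleton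
      (L' := invRev g.toWord) (by rw [← toWord_inv]; exact isReduced_toWord) ?_) ?_
    · intro a ha c hc e
      simp only [List.getLast?_singleton, Option.mem_def, Option.some.injEq] at ha
      simp only [invRev, List.head?_reverse, List.getLast?_map, Option.mem_def,
        Option.map_eq_some_iff] at hc
      obtain ⟨c', hc', rfl⟩ := hc
      exact absurd (ha ▸ e).symm (h c' hc')
    · intro a ha c hc e
      simp only [List.head?_cons, Option.mem_def, Option.some.injEq] at hc
      subst hc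
      exact absurd e (h a ha)
  rw [← toWord_of_red h1]
  congr 1
  conv_lhs => rw [← mk_toWord (x := g), inv_mk, mul_mk, mul_mk]
  simp

theorem norm_conj {g : FG} {p : ℕ} (h : NEnd g p) : (g * of p * g⁻¹).norm = 2 * g.norm + 1 := by
  have := toWord_conj h true
  change (g * of p * g⁻¹).toWord = _ at this
  simp [FreeGroup.norm, this]; omega

theorem norm_conj_le (g : FG) (p : ℕ) : (g * of p * g⁻¹).norm ≤ 2 * g.norm + 1 := by
  have := norm_mul_le (g * of p) g⁻¹
  have := norm_mul_le g (of p)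
  simp at *; omega

theorem IsCG.trim {y : FG} (h : IsCG y) : ∃ g p, y = g * of p * g⁻¹ ∧ NEnd g p := by
  obtain ⟨g, p, rfl⟩ := h
  obtain ⟨m, h1, -⟩ := Pool.Agent.Lib.MP_a1ec0a_al.trim p _ g rfl
  exact ⟨_, p, by group, h1⟩

theorem cent {c : FG} {p : ℕ} (h : c * of p * c⁻¹ = of p) : ∃ m : ℤ, c = of p ^ m := by
  obtain ⟨m, h1, -⟩ := trim p _ c rfl
  have h2 := norm_conj h1
  have e : c * of p ^ m * of p * (c * of p ^ m)⁻¹ = c * of p * c⁻¹ := by group
  rw [e, h, norm_of] at h2
  have : c * of p ^ m = 1 := norm_eq_zero.1 (by omega)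
  exact ⟨-m, by rw [zpow_neg]; exact eq_inv_of_mul_eq_one_left this⟩

theorem start_lemma {g g' : FG} {p : ℕ} {b : Bool} {L : List (ℕ × Bool)} (h : NEnd g p)
    (e : (g⁻¹ * g').toWord = (p, b) :: L) :
    (g * (mk [(p, b)])⁻¹ * g⁻¹ * g').norm < g'.norm := by
  have h1 : IsReduced (g.toWord ++ (g⁻¹ * g').toWord) :=
    red_append isReduced_toWord isReduced_toWord fun a ha c hc e' => by
      rw [e] at hc
      simp only [List.head?_cons, Option.mem_def, Option.some.injEq] at hc
      subst hc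
      exact absurd e' (h a ha)
  have h2 := toWord_mul_red h1
  rw [mul_inv_cancel_left, e] at h2
  have h3 : g⁻¹ * g' = mk [(p, b)] * mk L := by rw [mul_mk, ← mk_toWord (x := g⁻¹ * g'), e]; rfl
  have h4 : g * (mk [(p, b)])⁻¹ * g⁻¹ * g' = g * mk L := by
    rw [mul_assoc, h3]; group
  have h5 := norm_mul_le g (mk L)
  have h6 : (mk L).norm ≤ L.length := norm_mk_le
  have h7 : g'.norm = g.norm + (L.length + 1) := by simp [FreeGroup.norm, h2]
  rw [h4]; omega

def prodI (y : ℕ → FG) (lo n : ℕ) : FG := ((List.range' lo n).map y).prod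

theorem prodI_succ (y : ℕ → FG) (lo n : ℕ) : prodI y lo (n + 1) = y lo * prodI y (lo + 1) n := by
  simp [prodI, List.range'_succ]
theorem prodI_zero (y : ℕ → FG) (lo : ℕ) : prodI y lo 0 = 1 := rfl
theorem prodI_add (y : ℕ → FG) (lo n k : ℕ) :
    prodI y lo (n + k) = prodI y lo n * prodI y (lo + n) k := by
  rw [prodI, ← List.range'_append_1, List.map_append, List.prod_append]; rfl
theorem prodI_congr {y y' : ℕ → FG} {lo n : ℕ} (h : ∀ j, lo ≤ j → j < lo + n → y j = y' j) :
    prodI y lo n = prodI y' lo n := by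
  unfold prodI
  congr 1
  exact List.map_congr_left fun j hj => h j (by simp at hj; omega) (by simp at hj; omega)
theorem map_prodI {F : Type} [FunLike F FG FG] [MonoidHomClass F FG FG] (f : F) (y : ℕ → FG)
    (lo n : ℕ) : f (prodI y lo n) = prodI (fun j => f (y j)) lo n := by
  simp [prodI, map_list_prod, Function.comp_def]

theorem toWord_prodI (q : ℕ → ℕ) (lo n : ℕ) :
    (prodI (fun j => of (q j)) lo n).toWord = (List.range' lo n).map fun j => (q j, true) := by
  have h : IsReduced ((List.range' lo n).map fun j => (q j, true)) := by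
    rw [FreeGroup.IsReduced, List.isChain_map]
    exact (List.pairwise_of_forall (by simp)).isChain
  rw [← toWord_of_red h]
  congr 1
  induction n generalizing lo with
  | zero => rfl
  | succ n ih =>
    rw [prodI_succ, ih _ (by
      rw [FreeGroup.IsReduced, List.isChain_map]
      exact (List.pairwise_of_forall (by simp)).isChain), List.range'_succ]
    rfl

theorem norm_prodI (lo n : ℕ) : (prodI of lo n).norm = n := by
  have := toWord_prodI id lo n
  simp only [id] at this
  simp [FreeGroup.norm, this]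

def WW (g : ℕ → FG) (p : ℕ → ℕ) : ℕ → ℕ → FG → List (ℕ × Bool)
  | 0, _, h => h⁻¹.toWord
  | n + 1, lo, h => (h⁻¹ * g lo).toWord ++ (p lo, true) :: WW g p n (lo + 1) (g lo)

theorem mk_WW (g : ℕ → FG) (p : ℕ → ℕ) (n lo : ℕ) (h : FG) :
    mk (WW g p n lo h) = h⁻¹ * prodI (fun j => g j * of (p j) * (g j)⁻¹) lo n := by
  induction n generalizing lo h with
  | zero => simp [WW, prodI_zero, mk_toWord, -toWord_inv]
  | succ n ih =>
    have : mk ((p lo, true) :: WW g p n (lo + 1) (g lo)) =
        of (p lo) * mk (WW g p n (lo + 1) (g lo)) := rfl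
    rw [WW, ← mul_mk, mk_toWord, this, ih, prodI_succ]; group

theorem len_WW (g : ℕ → FG) (p : ℕ → ℕ) (n lo : ℕ) (h : FG) :
    n ≤ (WW g p n lo h).length ∧
      ∀ j, lo ≤ j → j < lo + n → n + (h⁻¹ * g j).norm ≤ (WW g p n lo h).length := by
  induction n generalizing lo h with
  | zero => exact ⟨Nat.zero_le _, fun j _ _ => by omega⟩
  | succ n ih =>
    obtain ⟨a, b⟩ := ih (lo + 1) (g lo)
    simp only [WW, List.length_append, List.length_cons]
    refine ⟨by omega, fun j h1 h2 => ?_⟩
    change _ ≤ (h⁻¹ * g lo).norm + _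
    rcases h1.eq_or_lt with rfl | h1
    · omega
    · have := b j h1 (by omega)
      have := norm_mul_le (h⁻¹ * g lo) ((g lo)⁻¹ * g j)
      rw [mul_assoc, mul_inv_cancel_left] at this
      omega

theorem red_WW (g : ℕ → FG) (p : ℕ → ℕ) (n lo : ℕ) (h : FG)
    (h0 : ∀ j, lo ≤ j → j < lo + n → NEnd (g j) (p j))
    (h1 : 0 < n → ∀ a ∈ (h⁻¹ * g lo).toWord.getLast?, a ≠ (p lo, false))
    (h2 : ∀ i, lo ≤ i → i + 1 < lo + n →
      (∀ a ∈ ((g i)⁻¹ * g (i + 1)).toWord.getLast?, a ≠ (p (i + 1), false)) ∧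
      ∀ a ∈ ((g i)⁻¹ * g (i + 1)).toWord.head?, a ≠ (p i, false)) :
    IsReduced (WW g p n lo h) := by
  induction n generalizing lo h with
  | zero => exact isReduced_toWord
  | succ n ih =>
    have key : ∀ (a : ℕ × Bool) (q : ℕ), a ≠ (q, false) → a.1 = q → a.2 = true := by
      rintro ⟨a, b⟩ q e rfl; cases b <;> simp_all
    refine red_append isReduced_toWord (red_append (L := [(p lo, true)]) IsReduced.singleton
      (ih _ _ (fun j a b => h0 j (by omega) (by omega)) (fun hn => (h2 lo le_rfl (by omega)).1)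
      fun i a b => h2 i (by omega) (by omega)) ?_) ?_
    · intro a ha c hc e
      simp only [List.getLast?_singleton, Option.mem_def, Option.some.injEq] at ha
      subst ha
      cases n with
      | zero =>
        simp only [WW, toWord_inv, invRev, List.head?_reverse, List.getLast?_map, Option.mem_def,
          Option.map_eq_some_iff] at hc
        obtain ⟨c', hc', rfl⟩ := hc
        exact absurd e.symm (h0 lo le_rfl (by omega) c' hc')
      | succ n =>
        simp only [WW, List.head?_append, List.head?_cons, Option.mem_def,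
          Option.or_eq_some_iff] at hc
        rcases hc with hc | ⟨-, hc⟩
        · exact (key c _ ((h2 lo le_rfl (by omega)).2 c hc) e.symm).symm
        · simp only [Option.some.injEq] at hc; rw [← hc]
    · intro a ha c hc e
      simp only [List.head?_cons, Option.mem_def, Option.some.injEq] at hc
      subst hc
      exact key a _ (h1 (by omega) a ha) e

/-- Hurwitz-minimal tuples. -/
def HMin (y : ℕ → FG) (lo n : ℕ) : Prop :=
  ∀ i, lo ≤ i → i + 1 < lo + n → (y (i + 1)).norm ≤ (y i * y (i + 1) * (y i)⁻¹).norm ∧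
    (y i).norm ≤ ((y (i + 1))⁻¹ * y i * y (i + 1)).norm

theorem hurwitz {y : ℕ → FG} {lo n : ℕ} (hc : ∀ j, IsCG (y j)) (hm : HMin y lo n) :
    (∀ j, lo ≤ j → j < lo + n → (y j).norm ≤ 2 * (prodI y lo n).norm + 1) ∧
    (prodI y lo n = prodI of lo n → ∀ j, lo ≤ j → j < lo + n → y j = of j) := by
  choose g p e hn using fun j => (hc j).trim
  obtain rfl : y = fun j => g j * of (p j) * (g j)⁻¹ := funext e
  have hr := red_WW g p n lo 1 (fun j _ _ => hn j)
    (fun _ a ha e => hn lo a (by simpa using ha) (by rw [e])) (fun i h1 h2 => by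
      obtain ⟨a1, a2⟩ := hm i h1 h2
      simp only at a1 a2
      constructor
      · rintro a ha rfl
        obtain ⟨L, hL⟩ := List.getLast?_eq_some_iff.1 ha
        have e1 : ((g (i + 1))⁻¹ * g i).toWord = (p (i + 1), true) :: invRev L := by
          rw [← inv_inv (g i), ← mul_inv_rev, toWord_inv, hL]; simp [invRev]
        have e2 := start_lemma (hn _) e1
        change (g (i + 1) * (of (p (i + 1)))⁻¹ * (g (i + 1))⁻¹ * g i).norm < _ at e2
        have e3 := norm_conj_le (g (i + 1) * (of (p (i + 1)))⁻¹ * (g (i + 1))⁻¹ * g i) (p i)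
        rw [norm_conj (hn i)] at a2
        refine absurd (a2.trans (le_of_eq_of_le ?_ e3)) (by omega)
        congr 1; group
      · rintro a ha rfl
        obtain ⟨L, hL⟩ := List.head?_eq_some_iff.1 ha
        have e2 := start_lemma (hn _) hL
        change (g i * (of (p i))⁻¹⁻¹ * (g i)⁻¹ * g (i + 1)).norm < _ at e2
        have e3 := norm_conj_le (g i * (of (p i))⁻¹⁻¹ * (g i)⁻¹ * g (i + 1)) (p (i + 1))
        rw [norm_conj (hn (i + 1))] at a1
        refine absurd (a1.trans (le_of_eq_of_le ?_ e3)) (by omega)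
        congr 1; group)
  have e1 := toWord_of_red hr
  rw [mk_WW, inv_one, one_mul] at e1
  have e2 : ∀ j, lo ≤ j → j < lo + n →
      n + (g j).norm ≤ (prodI (fun j => g j * of (p j) * (g j)⁻¹) lo n).norm := fun j a b => by
    have := (len_WW g p n lo 1).2 j a b
    rw [← e1, inv_one, one_mul] at this
    exact this
  refine ⟨fun j a b => ?_, fun h => ?_⟩
  · have := e2 j a b
    simp only [norm_conj (hn j)]; omega
  · have e3 : ∀ j, lo ≤ j → j < lo + n → g j = 1 := fun j a b => by
      have := e2 j a b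
      rw [h, norm_prodI] at this
      exact norm_eq_zero.1 (by omega)
    rw [prodI_congr (y' := fun j => of (p j)) fun j a b => by simp [e3 j a b]] at h
    have e4 := congrArg toWord h
    rw [toWord_prodI, show prodI of lo n = prodI (fun j => of (id j)) lo n from rfl,
      toWord_prodI, List.map_inj_left] at e4
    intro j a b
    have := e4 j (by simp; omega)
    simp only [id, Prod.mk.injEq, and_true] at this
    simp [e3 j a b, this]

def CL (Q : Set ℕ) : Subgroup FG := Subgroup.closure (of '' Q)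

theorem of_mem_CL {Q : Set ℕ} {j : ℕ} (h : j ∈ Q) : of j ∈ CL Q :=
  Subgroup.subset_closure ⟨j, h, rfl⟩

theorem mk_mem_CL {Q : Set ℕ} {L : List (ℕ × Bool)} (h : ∀ a ∈ L, a.1 ∈ Q) : mk L ∈ CL Q := by
  induction L with
  | nil => exact one_mem _
  | cons a L ih =>
    rw [show mk (a :: L) = mk [(a.1, a.2)] * mk L from rfl, mk_single]
    exact mul_mem (zpow_mem (of_mem_CL (h a (by simp))) _) (ih fun b hb => h b (by simp [hb]))

theorem mem_CL {Q : Set ℕ} {g : FG} : g ∈ CL Q ↔ ∀ a ∈ g.toWord, a.1 ∈ Q := by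
  constructor
  · intro h
    induction h using Subgroup.closure_induction with
    | mem x hx => obtain ⟨j, hj, rfl⟩ := hx; simpa using hj
    | one => simp
    | mul x y _ _ h1 h2 =>
      intro a ha
      rcases List.mem_append.1 ((toWord_mul_sublist x y).subset ha) with h | h
      · exact h1 a h
      · exact h2 a h
    | inv x _ h1 =>
      intro a ha
      simp only [toWord_inv, invRev, List.mem_reverse, List.mem_map] at ha
      obtain ⟨b, hb, rfl⟩ := ha
      exact h1 b hb
  · intro h; rw [← mk_toWord (x := g)]; exact mk_mem_CL h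

open Classical in
noncomputable def pre (Q : Set ℕ) (g : FG) : FG := mk (g.toWord.takeWhile fun a => a.1 ∈ Q)

def SN (Q : Set ℕ) (r : FG) : Prop := ∀ a ∈ r.toWord.head?, a.1 ∉ Q

theorem norm_pre (Q : Set ℕ) (g : FG) : (pre Q g).norm ≤ g.norm :=
  norm_mk_le.trans (List.takeWhile_sublist _).length_le

theorem pre_mem (Q : Set ℕ) (g : FG) : pre Q g ∈ CL Q :=
  mk_mem_CL fun a ha => by simpa using List.mem_takeWhile_imp ha

theorem toWord_SN {Q : Set ℕ} {l r : FG} (hl : l ∈ CL Q) (hr : SN Q r) :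
    (l * r).toWord = l.toWord ++ r.toWord :=
  toWord_mul_red (red_append isReduced_toWord isReduced_toWord fun a ha b hb e =>
    absurd (e ▸ mem_CL.1 hl a (List.mem_of_getLast? ha)) (hr b hb))

theorem pre_eq {Q : Set ℕ} {l r : FG} (hl : l ∈ CL Q) (hr : SN Q r) : pre Q (l * r) = l := by
  classical
  rw [pre, toWord_SN hl hr, List.takeWhile_append_of_pos (by simpa using mem_CL.1 hl)]
  have : (r.toWord.takeWhile fun a => decide (a.1 ∈ Q)) = [] := by
    cases h : r.toWord with
    | nil => rfl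
    | cons a L => simp [hr a (by simp [h])]
  rw [this, List.append_nil, mk_toWord]

theorem pre_dec (Q : Set ℕ) (g : FG) : SN Q ((pre Q g)⁻¹ * g) := by
  classical
  have e : (pre Q g)⁻¹ * g = mk (g.toWord.dropWhile fun a => a.1 ∈ Q) := by
    rw [inv_mul_eq_iff_eq_mul, pre, mul_mk, List.takeWhile_append_dropWhile, mk_toWord]
  rw [SN, e, toWord_of_red (List.IsChain.suffix isReduced_toWord (List.dropWhile_suffix _))]
  intro a ha
  have := List.head?_dropWhile_not (fun a : ℕ × Bool => decide (a.1 ∈ Q)) g.toWord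
  rw [Option.mem_def.1 ha] at this
  simpa using this

theorem SN_mul {Q : Set ℕ} {r s : FG} (hr : SN Q r) (h1 : r ∉ CL Q) (hs : s ∈ CL Q) :
    SN Q (r * s) := by
  have key : ∀ g : FG, SN Q g ↔ ∀ a ∈ g⁻¹.toWord.getLast?, a.1 ∉ Q := fun g => by
    simp only [SN, toWord_inv, invRev, List.getLast?_reverse, List.head?_map, Option.mem_def,
      Option.map_eq_some_iff]
    constructor
    · rintro h a ⟨b, hb, rfl⟩; exact h b hb
    · intro h a ha; exact h (a.1, !a.2) ⟨a, ha, rfl⟩
  have a1 := pre_dec Q r⁻¹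
  have a2 := toWord_SN (pre_mem Q r⁻¹) a1
  have a3 := toWord_SN (mul_mem (inv_mem hs) (pre_mem Q r⁻¹)) a1
  have a4 : ((pre Q r⁻¹)⁻¹ * r⁻¹).toWord ≠ [] := fun e => h1 (by
    rw [toWord_eq_nil_iff, inv_mul_eq_one] at e
    exact inv_mem_iff.1 (e ▸ pre_mem Q r⁻¹))
  rw [mul_inv_cancel_left] at a2
  rw [mul_assoc, mul_inv_cancel_left, ← mul_inv_rev] at a3
  rw [key, a2, List.getLast?_append_of_ne_nil _ a4] at hr
  rwa [key, a3, List.getLast?_append_of_ne_nil _ a4]

theorem pre_conj {Q : Set ℕ} {y : FG} (hy : IsCG y) (h : y ∉ CL Q) : pre Q y = pre Q y⁻¹ := by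
  classical
  obtain ⟨g, p, rfl, hn⟩ := hy.trim
  have e1 := toWord_conj hn true
  have e2 := toWord_conj hn false
  have e3 : (g * of p * g⁻¹)⁻¹ = g * mk [(p, false)] * g⁻¹ := by
    rw [show mk [(p, false)] = (of p : FG)⁻¹ from rfl]; group
  change (g * of p * g⁻¹).toWord = _ at e1
  rw [pre, pre, e3, e1, e2, List.takeWhile_append, List.takeWhile_append]
  split_ifs with hh
  · have h1 : ∀ a ∈ g.toWord, a.1 ∈ Q := by
      have := (List.takeWhile_sublist _).eq_of_length hh
      simpa using List.takeWhile_eq_self_iff.1 this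
    have h2 : p ∉ Q := fun hp =>
      h (mul_mem (mul_mem (mem_CL.2 h1) (of_mem_CL hp)) (inv_mem (mem_CL.2 h1)))
    simp [h2]
  · rfl

theorem lemmaS {Q : Set ℕ} {s y : FG} (hs : s ∈ CL Q) (h : y ∉ CL Q) (hy : pre Q y = pre Q y⁻¹) :
    s = pre Q (s * y) * (pre Q (s * y)⁻¹)⁻¹ := by
  have e1 : pre Q (s * y) = s * pre Q y := by
    rw [← pre_eq (mul_mem hs (pre_mem Q y)) (pre_dec Q y)]; congr 1; group
  have e2 : pre Q (s * y)⁻¹ = pre Q y⁻¹ := by
    rw [← pre_eq (pre_mem Q y⁻¹) (SN_mul (pre_dec Q y⁻¹) (fun h' => h (by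
      have := mul_mem (pre_mem Q y⁻¹) h'
      simpa using this)) (inv_mem hs))]
    congr 1; group
  rw [e1, e2, hy]; group

theorem lemmaS_norm {Q : Set ℕ} {s y : FG} (hs : s ∈ CL Q) (h : y ∉ CL Q)
    (hy : pre Q y = pre Q y⁻¹) : s.norm ≤ 2 * (s * y).norm := by
  have := norm_mul_le (pre Q (s * y)) (pre Q (s * y)⁻¹)⁻¹
  rw [← lemmaS hs h hy, norm_inv_eq] at this
  have h1 := norm_pre Q (s * y)
  have h2 := norm_pre Q (s * y)⁻¹
  rw [norm_inv_eq] at h2
  omega

/-- Exponent sum of a generator. -/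
def dg (p : ℕ) : FG →* Multiplicative ℤ :=
  lift fun j => if j = p then Multiplicative.ofAdd 1 else 1

theorem IsCG.eq_of_zpow {y : FG} (hy : IsCG y) {p : ℕ} {m : ℤ} (h : y = of p ^ m) : y = of p := by
  obtain ⟨g, q, e⟩ := hy
  have h1 := congrArg (lift fun _ : ℕ => Multiplicative.ofAdd (1 : ℤ)) (e.symm.trans h)
  simp only [map_mul, lift_apply_of, map_inv, mul_inv_cancel_comm, map_zpow] at h1
  have : m = 1 := by
    have := congrArg Multiplicative.toAdd h1
    simpa using this.symm
  rw [h, this, zpow_one]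

theorem CL_single {p : ℕ} {y : FG} (h : y ∈ CL {p}) : ∃ m : ℤ, y = of p ^ m := by
  rw [CL, Set.image_singleton, Subgroup.mem_closure_singleton] at h
  exact let ⟨m, e⟩ := h; ⟨m, e.symm⟩

end Pool.Agent.Lib.MP_a1ec0a_al
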