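import Mathlib

/-! Three-coloured, locally 6-large, simply connected triangle complexes: greedy normal forms. -/

namespace Pool.Agent.Lib.MP_a1ec0a_al

/-- Paths of length `n` for a reflexive symmetric relation. -/
inductive DD {V : Type} (r : V → V → Prop) : ℕ → V → V → Prop
  | zero (v : V) : DD r 0 v v
  | succ {n : ℕ} {v v' q : V} : r v v' → DD r n v' q → DD r (n + 1) v q

structure TriSys (V : Type) where
  r : V → V → Prop
  tp : V → ℤ
  refl : ∀ v, r v v
  symm : ∀ {u v}, r u v → r v u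
  eq_of : ∀ {u v}, r u v → (tp u - tp v) % 3 = 0 → u = v
  l6 : ∀ {v a a' m m'}, r v a → r v a' → r v m → r v m' → (tp a - tp v) % 3 = 2 →
    (tp a' - tp v) % 3 = 2 → (tp m - tp v) % 3 = 1 → (tp m' - tp v) % 3 = 1 →
    r a m → r a m' → r a' m → r a' m' → a = a' ∨ m = m'
  sc : ∀ (E : Type) (base : E → V) (ψ : V → E → E), (∀ v e, r (base e) v → base (ψ v e) = v) →
    (∀ e, ψ (base e) e = e) →
    (∀ e v' v'', r (base e) v' → r v' v'' → r (base e) v'' → ψ v'' (ψ v' e) = ψ v'' e) →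
    ∀ e0, ∃ σ : V → E, σ (base e0) = e0 ∧ (∀ v, base (σ v) = v) ∧
      ∀ v v', r v v' → ψ v' (σ v) = σ v'
  conn : ∀ u v, ∃ n, DD r n u v

namespace TriSys

variable {V : Type} (X : TriSys V)

def rev : TriSys V where
  r := X.r
  tp v := -X.tp v
  refl := X.refl
  symm := X.symm
  eq_of h h' := X.eq_of h (by omega)
  l6 h1 h2 h3 h4 h5 h6 h7 h8 h9 h10 h11 h12 :=
    (X.l6 h3 h4 h1 h2 (by omega) (by omega) (by omega) (by omega) (X.symm h9) (X.symm h11)
      (X.symm h10) (X.symm h12)).symm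
  sc := X.sc
  conn := X.conn

@[ext] structure Pt where
  v : V
  k : ℤ
  hk : (k - X.tp v) % 3 = 0

variable {X}

def S (a b : X.Pt) : Prop := X.r a.v b.v ∧ a.k ≤ b.k ∧ b.k ≤ a.k + 3

theorem v_eq {a b : X.Pt} (h : X.r a.v b.v) (h' : (a.k - b.k) % 3 = 0) : a.v = b.v :=
  X.eq_of h (by have := a.hk; have := b.hk; omega)

theorem pt_eq {a b : X.Pt} (h : X.r a.v b.v) (h' : a.k = b.k) : a = b :=
  Pt.ext (v_eq h (by omega)) h'

theorem S.rfl (a : X.Pt) : S a a := ⟨X.refl _, le_rfl, by omega⟩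

theorem S.anti {a b : X.Pt} (h : S a b) (h' : S b a) : a = b :=
  pt_eq h.1 (le_antisymm h.2.1 h'.2.1)

theorem S.chain {a b c d : X.Pt} (h1 : S a b) (h2 : S b c) (h3 : S c d) (h4 : S a d) :
    S a c ∧ S b d := by
  by_cases e1 : a.k = b.k
  · obtain rfl := pt_eq h1.1 e1; exact ⟨h2, h4⟩
  by_cases e2 : b.k = c.k
  · obtain rfl := pt_eq h2.1 e2; exact ⟨h1, h3⟩
  by_cases e3 : c.k = d.k
  · obtain rfl := pt_eq h3.1 e3; exact ⟨h4, h2⟩
  obtain ⟨a1, a2, a3⟩ := h1
  obtain ⟨b1, b2, b3⟩ := h2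
  obtain ⟨c1, c2, c3⟩ := h3
  obtain ⟨d1, d2, d3⟩ := h4
  have e : a.v = d.v := v_eq d1 (by omega)
  exact ⟨⟨e ▸ X.symm c1, by omega, by omega⟩, ⟨e ▸ X.symm a1, by omega, by omega⟩⟩

def up (a : X.Pt) : X.Pt := ⟨a.v, a.k + 3, by have := a.hk; omega⟩
def dn (a : X.Pt) : X.Pt := ⟨a.v, a.k - 3, by have := a.hk; omega⟩

theorem S.to_up {a m : X.Pt} (h : S a m) : S m (up a) :=
  ⟨X.symm h.1, h.2.2, by have := h.2.1; simp only [up]; omega⟩
theorem S.of_dn {a m : X.Pt} (h : S a m) : S (dn m) a :=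
  ⟨X.symm h.1, by have := h.2.2; simp only [dn]; omega, by have := h.2.1; simp only [dn]; omega⟩
theorem up_dn (a : X.Pt) : up (dn a) = a := Pt.ext rfl (by simp [up, dn])
theorem dn_up (a : X.Pt) : dn (up a) = a := Pt.ext rfl (by simp [up, dn])

def IsH (a b c m : X.Pt) : Prop :=
  S b m ∧ S m c ∧ S a m ∧ ∀ m', S b m' → S m' c → S a m' → S m' m

theorem exists_H {a b c : X.Pt} (h1 : S a b) (h2 : S b c) : ∃ m, IsH a b c m := by
  by_cases c1 : S a c
  · exact ⟨c, h2, S.rfl c, c1, fun _ _ h _ => h⟩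
  by_cases c2 : S (up a) c
  · exact ⟨up a, h1.to_up, c2, (S.rfl a).to_up, fun _ _ _ h => h.to_up⟩
  have key : ∀ m, S b m → S m c → S a m → m ≠ b →
      b.k = a.k + 1 ∧ m.k = a.k + 2 ∧ c.k = a.k + 3 := by
    intro m m1 m2 m3 hne
    have e1 : m.k ≠ b.k := fun e => hne (pt_eq m1.1 e.symm).symm
    have e2 : m.k ≠ a.k + 3 := fun e => c2 (by
      have : m = up a := pt_eq (X.symm m3.1) e
      rwa [← this])
    have e3 : m.k ≠ c.k := fun e => c1 (by rwa [← pt_eq m2.1 e])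
    have e4 : a.k ≠ b.k := fun e => c1 (by rwa [pt_eq h1.1 e])
    have e5 : c.k ≠ b.k + 3 := fun e => c2 (by
      have : c = up b := pt_eq (X.symm h2.1) e
      rw [this]
      exact ⟨h1.1, by have := h1.2.1; simp only [up]; omega,
        by have := h1.2.2; simp only [up]; omega⟩)
    obtain ⟨-, a2, a3⟩ := h1
    obtain ⟨-, b2, b3⟩ := h2
    obtain ⟨-, c2, c3⟩ := m1
    obtain ⟨-, d2, d3⟩ := m2
    obtain ⟨-, e2, e3⟩ := m3
    omega
  by_cases c3 : ∃ m, S b m ∧ S m c ∧ S a m ∧ m ≠ b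
  · obtain ⟨m, m1, m2, m3, hne⟩ := c3
    refine ⟨m, m1, m2, m3, fun m' n1 n2 n3 => ?_⟩
    by_cases e : m' = b
    · rw [e]; exact m1
    obtain ⟨k1, k2, k3⟩ := key m m1 m2 m3 hne
    obtain ⟨-, k4, -⟩ := key m' n1 n2 n3 e
    have := a.hk; have := b.hk; have := c.hk; have := m.hk; have := m'.hk
    rcases X.l6 (X.symm h1.1) h2.1 m1.1 n1.1 (by omega) (by omega) (by omega) (by omega)
      m3.1 n3.1 (X.symm m2.1) (X.symm n2.1) with h | h
    · exact absurd ⟨h ▸ X.refl _, by omega, by omega⟩ c1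
    · rw [Pt.ext h.symm (k4.trans k2.symm)]; exact S.rfl _
  · refine ⟨b, S.rfl b, h2, h1, fun m' n1 n2 n3 => ?_⟩
    have : m' = b := by
      by_contra hne; exact c3 ⟨m', n1, n2, n3, hne⟩
    rw [this]; exact S.rfl _

open Classical in
noncomputable def H (a b c : X.Pt) : X.Pt := if h : ∃ m, IsH a b c m then h.choose else b

theorem H_spec {a b c : X.Pt} (h1 : S a b) (h2 : S b c) : IsH a b c (H a b c) := by
  have := exists_H h1 h2
  rw [H, dif_pos this]; exact this.choose_spec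

theorem H_eq {a b c m : X.Pt} (h1 : S a b) (h2 : S b c) (h : IsH a b c m) : H a b c = m := by
  obtain ⟨a1, a2, a3, a4⟩ := H_spec h1 h2
  exact (h.2.2.2 _ a1 a2 a3).anti (a4 _ h.1 h.2.1 h.2.2.1)

theorem H_of_S {a b c : X.Pt} (h1 : S a b) (h2 : S b c) (h3 : S a c) : H a b c = c :=
  H_eq h1 h2 ⟨h2, S.rfl c, h3, fun _ _ h _ => h⟩

theorem H_dn {b c : X.Pt} (h2 : S b c) : H (dn b) b c = b :=
  H_eq (S.rfl b).of_dn h2 ⟨S.rfl b, h2, (S.rfl b).of_dn, fun m' _ _ h => by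
    have := h.to_up; rwa [up_dn] at this⟩

theorem H_law {a b c d : X.Pt} (h1 : S a b) (h2 : S b c) (h3 : S a c) (h4 : S c d) :
    H a b (H b c d) = H a c d := by
  obtain ⟨a1, a2, a3, a4⟩ := H_spec h2 h4
  obtain ⟨b1, b2, b3, b4⟩ := H_spec h1 a3
  obtain ⟨c1, c2, c3, c4⟩ := H_spec h3 h4
  have e1 := (h1.chain h2 c1 c3).2
  have e2 := b4 _ h2 a1 h3
  exact (c4 _ e2 (e2.chain b2 a2 h4).2 b3).anti (b4 _ e1 (a4 _ c1 c2 e1) c3)

def Chain (w : ℕ → X.Pt) : Prop := ∀ i, S (w i) (w (i + 1))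
def Normal (w : ℕ → X.Pt) : Prop := Chain w ∧ ∀ i, H (w i) (w (i + 1)) (w (i + 2)) = w (i + 1)

noncomputable def Phi (a : X.Pt) (w : ℕ → X.Pt) : ℕ → X.Pt
  | 0 => a
  | i + 1 => H (Phi a w i) (w i) (w (i + 1))

theorem Phi_S {a : X.Pt} {w : ℕ → X.Pt} (hw : Chain w) (ha : S a (w 0)) (i : ℕ) :
    S (Phi a w i) (w i) := by
  induction i with
  | zero => exact ha
  | succ i ih => exact (H_spec ih (hw i)).2.1

theorem Phi_chain {a : X.Pt} {w : ℕ → X.Pt} (hw : Chain w) (ha : S a (w 0)) :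
    Chain (Phi a w) := fun i => (H_spec (Phi_S hw ha i) (hw i)).2.2.1

theorem S_Phi {a : X.Pt} {w : ℕ → X.Pt} (hw : Chain w) (ha : S a (w 0)) (i : ℕ) :
    S (w i) (Phi a w (i + 1)) := (H_spec (Phi_S hw ha i) (hw i)).1

theorem Phi_Phi {a b : X.Pt} {w : ℕ → X.Pt} (hw : Chain w) (hb : S b (w 0)) (hab : S a b)
    (ha : S a (w 0)) : Phi a (Phi b w) = Phi a w := by
  funext i
  induction i with
  | zero => rfl
  | succ i ih =>
    have h1 := Phi_S (Phi_chain hw hb) (a := a) hab i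
    rw [Phi, Phi, Phi, ← ih]
    exact H_law h1 (Phi_S hw hb i) (ih ▸ Phi_S hw ha i) (hw i)

theorem Phi_normal {a : X.Pt} {w : ℕ → X.Pt} (hw : Normal w) (ha : S a (w 0)) :
    Normal (Phi a w) := by
  refine ⟨Phi_chain hw.1 ha, fun i => ?_⟩
  have h1 := H_law (S_Phi hw.1 ha i) (Phi_S hw.1 ha (i + 1)) (hw.1 i) (hw.1 (i + 1))
  have h2 := H_law (Phi_S hw.1 ha i) (S_Phi hw.1 ha i) (Phi_chain hw.1 ha i)
    (Phi_chain hw.1 ha (i + 1))
  rw [← h2]
  conv_lhs => rw [show Phi a w (i + 1 + 1) = H (Phi a w (i + 1)) (w (i + 1)) (w (i + 1 + 1)) from rfl,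
    h1, hw.2 i]
  rfl

theorem Phi_self {w : ℕ → X.Pt} (hw : Chain w) : Phi (w 0) w = w := by
  funext i
  induction i with
  | zero => rfl
  | succ i ih => rw [Phi, ih, H_of_S (S.rfl _) (hw i) (hw i)]

def cons (a : X.Pt) (w : ℕ → X.Pt) : ℕ → X.Pt
  | 0 => a
  | i + 1 => w i

theorem Phi_cons {a : X.Pt} {w : ℕ → X.Pt} (hw : Normal w) (h : H a (w 0) (w 1) = w 0) :
    Phi a w = cons a w := by
  funext i
  induction i with
  | zero => rfl
  | succ i ih =>
    rw [Phi, ih]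
    cases i with
    | zero => exact h
    | succ i => exact hw.2 i

def sh (w : ℕ → X.Pt) : ℕ → X.Pt := cons (dn (w 0)) w

theorem Phi_dn {w : ℕ → X.Pt} (hw : Normal w) : Phi (dn (w 0)) w = sh w :=
  Phi_cons hw (H_dn (hw.1 0))

theorem Normal.sh {w : ℕ → X.Pt} (hw : Normal w) : Normal (sh w) :=
  Phi_dn hw ▸ Phi_normal hw (S.rfl _).of_dn

theorem Normal.tail {w : ℕ → X.Pt} (hw : Normal w) : Normal fun i => w (i + 1) :=
  ⟨fun i => hw.1 (i + 1), fun i => hw.2 (i + 1)⟩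

theorem Phi_tail {w : ℕ → X.Pt} (hw : Normal w) : Phi (w 0) (fun i => w (i + 1)) = w := by
  rw [Phi_cons hw.tail (hw.2 0)]
  funext i; cases i <;> rfl

theorem Phi_sh {a : X.Pt} {w : ℕ → X.Pt} (hw : Normal w) (ha : S a (w 0)) :
    Phi (dn a) (sh w) = sh (Phi a w) := by
  have h1 : S (dn a) (dn (w 0)) :=
    ⟨ha.1, by have := ha.2.1; simp only [dn]; omega, by have := ha.2.2; simp only [dn]; omega⟩
  rw [← Phi_dn hw, ← Phi_Phi hw.1 ha ha.of_dn (S.rfl _).of_dn,
    Phi_Phi (Phi_chain hw.1 ha) ha.of_dn h1 (S.rfl _).of_dn]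
  exact Phi_dn (Phi_normal hw ha)

def lift (v : V) (k : ℤ) : X.Pt := ⟨v, k - (k - X.tp v) % 3, by omega⟩

theorem lift_S {v : V} {c : X.Pt} (h : X.r c.v v) : S (lift v c.k) c :=
  ⟨X.symm h, by simp only [lift]; omega, by simp only [lift]; omega⟩

def NRay (X : TriSys V) := {w : ℕ → X.Pt // Normal w}

def shN (w : NRay X) : NRay X := ⟨sh w.1, w.2.sh⟩

instance raySetoid : Setoid (NRay X) where
  r w w' := ∃ i j, shN^[i] w = shN^[j] w'
  iseqv := ⟨fun _ => ⟨0, 0, rfl⟩, fun ⟨i, j, h⟩ => ⟨j, i, h.symm⟩,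
    fun ⟨i, j, h⟩ ⟨i', j', h'⟩ => ⟨i' + i, j + j', by
      rw [Function.iterate_add_apply, h, ← Function.iterate_add_apply, add_comm,
        Function.iterate_add_apply, h', ← Function.iterate_add_apply]⟩⟩

theorem shN_iter (i : ℕ) (w : NRay X) : ((shN^[i] w).1 0).v = (w.1 0).v ∧
    ((shN^[i] w).1 0).k = (w.1 0).k - 3 * i ∧ ∀ j, (shN^[i] w).1 (j + i) = w.1 j := by
  induction i with
  | zero => simp
  | succ i ih =>
    rw [Function.iterate_succ_apply']
    refine ⟨ih.1, ?_, fun j => ih.2.2 j⟩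
    change ((shN^[i] w).1 0).k - 3 = _
    rw [ih.2.1]; push_cast; ring

open Classical in
noncomputable def psi0 (v : V) (w : NRay X) : NRay X :=
  if h : X.r (w.1 0).v v then ⟨Phi (lift v (w.1 0).k) w.1, Phi_normal w.2 (lift_S h)⟩ else w

theorem psi0_sh (v : V) (w : NRay X) : psi0 v (shN w) = shN (psi0 v w) := by
  unfold psi0
  by_cases h : X.r (w.1 0).v v
  · have h' : X.r ((shN w).1 0).v v := h
    rw [dif_pos h, dif_pos h']
    apply Subtype.ext
    change Phi (lift v ((w.1 0).k - 3)) (sh w.1) = sh (Phi (lift v (w.1 0).k) w.1)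
    rw [← Phi_sh w.2 (lift_S h)]
    congr 1
    refine Pt.ext rfl ?_
    change (w.1 0).k - 3 - ((w.1 0).k - 3 - X.tp v) % 3 = (w.1 0).k - ((w.1 0).k - X.tp v) % 3 - 3
    omega
  · have h' : ¬ X.r ((shN w).1 0).v v := h
    rw [dif_neg h, dif_neg h']

theorem psi0_iter (v : V) (i : ℕ) (w : NRay X) : psi0 v (shN^[i] w) = shN^[i] (psi0 v w) :=
  (Function.Commute.iterate_right (f := psi0 v) (g := shN) (psi0_sh v) i) w

noncomputable def psi (v : V) : Quotient (raySetoid (X := X)) → Quotient (raySetoid (X := X)) :=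
  Quotient.map (psi0 v) fun _ _ ⟨i, j, h⟩ => ⟨i, j, by rw [← psi0_iter, ← psi0_iter, h]⟩

def base : Quotient (raySetoid (X := X)) → V :=
  Quotient.lift (fun w => (w.1 0).v) fun w w' ⟨i, j, h⟩ => by
    rw [← (shN_iter i w).1, h, (shN_iter j w').1]

theorem mk_sh (w : NRay X) : (⟦shN w⟧ : Quotient raySetoid) = ⟦w⟧ := Quotient.sound ⟨0, 1, rfl⟩

theorem psi_mk {a : X.Pt} (w : NRay X) (ha : S a (w.1 0)) :
    psi a.v ⟦w⟧ = ⟦⟨Phi a w.1, Phi_normal w.2 ha⟩⟧ := by
  change ⟦psi0 a.v w⟧ = _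
  rw [psi0, dif_pos (X.symm ha.1)]
  by_cases e : a.k = (w.1 0).k - 3
  · have e1 : a = dn (w.1 0) := pt_eq ha.1 e
    have e2 : lift a.v (w.1 0).k = w.1 0 := pt_eq ha.1 (by
      have := a.hk; simp only [lift]; omega)
    rw [← mk_sh]
    congr 1
    apply Subtype.ext
    change sh (Phi (lift a.v (w.1 0).k) w.1) = Phi a w.1
    rw [e2, Phi_self w.2.1, e1, Phi_dn w.2]
  · have e2 : lift a.v (w.1 0).k = a := Pt.ext rfl (by
      have := a.hk; have := ha.2.1; have := ha.2.2; simp only [lift]; omega)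
    simp only [e2]

theorem exists_section (z : X.Pt) : ∃ σ : V → Quotient (raySetoid (X := X)),
    ∀ (n : ℕ) (w : NRay X), (∀ i, n ≤ i → w.1 i = z) → ⟦w⟧ = σ (w.1 0).v := by
  have hz : Normal fun _ : ℕ => z :=
    ⟨fun _ => S.rfl z, fun _ => H_of_S (S.rfl z) (S.rfl z) (S.rfl z)⟩
  obtain ⟨σ, h1, -, h3⟩ := X.sc _ base psi (fun v e => by
      induction e using Quotient.inductionOn with
      | h w =>
        intro h
        have := psi_mk w (lift_S h)
        change psi v _ = _ at this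
        rw [this]; rfl)
    (fun e => by
      induction e using Quotient.inductionOn with
      | h w =>
        have := psi_mk w (S.rfl _)
        change psi (w.1 0).v _ = _
        rw [this]
        congr 1
        exact Subtype.ext (Phi_self w.2.1))
    (fun e v' v'' => by
      induction e using Quotient.inductionOn with
      | h w =>
        intro h1 h2 h3
        change X.r (w.1 0).v _ at h1 h3
        have hb := lift_S h1
        set b : X.Pt := lift v' (w.1 0).k with hbd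
        have hab : S (lift v'' b.k) b := lift_S h2
        set a : X.Pt := lift v'' b.k with had
        have e1 := psi_mk w hb
        have e2 := psi_mk ⟨Phi b w.1, Phi_normal w.2 hb⟩ (a := a) hab
        change psi v' _ = _ at e1
        change psi v'' _ = _ at e2
        rw [e1, e2]
        have k1 : b.k ≤ (w.1 0).k ∧ (w.1 0).k < b.k + 3 := by simp only [hbd, lift]; omega
        have k2 : a.k ≤ b.k ∧ b.k < a.k + 3 := by simp only [had, lift]; omega
        by_cases hc : (w.1 0).k ≤ a.k + 3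
        · have ha : S a (w.1 0) := ⟨X.symm h3, by omega, hc⟩
          have e3 := psi_mk w ha
          change psi v'' _ = _ at e3
          rw [e3]
          congr 1
          exact Subtype.ext (Phi_Phi w.2.1 hb hab ha)
        · have ha : S (up a) (w.1 0) :=
            ⟨X.symm h3, by simp only [up]; omega, by simp only [up]; omega⟩
          have e3 := psi_mk w ha
          change psi v'' _ = _ at e3
          rw [e3, ← mk_sh ⟨Phi (up a) w.1, _⟩]
          congr 1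
          apply Subtype.ext
          change Phi a (Phi b w.1) = sh (Phi (up a) w.1)
          rw [← Phi_Phi w.2.1 ha hab.to_up hb,
            Phi_Phi (Phi_chain w.2.1 ha) hab.to_up hab (S.rfl a).to_up,
            ← Phi_dn (Phi_normal w.2 ha)]
          congr 1
          exact (dn_up a).symm)
    ⟦⟨fun _ => z, hz⟩⟧
  refine ⟨σ, fun n => ?_⟩
  induction n with
  | zero =>
    intro w hw
    have : w = ⟨fun _ => z, hz⟩ := Subtype.ext (funext fun i => hw i (Nat.zero_le i))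
    rw [this]; exact h1.symm
  | succ n ih =>
    intro w hw
    have := ih ⟨_, w.2.tail⟩ fun i hi => hw (i + 1) (by omega)
    rw [← h3 (w.1 1).v _ (X.symm (w.2.1 0).1), ← this, psi_mk ⟨_, w.2.tail⟩ (w.2.1 0)]
    congr 1
    exact Subtype.ext (Phi_tail w.2).symm

/-- Comparison of two normal rays from the same vertex to the same point. -/
theorem ray_cmp {z : X.Pt} {w w' : ℕ → X.Pt} (hw : Normal w) (hw' : Normal w') {n n' : ℕ}
    (h : ∀ i, n ≤ i → w i = z) (h' : ∀ i, n' ≤ i → w' i = z) (hv : (w 0).v = (w' 0).v)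
    (hd : (w 1).k ≠ (w 0).k + 3) : ∃ j, w' = sh^[j] w := by
  obtain ⟨σ, hσ⟩ := exists_section z
  obtain ⟨i, j, e⟩ := Quotient.exact ((hσ n ⟨w, hw⟩ h).trans
    ((congrArg σ hv).trans (hσ n' ⟨w', hw'⟩ h').symm))
  have inj : Function.Injective (shN (X := X)) := fun u u' e => Subtype.ext (funext fun k =>
    congrFun (congrArg Subtype.val e) (k + 1))
  have val : ∀ (k : ℕ) (u : NRay X), (shN^[k] u).1 = sh^[k] u.1 := fun k u => by
    induction k with
    | zero => rfl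
    | succ k ih => rw [Function.iterate_succ_apply', Function.iterate_succ_apply', ← ih]; rfl
  rcases le_or_gt j i with hij | hij
  · obtain ⟨k, rfl⟩ := Nat.exists_eq_add_of_le hij
    rw [Function.iterate_add_apply] at e
    exact ⟨k, by rw [← val k ⟨w, hw⟩, inj.iterate j e]⟩
  · obtain ⟨k, rfl⟩ := Nat.exists_eq_add_of_lt hij
    rw [add_assoc, Function.iterate_add_apply] at e
    have e2 := congrArg Subtype.val (inj.iterate i e)
    rw [Function.iterate_succ_apply'] at e2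
    exfalso; apply hd
    simp only at e2
    rw [e2]
    change ((shN^[k] ⟨w', hw'⟩).1 0).k = ((shN^[k] ⟨w', hw'⟩).1 0).k - 3 + 3
    omega

theorem sh_iter (j : ℕ) (w : ℕ → X.Pt) :
    (sh^[j] w 0).k = (w 0).k - 3 * j ∧ ∀ i, sh^[j] w (i + j) = w i := by
  induction j with
  | zero => simp
  | succ i ih =>
    rw [Function.iterate_succ_apply']
    refine ⟨?_, fun j => ih.2 j⟩
    change (sh^[i] w 0).k - 3 = _
    rw [ih.1]; push_cast; ring

theorem Phi_const {a z : X.Pt} {w : ℕ → X.Pt} (hw : Chain w) (ha : S a (w 0)) {n : ℕ}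
    (h : ∀ i, n ≤ i → w i = z) : ∀ i, n + 1 ≤ i → Phi a w i = z := by
  intro i hi
  obtain ⟨j, rfl⟩ : ∃ j, i = j + 1 := ⟨i - 1, by omega⟩
  have := Phi_S hw ha j
  rw [Phi, h (j + 1) (by omega), h j (by omega)] at *
  exact H_of_S this (S.rfl _) this

theorem ray_of_DD {n : ℕ} {v q : V} (h : DD X.r n v q) (z : X.Pt) (hz : z.v = q) :
    ∃ w, Normal w ∧ (w 0).v = v ∧ ∀ i, n ≤ i → w i = z := by
  induction h with
  | zero v => exact ⟨fun _ => z, ⟨fun _ => S.rfl z, fun _ =>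
      H_of_S (S.rfl z) (S.rfl z) (S.rfl z)⟩, hz, fun _ _ => rfl⟩
  | succ h1 _ ih =>
    obtain ⟨w, a1, a2, a3⟩ := ih hz
    have hS := lift_S (a2 ▸ X.symm h1 : X.r (w 0).v _)
    exact ⟨_, Phi_normal a1 hS, rfl, Phi_const a1.1 hS a3⟩

theorem DD_of_ray {z : X.Pt} : ∀ (n : ℕ) (w : ℕ → X.Pt), Chain w → w n = z →
    DD X.r n (w 0).v z.v := by
  intro n
  induction n with
  | zero => intro w _ h; rw [h]; exact DD.zero _
  | succ n ih =>
    intro w hw h
    exact DD.succ (hw 0).1 (ih (fun i => w (i + 1)) (fun i => hw (i + 1)) h)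

variable (X)

noncomputable def d (u v : V) : ℕ := sInf {n | DD X.r n u v}

theorem d_spec (u v : V) : DD X.r (X.d u v) u v := Nat.sInf_mem (X.conn u v)
variable {X}
theorem d_le {u v : V} {n : ℕ} (h : DD X.r n u v) : X.d u v ≤ n := Nat.sInf_le h

theorem DD_trans {n m : ℕ} {u v w : V} (h : DD X.r n u v) (h' : DD X.r m v w) :
    DD X.r (m + n) u w := by
  induction h with
  | zero v => exact h'
  | succ h1 _ ih => exact DD.succ h1 (ih h')

theorem DD_symm {n : ℕ} {u v : V} (h : DD X.r n u v) : DD X.r n v u := by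
  induction h with
  | zero v => exact DD.zero v
  | succ h1 _ ih =>
    rw [add_comm]; exact DD_trans ih (DD.succ (X.symm h1) (DD.zero _))

variable (X)
theorem d_comm (u v : V) : X.d u v = X.d v u :=
  le_antisymm (d_le (DD_symm (X.d_spec v u))) (d_le (DD_symm (X.d_spec u v)))
theorem d_tri (u v w : V) : X.d u w ≤ X.d u v + X.d v w := by
  rw [add_comm]; exact d_le (DD_trans (X.d_spec u v) (X.d_spec v w))
theorem d_self (u : V) : X.d u u = 0 := Nat.le_zero.1 (d_le (DD.zero u))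
variable {X}
theorem d_zero {u v : V} (h : X.d u v = 0) : u = v := by
  have := X.d_spec u v
  rw [h] at this
  cases this; rfl
theorem d_r {u v : V} (h : X.r u v) : X.d u v ≤ 1 := d_le (DD.succ h (DD.zero v))
theorem d_step {u v : V} {n : ℕ} (h : X.d u v = n + 1) : ∃ s, X.r u s ∧ X.d s v = n := by
  have := X.d_spec u v
  rw [h] at this
  cases this with
  | succ h1 h2 =>
    refine ⟨_, h1, le_antisymm (d_le h2) ?_⟩
    have := d_le (DD.succ h1 (X.d_spec _ v))
    omega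
theorem d_lip {u s : V} (h : X.r u s) (v : V) : X.d u v ≤ X.d s v + 1 :=
  d_le (DD.succ h (X.d_spec _ v))
theorem r_of_d {u v : V} (h : X.d u v ≤ 1) : X.r u v := by
  rcases Nat.le_one_iff_eq_zero_or_eq_one.1 h with h | h
  · rw [d_zero h]; exact X.refl _
  · obtain ⟨s, h1, h2⟩ := d_step (n := 0) h
    rw [← d_zero h2]; exact h1

theorem canon {v : V} {n : ℕ} {z : X.Pt} (h : X.d v z.v = n + 1) {w : ℕ → X.Pt} (hw : Normal w)
    (hv : (w 0).v = v) (hz : ∀ i, n + 1 ≤ i → w i = z) :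
    (w 1).k ≠ (w 0).k + 3 ∧ X.d (w 1).v z.v = n ∧ w n ≠ z := by
  have h1 := d_le (DD_of_ray n (fun i => w (i + 1)) hw.tail.1 (hz _ le_rfl))
  have h2 := d_lip (hw.1 0).1 z.v
  simp only [zero_add] at h1 h2
  refine ⟨fun e => ?_, by rw [hv] at h2; omega, fun e => ?_⟩
  · rw [← v_eq (hw.1 0).1 (by simp only [zero_add]; omega), hv] at h1
    omega
  · have := d_le (DD_of_ray n w hw.1 e)
    rw [hv] at this; omega

def IsHead (X : TriSys V) (p h q : V) : Prop :=
  X.r p h ∧ X.d h q + 1 = X.d p q ∧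
    ∀ s, X.r p s → X.d s q + 1 = X.d p q → X.r s h ∧ ((X.tp s - X.tp p) % 3 = 2 → s = h)

theorem exists_head {p q : V} (hpq : X.d p q ≠ 0) : ∃ h, X.IsHead p h q := by
  obtain ⟨n, hn⟩ := Nat.exists_eq_succ_of_ne_zero hpq
  let z : X.Pt := lift q 0
  obtain ⟨w, a1, a2, a3⟩ := ray_of_DD (hn ▸ X.d_spec p q) z rfl
  obtain ⟨b1, b2, b3⟩ := canon (z := z) hn a1 a2 a3
  refine ⟨(w 1).v, a2 ▸ (a1.1 0).1, by rw [hn]; exact congrArg _ b2, fun s hs hd => ?_⟩
  obtain ⟨u, c1, c2, c3⟩ := ray_of_DD (X.d_spec s q) z rfl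
  have hS := lift_S (c2 ▸ X.symm hs : X.r (u 0).v p)
  have e : X.d s q = n := by omega
  rw [e] at c3
  have d3 := Phi_const c1.1 hS c3
  obtain ⟨d1, -, -⟩ := canon (z := z) hn (Phi_normal c1 hS) rfl d3
  obtain ⟨j, hj⟩ := ray_cmp a1 (Phi_normal c1 hS) a3 d3 a2 b1
  have hj0 : j = 0 := by
    by_contra hne
    obtain ⟨j, rfl⟩ := Nat.exists_eq_succ_of_ne_zero hne
    apply d1
    rw [hj, Function.iterate_succ_apply']
    change (sh^[j] w 0).k = (sh^[j] w 0).k - 3 + 3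
    omega
  subst hj0
  have e1 := S_Phi c1.1 hS 0
  have e2 : lift p (u 0).k = w 0 := congrFun hj 0
  rw [hj] at e1
  rw [e2] at hS
  simp only [Function.iterate_zero, id, zero_add] at e1
  refine ⟨c2 ▸ e1.1, fun ht => ?_⟩
  rw [← c2, pt_eq e1.1]
  have := (u 0).hk; have := (w 0).hk; have := hS.2.1; have := hS.2.2; have := e1.2.1
  have := (a1.1 0).2.2
  rw [← a2, ← c2] at ht
  simp only [zero_add] at *
  omega

theorem tc {u v q : V} {n : ℕ} (h : X.r u v) (hu : X.d u q = n + 1) (hv : X.d v q = n + 1) :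
    ∃ m, X.r u m ∧ X.r v m ∧ X.d m q = n := by
  let z : X.Pt := lift q 0
  obtain ⟨w, a1, a2, a3⟩ := ray_of_DD (hu ▸ X.d_spec u q) z rfl
  obtain ⟨b1, b2, b3⟩ := canon (z := z) hu a1 a2 a3
  obtain ⟨w', c1, c2, c3⟩ := ray_of_DD (hv ▸ X.d_spec v q) z rfl
  obtain ⟨d1, d2, d3⟩ := canon (z := z) hv c1 c2 c3
  have hS := lift_S (c2 ▸ X.symm h : X.r (w' 0).v u)
  have e3 := Phi_const c1.1 hS c3
  obtain ⟨j, hj⟩ := ray_cmp a1 (Phi_normal c1 hS) a3 e3 a2 b1
  have e1 := S_Phi c1.1 hS 0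
  obtain ⟨f1, f2⟩ := sh_iter j w
  have hj1 : j ≤ 1 := by
    by_contra hn
    exact b3 (by rw [← f2, ← hj]; exact e3 _ (by omega))
  rcases Nat.le_one_iff_eq_zero_or_eq_one.1 hj1 with rfl | rfl
  · rw [hj] at e1
    exact ⟨(w 1).v, a2 ▸ (a1.1 0).1, c2 ▸ e1.1, b2⟩
  · rw [hj] at e1
    change S (w' 0) (w 0) at e1
    obtain ⟨j', hj'⟩ := ray_cmp c1 (Phi_normal a1 e1) c3 (Phi_const a1.1 e1 a3) rfl d1
    have hj0 : j' = 0 := by
      have := (sh_iter j' w').1
      rw [← hj'] at this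
      change (w' 0).k = _ at this
      omega
    subst hj0
    have e2 := S_Phi a1.1 e1 0
    rw [hj'] at e2
    exact ⟨(w' 1).v, a2 ▸ e2.1, c2 ▸ (c1.1 0).1, d2⟩

theorem tp_cases {u v : V} (h : X.r u v) (hne : u ≠ v) :
    (X.tp v - X.tp u) % 3 = 1 ∨ (X.tp v - X.tp u) % 3 = 2 := by
  have : (X.tp u - X.tp v) % 3 ≠ 0 := fun e => hne (X.eq_of h e)
  omega

theorem clique {v q s t : V} (hs : X.r v s) (ht : X.r v t) (hs' : X.d s q + 1 = X.d v q)
    (ht' : X.d t q + 1 = X.d v q) : X.r s t := by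
  obtain ⟨h, -, -, h3⟩ := exists_head (X := X) (p := v) (q := q) (by omega)
  obtain ⟨h', -, -, h3'⟩ := exists_head (X := X.rev) (p := v) (q := q)
    (by change X.d v q ≠ 0; omega)
  rcases tp_cases hs (by rintro rfl; omega) with e | e
  · rcases tp_cases ht (by rintro rfl; omega) with e' | e'
    · rw [(h3' s hs hs').2 (by simp only [rev]; omega), (h3' t ht ht').2
        (by simp only [rev]; omega)]
      exact X.refl _
    · rw [(h3 t ht ht').2 e']; exact (h3 s hs hs').1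
  · rw [(h3 s hs hs').2 e]; exact X.symm (h3 t ht ht').1

/-- The local condition on consecutive vertices of a greedy path. -/
def Triple (X : TriSys V) (p h h' : V) : Prop :=
  ¬ X.r p h' ∧ ((X.tp h - X.tp p) % 3 = 1 → (X.tp h' - X.tp p) % 3 = 0 →
    ¬ ∃ m, X.r p m ∧ X.r h m ∧ X.r h' m ∧ (X.tp m - X.tp p) % 3 = 2)

theorem IsHead.base {p q : V} (h : X.r p q) (hne : p ≠ q) : X.IsHead p q q := by
  have h1 := d_r h
  have h2 : X.d p q ≠ 0 := fun e => hne (d_zero e)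
  refine ⟨h, by rw [d_self]; omega, fun s _ hs => ?_⟩
  have : s = q := d_zero (X := X) (by omega)
  exact ⟨this ▸ X.refl _, fun _ => this⟩

theorem IsHead.step {p h h' q : V} (h1 : X.r p h) (hne : p ≠ h) (h2 : X.IsHead h h' q)
    (h3 : X.Triple p h h') : X.IsHead p h q := by
  obtain ⟨a1, a2, a3⟩ := h2
  have l1 := d_lip h1 q
  have l2 := d_lip (X.symm h1) q
  have hh' : h ≠ h' := by rintro rfl; omega
  have e : X.d h q + 1 = X.d p q := by
    by_contra hn
    by_cases c : X.d p q + 1 = X.d h q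
    · exact h3.1 (a3 p (X.symm h1) c).1
    obtain ⟨m, m1, m2, m3⟩ := tc h1 (n := X.d h' q) (q := q) (by omega) (by omega)
    obtain ⟨b1, b2⟩ := a3 m m2 (by omega)
    have hm : m ≠ h' := by rintro rfl; exact h3.1 m1
    have t1 := tp_cases m2 (by rintro rfl; omega)
    have t2 := tp_cases a1 hh'
    have t3 := tp_cases b1 hm
    have t4 := tp_cases h1 hne
    have t5 := tp_cases m1 (by rintro rfl; omega)
    have t6 : (X.tp m - X.tp h) % 3 ≠ 2 := fun e => hm (b2 e)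
    exact h3.2 (by omega) (by omega) ⟨m, m1, m2, X.symm b1, by omega⟩
  refine ⟨h1, e, fun s hs hd => ⟨clique hs h1 hd e, fun ht => ?_⟩⟩
  by_contra hn
  have hsh := clique hs h1 hd e
  obtain ⟨m, m1, m2, m3⟩ := tc hsh (n := X.d h' q) (q := q) (by omega) (by omega)
  have t1 := tp_cases m2 (by rintro rfl; omega)
  have t2 := tp_cases m1 (by rintro rfl; omega)
  have t3 := tp_cases hsh hn
  have t4 := tp_cases h1 hne
  obtain rfl := (a3 m m2 (by omega)).2 (by omega)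
  exact h3.2 (by omega) (by omega) ⟨s, hs, X.symm hsh, X.symm m1, ht⟩

theorem IsHead.triple {p h h' q : V} (h1 : X.IsHead p h q) (h2 : X.IsHead h h' q) :
    X.Triple p h h' := by
  have a1 := h1.2.1
  have a2 := h2.2.1
  refine ⟨fun h => by have := d_lip h q; omega, ?_⟩
  rintro t1 t2 ⟨m, m1, m2, m3, m4⟩
  have := d_lip m1 q
  have := d_lip (X.symm m3) q
  obtain rfl := (h1.2.2 m m1 (by omega)).2 m4
  omega

theorem IsHead.proj {p h h' q s : V} (h1 : X.IsHead p h q) (h2 : X.rev.IsHead p h' q)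
    (hs : X.r p s) (hd : X.d s q + 1 = X.d p q) : s = h ∨ s = h' := by
  rcases tp_cases hs (by rintro rfl; omega) with e | e
  · exact Or.inr ((h2.2.2 s hs hd).2 (by simp only [rev]; omega))
  · exact Or.inl ((h1.2.2 s hs hd).2 e)

end TriSys

end Pool.Agent.Lib.MP_a1ec0a_al
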