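import Pool.Agent.Lib.MP_a1ec0a_al.Braid

/-! Hurwitz reduction: stabilisers and effective length bounds in braid groups. -/

namespace Pool.Agent.Lib.MP_a1ec0a_al

open FreeGroup (of mk lift)

def evW {K : Type} [Group K] (τ : ℕ → K) (w : List (ℕ × Bool)) : K := lift τ (mk w)

section
variable {K : Type} [Group K] (τ : ℕ → K)
@[simp] theorem evW_nil : evW τ [] = 1 := map_one (lift τ)
theorem evW_append (v w : List (ℕ × Bool)) : evW τ (v ++ w) = evW τ v * evW τ w := by
  rw [evW, ← FreeGroup.mul_mk, map_mul]; rfl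
theorem evW_cons (l : ℕ × Bool) (w : List (ℕ × Bool)) :
    evW τ (l :: w) = (bif l.2 then τ l.1 else (τ l.1)⁻¹) * evW τ w := by
  simp [evW]
theorem evW_true (i : ℕ) (w : List (ℕ × Bool)) : evW τ ((i, true) :: w) = τ i * evW τ w :=
  evW_cons τ _ w
theorem evW_false (i : ℕ) (w : List (ℕ × Bool)) : evW τ ((i, false) :: w) = (τ i)⁻¹ * evW τ w :=
  evW_cons τ _ w
theorem evW_invRev (w : List (ℕ × Bool)) : evW τ (FreeGroup.invRev w) = (evW τ w)⁻¹ := by
  rw [evW, ← FreeGroup.inv_mk, map_inv]; rfl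
theorem evW_mem {τ : ℕ → K} {A : Subgroup K} {w : List (ℕ × Bool)} (h : ∀ l ∈ w, τ l.1 ∈ A) :
    evW τ w ∈ A := by
  induction w with
  | nil => simp
  | cons l w ih =>
    rw [evW_cons]
    refine mul_mem ?_ (ih fun l hl => h l (by simp [hl]))
    have := h l (by simp)
    cases l.2
    · exact inv_mem this
    · exact this
theorem map_evW {K' : Type} [Group K'] (f : K →* K') (w : List (ℕ × Bool)) :
    f (evW τ w) = evW (fun i => f (τ i)) w := by
  induction w with
  | nil => simp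
  | cons l w ih => rw [evW_cons, evW_cons, map_mul, ih]; cases l.2 <;> simp
theorem evW_congr {τ τ' : ℕ → K} {w : List (ℕ × Bool)} (h : ∀ l ∈ w, τ l.1 = τ' l.1) :
    evW τ w = evW τ' w := by
  induction w with
  | nil => simp
  | cons l w ih => rw [evW_cons, evW_cons, ih fun l hl => h l (by simp [hl]), h l (by simp)]
theorem evW_map (e : ℕ → ℕ) (w : List (ℕ × Bool)) :
    evW τ (w.map fun l => (e l.1, l.2)) = evW (fun i => τ (e i)) w := by
  induction w with
  | nil => simp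
  | cons l w ih => rw [List.map_cons, evW_cons, evW_cons, ih]
end

def SG : Subgroup (MulAut FG) := Subgroup.closure (Set.range sig)

theorem sig_mem (i : ℕ) : sig i ∈ SG := Subgroup.subset_closure ⟨i, rfl⟩

theorem IsCG.of (j : ℕ) : IsCG (of j) := ⟨1, j, by simp⟩
theorem IsCG.conj {y : FG} (h : IsCG y) (c : FG) : IsCG (c * y * c⁻¹) :=
  let ⟨g, p, e⟩ := h; ⟨c * g, p, by rw [e]; group⟩

theorem SG.cg {a : MulAut FG} (h : a ∈ SG) (j : ℕ) : IsCG (a (of j)) := by
  induction h using Subgroup.closure_induction_right generalizing j with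
  | one => exact IsCG.of j
  | mul_right x _ y hy ih =>
    obtain ⟨i, rfl⟩ := hy
    rw [MulAut.mul_apply, sig_of, sigF]
    split_ifs
    · rw [map_mul, map_mul, map_inv]; exact (ih _).conj _
    · exact ih _
    · exact ih _
  | mul_inv_cancel x _ y hy ih =>
    obtain ⟨i, rfl⟩ := hy
    rw [MulAut.mul_apply, sig_inv_of, sigB]
    split_ifs
    · exact ih _
    · rw [map_mul, map_mul, map_inv]
      simpa using (ih i).conj (x (of (i + 1)))⁻¹
    · exact ih _

theorem sum_two {φ φ' : ℕ → ℕ} {S : Finset ℕ} {i : ℕ} (h1 : i ∈ S) (h2 : i + 1 ∈ S)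
    (h : ∀ j, j ≠ i → j ≠ i + 1 → φ' j = φ j) :
    ∑ j ∈ S, φ' j + φ i + φ (i + 1) = ∑ j ∈ S, φ j + φ' i + φ' (i + 1) := by
  have h3 : i + 1 ∈ S.erase i := by simp [h2]
  rw [← Finset.add_sum_erase S φ h1, ← Finset.add_sum_erase S φ' h1,
    ← Finset.add_sum_erase _ φ h3, ← Finset.add_sum_erase _ φ' h3,
    Finset.sum_congr rfl (f := φ') (g := φ) fun j hj => h j (by simp at hj; omega)
      (by simp at hj; omega)]
  ring

theorem reduce_aut (lo n : ℕ) : ∀ (N : ℕ) (a : MulAut FG),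
    ∑ j ∈ Finset.Ico lo (lo + n), (a (of j)).norm ≤ N →
    ∃ w : List (ℕ × Bool), (∀ l ∈ w, lo ≤ l.1 ∧ l.1 + 1 < lo + n) ∧ w.length ≤ N ∧
      HMin (fun j => (a * evW sig w) (of j)) lo n := by
  intro N
  induction N using Nat.strong_induction_on with
  | _ N ih =>
  intro a ha
  by_cases h : HMin (fun j => a (of j)) lo n
  · exact ⟨[], by simp, by simp, by simpa using h⟩
  simp only [HMin, not_forall, not_and_or, not_le] at h
  obtain ⟨i, h1, h2, h3⟩ := h
  have m1 : i ∈ Finset.Ico lo (lo + n) := by simp; omega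
  have m2 : i + 1 ∈ Finset.Ico lo (lo + n) := by simp; omega
  rcases h3 with h3 | h3
  · have := sum_two (φ := fun j => (a (of j)).norm) (φ' := fun j => ((a * sig i) (of j)).norm)
      m1 m2 fun j e e' => by simp [sig_ne e e']
    simp only [MulAut.mul_apply, sig_self, sig_succ, map_mul, map_inv] at this
    obtain ⟨w, a1, a2, a3⟩ := ih (N - 1) (by omega) (a * sig i)
      (by simp only [MulAut.mul_apply]; omega)
    refine ⟨(i, true) :: w, List.forall_mem_cons.2 ⟨⟨h1, h2⟩, a1⟩, by simp; omega, ?_⟩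
    rwa [evW_true, ← mul_assoc]
  · have := sum_two (φ := fun j => (a (of j)).norm) (φ' := fun j => ((a * (sig i)⁻¹) (of j)).norm)
      m1 m2 fun j e e' => by rw [MulAut.mul_apply, sig_inv_ne e e']
    simp only [MulAut.mul_apply, sig_inv_self, sig_inv_succ, map_mul, map_inv] at this
    obtain ⟨w, a1, a2, a3⟩ := ih (N - 1) (by omega) (a * (sig i)⁻¹)
      (by simp only [MulAut.mul_apply]; omega)
    refine ⟨(i, false) :: w, List.forall_mem_cons.2 ⟨⟨h1, h2⟩, a1⟩, by simp; omega, ?_⟩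
    rwa [evW_false, ← mul_assoc]

theorem sig_prod {i lo n : ℕ} (h : (lo ≤ i ∧ i + 1 < lo + n) ∨ i + 1 < lo ∨ lo + n ≤ i) :
    sig i (prodI of lo n) = prodI of lo n := by
  have key : ∀ lo n, i + 1 < lo ∨ lo + n ≤ i → sig i (prodI of lo n) = prodI of lo n :=
    fun lo n h => by
      rw [map_prodI]
      exact prodI_congr fun j h1 h2 => sig_ne (by omega) (by omega)
  rcases h with h | h
  · obtain ⟨a, rfl⟩ : ∃ a, i = lo + a := ⟨i - lo, by omega⟩
    obtain ⟨b, rfl⟩ : ∃ b, n = a + (b + 1 + 1) := ⟨n - a - 2, by omega⟩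
    rw [prodI_add, prodI_succ, prodI_succ, map_mul, map_mul, map_mul, key lo a (by omega),
      key _ b (by omega), sig_self, sig_succ]
    group
  · exact key lo n h

theorem evW_fix {w : List (ℕ × Bool)} {x : FG} (h : ∀ l ∈ w, sig l.1 x = x) : evW sig w x = x :=
  evW_mem (A := MulAction.stabilizer (MulAut FG) x) h

theorem standardize {lo n N : ℕ} {a : MulAut FG} (ha : a ∈ SG)
    (h1 : a (prodI of lo n) = prodI of lo n)
    (h2 : ∑ j ∈ Finset.Ico lo (lo + n), (a (of j)).norm ≤ N) :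
    ∃ w : List (ℕ × Bool), (∀ l ∈ w, lo ≤ l.1 ∧ l.1 + 1 < lo + n) ∧ w.length ≤ N ∧
      ∀ j, lo ≤ j → j < lo + n → (a * evW sig w) (of j) = of j := by
  obtain ⟨w, a1, a2, a3⟩ := reduce_aut lo n N a h2
  refine ⟨w, a1, a2, (hurwitz (SG.cg (mul_mem ha (evW_mem fun l _ => sig_mem _))) a3).2 ?_⟩
  rw [← map_prodI, MulAut.mul_apply, evW_fix fun l hl => sig_prod (Or.inl (a1 l hl)), h1]

section
variable {K : Type} [Group K] {τ : ℕ → K} {lo m : ℕ} (h : BR τ lo m) (f : K →* MulAut FG)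
  (hf : ∀ i, lo ≤ i → i < m → f (τ i) = sig i)
include hf

theorem f_SG {g : K} (hg : g ∈ Sub τ lo m) : f g ∈ SG := by
  have : (Sub τ lo m).map f ≤ SG := by
    rw [Sub, MonoidHom.map_closure, Subgroup.closure_le]
    rintro _ ⟨_, ⟨i, hi, rfl⟩, rfl⟩
    rw [hf i hi.1 hi.2]; exact sig_mem i
  exact this ⟨g, hg, rfl⟩

theorem f_evW {w : List (ℕ × Bool)} (hw : ∀ l ∈ w, lo ≤ l.1 ∧ l.1 < m) :
    f (evW τ w) = evW sig w := by
  rw [map_evW]; exact evW_congr fun l hl => hf _ (hw l hl).1 (hw l hl).2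

theorem f_fix {g : K} (hg : g ∈ Sub τ lo m) {x : FG} (hx : ∀ i, lo ≤ i → i < m → sig i x = x) :
    f g x = x :=
  closure_fix f (by rintro _ ⟨i, hi, rfl⟩; rw [hf i hi.1 hi.2, hx i hi.1 hi.2]) hg

include h

theorem eq_one_of {g : K} (hg : g ∈ Sub τ lo m)
    (e : ∀ j, lo ≤ j → j ≤ m → f g (of j) = of j) : g = 1 := by
  refine faithful h f hf m lo le_rfl (by omega) g hg (aut_ext fun j => ?_)
  by_cases hj : lo ≤ j ∧ j ≤ m
  · exact e j hj.1 hj.2
  · exact f_fix f hf hg fun i h1 h2 => sig_ne (by omega) (by omega)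

theorem stab_split {g : K} (hg : g ∈ Sub τ lo m) {k : ℕ} (hk : lo + k ≤ m)
    (e : f g (prodI of lo k) = prodI of lo k) :
    ∃ g1 ∈ Sub τ lo (lo + k - 1), ∃ g2 ∈ Sub τ (lo + k) m, g * g1 * g2 = 1 := by
  obtain ⟨w, a1, -, a3⟩ := standardize (f_SG f hf hg) e le_rfl
  have b1 : evW τ w ∈ Sub τ lo (lo + k - 1) := evW_mem fun l hl =>
    mem_Sub (a1 l hl).1 (by have := (a1 l hl).2; omega)
  have b2 : g * evW τ w ∈ Sub τ lo m := mul_mem hg (Sub_mono le_rfl (by omega) b1)
  rw [← f_evW f hf fun l hl => ⟨(a1 l hl).1, by have := (a1 l hl).2; omega⟩, ← map_mul] at a3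
  have e1 : f (g * evW τ w) (prodI of (lo + k) (m + 1 - (lo + k))) =
      prodI of (lo + k) (m + 1 - (lo + k)) := by
    have := f_fix f hf b2 (x := prodI of lo (k + (m + 1 - (lo + k)))) fun i h1 h2 =>
      sig_prod (by omega)
    rw [prodI_add, map_mul, map_prodI, prodI_congr a3] at this
    exact mul_left_cancel this
  obtain ⟨w', c1, -, c3⟩ := standardize (f_SG f hf b2) e1 le_rfl
  have d1 : evW τ w' ∈ Sub τ (lo + k) m := evW_mem fun l hl =>
    mem_Sub (c1 l hl).1 (by have := (c1 l hl).2; omega)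
  have d2 := f_evW f hf (w := w') fun l hl => by have := c1 l hl; omega
  refine ⟨_, b1, _, d1, eq_one_of h f hf (mul_mem b2 (Sub_mono (by omega) le_rfl d1))
    fun j h1 h2 => ?_⟩
  rw [map_mul, d2]
  by_cases hj : j < lo + k
  · rw [MulAut.mul_apply, evW_fix fun l hl => sig_ne (by have := c1 l hl; omega)
      (by have := c1 l hl; omega), a3 j h1 hj]
  · exact c3 j (by omega) (by omega)

theorem stab_first {g : K} (hg : g ∈ Sub τ lo m) (hk : lo < m)
    (e : f g (of lo) = of lo) : g ∈ Sub τ (lo + 1) m := by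
  obtain ⟨g1, h1, g2, h2, h3⟩ := stab_split h f hf hg (k := 1) hk (by simpa [prodI] using e)
  rw [Sub, Set.Ico_eq_empty (by omega), Set.image_empty, Subgroup.closure_empty,
    Subgroup.mem_bot] at h1
  rw [h1, mul_one, mul_eq_one_iff_eq_inv] at h3
  rw [h3]; exact inv_mem h2

theorem short_word {g : K} (hg : g ∈ Sub τ lo m) (hk : lo < m) {N : ℕ}
    (hN : (f g (of lo)).norm ≤ N) :
    ∃ w : List (ℕ × Bool), (∀ l ∈ w, lo ≤ l.1 ∧ l.1 < m) ∧
      w.length ≤ (m + 1) * (2 * (N + (m + 1)) + 1) ∧ g⁻¹ * evW τ w ∈ Sub τ (lo + 1) m := by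
  obtain ⟨w, a1, -, a3⟩ := reduce_aut (lo + 1) (m - lo) _ (f g) le_rfl
  have b1 : evW τ w ∈ Sub τ (lo + 1) m := evW_mem fun l hl =>
    mem_Sub (a1 l hl).1 (by have := (a1 l hl).2; omega)
  have b2 : g * evW τ w ∈ Sub τ lo m := mul_mem hg (Sub_mono (by omega) le_rfl b1)
  have b3 := f_evW f hf (w := w) fun l hl => by have := a1 l hl; omega
  rw [← b3, ← map_mul] at a3
  have e0 : f (g * evW τ w) (of lo) = f g (of lo) := by
    rw [map_mul, b3, MulAut.mul_apply, evW_fix fun l hl => sig_ne (by have := a1 l hl; omega)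
      (by have := a1 l hl; omega)]
  have e1 := f_fix f hf b2 (x := prodI of lo (m - lo + 1)) fun i h1 h2 => sig_prod (by omega)
  have e2 := (hurwitz (SG.cg (f_SG f hf b2)) a3).1
  have e3 : (prodI (fun j => f (g * evW τ w) (of j)) (lo + 1) (m - lo)).norm ≤ N + (m + 1) := by
    have := e1
    rw [map_prodI, prodI_succ, e0, ← eq_inv_mul_iff_mul_eq] at this
    rw [this]
    refine (FreeGroup.norm_mul_le _ _).trans ?_
    rw [FreeGroup.norm_inv_eq, norm_prodI]; omega
  obtain ⟨w', c1, c2, c3⟩ := standardize (N := (m + 1) * (2 * (N + (m + 1)) + 1))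
    (f_SG f hf b2) e1 (by
      refine (Finset.sum_le_card_nsmul _ _ (2 * (N + (m + 1)) + 1) fun j hj => ?_).trans ?_
      · simp only [Finset.mem_Ico] at hj
        rcases hj.1.eq_or_lt with rfl | hj'
        · rw [e0]; omega
        · have := e2 j hj' (by omega); omega
      · simp only [Nat.card_Ico, smul_eq_mul]
        exact Nat.mul_le_mul_right _ (by omega))
  have d0 : ∀ l ∈ w', lo ≤ l.1 ∧ l.1 < m := fun l hl => by have := c1 l hl; omega
  have d1 : evW τ w' ∈ Sub τ lo m := evW_mem fun l hl => mem_Sub (d0 l hl).1 (d0 l hl).2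
  have d2 := eq_one_of h f hf (mul_mem b2 d1) fun j h1 h2 => by
    rw [map_mul, f_evW f hf d0]; exact c3 j h1 (by omega)
  refine ⟨FreeGroup.invRev w', fun l hl => ?_, by simpa using c2, ?_⟩
  · simp only [FreeGroup.invRev, List.mem_reverse, List.mem_map] at hl
    obtain ⟨l', hl', rfl⟩ := hl
    exact d0 l' hl'
  · rw [evW_invRev, ← eq_inv_of_mul_eq_one_left d2]
    simpa using b1

end

theorem norm_hom_le (φ : FG →* FG) {C : ℕ} (h : ∀ j, (φ (of j)).norm ≤ C) (x : FG) :
    (φ x).norm ≤ C * x.norm := by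
  have : ∀ L : List (ℕ × Bool), (φ (mk L)).norm ≤ C * L.length := by
    intro L
    induction L with
    | nil => simp [show mk ([] : List (ℕ × Bool)) = 1 from rfl]
    | cons a L ih =>
      rw [show mk (a :: L) = mk [(a.1, a.2)] * mk L from rfl, map_mul, List.length_cons, mul_add]
      refine (FreeGroup.norm_mul_le _ _).trans ?_
      have : (φ (mk [(a.1, a.2)])).norm ≤ C := by
        rw [mk_single]; cases a.2 <;> simp [h]
      omega
  have := this x.toWord
  rwa [FreeGroup.mk_toWord] at this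

theorem norm3 (a b c : ℕ) : (of a * of b * (of c)⁻¹ : FG).norm ≤ 3 ∧
    ((of a)⁻¹ * of b * of c : FG).norm ≤ 3 := by
  have h1 := FreeGroup.norm_mul_le (of a * of b) (of c)⁻¹
  have h2 := FreeGroup.norm_mul_le (of a) (of b)
  have h3 := FreeGroup.norm_mul_le ((of a)⁻¹ * of b) (of c)
  have h4 := FreeGroup.norm_mul_le (of a)⁻¹ (of b)
  simp only [FreeGroup.norm_inv_eq, FreeGroup.norm_of] at *
  omega

theorem norm_evW (w : List (ℕ × Bool)) (x : FG) : (evW sig w x).norm ≤ 3 ^ w.length * x.norm := by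
  induction w with
  | nil => simp
  | cons l w ih =>
    rw [evW_cons, MulAut.mul_apply, List.length_cons, pow_succ', mul_assoc]
    refine le_trans ?_ (Nat.mul_le_mul_left 3 ih)
    cases l.2
    · refine norm_hom_le ((sig l.1)⁻¹ : MulAut FG) (fun j => ?_) _
      change ((sig l.1)⁻¹ (of j)).norm ≤ 3
      rw [sig_inv_of, sigB]
      split_ifs
      · simp
      · exact (norm3 _ _ _).2
      · simp
    · refine norm_hom_le (sig l.1 : MulAut FG) (fun j => ?_) _
      change (sig l.1 (of j)).norm ≤ 3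
      rw [sig_of, sigF]
      split_ifs
      · exact (norm3 _ _ _).1
      · simp
      · simp

/-- Automorphisms preserving a free factor. -/
def PresQ (Q : Set ℕ) : Subgroup (MulAut FG) where
  carrier := {a | ∀ x, x ∈ CL Q ↔ a x ∈ CL Q}
  mul_mem' := fun {a b} ha hb x => (hb x).trans (ha _)
  one_mem' := fun _ => Iff.rfl
  inv_mem' := fun {a} ha x => by rw [ha (a⁻¹ x)]; simp

theorem hom_CL (φ : FG →* FG) {Q : Set ℕ} {A : Subgroup FG} (h : ∀ j ∈ Q, φ (of j) ∈ A) {x : FG}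
    (hx : x ∈ CL Q) : φ x ∈ A := by
  have : (CL Q).map φ ≤ A := by
    rw [CL, MonoidHom.map_closure, Subgroup.closure_le]
    rintro _ ⟨_, ⟨i, hi, rfl⟩, rfl⟩
    exact h i hi
  exact this ⟨x, hx, rfl⟩

theorem sig_pres {Q : Set ℕ} {i : ℕ} (h : i ∈ Q ↔ i + 1 ∈ Q) : sig i ∈ PresQ Q := by
  intro x
  constructor
  · refine hom_CL (sig i : MulAut FG) fun j hj => ?_
    change sig i (of j) ∈ _
    rw [sig_of, sigF]
    split_ifs with h1 h2
    · subst h1
      exact mul_mem (mul_mem (of_mem_CL hj) (of_mem_CL (h.1 hj))) (inv_mem (of_mem_CL hj))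
    · subst h2; exact of_mem_CL (h.2 hj)
    · exact of_mem_CL hj
  · intro hx
    have := hom_CL ((sig i)⁻¹ : MulAut FG) (A := CL Q) (fun j hj => by
      change (sig i)⁻¹ (of j) ∈ _
      rw [sig_inv_of, sigB]
      split_ifs with h1 h2
      · subst h1; exact of_mem_CL (h.1 hj)
      · subst h2
        exact mul_mem (mul_mem (inv_mem (of_mem_CL hj)) (of_mem_CL (h.2 hj))) (of_mem_CL hj)
      · exact of_mem_CL hj) hx
    simpa using this

theorem CL_inter {Q Q' : Set ℕ} {x : FG} (h : x ∈ CL Q) (h' : x ∈ CL Q') : x ∈ CL (Q ∩ Q') :=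
  mem_CL.2 fun a ha => ⟨mem_CL.1 h a ha, mem_CL.1 h' a ha⟩

end Pool.Agent.Lib.MP_a1ec0a_al
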