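import Pool.Agent.Lib.MP_a1ec0a_al.Hur
import Pool.Agent.Lib.MP_a1ec0a_al.Comp

/-! Free group models of the edge coset graphs of paths and cycles. -/

namespace Pool.Agent.Lib.MP_a1ec0a_al

open FreeGroup (of mk lift)

def SS (J : Set ℕ) : Subgroup (MulAut FG) := Subgroup.closure (sig '' J)

theorem sig_SS {J : Set ℕ} {i : ℕ} (h : i ∈ J) : sig i ∈ SS J := Subgroup.subset_closure ⟨i, h, rfl⟩

theorem SS.le {J : Set ℕ} {A : Subgroup (MulAut FG)} (h : ∀ i ∈ J, sig i ∈ A) : SS J ≤ A := by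
  rw [SS, Subgroup.closure_le]; rintro _ ⟨i, hi, rfl⟩; exact h i hi

theorem SS.sg {J : Set ℕ} {a : MulAut FG} (h : a ∈ SS J) : a ∈ SG :=
  SS.le (fun i _ => sig_mem i) h

theorem SS.fix {J : Set ℕ} {a : MulAut FG} (h : a ∈ SS J) {x : FG} (hx : ∀ i ∈ J, sig i x = x) :
    a x = x := SS.le (A := MulAction.stabilizer (MulAut FG) x) hx h

theorem SS.pres {J Q : Set ℕ} {a : MulAut FG} (h : a ∈ SS J) (hx : ∀ i ∈ J, i ∈ Q ↔ i + 1 ∈ Q)
    (x : FG) : x ∈ CL Q ↔ a x ∈ CL Q := SS.le (A := PresQ Q) (fun i hi => sig_pres (hx i hi)) h x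

def RP (k : ℕ) (z s : FG) : Prop :=
  ∃ y, s ∈ CL (Set.Ici k) ∧ y ∉ CL (Set.Ici k) ∧ pre (Set.Ici k) y = pre (Set.Ici k) y⁻¹ ∧
    (prodI of 0 k)⁻¹ * z = s * y

theorem RP.uniq {k : ℕ} {z s s' : FG} (h : RP k z s) (h' : RP k z s') : s = s' := by
  obtain ⟨y, a1, a2, a3, a4⟩ := h
  obtain ⟨y', b1, b2, b3, b4⟩ := h'
  rw [lemmaS a1 a2 a3, lemmaS b1 b2 b3, ← a4, ← b4]

theorem RP.norm {k : ℕ} {z s : FG} (h : RP k z s) : s.norm ≤ 2 * (z.norm + k) := by
  obtain ⟨y, a1, a2, a3, a4⟩ := h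
  have h1 := lemmaS_norm a1 a2 a3
  have h2 := FreeGroup.norm_mul_le (prodI of 0 k)⁻¹ z
  rw [FreeGroup.norm_inv_eq, norm_prodI, a4] at h2
  omega

theorem path_model {k : ℕ} {h β η : MulAut FG} (hh : h ∈ SS (Set.Ici k)) (hβ : β ∈ SS {k}ᶜ)
    (hη : η (prodI of 0 k) = prodI of 0 k) : (h * β * η) (prodI of 0 k) = prodI of 0 k ∨
      RP k ((h * β * η) (prodI of 0 k)) (h (of k)) := by
  have e1 := SS.fix hβ (x := prodI of 0 (k + 1)) fun i hi => sig_prod (by simp at hi; omega)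
  have e2 := SS.fix hh (x := prodI of 0 k) fun i hi => sig_prod (by simp at hi; omega)
  have e3 : prodI of 0 (k + 1) = prodI of 0 k * of k := by
    rw [prodI_add]; simp [prodI]
  rw [e3, map_mul, ← eq_mul_inv_iff_mul_eq] at e1
  have e4 : (h * β * η) (prodI of 0 k) = prodI of 0 k * (h (of k) * (h (β (of k)))⁻¹) := by
    rw [MulAut.mul_apply, MulAut.mul_apply, hη, e1, map_mul, map_mul, e2, map_inv, mul_assoc]
  have p1 := SS.pres hh (Q := Set.Ici k) fun i hi => by simp at hi ⊢; omega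
  have p2 := SS.pres hβ (Q := Set.Iic k) fun i hi => by simp at hi ⊢; omega
  by_cases c : h (β (of k)) ∈ CL (Set.Ici k)
  · left
    have := CL_inter ((p1 _).2 c) ((p2 _).1 (of_mem_CL (Set.mem_Iic.2 le_rfl)))
    rw [Set.Ici_inter_Iic, Set.Icc_self] at this
    obtain ⟨n, hn⟩ := CL_single this
    rw [e4, (SG.cg (SS.sg hβ) k).eq_of_zpow hn]; simp
  · right
    refine ⟨(h (β (of k)))⁻¹, (p1 _).1 (of_mem_CL (Set.mem_Ici.2 le_rfl)), by simpa using c, ?_,
      by rw [e4]; simp⟩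
    rw [inv_inv]
    exact (pre_conj (SG.cg (mul_mem (SS.sg hh) (SS.sg hβ)) k) c).symm

def RC (z s : FG) : Prop :=
  ∃ y, s ∈ CL (Set.Ici 1) ∧ y ∉ CL (Set.Ici 1) ∧ pre (Set.Ici 1) y = pre (Set.Ici 1) y⁻¹ ∧
    dg 0 (s⁻¹ * y) = 1 ∧ z = of 0 * ((s⁻¹ * y)⁻¹ * of 0 * (s⁻¹ * y)) * (of 0)⁻¹

theorem dg_zpow (p : ℕ) (n : ℤ) : dg p (of p ^ n) = Multiplicative.ofAdd n := by
  rw [map_zpow, dg, FreeGroup.lift_apply_of, if_pos rfl, ← ofAdd_zsmul]; simp

theorem RC.uniq {z s s' : FG} (h : RC z s) (h' : RC z s') : s = s' := by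
  obtain ⟨y, a1, a2, a3, a4, a5⟩ := h
  obtain ⟨y', b1, b2, b3, b4, b5⟩ := h'
  have e1 := lemmaS (inv_mem a1) a2 a3
  have e2 := lemmaS (inv_mem b1) b2 b3
  generalize s⁻¹ * y = W at *
  generalize s'⁻¹ * y' = W' at *
  rw [a5, mul_left_inj, mul_right_inj] at b5
  obtain ⟨n, hn⟩ := cent (c := W' * W⁻¹) (p := 0) (by
    calc _ = W' * (W⁻¹ * of 0 * W) * W'⁻¹ := by group
      _ = _ := by rw [b5]; group)
  have := congrArg (dg 0) hn
  rw [dg_zpow, map_mul, map_inv, a4, b4] at this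
  obtain rfl : n = 0 := by simpa using this.symm
  rw [zpow_zero, mul_inv_eq_one] at hn
  rw [← inv_inj, e1, e2, hn]

theorem dg_norm (p : ℕ) (x : FG) : (dg p x).toAdd.natAbs ≤ x.norm := by
  have : ∀ L : List (ℕ × Bool), (dg p (mk L)).toAdd.natAbs ≤ L.length := by
    intro L
    induction L with
    | nil => simp [show mk ([] : List (ℕ × Bool)) = 1 from rfl]
    | cons a L ih =>
      rw [show mk (a :: L) = mk [(a.1, a.2)] * mk L from rfl, map_mul, List.length_cons, toAdd_mul]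
      have : (dg p (mk [(a.1, a.2)])).toAdd.natAbs ≤ 1 := by
        rw [mk_single]; cases a.2 <;> by_cases e : a.1 = p <;> simp [dg, e]
      omega
  have := this x.toWord
  rwa [FreeGroup.mk_toWord] at this

theorem norm_zpow_le (p : ℕ) (n : ℤ) : (of p ^ n : FG).norm ≤ n.natAbs := by
  obtain ⟨k, rfl | rfl⟩ := n.eq_nat_or_neg <;> simp [FreeGroup.norm_of_pow]

theorem RC.norm {z s : FG} (h : RC z s) : s.norm ≤ 2 * (z.norm + 2) := by
  obtain ⟨y, a1, a2, a3, a4, a5⟩ := h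
  have e1 := lemmaS_norm (inv_mem a1) a2 a3
  generalize s⁻¹ * y = W at *
  obtain ⟨n, h1, -⟩ := trim 0 _ W⁻¹ rfl
  have h2 := norm_conj h1
  have h3 := dg_norm 0 (W⁻¹ * of 0 ^ n)
  rw [map_mul, map_inv, a4, dg_zpow] at h3
  have h4 := FreeGroup.norm_mul_le (W⁻¹ * of 0 ^ n) (of 0 ^ (-n))
  have h5 := norm_zpow_le 0 (-n)
  have h6 : W⁻¹ * of 0 ^ n * of 0 * (W⁻¹ * of 0 ^ n)⁻¹ = (of 0)⁻¹ * z * of 0 := by
    rw [a5]; group
  have h7 := FreeGroup.norm_mul_le ((of 0)⁻¹ * z) (of 0)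
  have h8 := FreeGroup.norm_mul_le (of 0)⁻¹ z
  rw [show W⁻¹ * of 0 ^ n * of 0 ^ (-n) = W⁻¹ by group] at h4
  rw [h6] at h2
  simp only [FreeGroup.norm_inv_eq, FreeGroup.norm_of, inv_one, one_mul, toAdd_ofAdd] at *
  omega

theorem hom_fix (φ : FG →* FG) {Q : Set ℕ} (h : ∀ j ∈ Q, φ (of j) = of j) {x : FG}
    (hx : x ∈ CL Q) : φ x = x :=
  hom_CL (MonoidHom.id _) (A := φ.eqLocus (MonoidHom.id _)) h hx

theorem sq_inv {M : Type} [Group M] (φ : FG →* M) (h : Commute (φ (of 0)) (φ (of 1))) (x : FG) :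
    φ ((sig 0 ^ 2) x) = φ x := by
  have : φ.comp ((sig 0 ^ 2 : MulAut FG) : FG →* FG) = φ := by
    refine FreeGroup.ext_hom _ _ fun j => ?_
    simp only [MonoidHom.comp_apply, MonoidHom.coe_coe, sq, MulAut.mul_apply]
    by_cases e : j = 0
    · subst e
      simp only [sig_self, sig_succ, map_mul, map_inv, zero_add, h.eq, mul_inv_cancel_right]
      rw [← h.eq]; simp [mul_assoc]
    · by_cases e' : j = 0 + 1
      · subst e'; simp only [sig_self, sig_succ, map_mul, map_inv, zero_add, h.eq]; simp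
      · simp [sig_ne e e']
  exact DFunLike.congr_fun this x

theorem cycle_model {h a η : MulAut FG} (hh : h ∈ SS (Set.Ici 1)) (ha : a ∈ SS (Set.Ici 1))
    (hη : η (of 0) = of 0) : (h * (sig 0 ^ 2 * a * (sig 0 ^ 2)⁻¹) * η) (of 0) = of 0 ∨
      RC ((h * (sig 0 ^ 2 * a * (sig 0 ^ 2)⁻¹) * η) (of 0)) (h (of 1)) := by
  have fx : ∀ {h : MulAut FG}, h ∈ SS (Set.Ici 1) → h (of 0) = of 0 := fun hh =>
    SS.fix hh fun i hi => sig_ne (by simp at hi; omega) (by omega)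
  have pr : ∀ {h : MulAut FG}, h ∈ SS (Set.Ici 1) → ∀ x, x ∈ CL (Set.Ici 1) ↔ h x ∈ CL (Set.Ici 1) :=
    fun hh => SS.pres hh fun i hi => by simp at hi ⊢; omega
  have dgi : ∀ {h : MulAut FG}, h ∈ SS (Set.Ici 1) → ∀ x, dg 0 (h x) = dg 0 x := fun hh =>
    closure_inv (MonoidHom.id _) (dg 0) (by
      rintro _ ⟨i, hi, rfl⟩ j
      have : i ≠ 0 := by simp at hi; omega
      rw [MonoidHom.id_apply, sig_of, sigF]
      split_ifs <;> simp_all [dg]) hh
  have e1 : (sig 0 ^ 2)⁻¹ (of 0) = (of 1)⁻¹ * of 0 * of 1 := by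
    rw [sq, mul_inv_rev, MulAut.mul_apply, sig_inv_self, sig_inv_succ]
  have e2 : (sig 0 ^ 2) (of 0) = of 0 * of 1 * of 0 * (of 1)⁻¹ * (of 0)⁻¹ := by
    simp only [sq, MulAut.mul_apply, sig_self, sig_succ, map_mul, map_inv]; group
  have m1 : of 1 ∈ CL (Set.Ici 1) := of_mem_CL (Set.mem_Ici.2 le_rfl)
  have cg : IsCG (h ((of 0)⁻¹ * (sig 0 ^ 2) (a (of 1)) * of 0)) := by
    have := (SG.cg (mul_mem (mul_mem (SS.sg hh) (pow_mem (sig_mem 0) 2)) (SS.sg ha)) 1).conj (of 0)⁻¹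
    simpa [fx hh] using this
  have e3 : (h * (sig 0 ^ 2 * a * (sig 0 ^ 2)⁻¹) * η) (of 0) = of 0 *
      (((h (of 1))⁻¹ * h ((of 0)⁻¹ * (sig 0 ^ 2) (a (of 1)) * of 0))⁻¹ * of 0 *
        ((h (of 1))⁻¹ * h ((of 0)⁻¹ * (sig 0 ^ 2) (a (of 1)) * of 0))) * (of 0)⁻¹ := by
    simp only [MulAut.mul_apply, hη, e1, map_mul, map_inv, fx ha, e2, fx hh]
    group
  by_cases c : h ((of 0)⁻¹ * (sig 0 ^ 2) (a (of 1)) * of 0) ∈ CL (Set.Ici 1)
  · left
    have c1 := (pr hh _).2 c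
    have c2 := (pr ha _).1 m1
    have k1 : ∀ j ∈ Set.Ici 1, kill 0 (of j) = of j := fun j hj => kill_ne (by simp at hj; omega)
    let θ : FG →* FG := lift fun j => if j = 0 then of 1 else of j
    have k2 : ∀ j ∈ Set.Ici 1, θ (of j) = of j := fun j hj => by
      have : j ≠ 0 := by simp at hj; omega
      simp [θ, this]
    have k3 : θ (of 0) = of 1 := by simp [θ]
    have d1 := hom_fix _ k1 c1
    have d2 := hom_fix _ k2 c1
    rw [map_mul, map_mul, map_inv, sq_inv _ (by simp [kill_self]), kill_self, hom_fix _ k1 c2] at d1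
    rw [map_mul, map_mul, map_inv, sq_inv _ (by rw [k3, k2 1 (by simp)]; exact Commute.refl _), k3, hom_fix _ k2 c2,
      ← d1] at d2
    obtain ⟨n, hn⟩ := cent (c := a (of 1)) (p := 1) (by
      calc _ = of 1 * ((of 1)⁻¹ * a (of 1) * of 1) * (a (of 1))⁻¹ := by group
        _ = _ := by rw [d2]; group)
    rw [e3, ← d1, (SG.cg (SS.sg ha) 1).eq_of_zpow hn]
    simp
  · right
    refine ⟨_, (pr hh _).1 m1, c, pre_conj cg c, ?_, e3⟩
    simp only [map_mul, map_inv, dgi hh, sq_inv (dg 0) (Commute.all _ _), dgi ha]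
    simp [dg]

section Rot

variable {K : Type} [Group K] {τ : ℕ → K} {m : ℕ} {t : K}

theorem rho_conj (h : BR τ 1 m) (ht : ∀ j, 2 ≤ j → j < m → Commute t (τ j)) {j : ℕ} (h1 : 1 ≤ j)
    (h2 : j + 1 < m) :
    t * TT τ 1 (m - 1) * τ j * (t * TT τ 1 (m - 1))⁻¹ = τ (j + 1) := by
  rw [mul_assoc t, TT_shift h h1 (by omega) (by omega), ← mul_assoc,
    (ht (j + 1) (by omega) h2).eq]
  group

theorem Aseq_TT (a : K) (lo j : ℕ) :
    Aseq a (fun i => τ (lo + i)) j = (TT τ lo j)⁻¹ * a * TT τ lo j := by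
  induction j with
  | zero => simp [Aseq, TT]
  | succ j ih => rw [Aseq, ih, TT_succ]; group

theorem rho_sq (h : BR τ 1 m) (ht : ∀ j, 2 ≤ j → j < m → Commute t (τ j)) (hm : 2 ≤ m) :
    t * TT τ 1 (m - 1) * (t * TT τ 1 (m - 1) * τ (m - 1) * (t * TT τ 1 (m - 1))⁻¹) *
      (t * TT τ 1 (m - 1))⁻¹ = t * τ 1 * t * τ 1 * (t * τ 1 * t)⁻¹ := by
  obtain ⟨n, rfl⟩ : ∃ n, m = n + 2 := ⟨m - 2, by omega⟩
  have e1 := TT_conj 1 h 1 (j := n) (by omega)
  rw [zpow_one, zpow_one, Aseq_TT] at e1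
  have e2 : Commute t (TT τ (1 + 1) n) := by
    have : Sub τ (1 + 1) (1 + 1 + n) ≤ Subgroup.centralizer {t} := by
      rw [Sub, Subgroup.closure_le]
      rintro _ ⟨i, hi, rfl⟩ _ rfl
      exact ht i hi.1 (by have := hi.2; omega)
    exact this (TT_mem _ _) t rfl
  have e3 : TT τ 1 (n + 1) * τ (n + 1) * (TT τ 1 (n + 1))⁻¹ =
      (TT τ (1 + 1) n)⁻¹ * τ 1 * TT τ (1 + 1) n := by
    rw [← e1, TT_succ, add_comm 1 n]; group
  change t * TT τ 1 (n + 1) * (t * TT τ 1 (n + 1) * τ (n + 1) * (t * TT τ 1 (n + 1))⁻¹) *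
      (t * TT τ 1 (n + 1))⁻¹ = _
  calc _ = t * TT τ 1 (n + 1) * t * (TT τ 1 (n + 1) * τ (n + 1) * (TT τ 1 (n + 1))⁻¹) *
      (t * TT τ 1 (n + 1) * t)⁻¹ := by group
    _ = t * τ 1 * (TT τ (1 + 1) n * t) * ((TT τ (1 + 1) n)⁻¹ * τ 1 * TT τ (1 + 1) n) *
      (t * τ 1 * (TT τ (1 + 1) n * t))⁻¹ := by rw [e3, TT_succ']; group
    _ = _ := by rw [← e2.eq]; group

end Rot

def rho (m : ℕ) : MulAut FG := sig 0 ^ 2 * TT sig 1 (m - 1)

def kap (m i : ℕ) : MulAut FG := if i = 0 then rho m * sig (m - 1) * (rho m)⁻¹ else sig i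

theorem sq_comm {j : ℕ} (h : 2 ≤ j) : Commute (sig 0 ^ 2) (sig j) :=
  ((sig_BR 0 (j + 1)).2 0 j le_rfl h (by omega)).pow_left 2

theorem kap_nx {m j : ℕ} (hm : 2 ≤ m) (hj : j < m) :
    rho m * kap m j * (rho m)⁻¹ = kap m (nx m j) := by
  rcases nx_cases m j with ⟨h1, h2⟩ | ⟨h1, h2⟩ <;> rw [h2]
  · rw [kap, if_neg (by omega), kap, if_pos rfl, ← h1]; rfl
  · by_cases h0 : j = 0
    · subst h0
      rw [kap, if_pos rfl, kap, if_neg (by omega), rho,
        rho_sq (sig_BR 1 m) (fun j h _ => sq_comm h) hm]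
      have := (sig_BR 0 m).bb.b2 (by omega)
      simp only [zero_add, add_zero] at this ⊢
      rw [this]; group
    · rw [kap, if_neg h0, kap, if_neg (by omega), rho,
        rho_conj (sig_BR 1 m) (fun j h _ => sq_comm h) (by omega) (by omega)]

def PRel {K : Type} [Group K] (P : Prop) (a b : K) : Prop :=
  (P → a * b * a = b * a * b) ∧ (¬ P → a * b = b * a)

theorem PRel.conj {K : Type} [Group K] {P : Prop} {a b : K} (h : PRel P a b) (c : K) :
    PRel P (c * a * c⁻¹) (c * b * c⁻¹) :=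
  ⟨fun p => by simpa [mul_assoc] using congrArg (· * c⁻¹) (h.1 p),
    fun p => by simpa [mul_assoc] using congrArg (· * c⁻¹) (h.2 p)⟩

theorem sig_prel (i j : ℕ) : PRel (i + 1 = j ∨ j + 1 = i) (sig i) (sig j) := by
  constructor
  · rintro (rfl | rfl)
    · exact (sig_BR 0 (i + 2)).1 i (by omega) (by omega)
    · exact ((sig_BR 0 (j + 2)).1 j (by omega) (by omega)).symm
  · intro h
    rcases lt_trichotomy i j with e | rfl | e
    · exact (sig_BR 0 (j + 1)).2 i j (by omega) (by omega) (by omega)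
    · rfl
    · exact ((sig_BR 0 (i + 1)).2 j i (by omega) (by omega) (by omega)).symm

theorem kap_prel {m : ℕ} (hm : 3 ≤ m) {i j : ℕ} (hi : i < m) (hj : j < m) :
    PRel (pat True m i j) (kap m i) (kap m j) := by
  have h1 : ∀ i j, i ≠ 0 → j ≠ 0 → PRel (pat True m i j) (kap m i) (kap m j) := fun i j a b => by
    rw [kap, if_neg a, kap, if_neg b, show pat True m i j ↔ (i + 1 = j ∨ j + 1 = i) by
      unfold pat; simp only [true_and]; omega]
    exact sig_prel i j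
  have h2 : ∀ i < m, ∀ j < m, PRel (pat True m (pv m i) (pv m j)) (kap m (pv m i)) (kap m (pv m j)) →
      PRel (pat True m i j) (kap m i) (kap m j) := fun i hi j hj h => by
    have := h.conj (rho m)
    rwa [kap_nx (by omega) (pv_lt hi), kap_nx (by omega) (pv_lt hj), nx_pv hi, nx_pv hj,
      pat_pv hi hj] at this
  by_cases c1 : i ≠ 0 ∧ j ≠ 0
  · exact h1 i j c1.1 c1.2
  refine h2 i hi j hj ?_
  by_cases c2 : pv m i ≠ 0 ∧ pv m j ≠ 0
  · exact h1 _ _ c2.1 c2.2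
  have := pv_cases m i; have := pv_cases m j
  have := pv_cases m (pv m i); have := pv_cases m (pv m j)
  exact h2 _ (pv_lt hi) _ (pv_lt hj) (h1 _ _ (by omega) (by omega))

theorem map_TT {K K' : Type} [Group K] [Group K'] (f : K →* K') {τ : ℕ → K} {τ' : ℕ → K'}
    (lo j : ℕ) (h : ∀ i, lo ≤ i → i < lo + j → f (τ i) = τ' i) : f (TT τ lo j) = TT τ' lo j := by
  induction j with
  | zero => simp [TT]
  | succ j ih =>
    rw [TT_succ, TT_succ, map_mul, ih fun i a b => h i a (by omega), h _ (by omega) (by omega)]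

theorem cyc_stab {K : Type} [Group K] {τ : ℕ → K} {m : ℕ} (hm : 2 ≤ m) (h : BR τ 1 m)
    (R : MulAut K) (hR : ∀ j < m, R (τ j) = τ (nx m j)) (f : K →* MulAut FG)
    (hf : ∀ j < m, f (τ j) = kap m j) {g : K} (hg : g ∈ Sub τ 0 m) (e : f g (of 0) = of 0) :
    g ∈ Sub τ 1 m := by
  let F : K →* Equiv.Perm K × MulAut FG := (MulAction.toPermHom K K).prod f
  let ρ : Equiv.Perm K × MulAut FG := (R.toEquiv, rho m)
  have hF : BR (fun i => F (τ i)) 1 m :=
    ⟨fun i a b => by simpa only [map_mul] using congrArg F (h.1 i a b),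
      fun i j a b c => (h.2 i j a b c).map F⟩
  have c1 : ∀ j < m, ρ * F (τ j) * ρ⁻¹ = F (τ (nx m j)) := fun j hj => by
    refine Prod.ext (Equiv.ext fun x => ?_) ?_
    · rw [← hR j hj]; simp [F, ρ]
    · simp only [F, ρ, Prod.snd_mul, Prod.snd_inv, MonoidHom.prod_apply, hf j hj, hf _ (nx_lt hj)]
      exact kap_nx hm hj
  obtain ⟨t, ht⟩ : ∃ t, t * TT (fun i => F (τ i)) 1 (m - 1) = ρ := ⟨_, inv_mul_cancel_right _ _⟩
  have c2 : ∀ j, 2 ≤ j → j < m → Commute t (F (τ j)) := fun j a b => by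
    obtain ⟨j, rfl⟩ : ∃ k, j = k + 1 := ⟨j - 1, by omega⟩
    have e1 := c1 j (by omega)
    rw [nx, if_neg (by omega), ← ht, mul_assoc t, TT_shift hF (by omega) (by omega) (by omega)] at e1
    change _ * _ = _ * _
    conv_rhs => rw [← e1]
    group
  have hB : BB t (fun i => F (τ (1 + i))) (m - 1) := by
    refine ⟨hF.shift 1 le_rfl, fun j a b => c2 _ (by omega) (by omega), fun _ => ?_⟩
    have e1 := rho_sq hF c2 hm
    rw [ht, c1 _ (by omega), c1 _ (nx_lt (by omega)), show nx m (nx m (m - 1)) = 1 by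
      have := nx_cases m (m - 1); have := nx_cases m (nx m (m - 1)); omega] at e1
    simp only [add_zero]
    rw [eq_mul_inv_iff_mul_eq] at e1
    rw [← e1]; group
  have hs : ∀ i, 1 ≤ i → i < m → (F (τ i)).2 = sig i := fun i a b => by
    change f (τ i) = _; rw [hf i b, kap, if_neg (by omega)]
  have m1 : ∀ i, 1 ≤ i → i < m → F (τ i) ∈ DB t (fun i => F (τ (1 + i))) (m - 1) := fun i a b => by
    have := u_mem_DB (t := t) (u := fun i => F (τ (1 + i))) (n := m - 1) (k := i - 1) (by omega)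
    simpa only [show 1 + (i - 1) = i by omega] using this
  have m2 : ρ ∈ DB t (fun i => F (τ (1 + i))) (m - 1) := by
    rw [← ht]
    refine mul_mem t_mem_DB ((Subgroup.closure_le _).2 ?_ (TT_mem 1 (m - 1)))
    rintro _ ⟨i, hi, rfl⟩
    exact m1 i hi.1 (by have := hi.2; omega)
  have m3 : F g ∈ DB t (fun i => F (τ (1 + i))) (m - 1) := by
    refine Subgroup.mem_comap.1 ((Subgroup.closure_le _).2 ?_ hg)
    rintro _ ⟨i, hi, rfl⟩
    by_cases h0 : i = 0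
    · have := c1 (m - 1) (by omega)
      rw [nx, if_pos (by omega)] at this
      rw [SetLike.mem_coe, Subgroup.mem_comap, h0, ← this]
      exact mul_mem (mul_mem m2 (m1 _ (by omega) (by omega))) (inv_mem m2)
    · exact m1 i (by omega) hi.2
  have := hB.stab (MonoidHom.snd _ _) 0 (by
    have e1 := congrArg (MonoidHom.snd _ _) ht
    rw [map_mul, map_TT _ 1 (m - 1) (τ := fun i => F (τ i)) (τ' := sig)
      fun i a b => hs i a (by omega)] at e1
    exact mul_right_cancel e1) (fun k hk => by simpa using hs (1 + k) (by omega) (by omega)) m3 e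
  rw [HH_eq (τ := fun i => F (τ i)), show 1 + (m - 1) = m by omega] at this
  have e2 : Sub (fun i => F (τ i)) 1 m = (Sub τ 1 m).map F := by
    rw [Sub, Sub, MonoidHom.map_closure, Set.image_image]
  rw [e2] at this
  obtain ⟨g', a, b⟩ := this
  have := congrArg (fun p : Equiv.Perm K × MulAut FG => p.1 1) b
  simp only [F, MonoidHom.prod_apply, MulAction.toPermHom_apply, MulAction.toPerm_apply,
    smul_eq_mul, mul_one] at this
  exact this ▸ a

end Pool.Agent.Lib.MP_a1ec0a_al
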