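import Pool.Agent.Lib.MP_a1ec0a_al.Roots

/-! Small-type Artin groups and the set-theoretic retractions onto standard parabolic subgroups. -/

namespace Pool.Agent.Lib.MP_a1ec0a_al

abbrev Wd := List (ℕ × Bool)

/-- The Artin relator of a pair of generators. -/
def relW (b : Bool) (s t : ℕ) : Wd :=
  bif b then [(s, true), (t, true), (s, true), (t, false), (s, false), (t, false)]
  else [(s, true), (t, true), (s, false), (t, false)]

open Classical in
def rels (Γ : SimpleGraph ℕ) : Set (FreeGroup ℕ) :=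
  {r | ∃ s t, r = FreeGroup.mk (relW (decide (Γ.Adj s t)) s t)}

/-- The small-type Artin group with Dynkin graph `Γ`. -/
abbrev AG (Γ : SimpleGraph ℕ) := PresentedGroup (rels Γ)

def gen (Γ : SimpleGraph ℕ) (s : ℕ) : AG Γ := PresentedGroup.of s

/-- Standard parabolic subgroup. -/
def Par (Γ : SimpleGraph ℕ) (U : Set ℕ) : Subgroup (AG Γ) := Subgroup.closure (gen Γ '' U)

def ArtRel (Γ : SimpleGraph ℕ) (U : Set ℕ) {K : Type} [Group K] (κ : ℕ → K) : Prop :=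
  ∀ s ∈ U, ∀ t ∈ U, (Γ.Adj s t → κ s * κ t * κ s = κ t * κ s * κ t) ∧
    (¬ Γ.Adj s t → κ s * κ t = κ t * κ s)

variable {Γ : SimpleGraph ℕ}

theorem lift_relW {K : Type} [Group K] (κ : ℕ → K) (b : Bool) (s t : ℕ) :
    FreeGroup.lift κ (FreeGroup.mk (relW b s t)) = 1 ↔
      bif b then κ s * κ t * κ s = κ t * κ s * κ t else κ s * κ t = κ t * κ s := by
  cases b
  · simp only [relW, cond_false, FreeGroup.lift_mk, List.map_cons, List.map_nil, cond_true,
      List.prod_cons, List.prod_nil, mul_one]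
    rw [← mul_inv_eq_one (b := κ t * κ s)]; simp [mul_assoc]
  · simp only [relW, cond_false, FreeGroup.lift_mk, List.map_cons, List.map_nil, cond_true,
      List.prod_cons, List.prod_nil, mul_one]
    rw [← mul_inv_eq_one (b := κ t * κ s * κ t)]; simp [mul_assoc]

theorem ArtRel.rels {K : Type} [Group K] {κ : ℕ → K} (h : ArtRel Γ Set.univ κ) :
    ∀ r ∈ rels Γ, FreeGroup.lift κ r = 1 := by
  rintro r ⟨s, t, rfl⟩
  rw [lift_relW]
  by_cases ha : Γ.Adj s t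
  · simpa [ha] using (h s trivial t trivial).1 ha
  · simpa [ha] using (h s trivial t trivial).2 ha

theorem mk_eq_lift (x : FreeGroup ℕ) :
    PresentedGroup.mk (rels Γ) x = FreeGroup.lift (gen Γ) x := by
  have : PresentedGroup.mk (rels Γ) = FreeGroup.lift (gen Γ) := by
    ext s; simp [gen, PresentedGroup.of]
  rw [this]

theorem gen_rel (U : Set ℕ) : ArtRel Γ U (gen Γ) := by
  classical
  intro s _ t _
  have h : FreeGroup.lift (gen Γ) (FreeGroup.mk (relW (decide (Γ.Adj s t)) s t)) = 1 := by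
    rw [← mk_eq_lift]
    exact PresentedGroup.one_of_mem ⟨s, t, by congr⟩
  rw [lift_relW] at h
  constructor
  · intro ha; simpa [ha] using h
  · intro ha; simpa [ha] using h

theorem gen_mem {U : Set ℕ} {s : ℕ} (h : s ∈ U) : gen Γ s ∈ Par Γ U :=
  Subgroup.subset_closure ⟨s, h, rfl⟩

theorem Par_mono {U U' : Set ℕ} (h : U ⊆ U') : Par Γ U ≤ Par Γ U' :=
  Subgroup.closure_mono (Set.image_mono h)

theorem Par_univ (g : AG Γ) : g ∈ Par Γ Set.univ := by
  have : Par Γ Set.univ = ⊤ := by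
    rw [Par, Set.image_univ]; exact PresentedGroup.closure_range_of _
  rw [this]; trivial

theorem Par_ind {U : Set ℕ} {p : AG Γ → Prop} (h1 : p 1)
    (hs : ∀ g ∈ Par Γ U, ∀ s ∈ U, p g → p (g * gen Γ s))
    (hs' : ∀ g ∈ Par Γ U, ∀ s ∈ U, p g → p (g * (gen Γ s)⁻¹)) {g : AG Γ} (hg : g ∈ Par Γ U) :
    p g := by
  induction hg using Subgroup.closure_induction_right with
  | one => exact h1
  | mul_right x hx y hy ih => obtain ⟨s, hs1, rfl⟩ := hy; exact hs x hx s hs1 ih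
  | mul_inv_cancel x hx y hy ih => obtain ⟨s, hs1, rfl⟩ := hy; exact hs' x hx s hs1 ih

theorem gen_def (s : ℕ) : gen Γ s = PresentedGroup.of s := rfl

theorem Par_def (U : Set ℕ) : Par Γ U = Subgroup.closure (gen Γ '' U) := rfl

attribute [irreducible] Par gen

/-- States of the retraction automaton. -/
@[ext] structure St (Γ : SimpleGraph ℕ) (U : Set ℕ) where
  y : Module.End ℤ RV
  ex : ∃ l, y = wd Γ l
  pos : ∀ t ∈ U, 0 ≤ y (al t)

noncomputable def St.one (Γ : SimpleGraph ℕ) (U : Set ℕ) : St Γ U :=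
  ⟨1, ⟨[], wd_nil.symm⟩, fun t _ => al_nonneg t⟩

variable {U : Set ℕ} {K : Type} [Group K]

theorem St.inj (y : St Γ U) {s t t' : ℕ} (h : y.1 (al t) = al s) (h' : y.1 (al t') = al s) :
    t = t' := by
  obtain ⟨l, e⟩ := y.ex
  rw [e] at h h'
  exact al_inj (wd_inj l (h.trans h'.symm))

noncomputable def St.next (y : St Γ U) (s : ℕ) (h : ∀ t ∈ U, y.1 (al t) ≠ al s) : St Γ U :=
  ⟨rf Γ s * y.1, by
    obtain ⟨l, e⟩ := y.ex
    exact ⟨s :: l, by rw [e, wd_cons]⟩, fun t ht => by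
    obtain ⟨l, e⟩ := y.ex
    have h1 := y.pos t ht
    have h2 := h t ht
    rw [e] at h1 h2 ⊢
    exact rf_pos l h1 h2⟩

open Classical in
noncomputable def mv (κ : ℕ → K) (s : ℕ) (x : St Γ U × K) : St Γ U × K :=
  if h : ∃ t ∈ U, x.1.1 (al t) = al s then (x.1, x.2 * κ h.choose)
  else (x.1.next s (by push Not at h; exact h), x.2)

theorem mv_pos (κ : ℕ → K) {s t : ℕ} (y : St Γ U) (k : K) (ht : t ∈ U) (h : y.1 (al t) = al s) :
    mv κ s (y, k) = (y, k * κ t) := by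
  have h' : ∃ t ∈ U, y.1 (al t) = al s := ⟨t, ht, h⟩
  rw [mv, dif_pos h', y.inj h'.choose_spec.2 h]

theorem mv_neg (κ : ℕ → K) {s : ℕ} (y : St Γ U) (k : K) (h : ∀ t ∈ U, y.1 (al t) ≠ al s) :
    mv κ s (y, k) = (y.next s h, k) := by
  have h' : ¬ ∃ t ∈ U, y.1 (al t) = al s := by push Not; exact h
  rw [mv, dif_neg h']

theorem next_eq (y : St Γ U) (s : ℕ) (h) (a b : RV) :
    (y.next s h).1 a = b ↔ y.1 a = rf Γ s b := by
  change rf Γ s (y.1 a) = b ↔ _
  constructor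
  · rintro rfl; rw [rf_rf]
  · intro e; rw [e, rf_rf]

theorem St.ne_neg (y : St Γ U) {s t : ℕ} (ht : t ∈ U) : y.1 (al t) ≠ -al s := by
  intro e
  have := y.pos t ht s
  rw [e] at this
  simp at this

theorem next_self (y : St Γ U) (s : ℕ) (h) : ∀ t ∈ U, (y.next s h).1 (al t) ≠ al s := by
  intro t ht
  rw [Ne, next_eq, rf_self]; exact y.ne_neg ht

theorem next_next (y : St Γ U) (s : ℕ) (h h') : (y.next s h).next s h' = y := by
  apply St.ext
  change rf Γ s * (rf Γ s * y.1) = y.1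
  rw [← mul_assoc, rf_mul_rf, one_mul]

theorem mv_cases (y : St Γ U) (s : ℕ) :
    (∃ t ∈ U, y.1 (al t) = al s) ∨ ∀ t ∈ U, y.1 (al t) ≠ al s := by
  by_cases h : ∃ t ∈ U, y.1 (al t) = al s
  · exact Or.inl h
  · right; push Not at h; exact h

theorem mv_mv {κ κ' : ℕ → K} (h : ∀ t, κ t * κ' t = 1) (s : ℕ) (x : St Γ U × K) :
    mv κ' s (mv κ s x) = x := by
  obtain ⟨y, k⟩ := x
  rcases mv_cases y s with ⟨t, ht, e⟩ | hn
  · rw [mv_pos κ y k ht e, mv_pos κ' y _ ht e, mul_assoc, h, mul_one]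
  · rw [mv_neg κ y k hn, mv_neg κ' _ k (next_self y s hn), next_next]

noncomputable def mvP (U : Set ℕ) (κ : ℕ → K) (s : ℕ) : Equiv.Perm (St Γ U × K) where
  toFun := mv κ s
  invFun := mv (fun t => (κ t)⁻¹) s
  left_inv := mv_mv (by simp) s
  right_inv := mv_mv (by simp) s

theorem St.cart_eq (y : St Γ U) {s s' t t' : ℕ} (h : y.1 (al t) = al s)
    (h' : y.1 (al t') = al s') : cart Γ t t' = cart Γ s s' := by
  obtain ⟨l, e⟩ := y.ex
  have := Bf_wd (Γ := Γ) l (al t) (al t')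
  rw [← e, h, h'] at this
  simpa using this.symm

theorem St.no_diff (y : St Γ U) {s s' t t' : ℕ} (h : y.1 (al t) = al s)
    (h' : y.1 (al t') = al s + al s') : False := by
  obtain ⟨l, e⟩ := y.ex
  exact Pool.Agent.Lib.MP_a1ec0a_al.no_diff (Γ := Γ) l (s := s') (t := t) (t' := t') (by
    rw [← e, h, h'])

theorem mv_comm {κ : ℕ → K} (hκ : ArtRel Γ U κ) {s s' : ℕ} (ha : ¬ Γ.Adj s s')
    (x : St Γ U × K) : mv κ s' (mv κ s x) = mv κ s (mv κ s' x) := by
  obtain ⟨y, k⟩ := x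
  by_cases hne : s = s'
  · rw [hne]
  have ha' : ¬ Γ.Adj s' s := fun e => ha e.symm
  have key : ∀ {s s' : ℕ}, s ≠ s' → ¬ Γ.Adj s s' → ∀ t ∈ U, y.1 (al t) = al s →
      (∀ t ∈ U, y.1 (al t) ≠ al s') → mv κ s' (mv κ s (y, k)) = mv κ s (mv κ s' (y, k)) := by
    intro s s' hne ha t ht e hn
    rw [mv_pos κ y k ht e, mv_neg κ y _ hn, mv_neg κ y _ hn, mv_pos κ _ k ht]
    rw [next_eq, rf_nadj (fun e => ha e.symm) hne.symm, e]
  rcases mv_cases y s with ⟨t, ht, e⟩ | hn <;> rcases mv_cases y s' with ⟨t', ht', e'⟩ | hn'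
  · rw [mv_pos κ y k ht e, mv_pos κ y k ht' e', mv_pos κ y _ ht e, mv_pos κ y _ ht' e',
      mul_assoc, mul_assoc, (hκ t ht t' ht').2]
    exact nadj_of_cart ((y.cart_eq e e').trans (cart_nadj ha hne))
  · exact key hne ha t ht e hn'
  · exact (key (Ne.symm hne) ha' t' ht' e' hn).symm
  · rw [mv_neg κ y k hn, mv_neg κ y k hn', mv_neg κ _ k (fun t ht => by
      rw [Ne, next_eq, rf_nadj ha hne]; exact hn' t ht), mv_neg κ _ k (fun t ht => by
      rw [Ne, next_eq, rf_nadj ha' (Ne.symm hne)]; exact hn t ht)]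
    congr 1
    apply St.ext
    change rf Γ s' * (rf Γ s * y.1) = rf Γ s * (rf Γ s' * y.1)
    rw [← mul_assoc, ← mul_assoc, rf_comm ha]

theorem mv_braid {κ : ℕ → K} (hκ : ArtRel Γ U κ) {s s' : ℕ} (ha : Γ.Adj s s')
    (x : St Γ U × K) : mv κ s (mv κ s' (mv κ s x)) = mv κ s' (mv κ s (mv κ s' x)) := by
  obtain ⟨y, k⟩ := x
  have key : ∀ {s s' : ℕ}, Γ.Adj s s' → ∀ t ∈ U, y.1 (al t) = al s →
      (∀ t ∈ U, y.1 (al t) ≠ al s') →
      mv κ s (mv κ s' (mv κ s (y, k))) = mv κ s' (mv κ s (mv κ s' (y, k))) := by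
    intro s s' ha t ht e hn
    have hn2 : ∀ t ∈ U, (y.next s' hn).1 (al t) ≠ al s := fun t' ht' => by
      rw [Ne, next_eq, rf_adj ha.symm]; exact y.no_diff e
    rw [mv_pos κ y k ht e, mv_neg κ y _ hn, mv_neg κ y _ hn, mv_neg κ _ _ hn2, mv_neg κ _ _ hn2,
      mv_pos κ _ k ht]
    rw [next_eq, next_eq, rf_adj ha, rf_adj'' ha.symm, e]
  have key2 : ∀ {s s' : ℕ}, Γ.Adj s s' → (∀ t ∈ U, y.1 (al t) ≠ al s) →
      ∀ t ∈ U, y.1 (al t) = al s + al s' → mv κ s (mv κ s' (mv κ s (y, k))) = (y, k * κ t) := by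
    intro s s' ha hn t ht e
    rw [mv_neg κ y k hn, mv_pos κ _ k ht (by rw [next_eq, rf_adj ha, e, add_comm]),
      mv_neg κ _ _ (next_self y s hn), next_next]
  have key3 : ∀ {s s' : ℕ}, Γ.Adj s s' → (∀ t ∈ U, y.1 (al t) ≠ al s) →
      (∀ t ∈ U, y.1 (al t) ≠ al s') → (∀ t ∈ U, y.1 (al t) ≠ al s + al s') →
      (mv κ s (mv κ s' (mv κ s (y, k)))).1.1 = rf Γ s * rf Γ s' * rf Γ s * y.1 ∧
      (mv κ s (mv κ s' (mv κ s (y, k)))).2 = k := by
    intro s s' ha hn hn' hn''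
    rw [mv_neg κ y k hn, mv_neg κ _ k (fun t ht => by
      rw [Ne, next_eq, rf_adj ha, add_comm]; exact hn'' t ht), mv_neg κ _ k (fun t ht => by
      rw [Ne, next_eq, next_eq, rf_adj ha.symm, rf_adj'' ha]; exact hn' t ht)]
    exact ⟨by simp only [mul_assoc]; rfl, rfl⟩
  rcases mv_cases y s with ⟨t, ht, e⟩ | hn <;> rcases mv_cases y s' with ⟨t', ht', e'⟩ | hn'
  · have := (hκ t ht t' ht').1 (adj_of_cart ((y.cart_eq e e').trans (cart_adj ha)))
    simp only [mv_pos κ y _ ht e, mv_pos κ y _ ht' e', mul_assoc] at this ⊢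
    rw [this]
  · exact key ha t ht e hn'
  · exact (key ha.symm t' ht' e' hn).symm
  · by_cases h : ∃ t ∈ U, y.1 (al t) = al s + al s'
    · obtain ⟨t, ht, e⟩ := h
      rw [key2 ha hn t ht e, key2 ha.symm hn' t ht (by rw [e, add_comm])]
    · push Not at h
      obtain ⟨a1, a2⟩ := key3 ha hn hn' h
      obtain ⟨b1, b2⟩ := key3 ha.symm hn' hn (fun t ht => by rw [add_comm]; exact h t ht)
      refine Prod.ext (St.ext ?_) (a2.trans b2.symm)
      rw [a1, b1, rf_braid ha]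

noncomputable def Phi {κ : ℕ → K} (hκ : ArtRel Γ U κ) :
    AG Γ →* (Equiv.Perm (St Γ U × K))ᵐᵒᵖ :=
  PresentedGroup.toGroup (f := fun s => MulOpposite.op (mvP U κ s)) (ArtRel.rels fun s _ t _ => by
    constructor
    · intro ha
      simp only [← MulOpposite.op_mul, MulOpposite.op_inj]
      exact Equiv.ext fun x => mv_braid hκ ha x
    · intro ha
      simp only [← MulOpposite.op_mul, MulOpposite.op_inj]
      exact Equiv.ext fun x => mv_comm hκ ha x)

noncomputable def run {κ : ℕ → K} (hκ : ArtRel Γ U κ) (g : AG Γ) (x : St Γ U × K) :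
    St Γ U × K := (Phi hκ g).unop x

section
variable {κ : ℕ → K} (hκ : ArtRel Γ U κ)

theorem run_one (x : St Γ U × K) : run hκ 1 x = x := by simp [run]
theorem run_mul (g h : AG Γ) (x : St Γ U × K) : run hκ (g * h) x = run hκ h (run hκ g x) := by
  simp [run]
theorem run_gen (s : ℕ) (x : St Γ U × K) : run hκ (gen Γ s) x = mv κ s x := by
  simp [run, Phi, gen_def, mvP]
theorem run_gen_inv (s : ℕ) (x : St Γ U × K) :
    run hκ (gen Γ s)⁻¹ x = mv (fun t => (κ t)⁻¹) s x := by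
  simp only [run, Phi, gen_def, map_inv, PresentedGroup.toGroup.of, MulOpposite.unop_inv,
    MulOpposite.unop_op]
  rfl

theorem mv_left (κ : ℕ → K) (s : ℕ) (y : St Γ U) (k k' : K) :
    mv κ s (y, k * k') = ((mv κ s (y, k')).1, k * (mv κ s (y, k')).2) := by
  rcases mv_cases y s with ⟨t, ht, e⟩ | hn
  · simp [mv_pos κ y _ ht e, mul_assoc]
  · simp [mv_neg κ y _ hn]

theorem run_left (g : AG Γ) (y : St Γ U) (k : K) :
    run hκ g (y, k) = ((run hκ g (y, 1)).1, k * (run hκ g (y, 1)).2) := by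
  refine Par_ind (p := fun g => run hκ g (y, k) = ((run hκ g (y, 1)).1, k * (run hκ g (y, 1)).2))
    (by simp [run_one]) (fun g _ s _ ih => ?_) (fun g _ s _ ih => ?_) (Par_univ g)
  · rw [run_mul, run_mul, ih, run_gen, run_gen, mv_left]
  · rw [run_mul, run_mul, ih, run_gen_inv, run_gen_inv, mv_left]

/-- The value of the retraction. -/
noncomputable def val (g : AG Γ) : K := (run hκ g (St.one Γ U, 1)).2

theorem run_par {g : AG Γ} (hg : g ∈ Par Γ U) : (run hκ g (St.one Γ U, 1)).1 = St.one Γ U := by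
  refine Par_ind (p := fun g => (run hκ g (St.one Γ U, 1)).1 = St.one Γ U) (by simp [run_one])
    (fun g _ s hs ih => ?_) (fun g _ s hs ih => ?_) hg
  · rw [run_mul, run_gen, ← Prod.mk.eta (p := run hκ g _), ih, mv_pos κ _ _ hs rfl]
  · rw [run_mul, run_gen_inv, ← Prod.mk.eta (p := run hκ g _), ih, mv_pos _ _ _ hs rfl]

theorem val_one : val hκ 1 = 1 := by simp [val, run_one]

theorem val_mul {h : AG Γ} (hh : h ∈ Par Γ U) (g : AG Γ) :
    val hκ (h * g) = val hκ h * val hκ g := by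
  rw [val, run_mul, ← Prod.mk.eta (p := run hκ h _), run_par hκ hh, run_left]; rfl

theorem val_gen {s : ℕ} (hs : s ∈ U) : val hκ (gen Γ s) = κ s := by
  rw [val, run_gen, mv_pos κ _ _ hs rfl, one_mul]

/-- The extension of `κ` to the parabolic subgroup. -/
noncomputable def ext : Par Γ U →* K where
  toFun g := val hκ g.1
  map_one' := val_one hκ
  map_mul' g h := val_mul hκ g.2 h.1

theorem ext_gen {s : ℕ} (hs : s ∈ U) : ext hκ ⟨gen Γ s, gen_mem hs⟩ = κ s := val_gen hκ hs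

theorem val_inv {h : AG Γ} (hh : h ∈ Par Γ U) : val hκ h⁻¹ = (val hκ h)⁻¹ := by
  rw [eq_inv_iff_mul_eq_one, ← val_mul hκ (inv_mem hh), inv_mul_cancel, val_one]

end

/-- The retraction onto the parabolic subgroup on `U`. -/
noncomputable def piU (U : Set ℕ) (g : AG Γ) : AG Γ := val (gen_rel U) g

theorem piU_self {h : AG Γ} (hh : h ∈ Par Γ U) : piU U h = h := by
  refine Par_ind (p := fun h => piU U h = h) (val_one _) (fun g hg s hs ih => ?_)
    (fun g hg s hs ih => ?_) hh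
  · rw [piU, val_mul _ hg, val_gen _ hs, ← piU, ih]
  · rw [piU, val_mul _ hg, val_inv _ (gen_mem hs), val_gen _ hs, ← piU, ih]

theorem piU_mul {h : AG Γ} (hh : h ∈ Par Γ U) (g : AG Γ) : piU U (h * g) = h * piU U g := by
  rw [piU, val_mul _ hh, ← piU, piU_self hh]; rfl

theorem run_sub {J A : Set ℕ} (I : Module.End ℤ RV → Prop)
    (h1 : ∀ y, I y → ∀ s ∈ J, I (rf Γ s * y))
    (h2 : ∀ y, I y → ∀ s ∈ J, ∀ t ∈ U, y (al t) = al s → t ∈ A) (y : St Γ U) (hy : I y.1)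
    {g : AG Γ} (hg : g ∈ Par Γ J) :
    I (run (gen_rel U) g (y, 1)).1.1 ∧ (run (gen_rel U) g (y, 1)).2 ∈ Par Γ A := by
  refine Par_ind (p := fun g => I (run (gen_rel U) g (y, 1)).1.1 ∧
    (run (gen_rel U) g (y, 1)).2 ∈ Par Γ A) (by simp [run_one, hy])
    (fun g _ s hs ih => ?_) (fun g _ s hs ih => ?_) hg
  · rw [run_mul, run_gen]
    generalize run (gen_rel U) g (y, 1) = x at *
    obtain ⟨y', k⟩ := x
    rcases mv_cases y' s with ⟨t, ht, e⟩ | hn
    · rw [mv_pos _ _ _ ht e]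
      exact ⟨ih.1, mul_mem ih.2 (gen_mem (h2 _ ih.1 s hs t ht e))⟩
    · rw [mv_neg _ _ _ hn]
      exact ⟨h1 _ ih.1 s hs, ih.2⟩
  · rw [run_mul, run_gen_inv]
    generalize run (gen_rel U) g (y, 1) = x at *
    obtain ⟨y', k⟩ := x
    rcases mv_cases y' s with ⟨t, ht, e⟩ | hn
    · rw [mv_pos _ _ _ ht e]
      exact ⟨ih.1, mul_mem ih.2 (inv_mem (gen_mem (h2 _ ih.1 s hs t ht e)))⟩
    · rw [mv_neg _ _ _ hn]
      exact ⟨h1 _ ih.1 s hs, ih.2⟩

theorem out_mem {J : Set ℕ} {l : List ℕ} (hl : ∀ a ∈ l, a ∈ J) {s t : ℕ} (hs : s ∈ J)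
    (e : wd Γ l (al t) = al s) : t ∈ J := by
  by_contra ht
  have := wd_supp (Γ := Γ) l hl (al t) ht
  rw [e, al_self, al_ne (fun e : s = t => ht (e ▸ hs))] at this
  omega

theorem run_in {J : Set ℕ} {g : AG Γ} (hg : g ∈ Par Γ J) :
    (∃ l, (∀ a ∈ l, a ∈ J) ∧ (run (gen_rel U) g (St.one Γ U, 1)).1.1 = wd Γ l) ∧
      piU U g ∈ Par Γ (J ∩ U) := by
  refine run_sub (fun y => ∃ l, (∀ a ∈ l, a ∈ J) ∧ y = wd Γ l) ?_ ?_ _ ⟨[], by simp, wd_nil.symm⟩ hg
  · rintro y ⟨l, hl, rfl⟩ s hs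
    exact ⟨s :: l, by simpa [hs] using hl, by simp⟩
  · rintro y ⟨l, hl, rfl⟩ s hs t ht e
    exact ⟨out_mem hl hs e, ht⟩

theorem piU_mem {J : Set ℕ} {g : AG Γ} (hg : g ∈ Par Γ J) : piU U g ∈ Par Γ (J ∩ U) :=
  (run_in hg).2

theorem piU_mem' (g : AG Γ) : piU U g ∈ Par Γ U := by
  simpa using piU_mem (U := U) (Par_univ g)

theorem Par_inter {J : Set ℕ} {g : AG Γ} (h1 : g ∈ Par Γ J) (h2 : g ∈ Par Γ U) :
    g ∈ Par Γ (J ∩ U) := by
  rw [← piU_self h2]; exact piU_mem h1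

theorem piU_three {U0 : Set ℕ} {b c : ℕ} (hbc : Γ.Adj b c) {h : AG Γ}
    (hh : h ∈ Par Γ (U0 \ {b})) :
    (∀ k ∈ Par Γ (U0 \ {c}), (piU U h)⁻¹ * piU U (h * k) ∈ Par Γ (U0 \ {b})) ∨
    (∀ k ∈ Par Γ (U0 \ {c}), (piU U h)⁻¹ * piU U (h * k) ∈ Par Γ (U0 \ {c})) := by
  obtain ⟨⟨l0, hl0, e0⟩, -⟩ := run_in (U := U) hh
  have key : ∀ k ∈ Par Γ (U0 \ {c}), (piU U h)⁻¹ * piU U (h * k) ∈
      Par Γ {t | t ∈ U0 ∧ wd Γ l0 (al t) c = 0} := by
    intro k hk
    have := (run_sub (U := U) (A := {t | t ∈ U0 ∧ wd Γ l0 (al t) c = 0})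
      (fun y => ∃ l, (∀ a ∈ l, a ∈ U0 \ {c}) ∧ y = wd Γ l * wd Γ l0) ?_ ?_ _
      ⟨[], by simp, by simpa using e0⟩ hk).2
    · rw [piU, piU, val, val, run_mul]
      generalize run (gen_rel U) h (St.one Γ U, 1) = x at *
      obtain ⟨y, k'⟩ := x
      rw [run_left]
      simpa using this
    · rintro y ⟨l, hl, rfl⟩ s hs
      exact ⟨s :: l, List.forall_mem_cons.2 ⟨hs, hl⟩, by simp [mul_assoc]⟩
    · rintro y ⟨l, hl, rfl⟩ s hs t ht e
      constructor
      · refine out_mem (Γ := Γ) (l := l ++ l0) (fun a ha => ?_) hs.1 (by simpa using e)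
        rcases List.mem_append.1 ha with ha | ha
        · exact (hl a ha).1
        · exact (hl0 a ha).1
      · have := wd_supp (Γ := Γ) l hl (wd Γ l0 (al t)) (r := c) (by simp)
        rw [← this, ← Module.End.mul_apply, e, al_ne hs.2]
  by_cases h1 : wd Γ l0 (al b) c = 0
  · right
    intro k hk
    refine Par_mono ?_ (key k hk)
    rintro t ⟨ht, ht'⟩
    refine ⟨ht, ?_⟩
    rintro rfl
    exact not_both (by simp) hbc l0 hl0 h1 ht'
  · left
    intro k hk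
    refine Par_mono ?_ (key k hk)
    rintro t ⟨ht, ht'⟩
    refine ⟨ht, ?_⟩
    rintro rfl
    exact h1 ht'

attribute [irreducible] piU val run

end Pool.Agent.Lib.MP_a1ec0a_al
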