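import Mathlib

/-! The geometric representation of a simply laced Coxeter group: positivity of roots. -/

namespace Pool.Agent.Lib.MP_a1ec0a_al

open Classical in
/-- Cartan matrix. -/
noncomputable def cart (Γ : SimpleGraph ℕ) (s t : ℕ) : ℤ :=
  if s = t then 2 else if Γ.Adj s t then -1 else 0

abbrev RV := ℕ →₀ ℤ

noncomputable def al (s : ℕ) : RV := Finsupp.single s 1

variable (Γ : SimpleGraph ℕ)

noncomputable def pr (s : ℕ) : RV →ₗ[ℤ] ℤ := Finsupp.linearCombination ℤ (cart Γ s)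

noncomputable def rf (s : ℕ) : Module.End ℤ RV := LinearMap.id - (pr Γ s).smulRight (al s)

noncomputable def Bf : RV →ₗ[ℤ] RV →ₗ[ℤ] ℤ := Finsupp.linearCombination ℤ (pr Γ)

noncomputable def wd (l : List ℕ) : Module.End ℤ RV := (l.map (rf Γ)).prod

variable {Γ}

theorem cart_self (s : ℕ) : cart Γ s s = 2 := by simp [cart]
theorem cart_adj {s t : ℕ} (h : Γ.Adj s t) : cart Γ s t = -1 := by simp [cart, h, h.ne]
theorem cart_nadj {s t : ℕ} (h : ¬ Γ.Adj s t) (h' : s ≠ t) : cart Γ s t = 0 := by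
  simp [cart, h, h']
theorem cart_comm (s t : ℕ) : cart Γ s t = cart Γ t s := by
  unfold cart
  by_cases h : s = t
  · simp [h]
  · by_cases h' : Γ.Adj s t
    · simp [h, Ne.symm h, h', h'.symm]
    · have h'' : ¬ Γ.Adj t s := fun e => h' e.symm
      simp [h, Ne.symm h, h', h'']
theorem cart_nonpos {s t : ℕ} (h : s ≠ t) : cart Γ s t ≤ 0 := by
  unfold cart; split_ifs <;> simp_all
theorem adj_of_cart {s t : ℕ} (h : cart Γ s t = -1) : Γ.Adj s t := by
  unfold cart at h; split_ifs at h <;> simp_all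
theorem nadj_of_cart {s t : ℕ} (h : cart Γ s t = 0) : ¬ Γ.Adj s t := by
  unfold cart at h; split_ifs at h <;> simp_all

@[simp] theorem pr_al (s t : ℕ) : pr Γ s (al t) = cart Γ s t := by simp [pr, al]
theorem rf_apply (s : ℕ) (v : RV) : rf Γ s v = v - pr Γ s v • al s := by simp [rf]
@[simp] theorem Bf_al (s : ℕ) : Bf Γ (al s) = pr Γ s := by simp [Bf, al]
theorem al_apply (s t : ℕ) : al s t = if s = t then 1 else 0 := by
  simp [al, Finsupp.single_apply]
@[simp] theorem al_self (s : ℕ) : al s s = 1 := by simp [al]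
theorem al_ne {s t : ℕ} (h : s ≠ t) : al s t = 0 := by simp [al_apply, h]
theorem al_inj {s t : ℕ} (h : al s = al t) : s = t := by
  by_contra hn
  have := congrArg (fun v : RV => v s) h
  simp [al_ne (Ne.symm hn)] at this
theorem al_nonneg (s : ℕ) : 0 ≤ al s := fun t => by
  rw [al_apply]; split_ifs <;> simp

theorem lin_ext {M : Type} [AddCommGroup M] {f g : RV →ₗ[ℤ] M} (h : ∀ s, f (al s) = g (al s)) :
    f = g := by
  ext s; exact h s

theorem Bf_comm (v w : RV) : Bf Γ v w = Bf Γ w v := by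
  have : Bf Γ = (Bf Γ).flip := lin_ext fun s => lin_ext fun t => by simp [cart_comm s t]
  conv_lhs => rw [this]
  rfl

theorem Bf_al' (v : RV) (s : ℕ) : Bf Γ v (al s) = pr Γ s v := by rw [Bf_comm]; simp

theorem Bf_rf (s : ℕ) (v w : RV) : Bf Γ (rf Γ s v) (rf Γ s w) = Bf Γ v w := by
  simp only [rf_apply, map_sub, map_smul, LinearMap.sub_apply, LinearMap.smul_apply, Bf_al',
    Bf_al, pr_al, cart_self, smul_eq_mul]
  ring

theorem rf_rf (s : ℕ) (v : RV) : rf Γ s (rf Γ s v) = v := by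
  simp only [rf_apply, map_sub, map_smul, pr_al, cart_self, smul_eq_mul]
  module

theorem rf_mul_rf (s : ℕ) : rf Γ s * rf Γ s = 1 := by
  refine LinearMap.ext fun v => ?_
  rw [Module.End.mul_apply, rf_rf, Module.End.one_apply]

theorem rf_self (s : ℕ) : rf Γ s (al s) = -al s := by
  simp only [rf_apply, pr_al, cart_self]; module
theorem rf_adj {s t : ℕ} (h : Γ.Adj s t) : rf Γ s (al t) = al t + al s := by
  simp only [rf_apply, pr_al, cart_adj h]; module
theorem rf_nadj {s t : ℕ} (h : ¬ Γ.Adj s t) (h' : s ≠ t) : rf Γ s (al t) = al t := by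
  simp only [rf_apply, pr_al, cart_nadj h h']; module
theorem rf_adj' {s t : ℕ} (h : Γ.Adj s t) : rf Γ s (al t + al s) = al t := by
  rw [map_add, rf_adj h, rf_self]; abel
theorem rf_adj'' {s t : ℕ} (h : Γ.Adj s t) : rf Γ s (al s + al t) = al t := by
  rw [add_comm, rf_adj' h]

theorem rf_coord {s r : ℕ} (h : r ≠ s) (v : RV) : rf Γ s v r = v r := by
  simp [rf_apply, al_ne h.symm]

theorem rf_comm {s t : ℕ} (h : ¬ Γ.Adj s t) : rf Γ s * rf Γ t = rf Γ t * rf Γ s := by
  by_cases h' : s = t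
  · rw [h']
  refine LinearMap.ext fun v => ?_
  simp only [Module.End.mul_apply, rf_apply, map_sub, map_smul, pr_al, cart_nadj h h',
    cart_comm t s]
  module

theorem rf_braid {s t : ℕ} (h : Γ.Adj s t) :
    rf Γ s * rf Γ t * rf Γ s = rf Γ t * rf Γ s * rf Γ t := by
  refine LinearMap.ext fun v => ?_
  simp only [Module.End.mul_apply, rf_apply, map_sub, map_smul, pr_al, cart_adj h,
    cart_comm t s, cart_self, smul_eq_mul]
  module

@[simp] theorem wd_nil : wd Γ [] = 1 := rfl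
@[simp] theorem wd_cons (s : ℕ) (l : List ℕ) : wd Γ (s :: l) = rf Γ s * wd Γ l := by simp [wd]
@[simp] theorem wd_append (l l' : List ℕ) : wd Γ (l ++ l') = wd Γ l * wd Γ l' := by simp [wd]

theorem wd_rev (l : List ℕ) : wd Γ l.reverse * wd Γ l = 1 := by
  induction l with
  | nil => simp
  | cons s l ih =>
    simp only [List.reverse_cons, wd_append, wd_cons, wd_nil, mul_one]
    rw [mul_assoc, ← mul_assoc (rf Γ s), rf_mul_rf, one_mul, ih]

theorem wd_rev_apply (l : List ℕ) (v : RV) : wd Γ l.reverse (wd Γ l v) = v := by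
  rw [← Module.End.mul_apply, wd_rev]; rfl

theorem wd_inj (l : List ℕ) {v w : RV} (h : wd Γ l v = wd Γ l w) : v = w := by
  rw [← wd_rev_apply (Γ := Γ) l v, h, wd_rev_apply]

theorem Bf_wd (l : List ℕ) (v w : RV) : Bf Γ (wd Γ l v) (wd Γ l w) = Bf Γ v w := by
  induction l with
  | nil => simp
  | cons s l ih => simp [Bf_rf, ih]

/-- Reduced words over `J`. -/
def RedW (Γ : SimpleGraph ℕ) (J : Set ℕ) (l : List ℕ) : Prop :=
  (∀ a ∈ l, a ∈ J) ∧ ∀ l' : List ℕ, (∀ a ∈ l', a ∈ J) → wd Γ l' = wd Γ l → l.length ≤ l'.length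

theorem exists_red {J : Set ℕ} (l : List ℕ) (hl : ∀ a ∈ l, a ∈ J) :
    ∃ l', RedW Γ J l' ∧ wd Γ l' = wd Γ l := by
  classical
  have h : ∃ n, ∃ l' : List ℕ, (∀ a ∈ l', a ∈ J) ∧ wd Γ l' = wd Γ l ∧ l'.length = n :=
    ⟨_, l, hl, rfl, rfl⟩
  obtain ⟨l', h1, h2, h3⟩ := Nat.find_spec h
  refine ⟨l', ⟨h1, fun l'' h4 h5 => ?_⟩, h2⟩
  rw [h3]
  exact Nat.find_min' h ⟨l'', h4, h5.trans h2, rfl⟩

theorem RedW.init {J : Set ℕ} {l : List ℕ} {t : ℕ} (h : RedW Γ J (l ++ [t])) : RedW Γ J l := by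
  refine ⟨fun a ha => h.1 a (by simp [ha]), fun l' h1 h2 => ?_⟩
  have := h.2 (l' ++ [t]) (fun a ha => by
    rcases List.mem_append.1 ha with ha | ha
    · exact h1 a ha
    · exact h.1 a (by simp [ha])) (by simp [h2])
  simpa using this

theorem mem_snoc {J : Set ℕ} {l : List ℕ} {t : ℕ} (h : ∀ a ∈ l, a ∈ J) (ht : t ∈ J) :
    ∀ a ∈ l ++ [t], a ∈ J := by
  intro a ha
  rcases List.mem_append.1 ha with ha | ha
  · exact h a ha
  · rw [List.mem_singleton.1 ha]; exact ht

theorem root_pos {J : Set ℕ} : ∀ (n : ℕ) (l : List ℕ), l.length = n → RedW Γ J l → ∀ s ∈ J,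
    (∀ l' : List ℕ, (∀ a ∈ l', a ∈ J) → wd Γ l' = wd Γ l * rf Γ s → n ≤ l'.length) →
      0 ≤ wd Γ l (al s) := by
  intro n
  induction n using Nat.strong_induction_on with
  | _ n ih =>
  intro l hn hl s hs hd
  rcases List.eq_nil_or_concat l with rfl | ⟨l1, t, rfl⟩
  · simpa using al_nonneg s
  rw [List.concat_eq_append] at *
  have hn' : l1.length + 1 = n := by simpa using hn
  have h1 := hl.init
  have ht : t ∈ J := hl.1 t (by simp)
  have hts : t ≠ s := by
    rintro rfl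
    have := hd l1 h1.1 (by simp [mul_assoc, rf_mul_rf])
    omega
  by_cases ha : Γ.Adj t s
  · have e : wd Γ (l1 ++ [t]) (al s) = wd Γ l1 (al s + al t) := by simp [rf_adj ha]
    rw [e]
    by_cases hd1 : ∀ l' : List ℕ, (∀ a ∈ l', a ∈ J) → wd Γ l' = wd Γ l1 * rf Γ s →
        l1.length ≤ l'.length
    · rw [map_add]
      refine add_nonneg (ih _ (by omega) l1 rfl h1 s hs hd1)
        (ih _ (by omega) l1 rfl h1 t ht fun l' h2 h3 => ?_)
      have := hl.2 l' h2 (by simp [h3])
      simp at this; omega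
    · push Not at hd1
      obtain ⟨l2, h2, h3, h4⟩ := hd1
      have e1 : wd Γ l1 = wd Γ l2 * rf Γ s := by rw [h3, mul_assoc, rf_mul_rf, mul_one]
      have hr2 : RedW Γ J l2 := ⟨h2, fun l' h5 h6 => by
        have := h1.2 (l' ++ [s]) (mem_snoc h5 hs) (by simp [h6, e1])
        simp at this; omega⟩
      rw [e1, Module.End.mul_apply, rf_adj'' ha.symm]
      refine ih _ (by omega) l2 rfl hr2 t ht fun l3 h5 h6 => ?_
      have e2 : wd Γ l2 = wd Γ l3 * rf Γ t := by rw [h6, mul_assoc, rf_mul_rf, mul_one]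
      have := hd (l3 ++ [s] ++ [t]) (mem_snoc (mem_snoc h5 hs) ht) (by
        simp only [wd_append, wd_cons, wd_nil, mul_one, e1, e2]
        have hb := rf_braid ha
        calc wd Γ l3 * rf Γ s * rf Γ t
            = wd Γ l3 * (rf Γ s * rf Γ t * rf Γ s) * rf Γ s := by
              simp only [mul_assoc, rf_mul_rf, mul_one]
          _ = _ := by rw [← hb]; simp only [mul_assoc])
      simp at this; omega
  · have e : wd Γ (l1 ++ [t]) (al s) = wd Γ l1 (al s) := by simp [rf_nadj ha hts]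
    rw [e]
    refine ih _ (by omega) l1 rfl h1 s hs fun l' h2 h3 => ?_
    have := hd (l' ++ [t]) (mem_snoc h2 ht) (by
      simp only [wd_append, wd_cons, wd_nil, mul_one, h3, mul_assoc, rf_comm ha])
    simp at this; omega

theorem RedW.pos {J : Set ℕ} {l : List ℕ} {s : ℕ} (h : RedW Γ J (l ++ [s])) :
    0 ≤ wd Γ l (al s) :=
  root_pos _ l rfl h.init s (h.1 s (by simp)) fun l' h1 h2 => by
    have := h.2 l' h1 (by simp [h2])
    simp at this; omega

theorem root_pm (l : List ℕ) (s : ℕ) : 0 ≤ wd Γ l (al s) ∨ wd Γ l (al s) ≤ 0 := by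
  obtain ⟨l1, h1, e⟩ := exists_red (Γ := Γ) (J := Set.univ) l (by simp)
  rw [← e]
  by_cases hd : ∀ l' : List ℕ, (∀ a ∈ l', a ∈ Set.univ) → wd Γ l' = wd Γ l1 * rf Γ s →
      l1.length ≤ l'.length
  · exact Or.inl (root_pos _ l1 rfl h1 s trivial hd)
  · right
    push Not at hd
    obtain ⟨l2, -, h3, h4⟩ := hd
    have e1 : wd Γ l1 = wd Γ (l2 ++ [s]) := by
      simp [h3, mul_assoc, rf_mul_rf]
    have hr : RedW Γ Set.univ (l2 ++ [s]) := ⟨by simp, fun l' h5 h6 => by
      have := h1.2 l' h5 (h6.trans e1.symm)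
      simp; omega⟩
    rw [e1]
    simpa [rf_self] using hr.pos

theorem rf_pos (l : List ℕ) {s t : ℕ} (h : 0 ≤ wd Γ l (al t)) (h' : wd Γ l (al t) ≠ al s) :
    0 ≤ rf Γ s (wd Γ l (al t)) := by
  rcases root_pm (Γ := Γ) (s :: l) t with h1 | h1
  · simpa using h1
  exfalso
  simp only [wd_cons, Module.End.mul_apply] at h1
  have hB : Bf Γ (wd Γ l (al t)) (wd Γ l (al t)) = 2 := by rw [Bf_wd]; simp [cart_self]
  generalize wd Γ l (al t) = b at *
  have e : b = b s • al s := by
    ext r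
    by_cases hr : r = s
    · subst hr; simp
    · have h2 := h1 r
      rw [rf_coord hr] at h2
      have h3 := h r
      simp only [Finsupp.coe_zero, Pi.zero_apply] at h2 h3
      simp [al_ne (Ne.symm hr)]; omega
  have h4 : 0 ≤ b s := h s
  rw [e] at hB
  simp only [map_smul, LinearMap.smul_apply, Bf_al, pr_al, cart_self, smul_eq_mul] at hB
  have : b s = 1 := by nlinarith
  apply h'; rw [e, this, one_smul]

theorem no_diff (l : List ℕ) {s t t' : ℕ} (h : wd Γ l (al t') = wd Γ l (al t) + al s) : False := by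
  have e : wd Γ l.reverse (al s) = al t' - al t := by
    have := congrArg (wd Γ l.reverse) h
    rw [map_add, wd_rev_apply, wd_rev_apply] at this
    rw [this]; abel
  have hne : t ≠ t' := by
    rintro rfl
    have := congrArg (fun v : RV => v s) h
    simp at this
  rcases root_pm (Γ := Γ) l.reverse s with h1 | h1
  · have := h1 t
    rw [e] at this
    simp [al_ne hne.symm] at this
  · have := h1 t'
    rw [e] at this
    simp [al_ne hne] at this

theorem wd_supp {J : Set ℕ} (l : List ℕ) (hl : ∀ a ∈ l, a ∈ J) (v : RV) {r : ℕ} (hr : r ∉ J) :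
    wd Γ l v r = v r := by
  induction l with
  | nil => simp
  | cons s l ih =>
    have : r ≠ s := fun e => hr (e ▸ hl s (by simp))
    simp [rf_coord this, ih fun a ha => hl a (by simp [ha])]

theorem dominance {J : Set ℕ} (c : ℕ) (l : List ℕ) (hl : RedW Γ J l) :
    ∃ n : RV, 0 ≤ n ∧ (∀ r ∉ J, n r = 0) ∧ ∀ v, wd Γ l v c = v c - Bf Γ n v := by
  induction l using List.reverseRecOn with
  | nil => exact ⟨0, le_rfl, by simp, by simp⟩
  | append_singleton l s ih =>
    obtain ⟨n, h1, h2, h3⟩ := ih hl.init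
    have hp : 0 ≤ wd Γ l (al s) c := hl.pos c
    refine ⟨n + wd Γ l (al s) c • al s, add_nonneg h1 (smul_nonneg hp (al_nonneg s)),
      fun r hr => ?_, fun v => ?_⟩
    · have : s ≠ r := fun e => hr (e ▸ hl.1 s (by simp))
      simp [h2 r hr, al_ne this]
    · simp only [wd_append, wd_cons, wd_nil, mul_one, Module.End.mul_apply, rf_apply, map_sub,
        map_smul, Finsupp.coe_sub, Pi.sub_apply, Finsupp.coe_smul, Pi.smul_apply, smul_eq_mul,
        map_add, LinearMap.add_apply, LinearMap.smul_apply, Bf_al]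
      rw [h3 v]; ring

theorem pr_le {n : RV} (hn : 0 ≤ n) {b : ℕ} (hb : n b = 0) (c : ℕ) (k : ℤ)
    (hk : cart Γ b c + k ≤ 0 ∨ b = c) : pr Γ b n + k * n c ≤ 0 := by
  classical
  have e : pr Γ b + k • Finsupp.lapply c =
      Finsupp.linearCombination ℤ (fun r => cart Γ b r + if r = c then k else 0) :=
    lin_ext fun s => by
      simp only [LinearMap.add_apply, pr_al, LinearMap.smul_apply, Finsupp.lapply_apply,
        smul_eq_mul, al_apply]
      simp [al]
  have := congrArg (fun f : RV →ₗ[ℤ] ℤ => f n) e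
  simp only [LinearMap.add_apply, LinearMap.smul_apply, Finsupp.lapply_apply, smul_eq_mul] at this
  rw [this, Finsupp.linearCombination_apply, Finsupp.sum]
  refine Finset.sum_nonpos fun r _ => ?_
  by_cases hr : b = r
  · subst hr; simp [hb]
  · refine mul_nonpos_of_nonneg_of_nonpos (hn r) ?_
    have := cart_nonpos (Γ := Γ) hr
    split_ifs with h
    · subst h; exact hk.resolve_right hr
    · omega

theorem not_both {J : Set ℕ} {b c : ℕ} (hb : b ∉ J) (hbc : Γ.Adj b c) (l : List ℕ)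
    (hl : ∀ a ∈ l, a ∈ J) (h1 : wd Γ l (al b) c = 0) (h2 : wd Γ l (al c) c = 0) : False := by
  obtain ⟨l', hr, e⟩ := exists_red (Γ := Γ) l hl
  obtain ⟨n, a1, a2, a3⟩ := dominance c l' hr
  rw [e] at a3
  rw [a3, Bf_al', al_ne hbc.ne] at h1
  rw [a3, Bf_al', al_self] at h2
  have b1 := pr_le (Γ := Γ) a1 (a2 b hb) c 1 (Or.inl (by rw [cart_adj hbc]; omega))
  have hc : 0 ≤ n c := a1 c
  have b2 := pr_le (Γ := Γ) a1 (b := c) (by omega) c 0 (Or.inr rfl)
  omega

attribute [irreducible] rf wd pr Bf al cart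

end Pool.Agent.Lib.MP_a1ec0a_al
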