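import Pool.Agent.Lib.MP_a1ec0a_al.Code

/-! A recursively enumerable system of certificates of non-triviality. -/

namespace Pool.Agent.Lib.MP_a1ec0a_al

open FreeGroup (of mk lift invRev)

abbrev T3 := ℕ × ℕ × ℕ
abbrev J := Mat × ℕ × List ℕ × T3 × Bool × VW × VW × VW

def jNE (M : Mat) (w : Wd) : J := (M, 0, [], (0, 0, 0), false, (0, w), (0, []), (0, []))
def jND (M : Mat) (U : List ℕ) (b c : ℕ) (x : Wd) : J :=
  (M, 1, U, (0, 0, 0), false, (b, []), (c, x), (0, []))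
def jNP (M : Mat) (U : List ℕ) (T : T3) (o : Bool) (p h q : VW) : J := (M, 2, U, T, o, p, h, q)

def in3 (T : T3) (t : ℕ) : Prop := t = T.1 ∨ t = T.2.1 ∨ t = T.2.2
def OkW (M : Mat) (U : List ℕ) (T : T3) (p : VW) : Prop := in3 T p.1 ∧ ParW M U p.2
def TriW (M : Mat) (U : List ℕ) (T : T3) : Prop := MemL U T.1 ∧ MemL U T.2.1 ∧ MemL U T.2.2 ∧
  adjb M T.1 T.2.1 = true ∧ adjb M T.2.1 T.2.2 = true ∧ adjb M T.1 T.2.2 = true
def TFW (M : Mat) (U : List ℕ) : Prop := AllL U fun a => AllL U fun b => AllL U fun c =>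
  (adjb M a b && adjb M b c && adjb M a c) = false
def tpn (T : T3) (t : ℕ) : ℕ := bif t == T.1 then 0 else bif t == T.2.1 then 1 else 2
def ori (T : T3) (o : Bool) (s t : ℕ) : Bool :=
  bif o then tpn T t == tpn T s + 1 || tpn T t + 2 == tpn T s
  else tpn T s == tpn T t + 1 || tpn T s + 2 == tpn T t

section Defs
variable (P : J → Prop) (M : Mat) (U : List ℕ) (T : T3)

def NA (u v : VW) : Prop := P (jNE M (naW M U u v))
def ND (b c : ℕ) (x y : Wd) : Prop := P (jND M U b c (invRev x ++ y))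
def ND' (u : VW) (b : ℕ) (v : VW) : Prop := NA P M U (b, retW M U u v.2) v ∧
  (ND P M U b v.1 (retW M U u v.2) v.2 ∨ ∃ y, MtW M U (b, y) (v.1, retW M U u v.2) ∧
    MtW M U (b, y) v ∧ NA P M U (v.1, retW M U u v.2) v ∧ NA P M U u (b, y))
def UC (u : VW) (b : ℕ) (v : VW) (Q : Wd → Prop) : Prop := ND' P M U u b v ∨
  ∃ y, MtW M U u (b, y) ∧ MtW M U (b, y) v ∧ NA P M U u v ∧ Q y
def FAR (C q p : VW) : Prop := OkW M U T p ∧ ∃ h h', OkW M U T h ∧ OkW M U T h' ∧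
  P (jNP M U T true q h p) ∧ P (jNP M U T false q h' p) ∧ NA P M U C h ∧ NA P M U C h'
def SIDE (C p h C' q : VW) : Prop := ∃ t x, in3 T t ∧ t ≠ p.1 ∧ t ≠ h.1 ∧ InW M U p x ∧
  InW M U h x ∧ UC P M (del U p.1) C t (h.1, x) fun y => FAR P M U T C' q (t, y)
def GEO (b c : ℕ) (x : Wd) : Prop := TriW M U T ∧ NA P M U (c, []) (c, x) ∧ ∃ p x1, OkW M U T p ∧
  InW M U (c, []) x1 ∧ InW M U p x1 ∧
  ((∃ x2, InW M U (c, x) x2 ∧ InW M U p x2 ∧ ND P M (del U p.1) b c x1 x2) ∨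
    ∃ q h h', OkW M U T q ∧ OkW M U T h ∧ OkW M U T h' ∧ MtW M U (c, x) q ∧
      P (jNP M U T true p h q) ∧ P (jNP M U T false p h' q) ∧ NA P M U (c, []) h ∧
      NA P M U (c, []) h' ∧ FAR P M U T (c, x) q p ∧ SIDE P M U T (c, x1) p h (c, x) q ∧
      SIDE P M U T (c, x1) p h' (c, x) q ∧ ∃ x2, InW M U p x2 ∧ InW M U h x2 ∧
        UC P M (del U p.1) (h.1, x2) b (c, x1) fun y => NA P M U (b, y) (c, x))
def RND (b c : ℕ) (x : Wd) : Prop := adjb M b c = true ∧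
  ((MemL U b ∧ MemL U c ∧ TFW M U ∧ ∃ x', Let U x' ∧ OneW M (invRev x ++ x') ∧
    AllL (wordsN (del U c) (BND U.length x'.length)) fun w => NA P M U (b, w) (c, x)) ∨
  ∃ T, GEO P M U T b c x)
def RNE (w : Wd) : Prop :=
  (∃ (U : List ℕ) (T : List Wd) (w' : Wd), Let U w' ∧ OneW M (invRev w ++ w') ∧
    (AllL U fun s => AllL U fun t => TrivW (subW (fun s => T.getD s []) (relW (adjb M s t) s t))) ∧
    NTrivW (subW (fun s => T.getD s []) w')) ∨
  ∃ U T h, TriW M U T ∧ ParW M U w ∧ OkW M U T h ∧ P (jNP M U T true (T.1, []) h (T.1, w))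
def RNP (o : Bool) (p h q : VW) : Prop := p.1 ≠ h.1 ∧ MtW M U p h ∧
  ((h.1 = q.1 ∧ MtW M U h q) ∨ ∃ h' x1 x2, OkW M U T h' ∧ P (jNP M U T o h h' q) ∧
    InW M U p x1 ∧ InW M U h x1 ∧ InW M U h x2 ∧ InW M U h' x2 ∧
    NA P M (del U h.1) (p.1, x1) (h'.1, x2) ∧ (ori T o p.1 h.1 = false ∨ h'.1 ≠ p.1 ∨
      ∃ b, in3 T b ∧ b ≠ p.1 ∧ b ≠ h.1 ∧ ND P M (del U h.1) b p.1 x1 x2))
def Step (j : J) : Prop :=
  (j.2.1 = 0 ∧ RNE P j.1 j.2.2.2.2.2.1.2) ∨
  (j.2.1 = 1 ∧ RND P j.1 j.2.2.1 j.2.2.2.2.2.1.1 j.2.2.2.2.2.2.1.1 j.2.2.2.2.2.2.1.2) ∨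
  (j.2.1 = 2 ∧ RNP P j.1 j.2.2.1 j.2.2.2.1 j.2.2.2.2.1 j.2.2.2.2.2.1 j.2.2.2.2.2.2.1 j.2.2.2.2.2.2.2)

end Defs

theorem step_cpt (j : J) : Cpt fun P => Step P j := by
  unfold Step RNE RND RNP GEO SIDE FAR UC ND' ND NA
  repeat' first
    | exact Cpt.const _
    | exact Cpt.atom _
    | apply Cpt.and
    | apply Cpt.or
    | (apply Cpt.ex; intro)
    | (apply Cpt.all; intro)

section Eff
variable {α : Type} [Primcodable α] {M : α → Mat} {U : α → List ℕ} {T : α → T3} {l : α → List J}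
  {w x : α → Wd} {p q u v r : α → VW} {s t : α → ℕ} {o : α → Bool}

@[fun_prop] theorem PR.jNE (hM : PR M) (hw : PR w) : PR fun a => jNE (M a) (w a) := by
  unfold Pool.Agent.Lib.MP_a1ec0a_al.jNE; fun_prop
@[fun_prop] theorem PR.jND (hM : PR M) (hU : PR U) (hs : PR s) (ht : PR t) (hw : PR w) :
    PR fun a => jND (M a) (U a) (s a) (t a) (w a) := by
  unfold Pool.Agent.Lib.MP_a1ec0a_al.jND; fun_prop
@[fun_prop] theorem PR.jNP (hM : PR M) (hU : PR U) (hT : PR T) (ho : PR o) (hp : PR p) (hq : PR q)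
    (hr : PR r) : PR fun a => jNP (M a) (U a) (T a) (o a) (p a) (q a) (r a) := by
  unfold Pool.Agent.Lib.MP_a1ec0a_al.jNP; fun_prop
@[fun_prop] theorem PR.ori (hT : PR T) (ho : PR o) (hs : PR s) (ht : PR t) :
    PR fun a => ori (T a) (o a) (s a) (t a) := by
  unfold Pool.Agent.Lib.MP_a1ec0a_al.ori tpn; fun_prop
@[fun_prop] theorem S1.in3 (hT : PR T) (ht : PR t) : S1 fun a => in3 (T a) (t a) := by
  unfold Pool.Agent.Lib.MP_a1ec0a_al.in3; fun_prop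
@[fun_prop] theorem S1.okW (hM : PR M) (hU : PR U) (hT : PR T) (hp : PR p) :
    S1 fun a => OkW (M a) (U a) (T a) (p a) := by unfold OkW; fun_prop
@[fun_prop] theorem S1.triW (hM : PR M) (hU : PR U) (hT : PR T) :
    S1 fun a => TriW (M a) (U a) (T a) := by unfold TriW; fun_prop
@[fun_prop] theorem S1.tfW (hM : PR M) (hU : PR U) : S1 fun a => TFW (M a) (U a) := by
  unfold TFW; fun_prop
@[fun_prop] theorem S1.na (hl : PR l) (hM : PR M) (hU : PR U) (hp : PR p) (hq : PR q) :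
    S1 fun a => NA (MemL (l a)) (M a) (U a) (p a) (q a) := by unfold NA; fun_prop
@[fun_prop] theorem S1.nd (hl : PR l) (hM : PR M) (hU : PR U) (hs : PR s) (ht : PR t) (hw : PR w)
    (hx : PR x) : S1 fun a => ND (MemL (l a)) (M a) (U a) (s a) (t a) (w a) (x a) := by
  unfold ND; fun_prop
@[fun_prop] theorem S1.nd' (hl : PR l) (hM : PR M) (hU : PR U) (hp : PR p) (hs : PR s) (hq : PR q) :
    S1 fun a => ND' (MemL (l a)) (M a) (U a) (p a) (s a) (q a) := by unfold ND'; fun_prop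
@[fun_prop] theorem S1.far (hl : PR l) (hM : PR M) (hU : PR U) (hT : PR T) (hp : PR p) (hq : PR q)
    (hr : PR r) : S1 fun a => FAR (MemL (l a)) (M a) (U a) (T a) (p a) (q a) (r a) := by
  unfold FAR; fun_prop
@[fun_prop] theorem S1.side (hl : PR l) (hM : PR M) (hU : PR U) (hT : PR T) (hp : PR p) (hq : PR q)
    (hr : PR r) (hu : PR u) (hv : PR v) :
    S1 fun a => SIDE (MemL (l a)) (M a) (U a) (T a) (p a) (q a) (r a) (u a) (v a) := by
  unfold SIDE UC; fun_prop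
@[fun_prop] theorem S1.geo (hl : PR l) (hM : PR M) (hU : PR U) (hT : PR T) (hs : PR s) (ht : PR t)
    (hw : PR w) : S1 fun a => GEO (MemL (l a)) (M a) (U a) (T a) (s a) (t a) (w a) := by
  unfold GEO UC; fun_prop
@[fun_prop] theorem S1.rnd (hl : PR l) (hM : PR M) (hU : PR U) (hs : PR s) (ht : PR t)
    (hw : PR w) : S1 fun a => RND (MemL (l a)) (M a) (U a) (s a) (t a) (w a) := by
  unfold RND; fun_prop
@[fun_prop] theorem S1.rne (hl : PR l) (hM : PR M) (hw : PR w) :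
    S1 fun a => RNE (MemL (l a)) (M a) (w a) := by unfold RNE; fun_prop
@[fun_prop] theorem S1.rnp (hl : PR l) (hM : PR M) (hU : PR U) (hT : PR T) (ho : PR o) (hp : PR p)
    (hq : PR q) (hr : PR r) :
    S1 fun a => RNP (MemL (l a)) (M a) (U a) (T a) (o a) (p a) (q a) (r a) := by
  unfold RNP; fun_prop

end Eff

/-- The derivable judgments. -/
def DJ : J → Prop := Der fun j l => Step (MemL l) j

theorem DJ_s1 : S1 DJ := Der.s1 (by unfold Step; fun_prop)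

theorem DJ_closed (j : J) (h : Step DJ j) : DJ j :=
  let ⟨l, a, b⟩ := (step_cpt j).2 _ h; Der.mk j l b a

theorem DJ_ind {Sem : J → Prop} (h : ∀ j, Step Sem j → Sem j) {j : J} (hj : DJ j) : Sem j :=
  Der.sound (fun j _ a b => h j ((step_cpt j).1 _ _ b a)) hj

end Pool.Agent.Lib.MP_a1ec0a_al
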