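import Pool.Agent.Lib.MP_a1ec0a_al.Rules

/-! Soundness of the certificates. -/

namespace Pool.Agent.Lib.MP_a1ec0a_al

open FreeGroup (of mk lift invRev)

def NDs {Γ : SimpleGraph ℕ} (U : Set ℕ) (b c : ℕ) (x y : AG Γ) : Prop :=
  ¬ ∃ g, Mt U (b, g) (c, x) ∧ Mt U (b, g) (c, y)

theorem NDs_iff {Γ : SimpleGraph ℕ} {U : Set ℕ} {b c : ℕ} {x y : AG Γ} :
    NDs U b c 1 (x⁻¹ * y) ↔ NDs U b c x y := by
  refine not_congr ⟨fun ⟨g, h1, h2⟩ => ⟨x * g, ?_, ?_⟩, fun ⟨g, h1, h2⟩ => ⟨x⁻¹ * g, ?_, ?_⟩⟩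
  · simpa using (Mt_mul_left x _ _).2 h1
  · simpa using (Mt_mul_left x _ _).2 h2
  · simpa using (Mt_mul_left x⁻¹ _ _).2 h1
  · simpa using (Mt_mul_left x⁻¹ _ _).2 h2

abbrev Tri (M : Mat) (U : List ℕ) (T : T3) := IsTri (Gr M) (SL U) T.1 T.2.1 T.2.2
abbrev XW (M : Mat) (U : List ℕ) (T : T3) := XV (Gr M) (SL U) T.1 T.2.1 T.2.2

noncomputable def mkW (M : Mat) (U : List ℕ) (T : T3) (p : VW) : XW M U T :=
  mkV (SL U) T.1 T.2.1 T.2.2 (vx M p)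

variable {M : Mat} {U : List ℕ} {T : T3}

noncomputable def sysO (H : Tri M U T) (o : Bool) : TriSys (XW M U T) :=
  bif o then H.sys else H.sys.rev

theorem sysO_r (H : Tri M U T) (o : Bool) (u v : XW M U T) :
    (sysO H o).r u v ↔ Mt (SL U) u.o v.o := by cases o <;> rfl

theorem tpn_eq (T : T3) (t : ℕ) : tpN T.1 T.2.1 t = tpn T t ∧ tpn T t ≤ 2 := by
  simp only [tpN, tpn, Bool.cond_eq_ite, beq_iff_eq]; split_ifs <;> simp

theorem ori_iff (H : Tri M U T) (o : Bool) (u v : XW M U T) :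
    ((sysO H o).tp v - (sysO H o).tp u) % 3 = 1 ↔ ori T o u.o.1 v.o.1 = true := by
  have := tpn_eq T u.o.1
  have := tpn_eq T v.o.1
  cases o
  · change (-tpN _ _ _ - -tpN _ _ _) % 3 = 1 ↔ _
    simp only [ori, cond_false, Bool.or_eq_true, beq_iff_eq]; omega
  · change (tpN _ _ _ - tpN _ _ _) % 3 = 1 ↔ _
    simp only [ori, cond_true, Bool.or_eq_true, beq_iff_eq]; omega

theorem tp_zero (H : Tri M U T) (o : Bool) (u v : XW M U T) :
    ((sysO H o).tp v - (sysO H o).tp u) % 3 = 0 ↔ v.o.1 = u.o.1 := by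
  refine ⟨fun h => H.tp_eq v.ok.1 u.ok.1 ?_, fun h => ?_⟩ <;> cases o
  · change (-tpN _ _ _ - -tpN _ _ _) % 3 = 0 at h; omega
  · exact h
  · change (-tpN _ _ _ - -tpN _ _ _) % 3 = 0; rw [h]; omega
  · change (tpN _ _ _ - tpN _ _ _) % 3 = 0; rw [h]; omega

theorem third (H : Tri M U T) {a b c d : ℕ} (ha : in3 T a) (hb : in3 T b) (hc : in3 T c)
    (hd : in3 T d) (h1 : a ≠ b) (h2 : c ≠ a) (h3 : c ≠ b) (h4 : d ≠ a) (h5 : d ≠ b) : c = d := by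
  have := H.xy.ne; have := H.yz.ne; have := H.xz.ne
  unfold in3 at *; omega

theorem OkW.ok {p : VW} (h : OkW M U T p) : Ok (SL U) T.1 T.2.1 T.2.2 (vx M p) := ⟨h.1, h.2⟩
theorem OkW.tp {p : VW} (h : OkW M U T p) : (mkW M U T p).o.1 = p.1 := (mkV_spec h.ok).1
theorem OkW.mt {p : VW} (h : OkW M U T p) {q : Vx (Gr M)} :
    Mt (SL U) (mkW M U T p).o q ↔ Mt (SL U) (vx M p) q := mt_mkV h.ok q
theorem OkW.mt' {p : VW} (h : OkW M U T p) {q : Vx (Gr M)} :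
    Mt (SL U) q (mkW M U T p).o ↔ Mt (SL U) q (vx M p) := mt_mkV' h.ok q
theorem OkW.mtW {p q : VW} (h : OkW M U T p) (h' : OkW M U T q) :
    Mt (SL U) (mkW M U T p).o (mkW M U T q).o ↔ MtW M U p q := h.mt.trans h'.mt'
theorem OkW.eq {p : VW} (h : OkW M U T p) {v : XW M U T} (e : v.o.1 = p.1)
    (h' : Mt (SL U) v.o (vx M p)) : v = mkW M U T p := XV.eq (e.trans h.tp.symm) (h.mt'.2 h')

theorem exists_mkW (v : XW M U T) : ∃ p, OkW M U T p ∧ mkW M U T p = v := by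
  obtain ⟨w, hw⟩ := exists_word' v.o.2
  refine ⟨(v.o.1, w), ⟨v.ok.1, by rw [ParW, hw]; exact v.ok.2⟩, ?_⟩
  rw [mkW, vx, hw]; exact mkV_eq (In.self _)

def NPs (M : Mat) (U : List ℕ) (T : T3) (o : Bool) (p h q : VW) : Prop :=
  ∀ H : Tri M U T, OkW M U T p → OkW M U T h → OkW M U T q →
    (sysO H o).IsHead (mkW M U T p) (mkW M U T h) (mkW M U T q)

theorem girthL (hC : ClawFree (Gr M) Set.univ) (U : List ℕ) : Girth (Gr M) (SL U) :=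
  girth_all _ _ (SL_fin U) rfl (hC.mono (Set.subset_univ _))

theorem TriW.tri (hC : ClawFree (Gr M) Set.univ) (h : TriW M U T) : Tri M U T :=
  ⟨h.1, h.2.1, h.2.2.1, h.2.2.2.1, h.2.2.2.2.1, h.2.2.2.2.2, fun t _ => SL_del U t ▸ girthL hC _⟩

theorem tfW_iff : TFW M U ↔ TriFree (Gr M) (SL U) := by
  simp only [TFW, AllL, TriFree, Gr_adj, SL, Set.mem_ofPred_eq]
  refine forall₂_congr fun a _ => forall₂_congr fun b _ => forall₂_congr fun c _ => ?_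
  cases adjb M a b <;> cases adjb M b c <;> simp

theorem art_iff {T : ℕ → Wd} : (AllL U fun s => AllL U fun t =>
    TrivW (subW T (relW (adjb M s t) s t))) ↔ ArtRel (Gr M) (SL U) fun s => evW sig (T s) := by
  refine forall₂_congr fun s _ => forall₂_congr fun t _ => ?_
  simp only [TrivW]
  rw [evW_subW, evW, lift_relW, Gr_adj]
  cases adjb M s t <;> simp

theorem far_core (H : Tri M U T) {C : Vx (Gr M)} {p q h h' : XW M U T} (hq : Mt (SL U) C q.o)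
    (h1 : (sysO H true).IsHead q h p) (h2 : (sysO H false).IsHead q h' p) (h3 : ¬ Mt (SL U) C h.o)
    (h4 : ¬ Mt (SL U) C h'.o) : ∀ q' ∈ Sh (SL U) _ _ _ C, H.sys.d q p ≤ H.sys.d q' p := by
  refine (H.conv C).far hq fun s hs a b => ?_
  rcases TriSys.IsHead.proj (X := H.sys) h1 h2 a b with rfl | rfl
  · exact h3 hs
  · exact h4 hs

theorem head_ne {H : Tri M U T} {o : Bool} {p h q : XW M U T} (a : (sysO H o).IsHead p h q) :
    p.o.1 ≠ h.o.1 := fun e => by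
  have h1 := a.2.1
  rw [XV.eq e ((sysO_r H o _ _).1 a.1)] at h1; omega

structure Snd (P : J → Prop) (M : Mat) : Prop where
  claw : ClawFree (Gr M) Set.univ
  ne : ∀ w, P (jNE M w) → ev (Gr M) w ≠ 1
  nd : ∀ U b c x, P (jND M U b c x) → NDs (SL U) b c 1 (ev (Gr M) x)
  np : ∀ U T o p h q, P (jNP M U T o p h q) → NPs M U T o p h q

variable {P : J → Prop} (S : Snd P M)
include S

theorem NA.snd {u v : VW} (h : NA P M U u v) : ¬ MtW M U u v := fun e => S.ne _ h (naW_iff.2 e)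

theorem ND.snd {b c : ℕ} {x y : Wd} (h : ND P M U b c x y) :
    NDs (SL U) b c (ev (Gr M) x) (ev (Gr M) y) := NDs_iff.1 (by simpa using S.nd _ _ _ _ h)

theorem ND'.snd {u v : VW} {b : ℕ} (ha : (Gr M).Adj b v.1) (h : ND' P M U u b v) {g : AG (Gr M)}
    (h1 : Mt (SL U) (vx M u) (b, g)) (h2 : Mt (SL U) (b, g) (vx M v)) : False := by
  rcases cand (b0 := (b, g)) (c1 := vx M v) ha h1 h2 with k | k
  · refine h.1.snd S ?_
    rw [MtW, vx, ev_retW]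
    exact k.trans_eq rfl h2
  · rcases h.2 with a | ⟨y, a1, a2, a3, a4⟩
    · exact a.snd S ⟨g, by rwa [ev_retW], h2⟩
    · rcases (girthL S.claw U).all (b1 := (b, g)) (b2 := vx M (b, y))
        (c1 := vx M (v.1, retW M U u v.2)) (c2 := vx M v) rfl rfl ha
        (by rw [vx, ev_retW]; exact k) h2 a1 a2 with e | e
      · exact a4.snd S (e.trans_eq rfl h1.symm).symm
      · exact a3.snd S e

theorem UC.snd {u v : VW} {b : ℕ} {Q : Wd → Prop} (ha : (Gr M).Adj b v.1) (h : UC P M U u b v Q)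
    {g : AG (Gr M)} (h1 : Mt (SL U) (vx M u) (b, g)) (h2 : Mt (SL U) (b, g) (vx M v)) :
    ∃ y, Q y ∧ Mt (SL U) (b, g) (b, ev (Gr M) y) := by
  rcases h with h | ⟨y, a1, a2, a3, a4⟩
  · exact (h.snd S ha h1 h2).elim
  · exact ⟨y, a4, ((girthL S.claw U).P (c1 := (b, g)) (c2 := vx M (b, y)) rfl ha h2 a2 h1.symm
      a1.symm).resolve_right fun e => a3.snd S e.symm⟩

theorem FAR.snd (H : Tri M U T) {C q p : VW} (h : FAR P M U T C q p) (oq : OkW M U T q)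
    (hq : MtW M U C q) : ∀ q' ∈ Sh (SL U) _ _ _ (vx M C),
      H.sys.d (mkW M U T q) (mkW M U T p) ≤ H.sys.d q' (mkW M U T p) := by
  obtain ⟨op, h, h', oh, oh', a1, a2, a3, a4⟩ := h
  exact far_core H (oq.mt'.2 hq) (S.np _ _ _ _ _ _ a1 H oq oh op) (S.np _ _ _ _ _ _ a2 H oq oh' op)
    (fun e => a3.snd S (oh.mt'.1 e)) fun e => a4.snd S (oh'.mt'.1 e)

theorem SIDE.snd (H : Tri M U T) {C p h C' q : VW} {x : Wd} (a : SIDE P M U T (C.1, x) p h C' q)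
    (op : OkW M U T p) (oh : OkW M U T h) (oq : OkW M U T q) (hq : MtW M U C' q)
    (hne : p.1 ≠ h.1) (h1 : InW M U C x) (h2 : InW M U p x) {s : XW M U T}
    (s1 : Mt (SL U) (vx M C) s.o) (s2 : Mt (SL U) (mkW M U T p).o s.o)
    (s3 : Mt (SL U) s.o (mkW M U T h).o) (s4 : s ≠ mkW M U T p) (s5 : s ≠ mkW M U T h) :
    ∀ u ∈ Sh (SL U) _ _ _ (vx M C'), H.sys.d (mkW M U T q) s ≤ H.sys.d u s := by
  obtain ⟨t, x2, a1, a2, a3, a4, a5, a6⟩ := a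
  rw [op.mt] at s2
  rw [oh.mt'] at s3
  obtain rfl : s.o.1 = t := third H op.1 oh.1 s.ok.1 a1 hne (fun e => s4 (op.eq e s2.symm))
    (fun e => s5 (oh.eq e s3)) a2 a3
  obtain ⟨y0, b1, b2⟩ := s2
  obtain ⟨y, c1, c2⟩ := UC.snd S (v := (h.1, x2)) (H.adj a1 oh.1 a3) a6 (g := y0)
    (by rw [SL_del]; exact loc h2 h1 b1 b2 s1) (by rw [SL_del]; exact loc b1 b2 a4 a5 s3)
  rw [SL_del] at c2
  rw [c1.1.eq (v := s) rfl (glob b2 (In.self (vx M (s.o.1, y))) c2)]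
  exact c1.snd S H oq hq

theorem GEO.snd {b c : ℕ} {x : Wd} (ha : (Gr M).Adj b c) (h : GEO P M U T b c x) :
    NDs (SL U) b c 1 (ev (Gr M) x) := by
  rintro ⟨g, g1, g2⟩
  obtain ⟨H, n, p, x1, op, i1, i2, h⟩ := h
  have H := H.tri S.claw
  have g1' : Mt (SL U) (b, g) (vx M (c, [])) := by simpa [vx] using g1
  have iB : InP (SL U) (b, g) := (InP.of_par (one_mem _)).mt g1.symm
  have n1 := sh_ne (x := T.1) (y := T.2.1) (z := T.2.2) iB g1'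
  have n2 := sh_ne (x := T.1) (y := T.2.1) (z := T.2.2) iB g2
  have p3 := H.prop3 (b := (b, g)) (c1 := vx M (c, [])) (c2 := vx M (c, x)) rfl (n.snd S) ha.symm g1' g2
  have hp : mkW M U T p ∈ Sh (SL U) _ _ _ (vx M (c, [])) := op.mt'.2 ⟨_, i1, i2⟩
  rcases h with ⟨x2, a1, a2, a3⟩ | ⟨q, h, h', oq, oh, oh', a1, a2, a3, a4, a5, a6, a7, a8, x2, b1,
    b2, b3⟩
  · obtain ⟨y, c1, c2⟩ := op.mt'.1 (TriSys.trap0 (H.conv _) (H.conv _) (H.conv _) (H.corner g1')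
      (H.corner g2) p3 n1 n2 hp (op.mt'.2 ⟨_, a1, a2⟩))
    refine a3.snd S ⟨y, ?_, ?_⟩ <;> rw [SL_del]
    · exact loc c2 c1 i2 i1 g1'
    · exact loc c2 c1 a2 a1 g2
  have k1 := S.np _ _ _ _ _ _ a2 H op oh oq
  have k2 := S.np _ _ _ _ _ _ a3 H op oh' oq
  have hq : mkW M U T q ∈ Sh (SL U) _ _ _ (vx M (c, x)) := oq.mt'.2 a1
  rcases TriSys.trap (H.conv _) (H.conv _) (H.conv _) (H.corner g1') (H.corner g2) p3 n1 n2 hp hq
    (far_core H hp k1 k2 (fun e => a4.snd S (oh.mt'.1 e)) fun e => a5.snd S (oh'.mt'.1 e))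
    (a6.snd S H oq a1) with ⟨c1, c2⟩ | ⟨s, c1, c2, c3, c4, u, c5, c6⟩
  · have c3 := oh.mt'.1 (H.conv _ _ c2 _ c1 _ k1.1 k1.2.1)
    obtain ⟨y0, d1, d2⟩ := op.mt'.1 c1
    obtain ⟨y, e1, e2⟩ := UC.snd S (v := (c, x1)) ha b3 (g := y0) (by rw [SL_del]; exact loc b1 b2 d2 d1 c3.symm)
      (by rw [SL_del]; exact loc d2 d1 i2 i1 g1')
    rw [SL_del] at e2
    exact e1.snd S ((glob d1 (In.self (vx M (b, y))) e2).trans_eq rfl g2)
  · have l1 : H.sys.d (mkW M U T h) (mkW M U T q) + 1 = H.sys.d (mkW M U T p) (mkW M U T q) :=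
      k1.2.1
    obtain ⟨m, d1, d2, d3⟩ := TriSys.tc c2 l1.symm (c4.trans l1.symm)
    have d4 : s ≠ m := by rintro rfl; omega
    have d5 := H.sys.d_comm s (mkW M U T q)
    rcases TriSys.IsHead.proj (X := H.sys) k1 k2 d1 (by omega) with rfl | rfl
    · have := SIDE.snd S H (C := (c, [])) a7 op oh oq a1
        (by rw [← op.tp, ← oh.tp]; exact head_ne k1) i1 i2 c1 c2 d2 c3 d4 u c5
      omega
    · have := SIDE.snd S H (C := (c, [])) a8 op oh' oq a1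
        (by rw [← op.tp, ← oh'.tp]; exact head_ne k2) i1 i2 c1 c2 d2 c3 d4 u c5
      omega

theorem RND.snd {b c : ℕ} {x : Wd} (h : RND P M U b c x) : NDs (SL U) b c 1 (ev (Gr M) x) := by
  obtain ⟨ha, ⟨hb, hc, ht, x', a1, a2, a3⟩ | ⟨T, h⟩⟩ := h
  · rintro ⟨g, g1, g2⟩
    simp only [OneW, ev_append, ev_invRev, inv_mul_eq_one] at a2
    obtain ⟨w, b1, b2, b3⟩ := base_bound (L := U) (S.claw.mono (Set.subset_univ _)) (tfW_iff.1 ht)
      (fun _ h => h) hb hc ha a1 g1 (a2 ▸ g2)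
    exact (a3 w (mem_wordsN.2 ⟨by rwa [Let, SL_del], b2⟩)).snd S (by rwa [← a2] at b3)
  · exact h.snd S ha

theorem RNE.snd {w : Wd} (h : RNE P M w) : ev (Gr M) w ≠ 1 := by
  rcases h with ⟨U, T, w', a1, a2, a3, a4⟩ | ⟨U, T, h, a1, a2, a3, a4⟩ <;> intro e
  · simp only [OneW, ev_append, ev_invRev, inv_mul_eq_one] at a2
    refine a4 ?_
    rw [evW_subW, ← val_ev (art_iff.1 a3) a1, ← a2, e, val_one]
  · have := (S.np _ _ _ _ _ _ a4 (a1.tri S.claw) ⟨Or.inl rfl, by simp [ParW]⟩ a3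
      ⟨Or.inl rfl, a2⟩).2.1
    rw [show mkW M U T (T.1, w) = mkW M U T (T.1, []) by simp [mkW, vx, e], TriSys.d_self] at this
    omega

theorem RNP.snd {o : Bool} {p h q : VW} (a : RNP P M U T o p h q) : NPs M U T o p h q := by
  intro H op oh oq
  obtain ⟨a1, a2, a3⟩ := a
  have r1 := (sysO_r H o _ _).2 ((op.mtW oh).2 a2)
  have n1 : mkW M U T p ≠ mkW M U T h := fun e => a1 (by rw [← op.tp, e, oh.tp])
  rcases a3 with ⟨b1, b2⟩ | ⟨h', x1, x2, oh', b1, b2, b3, b4, b5, b6, b7⟩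
  · rw [← oq.eq (oh.tp.trans b1) (oh.mt.2 b2)]
    exact TriSys.IsHead.base r1 n1
  refine TriSys.IsHead.step r1 n1 (S.np _ _ _ _ _ _ b1 H oh oh' oq) ⟨fun e => b6.snd S ?_, ?_⟩
  · rw [MtW, SL_del]
    exact loc b3 b2 b4 b5 ((op.mtW oh').1 ((sysO_r H o _ _).1 e))
  rintro c1 c2 ⟨m, d1, d2, d3, d4⟩
  have e1 := (tp_zero H o _ _).1 c2
  rw [op.tp, oh'.tp] at e1
  rcases b7 with b | b | ⟨b, e2, e3, e4, e5⟩
  · rw [ori_iff, op.tp, oh.tp, b] at c1; cases c1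
  · exact b e1
  · obtain rfl : m.o.1 = b := third H op.1 oh.1 m.ok.1 e2 a1
      (fun e => by have := (tp_zero H o _ _).2 (e.trans op.tp.symm); omega)
      (fun e => by have := (tp_zero H o _ _).2 (e.trans oh.tp.symm); omega) e3 e4
    rw [sysO_r] at d1 d2 d3
    obtain ⟨y, f1, f2⟩ := oh.mt.1 d2
    refine e5.snd S ⟨y, ?_, ?_⟩ <;> rw [SL_del]
    · exact loc f1 f2 b3 b2 (op.mt.1 d1).symm
    · rw [← e1]; exact loc f1 f2 b4 b5 (oh'.mt.1 d3).symm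

omit S

def Sem (j : J) : Prop := ClawFree (Gr j.1) Set.univ →
  (j.2.1 = 0 → ev (Gr j.1) j.2.2.2.2.2.1.2 ≠ 1) ∧
  (j.2.1 = 1 → NDs (SL j.2.2.1) j.2.2.2.2.2.1.1 j.2.2.2.2.2.2.1.1 1 (ev (Gr j.1) j.2.2.2.2.2.2.1.2)) ∧
  (j.2.1 = 2 → NPs j.1 j.2.2.1 j.2.2.2.1 j.2.2.2.2.1 j.2.2.2.2.2.1 j.2.2.2.2.2.2.1 j.2.2.2.2.2.2.2)

theorem DJ_sound (hC : ClawFree (Gr M) Set.univ) {w : Wd} (h : DJ (jNE M w)) : ev (Gr M) w ≠ 1 := by
  refine ((DJ_ind (Sem := Sem) fun j hj hC => ?_) h hC).1 rfl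
  have S : Snd Sem j.1 := ⟨hC, fun _ h => (h hC).1 rfl, fun _ _ _ _ h => (h hC).2.1 rfl,
    fun _ _ _ _ _ _ h => (h hC).2.2 rfl⟩
  rcases hj with ⟨a, b⟩ | ⟨a, b⟩ | ⟨a, b⟩
  · exact ⟨fun _ => b.snd S, by omega, by omega⟩
  · exact ⟨by omega, fun _ => b.snd S, by omega⟩
  · exact ⟨by omega, by omega, fun _ => b.snd S⟩

end Pool.Agent.Lib.MP_a1ec0a_al
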