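import Pool.Agent.Lib.MP_a1ec0a_al.TGr
import Pool.Agent.Lib.MP_a1ec0a_al.S1

/-! Effective versions of the basic notions, uniformly in the Coxeter matrix. -/

namespace Pool.Agent.Lib.MP_a1ec0a_al.TR

open Pool.Agent.H51 Relation
open FreeGroup (of mk lift invRev)

abbrev Mat := List (List ℕ)
abbrev Wd := List (ℕ × Bool)

def ent (M : Mat) (i j : ℕ) : ℕ := (M.getD i []).getD j 0
def me (M : Mat) (i j : ℕ) : ℕ :=
  bif i == j then 1 else bif ent M i j == ent M j i && !(ent M i j == 1) then ent M i j else 2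

def cm (M : Mat) : CoxeterMatrix (Fin M.length) where
  M := Matrix.of fun i j => me M i j
  isSymm := by ext i j; simp only [me, Matrix.transpose_apply, Matrix.of_apply]; grind
  diagonal i := by simp [me]
  off_diagonal i j h := by simp only [me, Matrix.of_apply]; grind

theorem cm_apply (M : Mat) (i j : Fin M.length) : cm M i j = me M i j := rfl

def dec (M : Mat) (l : List ℕ) : List (Fin M.length) :=
  l.filterMap fun i => if h : i < M.length then some ⟨i, h⟩ else none
def enc {n : ℕ} (l : List (Fin n)) : List ℕ := l.map Fin.val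
def fl (M : Mat) (l : List ℕ) : List ℕ := l.filter fun i => Nat.ble (i + 1) M.length
def SL (M : Mat) (U : List ℕ) : Set (Fin M.length) := {s | s.1 ∈ U}
def MemL {β : Type} (l : List β) (b : β) : Prop := b ∈ l
def memb (l : List ℕ) (b : ℕ) : Bool := l.any fun c => c == b
def int (X Y : List ℕ) : List ℕ := X.filter (memb Y)
def altN (a b n : ℕ) : List ℕ := (List.range n).map fun i => bif i.bodd then b else a
def pw (l : List ℕ) : Wd := l.map fun i => (i, true)

variable {M : Mat}

@[simp] theorem memb_iff {l : List ℕ} {b : ℕ} : memb l b = true ↔ b ∈ l := by simp [memb]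
theorem SL_int (X Y : List ℕ) : SL M (int X Y) = SL M X ∩ SL M Y := by ext; simp [SL, int]
theorem exists_SL (T : Set (Fin M.length)) : ∃ U, SL M U = T := by
  classical
  exact ⟨enc (Finset.univ.filter (· ∈ T)).toList, by ext; simp [SL, enc, Fin.val_inj]⟩
@[simp] theorem dec_enc (l : List (Fin M.length)) : dec M (enc l) = l := by
  induction l with
  | nil => rfl
  | cons a l ih => simp [dec, enc]
theorem enc_dec (l : List ℕ) : enc (dec M l) = fl M l := by
  induction l with
  | nil => rfl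
  | cons a l ih =>
    by_cases h : a < M.length <;> simp_all [dec, enc, fl, List.filter_cons, Nat.succ_le_iff]
@[simp] theorem dec_append (a b : List ℕ) : dec M (a ++ b) = dec M a ++ dec M b :=
  List.filterMap_append
@[simp] theorem dec_reverse (a : List ℕ) : dec M a.reverse = (dec M a).reverse :=
  List.filterMap_reverse
@[simp] theorem mem_dec {l : List ℕ} {s : Fin M.length} : s ∈ dec M l ↔ s.1 ∈ l := by
  simp only [dec, List.mem_filterMap]
  exact ⟨by rintro ⟨i, h, e⟩; split_ifs at e; cases e; exact h, fun h => ⟨_, h, by simp⟩⟩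
theorem all_fl {l : List ℕ} {p : ℕ → Prop} :
    AllL (fl M l) p ↔ ∀ s : Fin M.length, s.1 ∈ l → p s := by
  simp only [AllL, fl, List.mem_filter, Nat.ble_eq]
  exact ⟨fun h s hs => h _ ⟨hs, s.2⟩, fun h s hs => h ⟨s, hs.2⟩ hs.1⟩
theorem all_range {p : ℕ → Prop} : AllL (List.range M.length) p ↔ ∀ s : Fin M.length, p s := by
  simp only [AllL, List.mem_range]
  exact ⟨fun h s => h _ s.2, fun h s hs => h ⟨s, hs⟩⟩
theorem length_dec (l : List ℕ) : (dec M l).length ≤ l.length := List.length_filterMap_le _ _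

theorem altN_eq (a b : Fin M.length) (n : ℕ) : altN a b n = enc (alt a b n) := by
  induction n with
  | zero => rfl
  | succ n ih =>
    rw [alt_succ', altN, List.range_succ, List.map_append, ← altN, ih]
    cases h : n.bodd
    · have : Even n := by rw [← Nat.not_odd_iff_even, Nat.odd_iff, Nat.mod_two_of_bodd, h]; simp
      simp [enc, this, h]
    · have : ¬ Even n := by rw [Nat.not_even_iff_odd, Nat.odd_iff, Nat.mod_two_of_bodd, h]; simp
      simp [enc, this, h]

noncomputable def gn (M : Mat) (i : ℕ) : Artin (cm M) :=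
  if h : i < M.length then gen (cm M) ⟨i, h⟩ else 1
noncomputable def ev (M : Mat) (w : Wd) : Artin (cm M) := lift (gn M) (mk w)

@[simp] theorem ev_nil : ev M [] = 1 := by rw [ev, ← FreeGroup.one_eq_mk, map_one]
@[simp] theorem ev_append (a b : Wd) : ev M (a ++ b) = ev M a * ev M b := by
  rw [ev, ← FreeGroup.mul_mk, map_mul]; rfl
@[simp] theorem ev_invRev (a : Wd) : ev M (invRev a) = (ev M a)⁻¹ := by
  rw [ev, ← FreeGroup.inv_mk, map_inv]; rfl
theorem ev_cons (i : ℕ) (b : Bool) (w : Wd) :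
    ev M ((i, b) :: w) = (bif b then gn M i else (gn M i)⁻¹) * ev M w := by
  simp [ev, FreeGroup.lift_mk]
@[simp] theorem gn_fin (s : Fin M.length) : gn M s = gen (cm M) s := by simp [gn]
@[simp] theorem ev_pw (l : List ℕ) : ev M (pw l) = pos (cm M) (dec M l) := by
  induction l with
  | nil => simp [pw, dec]
  | cons a l ih =>
    rw [pw, List.map_cons, ev_cons, ← pw, ih]
    by_cases h : a < M.length <;> simp [dec, gn, h, pos_cons]

theorem ev_mem {T : List ℕ} {w : Wd} (h : ∀ l ∈ w, l.1 ∈ T) : ev M w ∈ apar (cm M) (SL M T) := by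
  induction w with
  | nil => simp
  | cons a w ih =>
    have : gn M a.1 ∈ apar (cm M) (SL M T) := by
      unfold gn; split_ifs
      · exact gen_mem_apar (h a (by simp))
      · exact one_mem _
    rw [ev_cons]
    refine mul_mem ?_ (ih fun l hl => h l (by simp [hl]))
    cases a.2 <;> simpa using this

theorem exists_word {T : List ℕ} {g : Artin (cm M)} (h : g ∈ apar (cm M) (SL M T)) :
    ∃ w : Wd, (∀ l ∈ w, l.1 ∈ T) ∧ ev M w = g := by
  refine apar_induction (P := fun g => ∃ w : Wd, (∀ l ∈ w, l.1 ∈ T) ∧ ev M w = g) h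
    ⟨[], by simp, by simp⟩ ?_ ?_ <;> rintro _ - s hs ⟨w, h1, rfl⟩
  · exact ⟨w ++ [(s.1, true)], List.forall_mem_append.2 ⟨h1, List.forall_mem_singleton.2 hs⟩,
      by simp [ev_cons]⟩
  · exact ⟨w ++ [(s.1, false)], List.forall_mem_append.2 ⟨h1, List.forall_mem_singleton.2 hs⟩,
      by simp [ev_cons]⟩

theorem ev_surj (g : Artin (cm M)) : ∃ w, ev M w = g := by
  obtain ⟨U, hU⟩ := exists_SL (M := M) Set.univ
  exact (exists_word (T := U) (by simp [hU, apar_univ])).imp fun _ h => h.2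

def relW (M : Mat) (i j : ℕ) : Wd :=
  bif Nat.ble (i + 1) M.length then bif Nat.ble (j + 1) M.length then
    pw (altN i j (me M i j)) ++ invRev (pw (altN j i (me M i j))) else [] else [(i, true)]

def certW (M : Mat) (L : List (Wd × ℕ × ℕ × Bool)) : Wd :=
  L.flatMap fun c => c.1 ++ ((bif c.2.2.2 then relW M c.2.1 c.2.2.1
    else invRev (relW M c.2.1 c.2.2.1)) ++ invRev c.1)

theorem relW_fin (i j : Fin M.length) : relW M i j =
    pw (enc (alt i j (cm M i j))) ++ invRev (pw (enc (alt j i (cm M i j)))) := by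
  simp [relW, Bool.cond_eq_ite, altN_eq, cm_apply]

theorem ev_relW (i j : ℕ) : ev M (relW M i j) = 1 := by
  by_cases hi : i < M.length
  · by_cases hj : j < M.length
    · simp [relW_fin ⟨i, hi⟩ ⟨j, hj⟩, (BE.braid (M := cm M) ⟨i, hi⟩ ⟨j, hj⟩).pos_eq]
    · simp [relW, Bool.cond_eq_ite, Nat.succ_le_iff, hi, hj]
  · simp [relW, Bool.cond_eq_ite, Nat.succ_le_iff, hi, ev_cons, gn]

def OneW (M : Mat) (w : Wd) : Prop := ev M w = 1

theorem oneW_iff (w : Wd) : OneW M w ↔ ∃ L, FreeGroup.reduce (w ++ certW M L) = [] := by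
  constructor
  · intro h
    let R : Set (FreeGroup ℕ) := {r | ∃ i j, r = mk (relW M i j)}
    have h1 : mk w ∈ Subgroup.normalClosure R := by
      have mp : ∀ l : List (Fin M.length), PresentedGroup.mk R (mk (pw (enc l))) =
          (l.map fun s => PresentedGroup.mk R (of s.1)).prod := fun l => by
        induction l with
        | nil => exact map_one _
        | cons a l ih => rw [List.map_cons, List.prod_cons, ← ih, ← map_mul]; rfl
      let φ := alift (M := cm M) (fun s => PresentedGroup.mk R (of s.1)) fun i _ j _ => by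
        have := PresentedGroup.one_of_mem (rels := R) ⟨i, j, rfl⟩
        rwa [relW_fin, ← FreeGroup.mul_mk, ← FreeGroup.inv_mk, map_mul, map_inv, mul_inv_eq_one,
          mp, mp] at this
      have : φ.comp (lift (gn M)) = PresentedGroup.mk R := FreeGroup.ext_hom _ _ fun i => by
        by_cases hi : i < M.length
        · simp [φ, gn, hi]
        · have := PresentedGroup.one_of_mem (rels := R) ⟨i, 0, rfl⟩
          simp only [relW, Bool.cond_eq_ite, Nat.ble_eq, Nat.succ_le_iff, hi, if_false] at this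
          exact Eq.trans (by simp [φ, gn, hi]) this.symm
      rw [← PresentedGroup.mk_eq_one_iff, ← this]
      exact (congrArg φ h).trans (map_one _)
    have : ∀ x ∈ Subgroup.normalClosure R, ∃ L, mk (certW M L) = x := by
      have key : ∀ y ∈ Group.conjugatesOfSet R, ∀ L, (∃ L', mk (certW M L') =
          y * mk (certW M L)) ∧ ∃ L', mk (certW M L') = y⁻¹ * mk (certW M L) := by
        intro y hy L
        obtain ⟨_, ⟨s, t, rfl⟩, hc⟩ := Group.mem_conjugatesOfSet_iff.1 hy
        obtain ⟨c, rfl⟩ := isConj_iff.1 hc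
        refine ⟨⟨(c.toWord, s, t, true) :: L, ?_⟩, ⟨(c.toWord, s, t, false) :: L, ?_⟩⟩ <;>
        simp only [certW, List.flatMap_cons, ← FreeGroup.mul_mk, ← FreeGroup.inv_mk, cond_true,
          cond_false, FreeGroup.mk_toWord] <;> group
      intro x hx
      induction hx using Subgroup.closure_induction_left with
      | one => exact ⟨[], rfl⟩
      | mul_left y hy x _ ih => obtain ⟨L, rfl⟩ := ih; exact (key y hy L).1
      | inv_mul_cancel y hy x _ ih => obtain ⟨L, rfl⟩ := ih; exact (key y hy L).2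
    obtain ⟨L, hL⟩ := this _ (inv_mem h1)
    refine ⟨L, ?_⟩
    rw [← FreeGroup.toWord_mk, ← FreeGroup.mul_mk, hL, mul_inv_cancel, FreeGroup.toWord_one]
  · rintro ⟨L, hL⟩
    have h1 : ev M (certW M L) = 1 := by
      clear hL
      induction L with
      | nil => simp [certW]
      | cons c L ih =>
        rw [certW, List.flatMap_cons, ev_append, ← certW, ih]
        cases c.2.2.2 <;> simp [ev_relW]
    rw [← FreeGroup.toWord_mk, FreeGroup.toWord_eq_nil_iff] at hL
    have : ev M (w ++ certW M L) = 1 := by rw [ev, hL, map_one]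
    rwa [ev_append, h1, mul_one] at this

def RlW (M : Mat) (T : List ℕ) (x y : Wd) : Prop := Rl (cm M) (SL M T) (ev M x) (ev M y)

def StepN (M : Mat) (a b : List ℕ) : Prop := ∃ (x y : List ℕ) (i j : ℕ),
  Nat.ble (i + 1) M.length = true ∧ Nat.ble (j + 1) M.length = true ∧
  a = x ++ altN i j (me M i j) ++ y ∧ b = x ++ altN j i (me M i j) ++ y

theorem StepN.be {a b : List ℕ} (h : StepN M a b) : BE (cm M) (dec M a) (dec M b) := by
  obtain ⟨x, y, i, j, hi, hj, rfl, rfl⟩ := h
  rw [Nat.ble_eq] at hi hj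
  simpa [altN_eq ⟨i, hi⟩ ⟨j, hj⟩, altN_eq ⟨j, hj⟩ ⟨i, hi⟩, cm_apply] using
    (BE.braid (M := cm M) ⟨i, hi⟩ ⟨j, hj⟩).ctx (dec M x) (dec M y)

def BED : Mat × List ℕ × List ℕ → Prop :=
  Der fun j l => j.2.1 = j.2.2 ∨ ∃ c, MemL l (j.1, j.2.1, c) ∧ StepN j.1 c j.2.2

theorem bed_iff {a b : List (Fin M.length)} : BED (M, enc a, enc b) ↔ BE (cm M) a b := by
  constructor
  · intro h
    simpa using Der.sound (Sem := fun j : Mat × List ℕ × List ℕ =>
      BE (cm j.1) (dec j.1 j.2.1) (dec j.1 j.2.2)) (by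
        rintro j l (h | ⟨c, h1, h2⟩) h'
        · rw [h]; exact BE.refl _
        · exact (h' _ h1).trans h2.be) h
  · intro h
    induction h with
    | refl => exact Der.mk _ [] (Or.inl rfl) (by simp)
    | tail _ h ih =>
      obtain ⟨x, y, i, j⟩ := h
      exact Der.mk _ [_] (Or.inr ⟨enc (x ++ alt i j (cm M i j) ++ y), List.mem_singleton.2 rfl,
        enc x, enc y, i, j, by simp, by simp, by simp [altN_eq, enc, cm_apply],
        by simp [altN_eq, enc, cm_apply]⟩) (List.forall_mem_singleton.2 ih)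

def DvW (M : Mat) (t : ℕ) (w : List ℕ) : Prop := Dv (cm M) (dec M [t]) (dec M w)
def NDvW (M : Mat) (t : ℕ) (w : List ℕ) : Prop := ¬ Dv (cm M) (dec M [t]) (dec M w)

@[simp] theorem dec_single (s : Fin M.length) : dec M [s] = [s] := dec_enc [s]

def splits (l : List ℕ) : List (List ℕ × List ℕ) :=
  (l.foldr (fun a (s : List ℕ × List (List ℕ × List ℕ)) =>
    (a :: s.1, ([], a :: s.1) :: s.2.map fun p => (a :: p.1, p.2))) ([], [([], [])])).2

theorem mem_splits {l : List ℕ} {p : List ℕ × List ℕ} : p ∈ splits l ↔ l = p.1 ++ p.2 := by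
  have : ∀ l : List ℕ, (l.foldr (fun a (s : List ℕ × List (List ℕ × List ℕ)) =>
      (a :: s.1, ([], a :: s.1) :: s.2.map fun p => (a :: p.1, p.2))) ([], [([], [])])).1 = l :=
    fun l => by induction l <;> simp_all
  obtain ⟨x, y⟩ := p
  induction l generalizing x with
  | nil => simp [splits]
  | cons a l ih =>
    rw [splits, List.foldr_cons, this]
    cases x with
    | nil => simp [eq_comm]
    | cons b x => simp [← splits.eq_1, ih]; grind

theorem ndvW_iff {t : ℕ} {w : List ℕ} : NDvW M t w ↔ Nat.ble (t + 1) M.length = true ∧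
    ∃ C : List (List ℕ), MemL C (fl M w) ∧ AllL C fun l => l.getD 0 (t + 1) ≠ t ∧
      AllL (splits l) fun p => AllL (splits p.2) fun q => AllL (List.range M.length) fun i =>
        AllL (List.range M.length) fun j => q.1 ≠ altN i j (me M i j) ∨
          MemL C (p.1 ++ altN j i (me M i j) ++ q.2) := by
  rw [NDvW, Nat.ble_eq]
  constructor
  · intro h
    have ht : t < M.length := by
      by_contra e; exact h (by simpa [dec, e] using Dv.nil _)
    rw [dec_single ⟨t, ht⟩] at h
    have hf : {l | BE (cm M) (dec M w) l}.Finite :=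
      (List.finite_length_eq _ (dec M w).length).subset fun l hl => (BE.length_eq hl).symm
    refine ⟨ht, hf.toFinset.toList.map enc, List.mem_map.2 ⟨_, by simpa using BE.refl _,
      enc_dec w⟩, fun l hl => ?_⟩
    obtain ⟨l, hl', rfl⟩ := List.mem_map.1 hl
    replace hl : BE (cm M) (dec M w) l := by simpa using hl'
    refine ⟨fun e => ?_, fun p hp q hq i hi j hj => or_iff_not_imp_left.2 fun e => ?_⟩
    · cases l with
      | nil => simp [enc] at e
      | cons s l =>
        obtain rfl : s = ⟨t, ht⟩ := Fin.ext (by simpa [enc] using e)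
        exact h ⟨l, hl.symm⟩
    · rw [mem_splits] at hp hq
      rw [not_not] at e
      rw [hq, e, ← List.append_assoc] at hp
      have st : StepN M _ _ := ⟨_, _, i, j, by simpa using hi, by simpa using hj, hp, rfl⟩
      refine List.mem_map.2 ⟨_, by simpa using hl.trans (by simpa using st.be), ?_⟩
      rw [← dec_append, ← dec_append, ← List.append_assoc, enc_dec, fl, List.filter_eq_self]
      have : ∀ a ∈ enc l, a < M.length := by simp [enc]
      rw [hp] at this
      simp only [List.mem_range] at hi hj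
      simp only [altN_eq ⟨j, hj⟩ ⟨i, hi⟩, List.mem_append, Nat.ble_eq] at this ⊢
      rintro a ((h | h) | h)
      · exact this a (Or.inl (Or.inl h))
      · obtain ⟨a, -, rfl⟩ := List.mem_map.1 h; exact a.2
      · exact this a (Or.inr h)
  · rintro ⟨ht, C, h1, h2⟩ ⟨c, hc⟩
    rw [dec_single ⟨t, ht⟩] at hc
    have := hc.symm.inv (P := fun l => enc l ∈ C) (fun x y i j h => by
      have := (h2 _ h).2 (enc x, enc (alt i j (cm M i j)) ++ enc y) (by simp [mem_splits, enc])
        (enc (alt i j (cm M i j)), enc y) (by simp [mem_splits]) i (by simp) j (by simp)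
      simpa [altN_eq, cm_apply, enc, MemL] using this) (by rwa [enc_dec])
    exact (h2 _ this).1 (by simp [enc])

def wordsP (A : List ℕ) (n : ℕ) : List (List ℕ) :=
  (List.range n).foldr (fun _ W => W ++ W.flatMap fun w => A.map fun s => s :: w) [[]]

theorem mem_wordsP {A : List ℕ} {n : ℕ} {w : List ℕ} :
    w ∈ wordsP A n ↔ (∀ s ∈ w, s ∈ A) ∧ w.length ≤ n := by
  have : ∀ (L : List ℕ) (w : List ℕ), w ∈ L.foldr (fun _ W => W ++ W.flatMap fun w =>
      A.map fun s => s :: w) [[]] ↔ (∀ s ∈ w, s ∈ A) ∧ w.length ≤ L.length := by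
    intro L
    induction L with
    | nil => intro w; cases w <;> simp
    | cons a L ih =>
      intro w
      simp only [List.foldr_cons, List.mem_append, List.mem_flatMap, ih, List.length_cons,
        List.mem_map]
      cases w <;> simp <;> grind
  simpa [wordsP] using this (List.range n) w

def SubW (M : Mat) (X Y : List ℕ) : Prop := SL M X ⊆ SL M Y
def DisW (M : Mat) (Y q : List ℕ) (t : ℕ) : Prop :=
  ∃ e, DvW M t (q ++ e) ∧ AllL (wordsP Y e.length) fun b => NDvW M t (q ++ b)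
def BadW (M : Mat) (Y X q : List ℕ) : Prop :=
  (AllL (fl M Y) fun s => NDvW M s q.reverse) ∧ ∃ s, MemL (fl M q) s ∧ memb X s = false
def SphW (M : Mat) (Y1 X Y2 : List ℕ) (x y : Wd) : Prop :=
  ∃ U, Sph (cm M) (SL M U) ∧ SubW M Y1 U ∧ SubW M X U ∧ SubW M Y2 U ∧ ∃ Q, Q.Finite ∧
    SCert (cm M) (SL M U) (SL M Y1) (SL M X) (SL M Y2) (ev M x) (ev M y) Q

theorem disW_iff {Y q : List ℕ} {t : Fin M.length} :
    DisW M Y q t ↔ Dis (cm M) (SL M Y) (dec M q) t := by
  simp only [DisW, DvW, NDvW, AllL, mem_wordsP, dec_single, dec_append]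
  constructor
  · rintro ⟨e, h1, h2⟩
    refine ⟨_, h1, fun b hb hl => ?_⟩
    simpa using h2 (enc b) ⟨by simpa [enc, Ov, SL] using hb, by
      simpa [enc] using hl.trans (length_dec e)⟩
  · rintro ⟨e, h1, h2⟩
    exact ⟨enc e, by simpa using h1, fun b hb => h2 _ (fun s hs => hb.1 _ (mem_dec.1 hs))
      ((length_dec b).trans (by simpa [enc] using hb.2))⟩

theorem badW_iff {Y X q : List ℕ} :
    BadW M Y X q ↔ RR (cm M) (SL M Y) (dec M q) ∧ ¬ Ov (SL M X) (dec M q) := by
  refine and_congr (by simp [all_fl, NDvW, RR, LR, SL]) ?_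
  simp only [MemL, Ov, not_forall, ← enc_dec, enc, List.mem_map, SL, ← Bool.not_eq_true, memb_iff]
  exact ⟨by rintro ⟨_, ⟨s, h, rfl⟩, h'⟩; exact ⟨s, h, h'⟩, fun ⟨s, h, h'⟩ => ⟨_, ⟨s, h, rfl⟩, h'⟩⟩

theorem subW_iff {X Y : List ℕ} : SubW M X Y ↔ AllL (fl M X) (MemL Y) := by
  rw [all_fl]; rfl

theorem sph_iff' {U : List ℕ} : Sph (cm M) (SL M U) ↔ ∃ V, AllL (fl M U) fun s => DvW M s V := by
  simp only [all_fl, DvW, dec_single]
  refine ⟨fun h => ?_, fun ⟨V, h⟩ => sph_of_dv h⟩
  obtain ⟨δ, hδ⟩ := h.exists_del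
  exact ⟨enc δ, fun s hs => by
    simpa using hδ.red_dv (p := [s]) (by simpa [Ov, SL] using hs)
      (by simp [CoxeterSystem.IsReduced])⟩

theorem sphW_iff {Y1 X Y2 : List ℕ} {x y : Wd} : SphW M Y1 X Y2 x y ↔
    ∃ U, (∃ V, AllL (fl M U) fun s => DvW M s V) ∧ SubW M Y1 U ∧ SubW M X U ∧ SubW M Y2 U ∧
    ∃ Q : List (List ℕ × List ℕ), (∃ q m, MemL Q q ∧ RlW M Y1 x (m ++ pw q.1) ∧
      RlW M Y2 y (m ++ pw q.2)) ∧ AllL Q fun q => (SubW M q.1 U ∧ SubW M q.2 U ∧
        (BadW M Y1 X q.1 ∨ BadW M Y2 X q.2)) ∧ AllL (fl M U) fun t => DisW M Y1 q.1 t ∨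
          DisW M Y2 q.2 t ∨ ∃ q', MemL Q q' ∧ RlW M Y1 (pw q.1) (pw [t] ++ pw q'.1) ∧
            RlW M Y2 (pw q.2) (pw [t] ++ pw q'.2) := by
  have ov : ∀ q U, SubW M q U ↔ Ov (SL M U) (dec M q) := fun q U => by
    simp [SubW, Ov, SL, Set.subset_def]
  simp only [SphW, sph_iff', all_fl, disW_iff, badW_iff, RlW, ev_append, ev_pw, dec_single,
    pos_singleton, MemL]
  refine exists_congr fun U => and_congr_right' (and_congr_right' (and_congr_right'
    (and_congr_right' ⟨?_, ?_⟩)))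
  · rintro ⟨Q, hQ, ⟨q, hq, m, h1⟩, h2, h3⟩
    obtain ⟨m, rfl⟩ := ev_surj m
    have mem : ∀ q ∈ Q, (enc q.1, enc q.2) ∈ hQ.toFinset.toList.map fun q => (enc q.1, enc q.2) :=
      fun q hq => List.mem_map.2 ⟨q, by simpa using hq, rfl⟩
    refine ⟨_, ⟨_, m, mem q hq, by simpa using h1⟩, fun q hq => ?_⟩
    obtain ⟨q, hq', rfl⟩ := List.mem_map.1 hq
    replace hq : q ∈ Q := by simpa using hq'
    simp only [ov, dec_enc]
    exact ⟨h2 q hq, fun t ht => (h3 q hq t ht).imp_right (Or.imp_right fun ⟨q', a, b⟩ =>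
      ⟨_, mem q' a, by simpa using b⟩)⟩
  · rintro ⟨Q, ⟨q, m, hq, h1⟩, h2⟩
    refine ⟨(fun q => (dec M q.1, dec M q.2)) '' {q | q ∈ Q}, (List.finite_toSet Q).image _,
      ⟨_, ⟨q, hq, rfl⟩, _, h1⟩, ?_, ?_⟩ <;> rintro _ ⟨q, hq, rfl⟩
    · simpa only [ov] using (h2 q hq).1
    · exact fun t ht => ((h2 q hq).2 t ht).imp_right (Or.imp_right fun ⟨q', a, b⟩ =>
        ⟨_, ⟨q', a, rfl⟩, b⟩)

section Eff
variable {α β : Type} [Primcodable α] [Primcodable β] {M : α → Mat} {U X Y Z : α → List ℕ}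
  {w x : α → Wd} {s t r : α → ℕ}

@[fun_prop] theorem pr_beq [BEq β] [LawfulBEq β] {f g : α → β} (hf : PR f) (hg : PR g) :
    PR fun a => f a == g a := by
  classical
  exact (PR.beq hf hg).congr fun a => by rw [Bool.eq_iff_iff]; simp
@[fun_prop] theorem pr_bodd (hs : PR s) : PR fun a => (s a).bodd := Primrec.nat_bodd.comp hs
@[fun_prop] theorem pr_me (hM : PR M) (hs : PR s) (ht : PR t) : PR fun a => me (M a) (s a) (t a) := by
  unfold me ent; fun_prop
@[fun_prop] theorem pr_fl (hM : PR M) (hU : PR U) : PR fun a => fl (M a) (U a) := by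
  unfold fl; fun_prop
@[fun_prop] theorem pr_memb (hU : PR U) (hs : PR s) : PR fun a => memb (U a) (s a) := by
  unfold memb; fun_prop
@[fun_prop] theorem pr_int (hU : PR U) (hX : PR X) : PR fun a => int (U a) (X a) := by
  unfold int; fun_prop
@[fun_prop] theorem pr_altN (hs : PR s) (ht : PR t) (hr : PR r) :
    PR fun a => altN (s a) (t a) (r a) := by unfold altN; fun_prop
@[fun_prop] theorem pr_pw (hU : PR U) : PR fun a => pw (U a) := by unfold pw; fun_prop
@[fun_prop] theorem pr_relW (hM : PR M) (hs : PR s) (ht : PR t) :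
    PR fun a => relW (M a) (s a) (t a) := by unfold relW; fun_prop
@[fun_prop] theorem pr_splits (hU : PR U) : PR fun a => splits (U a) := by unfold splits; fun_prop
@[fun_prop] theorem pr_wordsP (hU : PR U) (hs : PR s) : PR fun a => wordsP (U a) (s a) := by
  unfold wordsP; fun_prop

@[fun_prop] theorem s1_ne {f g : α → β} (hf : PR f) (hg : PR g) : S1 fun a => f a ≠ g a := by
  classical
  exact (S1.eq (f := fun a => f a == g a) (g := fun _ => false) (by fun_prop) (by fun_prop)).congr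
    fun a => by simp
@[fun_prop] theorem s1_memL {l : α → List β} {f : α → β} (hl : PR l) (hf : PR f) :
    S1 fun a => MemL (l a) (f a) := by
  classical
  exact (S1.eq (f := fun a => (l a).any fun b => b == f a) (g := fun _ => true) (by fun_prop)
    (by fun_prop)).congr fun a => by simp [MemL]
@[fun_prop] theorem s1_oneW (hM : PR M) (hw : PR w) : S1 fun a => OneW (M a) (w a) :=
  S1.congr (p := fun a => ∃ L, FreeGroup.reduce (w a ++ certW (M a) L) = [])
    (by unfold certW; fun_prop) fun _ => (oneW_iff _).symm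
@[fun_prop] theorem s1_rlW (hM : PR M) (hU : PR U) (hw : PR w) (hx : PR x) :
    S1 fun a => RlW (M a) (U a) (w a) (x a) :=
  S1.congr (p := fun a => ∃ v : Wd, (AllL v fun l => MemL (U a) l.1) ∧
    OneW (M a) (invRev (w a ++ v) ++ x a)) (by fun_prop) fun a => by
      simp only [OneW, ev_append, ev_invRev, inv_mul_eq_one]
      exact ⟨fun ⟨v, a, b⟩ => by rw [RlW, ← b]; exact rl_mul _ (ev_mem a),
        fun h => let ⟨v, a, b⟩ := exists_word h; ⟨v, a, by simp [b]⟩⟩
theorem s1_bed : S1 BED := Der.s1 (by unfold StepN; fun_prop)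
@[fun_prop] theorem s1_dvW (hM : PR M) (ht : PR t) (hU : PR U) :
    S1 fun a => DvW (M a) (t a) (U a) :=
  S1.congr (p := fun a => ∃ c, BED (M a, fl (M a) ([t a] ++ c), fl (M a) (U a)))
    (S1.ex (s1_bed.comp (by fun_prop))) fun a => by
      simp only [← enc_dec, bed_iff, dec_append]
      exact ⟨fun ⟨c, h⟩ => ⟨_, h⟩, fun ⟨c, h⟩ => ⟨enc c, by rwa [dec_enc]⟩⟩
@[fun_prop] theorem s1_ndvW (hM : PR M) (ht : PR t) (hU : PR U) :
    S1 fun a => NDvW (M a) (t a) (U a) :=
  S1.congr (by fun_prop) fun _ => ndvW_iff.symm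
@[fun_prop] theorem s1_subW (hM : PR M) (hX : PR X) (hY : PR Y) :
    S1 fun a => SubW (M a) (X a) (Y a) :=
  S1.congr (p := fun a => AllL (fl (M a) (X a)) fun s => MemL (Y a) s) (by fun_prop)
    fun _ => subW_iff.symm
@[fun_prop] theorem s1_disW (hM : PR M) (hX : PR X) (hY : PR Y) (ht : PR t) :
    S1 fun a => DisW (M a) (X a) (Y a) (t a) := by unfold DisW; fun_prop
@[fun_prop] theorem s1_badW (hM : PR M) (hX : PR X) (hY : PR Y) (hZ : PR Z) :
    S1 fun a => BadW (M a) (X a) (Y a) (Z a) := by unfold BadW; fun_prop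
@[fun_prop] theorem s1_sphW (hM : PR M) (hX : PR X) (hY : PR Y) (hZ : PR Z) (hw : PR w)
    (hx : PR x) : S1 fun a => SphW (M a) (X a) (Y a) (Z a) (w a) (x a) :=
  S1.congr (by fun_prop) fun _ => sphW_iff.symm

end Eff

/-- Monotone finitary conditions on a set of judgments. -/
def Cpt {J : Type} (F : (J → Prop) → Prop) : Prop :=
  (∀ P Q : J → Prop, (∀ j, P j → Q j) → F P → F Q) ∧
    ∀ P, F P → ∃ l, (∀ i ∈ l, P i) ∧ F (MemL l)

namespace Cpt
variable {J : Type} {F G : (J → Prop) → Prop}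
theorem const (q : Prop) : Cpt fun _ : J → Prop => q :=
  ⟨fun _ _ _ h => h, fun _ h => ⟨[], by simp, h⟩⟩
theorem atom (j : J) : Cpt fun P : J → Prop => P j :=
  ⟨fun _ _ h => h j, fun _ h => ⟨[j], by simpa using h, by simp [MemL]⟩⟩
theorem and (hF : Cpt F) (hG : Cpt G) : Cpt fun P => F P ∧ G P :=
  ⟨fun P Q h a => ⟨hF.1 P Q h a.1, hG.1 P Q h a.2⟩, fun P a => by
    obtain ⟨l, b1, b2⟩ := hF.2 P a.1
    obtain ⟨l', c1, c2⟩ := hG.2 P a.2
    exact ⟨l ++ l', List.forall_mem_append.2 ⟨b1, c1⟩,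
      hF.1 _ _ (fun j => List.mem_append_left _) b2, hG.1 _ _ (fun j => List.mem_append_right _) c2⟩⟩
theorem or (hF : Cpt F) (hG : Cpt G) : Cpt fun P => F P ∨ G P :=
  ⟨fun P Q h a => a.imp (hF.1 P Q h) (hG.1 P Q h), fun P a => by
    rcases a with a | a
    · obtain ⟨l, b1, b2⟩ := hF.2 P a; exact ⟨l, b1, Or.inl b2⟩
    · obtain ⟨l, b1, b2⟩ := hG.2 P a; exact ⟨l, b1, Or.inr b2⟩⟩
theorem ex {β : Type} {F : β → (J → Prop) → Prop} (hF : ∀ b, Cpt (F b)) :
    Cpt fun P => ∃ b, F b P :=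
  ⟨fun P Q h ⟨b, a⟩ => ⟨b, (hF b).1 P Q h a⟩, fun P ⟨b, a⟩ =>
    let ⟨l, b1, b2⟩ := (hF b).2 P a; ⟨l, b1, b, b2⟩⟩
theorem all {β : Type} {F : β → (J → Prop) → Prop} (L : List β) (hF : ∀ b, Cpt (F b)) :
    Cpt fun P => AllL L fun b => F b P := by
  induction L with
  | nil => simpa [AllL] using const True
  | cons b L ih => simpa [AllL] using (hF b).and ih
end Cpt

end Pool.Agent.Lib.MP_a1ec0a_al.TR
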