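import Pool.Agent.Lib.MP_a1ec0a_al.TGS

/-! Sections of coverings over a semilattice with a shift. -/

namespace Pool.Agent.Lib.MP_a1ec0a_al.TR

open Relation

structure Shift (T : Type) [SemilatticeInf T] where
  suc : T → T
  inf : ∀ a b, suc (a ⊓ b) = suc a ⊓ suc b
  le : ∀ a, a ≤ suc a
  arch : ∀ a b, ∃ n, b ≤ suc^[n] a

variable {T P E : Type} [SemilatticeInf T] {S : P → P → Prop}

theorem Cover.eq_of (C : Cover S E) {e e' : E} (h : C.R e e') (hb : C.base e = C.base e') :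
    e = e' := by
  have h0 := C.rel h
  obtain ⟨e'', a1, a2⟩ := C.ex_r e' (b := C.base e') (hb ▸ h0)
  obtain rfl := C.un_r h (C.tri h a2 (a1 ▸ h0)) a1.symm
  exact C.un_l h a2 hb

namespace Shift

variable (Z : Shift T)

def TS (a b : T) : Prop := a ≤ b ∧ b ≤ Z.suc a

variable {Z}

theorem mono {a b : T} (h : a ≤ b) : Z.suc a ≤ Z.suc b := by
  rw [← inf_eq_left, ← Z.inf, inf_eq_left.2 h]

theorem le_iter (n : ℕ) (a : T) : a ≤ Z.suc^[n] a := by
  induction n with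
  | zero => rfl
  | succ n ih => rw [Function.iterate_succ_apply']; exact ih.trans (Z.le _)

theorem step {a b : T} {n : ℕ} (h : b ≤ Z.suc^[n + 1] a) : b ≤ Z.suc^[n] (b ⊓ Z.suc a) := by
  have : ∀ x y, Z.suc^[n] (x ⊓ y) = Z.suc^[n] x ⊓ Z.suc^[n] y := by
    clear h
    induction n with
    | zero => exact fun _ _ => rfl
    | succ n ih => intro x y; simp only [Function.iterate_succ_apply', ih, Z.inf]
  rw [this]
  exact le_inf (le_iter n b) h

theorem ts_inf {a b : T} (h : a ≤ b) : Z.TS a (b ⊓ Z.suc a) := ⟨le_inf h (Z.le a), inf_le_right⟩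

theorem up_ind {K : T → Prop} (h1 : ∀ a b, K a → K b → K (a ⊓ b)) (h2 : ∀ a, K a → K (Z.suc a))
    {r : T → T → Prop} (hr : ∀ a, r a a) (ht : ∀ a b c, K a → K b → Z.TS a b → r b c → r a c)
    {a b : T} (ha : K a) (hb : K b) (h : a ≤ b) : r a b := by
  obtain ⟨n, hn⟩ := Z.arch a b
  induction n generalizing a with
  | zero => rw [le_antisymm h hn]; exact hr _
  | succ n ih =>
    have k := h1 _ _ hb (h2 _ ha)
    exact ht _ _ _ ha k (ts_inf h) (ih k inf_le_left (step hn))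

theorem conn {K : T → Prop} (h1 : ∀ a b, K a → K b → K (a ⊓ b)) (h2 : ∀ a, K a → K (Z.suc a))
    {p : T → Prop} (hp : ∀ a b, K a → K b → Z.TS a b → (p a ↔ p b)) {a b : T} (ha : K a)
    (hb : K b) : p a ↔ p b := by
  have := fun a b ha hb h => up_ind (Z := Z) h1 h2 (r := fun a b => p a ↔ p b) (fun _ => Iff.rfl)
    (fun a b c ha hb h h' => (hp a b ha hb h).trans h') (a := a) (b := b) ha hb h
  exact (this _ _ (h1 a b ha hb) ha inf_le_left).symm.trans (this _ _ (h1 a b ha hb) hb inf_le_right)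

theorem exists_sec (C : Cover S E) (f : T → P) (hf : ∀ a b, Z.TS a b → S (f a) (f b)) (a0 : T)
    (e0 : E) (h0 : C.base e0 = f a0) : ∃ s : T → E, (∀ a, C.base (s a) = f a) ∧
      (∀ a b, Z.TS a b → C.R (s a) (s b)) ∧ s a0 = e0 := by
  let St : T × E → T × E → Prop := fun x y =>
    Z.TS x.1 y.1 ∧ C.R x.2 y.2 ∧ C.base x.2 = f x.1 ∧ C.base y.2 = f y.1
  have mo : ∀ {x y}, ReflTransGen St x y → x.1 ≤ y.1 := fun h => by
    induction h with
    | refl => rfl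
    | tail _ h ih => exact ih.trans h.1.1
  have fw : ∀ (x : T × E) b, Z.TS x.1 b → C.base x.2 = f x.1 → ∃ e, St x (b, e) := by
    intro x b h1 h2
    obtain ⟨e, a1, a2⟩ := C.ex_r x.2 (h2 ▸ hf _ _ h1)
    exact ⟨e, h1, a2, h2, a1⟩
  have dia : ∀ {x y}, ReflTransGen St x y → C.base x.2 = f x.1 →
      ∃ e, St x (y.1 ⊓ Z.suc x.1, e) ∧ ReflTransGen St (y.1 ⊓ Z.suc x.1, e) y := by
    intro x y h
    induction h using ReflTransGen.head_induction_on with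
    | refl =>
      intro h
      rw [inf_eq_left.2 (Z.le _)]
      obtain ⟨e, he⟩ := fw y y.1 ⟨le_rfl, Z.le _⟩ h
      obtain rfl := C.eq_of he.2.1 (he.2.2.1.trans he.2.2.2.symm)
      exact ⟨_, he, ReflTransGen.refl⟩
    | @head x z h h' ih =>
      intro _
      obtain ⟨e2, a1, a2⟩ := ih h.2.2.2
      have l1 : z.1 ≤ y.1 ⊓ Z.suc x.1 := le_inf (mo h') h.1.2
      obtain ⟨e3, b1⟩ := fw z (y.1 ⊓ Z.suc x.1) ⟨l1, inf_le_right.trans (mono h.1.1)⟩ h.2.2.2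
      obtain ⟨e4, c1⟩ := fw (_, e3) (y.1 ⊓ Z.suc z.1)
        ⟨inf_le_inf_left _ (mono h.1.1), inf_le_right.trans (mono l1)⟩ b1.2.2.2
      obtain rfl := C.un_r a1.2.1 (C.tri b1.2.1 c1.2.1 (by
        rw [h.2.2.2, c1.2.2.2]; exact hf _ _ a1.1)) (a1.2.2.2.trans c1.2.2.2.symm)
      have t := ts_inf (Z := Z) (h.1.1.trans (mo h'))
      exact ⟨e3, ⟨t, C.tri h.2.1 b1.2.1 (by rw [h.2.2.1, b1.2.2.2]; exact hf _ _ t), h.2.2.1,
        b1.2.2.2⟩, a2.head c1⟩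
  have cst : ∀ {x y}, ReflTransGen St x y → y.1 ≤ x.1 → y = x := fun h => by
    induction h with
    | refl => exact fun _ => rfl
    | tail h1 h2 ih =>
      intro h
      obtain rfl := ih (h2.1.1.trans h)
      have e := le_antisymm h h2.1.1
      exact Prod.ext e (C.eq_of h2.2.1 (by rw [h2.2.2.1, h2.2.2.2, e])).symm
  have un : ∀ a b, a ≤ b → ∀ e1 e2 d1 d2, C.base e1 = f a → C.base e2 = f a →
      ReflTransGen St (a, e1) (b, d1) → ReflTransGen St (a, e2) (b, d2) → (e1 = e2 ↔ d1 = d2) := by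
    intro a b h
    obtain ⟨n, hn⟩ := Z.arch a b
    induction n generalizing a with
    | zero =>
      intro e1 e2 d1 d2 _ _ p1 p2
      rw [show d1 = e1 from congrArg Prod.snd (cst p1 hn),
        show d2 = e2 from congrArg Prod.snd (cst p2 hn)]
    | succ n ih =>
      intro e1 e2 d1 d2 k1 k2 p1 p2
      obtain ⟨c1, a1, a2⟩ := dia p1 k1
      obtain ⟨c2, b1, b2⟩ := dia p2 k2
      rw [← ih _ inf_le_left (step hn) c1 c2 d1 d2 a1.2.2.2 b1.2.2.2 a2 b2]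
      exact ⟨fun e => C.un_r a1.2.1 (e ▸ b1.2.1) (a1.2.2.2.trans b1.2.2.2.symm),
        fun e => C.un_l a1.2.1 (e ▸ b1.2.1) (k1.trans k2.symm)⟩
  have lift : ∀ a b, a ≤ b → (∀ e, C.base e = f a → ∃ d, C.base d = f b ∧
      ReflTransGen St (a, e) (b, d)) ∧ ∀ d, C.base d = f b → ∃ e, C.base e = f a ∧
      ReflTransGen St (a, e) (b, d) := fun a b h =>
    up_ind (Z := Z) (K := fun _ => True) (r := fun a b => (∀ e, C.base e = f a → ∃ d,
      C.base d = f b ∧ ReflTransGen St (a, e) (b, d)) ∧ ∀ d, C.base d = f b → ∃ e,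
      C.base e = f a ∧ ReflTransGen St (a, e) (b, d)) (by simp) (by simp)
      (fun _ => ⟨fun e h => ⟨e, h, ReflTransGen.refl⟩, fun e h => ⟨e, h, ReflTransGen.refl⟩⟩)
      (fun a b c _ _ h h' => ⟨fun e he => by
        obtain ⟨e', a1⟩ := fw (a, e) b h he
        obtain ⟨d, a2, a3⟩ := h'.1 e' a1.2.2.2
        exact ⟨d, a2, a3.head a1⟩, fun d hd => by
        obtain ⟨e', a1, a2⟩ := h'.2 d hd
        obtain ⟨e, b1, b2⟩ := C.ex_l e' (a1 ▸ hf _ _ h)
        exact ⟨e, b1, a2.head ⟨h, b2, b1, a1⟩⟩⟩) trivial trivial h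
  let Good : T → E → Prop := fun a e => C.base e = f a ∧
    ∃ b d, C.base d = f b ∧ ReflTransGen St (b, d) (a, e) ∧ ReflTransGen St (b, d) (a0, e0)
  have ex : ∀ a, ∃ e, Good a e := fun a => by
    obtain ⟨d, a1, a2⟩ := (lift (a ⊓ a0) a0 inf_le_right).2 e0 h0
    obtain ⟨e, b1, b2⟩ := (lift (a ⊓ a0) a inf_le_left).1 d a1
    exact ⟨e, b1, _, d, a1, b2, a2⟩
  have uq : ∀ a e e', Good a e → Good a e' → e = e' := by
    rintro a e e' ⟨-, b, d, a1, a2, a3⟩ ⟨-, b', d', b1, b2, b3⟩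
    obtain ⟨c, c1, c2⟩ := (lift (b ⊓ b') b inf_le_left).2 d a1
    obtain ⟨c', d1, d2⟩ := (lift (b ⊓ b') b' inf_le_right).2 d' b1
    exact (un _ _ (mo (c2.trans a2)) _ _ _ _ c1 d1 (c2.trans a2) (d2.trans b2)).1
      ((un _ _ (mo (c2.trans a3)) _ _ _ _ c1 d1 (c2.trans a3) (d2.trans b3)).2 rfl)
  choose s hs using ex
  refine ⟨s, fun a => (hs a).1, fun a b h => ?_,
    uq _ _ _ (hs a0) ⟨h0, a0, e0, h0, ReflTransGen.refl, ReflTransGen.refl⟩⟩
  obtain ⟨e, he⟩ := fw (a, s a) b h (hs a).1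
  obtain ⟨-, c, d, a1, a2, a3⟩ := hs a
  rw [uq _ _ _ (hs b) ⟨he.2.2.2, c, d, a1, a2.tail he, a3⟩]
  exact he.2.1

end Shift

end Pool.Agent.Lib.MP_a1ec0a_al.TR
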