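import Pool.Agent.Lib.MP_a1ec0a_al.TPar
import Pool.Agent.Lib.MP_a1ec0a_al.TSec

/-! The Garside system attached to an infinite cyclic cover of the Coxeter diagram. -/

set_option linter.unusedSectionVars false

namespace Pool.Agent.Lib.MP_a1ec0a_al.TR

open Pool.Agent.H51 Relation

variable {B : Type} [Fintype B] [DecidableEq B] {M : CoxeterMatrix B}

/-- covering data -/
structure Cv (M : CoxeterMatrix B) where
  U : Set B
  δ : B → B → ℤ
  le : ∀ u v, δ u v ≤ 1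
  ge : ∀ u v, -1 ≤ δ u v
  sum : ∀ u v, 0 ≤ δ u v + δ v u
  fin : ∀ u v, M u v ≠ 0 → δ u v + δ v u ≤ 0

abbrev Ty (B : Type) := B × Bool → ℤ

theorem ap {σ τ : Ty B} (h : σ ≤ τ) (z : B × Bool) : (σ z : ℤ) ≤ τ z := h z
theorem ap1 {σ τ : Ty B} {k : ℤ} (h : τ ≤ σ + fun _ => k) (z : B × Bool) :
    (τ z : ℤ) ≤ σ z + k := h z

namespace Cv

variable (c : Cv M)

def Val (σ : Ty B) : Prop :=
  ∀ u ∈ c.U, ∀ v ∈ c.U, M u v ≠ 2 → σ (u, false) + c.δ u v ≤ σ (v, true)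

def FF (σ : Ty B) : Set B := {u | u ∈ c.U ∧ σ (u, false) = σ (u, true)}

theorem δ_self (u : B) : c.δ u u = 0 := by
  have := c.sum u u; have := c.fin u u (by simp); omega

variable {c} {σ τ μ : Ty B}

theorem Val.le (h : c.Val σ) {u : B} (hu : u ∈ c.U) : σ (u, false) ≤ σ (u, true) := by
  simpa [δ_self] using h u hu u hu (by simp)

theorem Val.add (h : c.Val σ) (k : ℤ) : c.Val (σ + fun _ => k) := fun u hu v hv e => by
  have := h u hu v hv e; simp only [Pi.add_apply]; omega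

theorem Val.inf (h : c.Val σ) (h' : c.Val τ) : c.Val (σ ⊓ τ) := fun u hu v hv e => by
  have := h u hu v hv e; have := h' u hu v hv e; simp only [Pi.inf_apply]; omega

theorem FF_add (σ : Ty B) (k : ℤ) : c.FF (σ + fun _ => k) = c.FF σ := by
  ext u; simp [FF]

theorem FF_sub (σ : Ty B) : c.FF σ ⊆ c.U := fun _ h => h.1

@[ext] structure Pt (c : Cv M) where
  σ : Ty B
  C : Set (Artin M)
  val : c.Val σ
  ex : ∃ g, C = {x | Rl M (c.FF σ) g x}

def pt (σ : Ty B) (h : c.Val σ) (g : Artin M) : c.Pt := ⟨σ, _, h, g, rfl⟩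

theorem mem_pt (h : c.Val σ) (g : Artin M) : g ∈ (pt σ h g).C := Rl.refl g

variable {p q r : c.Pt} {x y : Artin M}

theorem Pt.ne (p : c.Pt) : ∃ x, x ∈ p.C := let ⟨g, h⟩ := p.ex; ⟨g, h ▸ Rl.refl g⟩

theorem Pt.rl (hx : x ∈ p.C) (hy : y ∈ p.C) : Rl M (c.FF p.σ) x y := by
  obtain ⟨g, h⟩ := p.ex
  rw [h] at hx hy; exact Rl.trans (Rl.symm hx) hy

theorem Pt.mem (hx : x ∈ p.C) (h : Rl M (c.FF p.σ) x y) : y ∈ p.C := by
  obtain ⟨g, e⟩ := p.ex
  rw [e] at hx ⊢; exact Rl.trans hx h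

theorem Pt.eq (e : p.σ = q.σ) (hp : x ∈ p.C) (hq : x ∈ q.C) : p = q :=
  Pt.ext e (Set.ext fun _ => ⟨fun h => Pt.mem hq (e ▸ Pt.rl hp h),
    fun h => Pt.mem hp (e ▸ Pt.rl hq h)⟩)

def Mt (p q : c.Pt) : Prop := ∃ x, x ∈ p.C ∧ x ∈ q.C

theorem hel (h1 : Mt p q) (h2 : Mt p r) (h3 : Mt q r) : ∃ x, x ∈ p.C ∧ x ∈ q.C ∧ x ∈ r.C := by
  obtain ⟨x, a1, a2⟩ := h1
  obtain ⟨y, b1, b2⟩ := h2
  obtain ⟨z, c1, c2⟩ := h3
  obtain ⟨w, d1, d2, d3⟩ := helly (Pt.rl a1 b1) (Pt.rl a2 c1) (Pt.rl b2 c2)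
  exact ⟨w, Pt.mem a1 d1, Pt.mem a2 d2, Pt.mem b2 d3⟩

def S (p q : c.Pt) : Prop := p.σ ≤ q.σ ∧ q.σ ≤ (p.σ + fun _ => 1) ∧ Mt p q

def shf (k : ℤ) (p : c.Pt) : c.Pt := ⟨p.σ + fun _ => k, p.C, p.val.add k, by
  rw [FF_add]; exact p.ex⟩

def LL (c : Cv M) (σ τ : Ty B) : Set B := {u | u ∈ c.FF σ ∧ τ (u, false) = σ (u, false) + 1}
def Rs (c : Cv M) (σ τ : Ty B) : Set B := {u | u ∈ c.FF σ ∧ τ (u, true) = σ (u, true)}

theorem S.perp (h : S p q) : Perp M (c.LL p.σ q.σ) (c.Rs p.σ q.σ) := by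
  rintro u ⟨⟨u1, u2⟩, u3⟩ v ⟨⟨v1, v2⟩, v3⟩
  by_contra e
  have := q.val u u1 v v1 e
  have := p.val v v1 u u1 (M.symmetric u v ▸ e)
  have := c.sum u v
  omega

theorem S.inter (h : S p q) : c.FF p.σ ∩ c.FF q.σ = c.LL p.σ q.σ ∪ c.Rs p.σ q.σ := by
  ext u
  have a1 := ap h.1 (u, false); have a2 := ap h.1 (u, true)
  have a3 := ap1 h.2.1 (u, false); have a4 := ap1 h.2.1 (u, true)
  have a5 := q.val.le (u := u)
  simp only [FF, LL, Rs, Set.mem_inter_iff, Set.mem_union, Set.mem_ofPred_eq]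
  by_cases hu : u ∈ c.U
  · have := a5 hu; simp only [hu, true_and]; omega
  · simp [hu]

theorem LL_mono (h : τ ≤ μ) (h' : μ ≤ σ + fun _ => 1) : c.LL σ τ ⊆ c.LL σ μ := fun u hu =>
  ⟨hu.1, by have := hu.2; have := ap h (u, false); have := ap1 h' (u, false); omega⟩

theorem Rs_mono (h : τ ≤ μ) (h' : σ ≤ τ) : c.Rs σ μ ⊆ c.Rs σ τ := fun u hu =>
  ⟨hu.1, by have := hu.2; have := ap h (u, true); have := ap h' (u, true); omega⟩

theorem S.rl (h : S p q) (a1 : x ∈ p.C) (a2 : x ∈ q.C) (b1 : y ∈ p.C) (b2 : y ∈ q.C) :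
    Rl M (c.LL p.σ q.σ ∪ c.Rs p.σ q.σ) x y := h.inter ▸ (Pt.rl a1 b1).inter (Pt.rl a2 b2)

theorem S.sub (h : S p q) : c.LL p.σ q.σ ∪ c.Rs p.σ q.σ ⊆ c.FF q.σ :=
  h.inter ▸ Set.inter_subset_right

theorem S.symm_mt (h : Mt p q) : Mt q p := let ⟨x, a, b⟩ := h; ⟨x, b, a⟩

theorem S_trans {a b d e : c.Pt} (h1 : S a b) (h2 : S a d) (h3 : S a e) (h4 : S b d) (h5 : S d e) :
    S b e := by
  refine ⟨h4.1.trans h5.1, h3.2.1.trans (add_le_add_left h1.1 _), ?_⟩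
  obtain ⟨g, a1, a2, a3⟩ := hel h1.2.2 h2.2.2 h4.2.2
  obtain ⟨h, b1, b2, b3⟩ := hel h2.2.2 h3.2.2 h5.2.2
  obtain ⟨w, c1, c2⟩ := h2.perp.symm.split (Set.union_comm _ _ ▸ h2.rl a1 a3 b1 b2)
  exact ⟨w, Pt.mem a2 (c1.mono ((Rs_mono h4.1 h1.1).trans (Set.subset_union_right.trans h1.sub))),
    Pt.mem b3 (c2.symm.mono ((LL_mono h5.1 h3.2.1).trans (Set.subset_union_left.trans h3.sub)))⟩

theorem S_itp {b x1 x2 y1 y2 : c.Pt} (hQ : Q4 M (c.FF b.σ)) (a1 : S b x1) (a2 : S b x2)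
    (a3 : S b y1) (a4 : S b y2) (h11 : S x1 y1) (h12 : S x1 y2) (h21 : S x2 y1) (h22 : S x2 y2) :
    ∃ m, S b m ∧ S x1 m ∧ S x2 m ∧ S m y1 ∧ S m y2 := by
  classical
  obtain ⟨g11, b1, b2, b3⟩ := hel a1.2.2 a3.2.2 h11.2.2
  obtain ⟨g12, c1, c2, c3⟩ := hel a1.2.2 a4.2.2 h12.2.2
  obtain ⟨g21, d1, d2, d3⟩ := hel a2.2.2 a3.2.2 h21.2.2
  obtain ⟨g22, e1, e2, e3⟩ := hel a2.2.2 a4.2.2 h22.2.2
  obtain ⟨L, R, m, f1, f2, f3, f4, f5, f6, f7, f8, f9⟩ := hQ.itp (fun _ h => h.1) (fun _ h => h.1)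
    (fun _ h => h.1) (fun _ h => h.1) a1.perp a2.perp a3.perp a4.perp (LL_mono h11.1 a3.2.1)
    (LL_mono h12.1 a4.2.1) (LL_mono h21.1 a3.2.1) (LL_mono h22.1 a4.2.1) (Rs_mono h11.1 a1.1)
    (Rs_mono h12.1 a1.1) (Rs_mono h21.1 a2.1) (Rs_mono h22.1 a2.1) (a1.rl b1 b2 c1 c2)
    (a2.rl d1 d2 e1 e2) (a3.rl b1 b3 d1 d3) (a4.rl c1 c3 e1 e3)
  let μ : Ty B := fun z => match z with
    | (u, false) => if u ∈ L then b.σ (u, false) + 1 else max (x1.σ (u, false)) (x2.σ (u, false))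
    | (u, true) => if u ∈ R then b.σ (u, true) else min (y1.σ (u, true)) (y2.σ (u, true))
  have key : ∀ z, x1.σ z ≤ μ z ∧ x2.σ z ≤ μ z ∧ μ z ≤ y1.σ z ∧ μ z ≤ y2.σ z := by
    intro z
    have := a1.2.1 z; have := a2.2.1 z; have := a3.1 z; have := a4.1 z
    have := h11.1 z; have := h12.1 z; have := h21.1 z; have := h22.1 z
    simp only [Pi.add_apply] at *
    obtain ⟨u, _ | _⟩ := z <;> simp only [μ] <;> split_ifs with h
    · have := (f2 h).1.2; have := (f2 h).2.2; omega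
    · omega
    · have := (f4 h).1.2; have := (f4 h).2.2; omega
    · omega
  have hμ : c.Val μ := by
    intro u hu v hv e
    have := x1.val u hu v hv e; have := x2.val u hu v hv e
    have := y1.val u hu v hv e; have := y2.val u hu v hv e
    have := key (u, false); have := key (v, true)
    by_cases h : u ∈ L
    · by_cases h' : v ∈ R
      · exact absurd (f5 u h v h') e
      · simp only [μ, if_neg h'] at *; omega
    · simp only [μ, if_neg h] at *; omega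
  have sub : L ∪ R ⊆ c.FF μ := by
    rintro u (h | h)
    · have h' : u ∉ R := fun h' => by simpa using f5 u h u h'
      have := a3.sub (Or.inl (f2 h).1); have := a4.sub (Or.inl (f2 h).2)
      have := (f2 h).1.2; have := (f2 h).2.2
      simp only [FF, Set.mem_ofPred_eq, μ, if_pos h, if_neg h'] at *
      exact ⟨‹u ∈ c.U ∧ _›.1, by omega⟩
    · have h' : u ∉ L := fun h' => by simpa using f5 u h' u h
      have := a1.sub (Or.inr (f4 h).1); have := a2.sub (Or.inr (f4 h).2)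
      have := (f4 h).1.2; have := (f4 h).2.2
      simp only [FF, Set.mem_ofPred_eq, μ, if_pos h, if_neg h'] at *
      exact ⟨‹u ∈ c.U ∧ _›.1, by omega⟩
  have mt : ∀ {p : c.Pt} {T g}, T ⊆ c.FF p.σ → g ∈ p.C → Me M (L ∪ R) m T g →
      Mt (pt μ hμ m) p := fun h1 h2 ⟨z, h3, h4⟩ => ⟨z, h3.mono sub, Pt.mem h2 (h4.mono h1)⟩
  have k1 : ∀ z, b.σ z ≤ μ z ∧ μ z ≤ b.σ z + 1 := fun z =>
    ⟨(a1.1 z).trans (key z).1, (key z).2.2.1.trans (a3.2.1 z)⟩
  refine ⟨pt μ hμ m, ⟨fun z => (k1 z).1, fun z => (k1 z).2, S.symm_mt (mt ?_ b1 f6)⟩,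
    ⟨fun z => (key z).1, fun z => (k1 z).2.trans (add_le_add_left (a1.1 z) _),
      S.symm_mt (mt a1.sub b2 f6)⟩,
    ⟨fun z => (key z).2.1, fun z => (k1 z).2.trans (add_le_add_left (a2.1 z) _),
      S.symm_mt (mt a2.sub d2 f7)⟩,
    ⟨fun z => (key z).2.2.1, fun z => (a3.2.1 z).trans (add_le_add_left (k1 z).1 _),
      mt a3.sub b3 f8⟩,
    ⟨fun z => (key z).2.2.2, fun z => (a4.2.1 z).trans (add_le_add_left (k1 z).1 _),
      mt a4.sub c3 f9⟩⟩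
  exact a1.inter ▸ Set.inter_subset_left

/-- valid types -/
def VT (c : Cv M) := {σ : Ty B // c.Val σ}

instance : SemilatticeInf c.VT := Subtype.semilatticeInf fun _ _ => Val.inf

theorem iter_val (n : ℕ) (σ : c.VT) (z : B × Bool) :
    ((fun σ : c.VT => (⟨σ.1 + fun _ => 1, σ.2.add 1⟩ : c.VT))^[n] σ).1 z = σ.1 z + n := by
  induction n with
  | zero => simp
  | succ n ih => rw [Function.iterate_succ_apply']; simp only [Pi.add_apply, ih]; push_cast; ring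

def sft (c : Cv M) : Shift c.VT where
  suc σ := ⟨σ.1 + fun _ => 1, σ.2.add 1⟩
  inf a b := Subtype.ext (funext fun z => by
    change min (a.1 z) (b.1 z) + 1 = min (a.1 z + 1) (b.1 z + 1); omega)
  le a z := by change a.1 z ≤ a.1 z + 1; omega
  arch a b := by
    obtain ⟨N, hN⟩ := (Set.finite_range fun z => (b.1 z - a.1 z).toNat).bddAbove
    refine ⟨N, fun z => ?_⟩
    have : (b.1 z - a.1 z).toNat ≤ N := hN ⟨z, rfl⟩
    rw [iter_val]
    change (b.1 z : ℤ) ≤ _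
    omega

theorem ts_S {a b : c.VT} (h : c.sft.TS a b) (g : Artin M) : S (pt a.1 a.2 g) (pt b.1 b.2 g) :=
  ⟨h.1, h.2, g, mem_pt _ _, mem_pt _ _⟩

theorem exists_FF {s t : B} (hs : s ∈ c.U) (ht : t ∈ c.U) (h : M s t ≠ 0) :
    ∃ τ : c.VT, {s, t} ⊆ c.FF τ.1 := by
  refine ⟨⟨fun z => if z.1 = s then 0 else if z.1 = t then c.δ s t else if z.2 then 2 else -2, ?_⟩,
    ?_⟩
  · intro u _ v _ _
    have := c.le u v; have := c.ge s t; have := c.le s t; have := c.fin s t h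
    have := c.δ_self u
    simp only []
    split_ifs <;> simp_all <;> omega
  · rintro u (rfl | rfl)
    · exact ⟨hs, by simp⟩
    · exact ⟨ht, by by_cases e : u = s <;> simp [e]⟩

section SC

variable {E : Type} (C : Cover (S (c := c)) E)

def IsSec (g : Artin M) (s : c.VT → E) : Prop :=
  (∀ a, C.base (s a) = pt a.1 a.2 g) ∧ ∀ a b, c.sft.TS a b → C.R (s a) (s b)

variable {C}

theorem agree {g g' : Artin M} {s s' : c.VT → E} (h : IsSec C g s) (h' : IsSec C g' s') {T : Set B}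
    (hg : Rl M T g g') {a b : c.VT} (ha : T ⊆ c.FF a.1) (hb : T ⊆ c.FF b.1) (e : s a = s' a) :
    s b = s' b := by
  have k : ∀ a : c.VT, T ⊆ c.FF a.1 → C.base (s a) = C.base (s' a) := fun a ha => by
    rw [h.1, h'.1]; exact Pt.eq rfl (hg.mono ha) (mem_pt _ _)
  refine (Shift.conn (Z := c.sft) (K := fun a => T ⊆ c.FF a.1) (p := fun a => s a = s' a)
    (fun a b ha hb u hu => ⟨(ha hu).1, ?_⟩) (fun a ha => (FF_add a.1 1).symm ▸ ha)
    (fun a b ha hb t => ⟨fun e => C.un_r (h.2 a b t) (e ▸ h'.2 a b t) (k b hb),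
      fun e => C.un_l (h.2 a b t) (e ▸ h'.2 a b t) (k a ha)⟩) ha hb).1 e
  change min _ _ = min _ _
  rw [(ha hu).2, (hb hu).2]

def Tot (C : Cover (S (c := c)) E) := {p : Artin M × (c.VT → E) // IsSec C p.1 p.2}

theorem exists_tot {g : Artin M} {a : c.VT} {e : E} (h : C.base e = pt a.1 a.2 g) :
    ∃ p : Tot C, p.1.1 = g ∧ p.1.2 a = e := by
  obtain ⟨s, h1, h2, h3⟩ := Shift.exists_sec C (fun a : c.VT => pt a.1 a.2 g)
    (fun a b h => ts_S h g) a e h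
  exact ⟨⟨(g, s), h1, h2⟩, rfl, h3⟩

def Good (T : Set B) (g : Artin M) (π : Tot C → Tot C) : Prop :=
  ∀ p, (π p).1.1 = p.1.1 * g ∧ ∀ a : c.VT, T ⊆ c.FF a.1 → (π p).1.2 a = p.1.2 a

theorem Good.comp {T : Set B} {g g' : Artin M} {π π' : Tot C → Tot C} (h : Good T g π)
    (h' : Good T g' π') : Good T (g * g') (π' ∘ π) := fun p =>
  ⟨by rw [Function.comp, (h' _).1, (h p).1, mul_assoc],
    fun a ha => ((h' _).2 a ha).trans ((h p).2 a ha)⟩

theorem Good.ext {T : Set B} {g : Artin M} {π π' : Tot C → Tot C} (h : Good T g π)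
    (h' : Good T g π') {a : c.VT} (ha : T ⊆ c.FF a.1) : π = π' := funext fun p => by
  have e := (h p).1.trans (h' p).1.symm
  exact Subtype.ext (Prod.ext e (funext fun b => agree (π p).2 (π' p).2 (T := ∅) (e ▸ Rl.refl _)
    (by simp) (by simp) (((h p).2 a ha).trans ((h' p).2 a ha).symm)))

theorem exists_good {s : B} (hs : s ∈ c.U) {k : Artin M} (hk : k ∈ apar M {s}) :
    ∃ π : Tot C → Tot C, Good {s} k π := by
  obtain ⟨a, ha⟩ := exists_FF hs hs (by simp)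
  rw [Set.pair_eq_singleton] at ha
  have := fun p : Tot C => exists_tot (g := p.1.1 * k) ((p.2.1 a).trans
    (Pt.eq rfl ((rl_mul _ hk).mono ha) (mem_pt _ _)))
  choose π h1 h2 using this
  exact ⟨π, fun p => ⟨h1 p, fun b hb =>
    agree (π p).2 p.2 (h1 p ▸ (rl_mul _ hk).symm) ha hb (h2 p)⟩⟩

theorem exists_perm (s : B) : ∃ π : (Equiv.Perm (Tot C))ᵐᵒᵖ, s ∈ c.U →
    Good {s} (gen M s) π.unop ∧ Good {s} (gen M s)⁻¹ π⁻¹.unop := by
  by_cases hs : s ∈ c.U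
  · obtain ⟨π, h⟩ := exists_good (C := C) hs (gen_mem_apar rfl)
    obtain ⟨π', h'⟩ := exists_good (C := C) hs (inv_mem (gen_mem_apar rfl))
    obtain ⟨a, ha⟩ := exists_FF hs hs (by simp)
    rw [Set.pair_eq_singleton] at ha
    have one : Good (C := C) {s} 1 fun x => x := fun p => by simp
    exact ⟨MulOpposite.op ⟨π, π', congrFun ((h.comp h').ext (by simpa only [mul_inv_cancel, inv_mul_cancel] using one) ha),
      congrFun ((h'.comp h).ext (by simpa only [mul_inv_cancel, inv_mul_cancel] using one) ha)⟩, fun _ => ⟨h, h'⟩⟩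
  · exact ⟨1, fun h => absurd h hs⟩

theorem exists_act : ∃ ρ : Artin M → Tot C → Tot C, (∀ g ∈ apar M c.U, ∀ g',
    ρ (g * g') = ρ g' ∘ ρ g) ∧ ∀ T ⊆ c.U, ∀ g ∈ apar M T, Good T g (ρ g) := by
  choose φ hφ using exists_perm (C := C)
  have mo : ∀ {T : Set B} {s g} {π : Tot C → Tot C}, s ∈ T → Good {s} g π → Good T g π :=
    fun hs h p => ⟨(h p).1, fun a ha => (h p).2 a (Set.singleton_subset_iff.2 (ha hs))⟩
  have wd : ∀ T ⊆ c.U, ∀ l, Ov T l → Good T (pos M l) (l.map φ).prod.unop := by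
    intro T hT l hl
    induction l with
    | nil => intro p; simp
    | cons s l ih =>
      have := ov_cons.1 hl
      exact (mo this.1 (hφ s (hT this.1)).1).comp (ih this.2)
  have br : BrOn M c.U φ := by
    intro i hi j hj
    by_cases h0 : M i j = 0
    · simp [h0, alt]
    obtain ⟨a, ha⟩ := exists_FF hi hj h0
    have s := ha.trans (FF_sub _)
    refine MulOpposite.unop_injective (DFunLike.coe_injective ((wd _ s _ fun _ h => mem_alt h).ext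
      ((BE.braid i j).pos_eq ▸ wd _ s _ fun _ h => (mem_alt h).symm) ha))
  refine ⟨fun g => (rext br g).unop, fun g hg g' => by simp only [rext_mul br hg]; rfl, fun T hT g hg => ?_⟩
  refine apar_induction (P := fun g => Good T g (rext br g).unop) hg (fun p => by simp) ?_ ?_
  · intro g hg s hs ih
    rw [rext_mul br (apar_mono hT hg), rext_gen br (hT hs)]
    exact ih.comp (mo hs (hφ s (hT hs)).1)
  · intro g hg s hs ih
    rw [rext_mul br (apar_mono hT hg), rext_inv br (gen_mem_apar (hT hs)), rext_gen br (hT hs)]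
    exact ih.comp (mo hs (hφ s (hT hs)).2)

theorem S_sc (e e' : E) (h : EqvGen C.R e e') (hb : C.base e = C.base e') : e = e' := by
  obtain ⟨ρ, h1, h2⟩ := exists_act (C := C)
  obtain ⟨g0, hg0⟩ := (C.base e).ne
  obtain ⟨P, a1, a2⟩ := exists_tot (g := g0) (a := ⟨_, (C.base e).val⟩) (e := e)
    (Pt.eq rfl hg0 (mem_pt _ _))
  let Sg : E → Prop := fun e => ∃ g ∈ apar M c.U, ∃ a, e = (ρ g P).1.2 a
  have mv : ∀ e, Sg e → ∀ x ∈ (C.base e).C, ∃ g ∈ apar M c.U, (ρ g P).1.1 = x ∧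
      e = (ρ g P).1.2 ⟨_, (C.base e).val⟩ := by
    rintro _ ⟨g, hg, a, rfl⟩ x hx
    have b := (ρ g P).2.1 a
    have k : ((ρ g P).1.1)⁻¹ * x ∈ apar M (c.FF a.1) := by rw [b] at hx; exact hx
    have := h2 _ (FF_sub _) _ k (ρ g P)
    refine ⟨g * _, mul_mem hg (apar_mono (FF_sub _) k), ?_, ?_⟩ <;> rw [h1 g hg, Function.comp]
    · rw [this.1, mul_inv_cancel_left]
    · simp only [b]; exact (this.2 a subset_rfl).symm
  have cl : ∀ e e', C.R e e' → (Sg e ↔ Sg e') := by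
    intro e e' h
    obtain ⟨t1, t2, x, x1, x2⟩ := C.rel h
    have t : c.sft.TS ⟨_, (C.base e).val⟩ ⟨_, (C.base e').val⟩ := ⟨t1, t2⟩
    constructor <;> intro s
    · obtain ⟨g, hg, b1, b2⟩ := mv e s x x1
      exact ⟨g, hg, ⟨_, (C.base e').val⟩, C.un_r h (by simpa only [← b2] using (ρ g P).2.2 _ _ t)
        (by rw [(ρ g P).2.1, b1]; exact Pt.eq rfl x2 (mem_pt _ _))⟩
    · obtain ⟨g, hg, b1, b2⟩ := mv e' s x x2
      exact ⟨g, hg, ⟨_, (C.base e).val⟩, C.un_l h (by simpa only [← b2] using (ρ g P).2.2 _ _ t)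
        (by rw [(ρ g P).2.1, b1]; exact Pt.eq rfl x1 (mem_pt _ _))⟩
  have s0 : Sg e := ⟨1, one_mem _, _,
    a2.symm.trans ((h2 ∅ (by simp) 1 (one_mem _) P).2 _ (by simp)).symm⟩
  have s1 : Sg e' := by
    refine Iff.mp ?_ s0
    clear s0 hb a2 hg0
    induction h with
    | rel _ _ h => exact cl _ _ h
    | refl => rfl
    | symm _ _ _ ih => exact ih.symm
    | trans _ _ _ _ _ ih ih' => exact ih.trans ih'
  obtain ⟨g, hg, b1, b2⟩ := mv e s0 g0 hg0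
  obtain ⟨g', hg', c1, c2⟩ := mv e' s1 g0 (hb ▸ hg0)
  rw [(h2 _ subset_rfl _ hg P).1, ← c1, (h2 _ subset_rfl _ hg' P).1, mul_right_inj] at b1
  rw [b2, c2, b1]
  simp only [← b2, ← c2, hb]

end SC

/-- the Garside system -/
def gs (c : Cv M) (hQ : ∀ σ, c.Val σ → Q4 M (c.FF σ)) : GS c.Pt where
  S := S
  up := shf 1
  dn := shf (-1)
  rk p := ∑ z, p.σ z
  up_dn a := Pt.ext (funext fun z => by simp [shf]) rfl
  dn_up a := Pt.ext (funext fun z => by simp [shf]) rfl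
  refl a := ⟨le_rfl, fun z => by simp, let ⟨x, h⟩ := a.ne; ⟨x, h, h⟩⟩
  rk_lt h e := by
    obtain ⟨h1, -, x, h2, h3⟩ := h
    obtain ⟨z, hz⟩ := Function.ne_iff.1 fun e' => e (Pt.eq e' h2 h3)
    exact Finset.sum_lt_sum (fun z _ => h1 z) ⟨z, by simp, (h1 z).lt_of_ne hz⟩
  trans := S_trans
  to_up h := ⟨h.2.1, add_le_add_left h.1 _, S.symm_mt h.2.2⟩
  of_dn h := ⟨fun z => by have := h.2.1 z; simp [shf] at *; omega,
    fun z => by have := h.1 z; simp [shf] at *; omega, S.symm_mt h.2.2⟩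
  itp := S_itp (hQ _ (Pt.val _))
  sc _ _ := S_sc

end Cv

end Pool.Agent.Lib.MP_a1ec0a_al.TR
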