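import Pool.Agent.Lib.MP_a1ec0a_al.TCov

/-! Four-cycles and triple products through the cyclic cover. -/

set_option linter.unusedSectionVars false

namespace Pool.Agent.Lib.MP_a1ec0a_al.TR

open Pool.Agent.H51 Relation

variable {B : Type} [Fintype B] [DecidableEq B] {M : CoxeterMatrix B}

theorem taint (lo hi : B → ℤ) {U X : Set B} {K : ℤ}
    (hc : ∀ u ∈ U, ∀ v ∈ U, M u v ≠ 2 → lo u - 1 ≤ hi v) (hK : ∀ u ∈ U, u ∉ X → K ≤ hi u)
    {x0 x y : Artin M} (h : ∃ Z : Finset B, (∀ u ∈ Z, u ∈ U ∧ K - Z.card ≤ lo u) ∧ Me M X x0 Z x)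
    (hy : Rl M {u | u ∈ U ∧ lo u = hi u} x y) :
    ∃ Z : Finset B, (∀ u ∈ Z, u ∈ U ∧ K - Z.card ≤ lo u) ∧ Me M X x0 Z y := by
  obtain ⟨Z, h1, w, h2, h3⟩ := h
  obtain ⟨Z', ⟨a1, a2⟩, hm⟩ := exists_max_rk (fun Z : Finset B => (Z.card : ℤ))
    (fun Z' => Z ⊆ Z' ∧ ∀ u ∈ Z', u ∈ U ∧ K - Z'.card ≤ lo u) (Fintype.card B) ⟨Z, subset_rfl, h1⟩
    fun Z _ => by exact_mod_cast Z.card_le_univ
  have key : ∀ v ∈ {u | u ∈ U ∧ lo u = hi u} \ (Z' : Set B), hi v < K - Z'.card - 1 := by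
    rintro v ⟨⟨v1, v2⟩, v3⟩
    by_contra hn
    have e := Finset.card_insert_of_notMem (s := Z') v3
    have := hm (insert v Z') ⟨a1.trans (Finset.subset_insert _ _), fun u hu => by
      rw [e]; push_cast
      rcases Finset.mem_insert.1 hu with rfl | hu
      · exact ⟨v1, by omega⟩
      · exact ⟨(a2 u hu).1, by have := (a2 u hu).2; omega⟩⟩
    simp only [e] at this; push_cast at this; omega
  have p : Perp M ({u | u ∈ U ∧ lo u = hi u} \ (Z' : Set B)) Z' := fun v hv z hz => by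
    by_contra e
    have := hc z (a2 z hz).1 v hv.1.1 (M.symmetric v z ▸ e)
    have := key v hv; have := (a2 z hz).2; omega
  obtain ⟨v, b1, b2⟩ := p.split ((h3.symm.mono ((Finset.coe_subset.2 a1).trans
    Set.subset_union_right)).trans (hy.mono (by rw [Set.sdiff_union_self]; exact Set.subset_union_left)))
  refine ⟨Z', a2, v, h2.trans (b1.mono fun u hu => ?_), b2.symm⟩
  by_contra e
  have := hK u hu.1.1 e; have := key u hu; omega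

namespace Cv

variable {c : Cv M} {hQ : ∀ σ, c.Val σ → Q4 M (c.FF σ)} {p q : c.Pt} {x y g : Artin M}
  {σ τ : Ty B} {X Y Y1 Y2 : Set B}

theorem le_ty (h : (c.gs hQ).Le p q) : p.σ ≤ q.σ := by
  induction h with
  | refl => rfl
  | tail _ h ih => exact ih.trans h.1

theorem le_of (h : p.σ ≤ q.σ) (hp : x ∈ p.C) (hq : x ∈ q.C) : (c.gs hQ).Le p q := by
  have := Shift.up_ind (Z := c.sft) (K := fun _ => True) (by simp) (by simp)
    (r := fun a b => (c.gs hQ).Le (pt a.1 a.2 x) (pt b.1 b.2 x)) (fun _ => GS.Le.refl _)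
    (fun a b _ _ _ h h' => (GS.le (X := c.gs hQ) (ts_S h x)).trans h')
    (a := ⟨_, p.val⟩) (b := ⟨_, q.val⟩) trivial trivial h
  rwa [← Pt.eq (p := p) (q := pt p.σ p.val x) rfl hp (mem_pt _ _),
    ← Pt.eq (p := q) (q := pt q.σ q.val x) rfl hq (mem_pt _ _)] at this

theorem exec (hX : X ⊆ c.U) (hg : g ∈ apar M X) : ∃ n : ℕ, ∀ (p q : c.Pt) (k : ℤ) x, x ∈ p.C →
    x * g ∈ q.C → p.σ ≤ q.σ → (∀ u ∈ X, p.σ (u, true) ≤ k) → (∀ u ∈ X, k + n ≤ q.σ (u, false)) →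
    (∀ u ∈ c.U, k + n ≤ q.σ (u, true)) → (c.gs hQ).Le p q := by
  classical
  have step : ∀ s ∈ X, ∀ e ∈ apar M {s}, ∀ g, (∃ n : ℕ, ∀ (p q : c.Pt) (k : ℤ) x, x ∈ p.C →
      x * g ∈ q.C → p.σ ≤ q.σ → (∀ u ∈ X, p.σ (u, true) ≤ k) →
      (∀ u ∈ X, k + n ≤ q.σ (u, false)) → (∀ u ∈ c.U, k + n ≤ q.σ (u, true)) →
      (c.gs hQ).Le p q) → ∃ n : ℕ, ∀ (p q : c.Pt) (k : ℤ) x, x ∈ p.C →
      x * (e * g) ∈ q.C → p.σ ≤ q.σ → (∀ u ∈ X, p.σ (u, true) ≤ k) →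
      (∀ u ∈ X, k + n ≤ q.σ (u, false)) → (∀ u ∈ c.U, k + n ≤ q.σ (u, true)) →
      (c.gs hQ).Le p q := by
    rintro s hs e he g ⟨n, ih⟩
    refine ⟨n + 1, fun p q k x a1 a2 a3 a4 a5 a6 => ?_⟩
    let μ : Ty B := fun z => if z.1 = s then k else
      if z.1 ∈ c.U ∧ z.2 then max (p.σ z) (k + 1) else p.σ z
    have s1 := a4 s hs
    have s2 := p.val.le (hX hs)
    have s3 := a5 s hs
    have s4 := a6 s (hX hs)
    have hμ : c.Val μ := fun u hu v hv h => by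
      have := p.val u hu v hv h; have := c.le u v; have := c.δ_self s
      simp only [μ, hv]
      grind
    refine (le_of (q := pt μ hμ x) (fun z => ?_) a1 (mem_pt _ _)).trans
      (ih _ q (k + 1) (x * e) ((rl_mul x he).mono ?_) (mul_assoc x e g ▸ a2) (fun z => ?_)
        (fun u hu => ?_) (fun u hu => by have := a5 u hu; push_cast at this; omega)
        fun u hu => by have := a6 u hu; push_cast at this; omega)
    · change (p.σ z : ℤ) ≤ μ z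
      obtain ⟨u, _ | _⟩ := z <;> simp only [μ] <;> grind
    · rintro _ rfl; exact ⟨hX hs, by simp [μ]⟩
    · change (μ z : ℤ) ≤ q.σ z
      have := ap a3 z
      have := a6 z.1
      obtain ⟨u, _ | _⟩ := z <;> simp only [μ] <;> grind
    · change μ (u, true) ≤ _
      have := a4 u hu
      simp only [μ]; split_ifs <;> omega
  induction hg using Subgroup.closure_induction_left with
  | one => exact ⟨0, fun p q k x a1 a2 a3 _ _ _ => le_of a3 a1 (by simpa using a2)⟩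
  | mul_left _ hs g _ ih => obtain ⟨s, hs, rfl⟩ := hs; exact step s hs _ (gen_mem_apar rfl) g ih
  | inv_mul_cancel _ hs g _ ih =>
    obtain ⟨s, hs, rfl⟩ := hs; exact step s hs _ (inv_mem (gen_mem_apar rfl)) g ih

theorem taint_lo {K : ℤ} (h : (c.gs hQ).Le p q) (hx : x ∈ p.C)
    (hK : ∀ u ∈ c.U, u ∉ X → K ≤ p.σ (u, true)) (hy : y ∈ q.C) :
    Me M X x {u | u ∈ c.U ∧ K - Fintype.card B ≤ q.σ (u, false)} y := by
  have hc : ∀ q : c.Pt, ∀ u ∈ c.U, ∀ v ∈ c.U, M u v ≠ 2 → q.σ (u, false) - 1 ≤ q.σ (v, true) :=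
    fun q u hu v hv e => by have := q.val u hu v hv e; have := c.ge u v; omega
  suffices ∃ Z : Finset B, (∀ u ∈ Z, u ∈ c.U ∧ K - Z.card ≤ q.σ (u, false)) ∧ Me M X x Z y by
    obtain ⟨Z, h1, h2⟩ := this
    refine h2.mono subset_rfl fun u hu => ⟨(h1 u hu).1, ?_⟩
    have := (h1 u hu).2; have := Z.card_le_univ; omega
  induction h generalizing y with
  | refl => exact taint _ _ (hc p) hK ⟨∅, by simp, x, Rl.refl _, Rl.refl _⟩ (Pt.rl hx hy)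
  | @tail q r h h' ih =>
    obtain ⟨w, a1, a2⟩ := h'.2.2
    obtain ⟨Z, b1, b2⟩ := ih a1
    exact taint _ _ (hc r) (fun u hu e => (hK u hu e).trans (ap ((le_ty h).trans h'.1) _))
      ⟨Z, fun u hu => ⟨(b1 u hu).1, (b1 u hu).2.trans (ap h'.1 _)⟩, b2⟩ (Pt.rl a2 hy)

theorem taint_hi {K : ℤ} (h : (c.gs hQ).Le p q) (hy : y ∈ q.C)
    (hK : ∀ u ∈ c.U, u ∉ Y → q.σ (u, false) ≤ K) (hx : x ∈ p.C) :
    Me M Y y {u | u ∈ c.U ∧ p.σ (u, true) ≤ K + Fintype.card B} x := by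
  have hc : ∀ q : c.Pt, ∀ u ∈ c.U, ∀ v ∈ c.U, M u v ≠ 2 → -q.σ (u, true) - 1 ≤ -q.σ (v, false) :=
    fun q u hu v hv e => by
      have := q.val v hv u hu (M.symmetric u v ▸ e); have := c.ge v u; omega
  have rl : ∀ {q : c.Pt} {x y}, x ∈ q.C → y ∈ q.C →
      Rl M {u | u ∈ c.U ∧ -q.σ (u, true) = -q.σ (u, false)} x y := fun h h' =>
    (Pt.rl h h').mono fun u hu => ⟨hu.1, by rw [hu.2]⟩
  suffices ∃ Z : Finset B, (∀ u ∈ Z, u ∈ c.U ∧ -K - Z.card ≤ -p.σ (u, true)) ∧ Me M Y y Z x by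
    obtain ⟨Z, h1, h2⟩ := this
    refine h2.mono subset_rfl fun u hu => ⟨(h1 u hu).1, ?_⟩
    have := (h1 u hu).2; have := Z.card_le_univ; omega
  induction h using ReflTransGen.head_induction_on generalizing x with
  | refl =>
    exact taint _ _ (hc q) (fun u hu e => neg_le_neg (hK u hu e))
      ⟨∅, by simp, y, Rl.refl _, Rl.refl _⟩ (rl hy hx)
  | @head p r h' h ih =>
    obtain ⟨w, a1, a2⟩ := h'.2.2
    obtain ⟨Z, b1, b2⟩ := ih a2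
    exact taint _ _ (hc p)
      (fun u hu e => neg_le_neg ((ap (h'.1.trans (le_ty h)) _).trans (hK u hu e)))
      ⟨Z, fun u hu => ⟨(b1 u hu).1, (b1 u hu).2.trans (neg_le_neg (ap h'.1 _))⟩, b2⟩ (rl a1 hx)

/-- the coordinates that go to infinity -/
def IZ (c : Cv M) (Y : Set B) (z : B × Bool) : Prop := z.1 ∈ c.U ∧ (z.2 = true ∨ z.1 ∈ Y)

open Classical in
noncomputable def yP (c : Cv M) (Y : Set B) (k : ℤ) (n : ℕ) (g : Artin M) : c.Pt :=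
  pt (fun z => if c.IZ Y z then k + n + (if z.2 then 1 else 0) else k) (fun u hu v hv _ => by
    have := c.le u v
    simp only [IZ, hv]; split_ifs <;> simp_all <;> omega) g

open Classical in
noncomputable def xP (c : Cv M) (X : Set B) (k : ℤ) (K n : ℕ) (g : Artin M) : c.Pt :=
  pt (fun z => if z.1 ∈ c.U then if z.2 then if z.1 ∈ X then k - n else k + K + 1 else k - n - 1
    else k) (fun u hu v hv _ => by
    have := c.le u v
    grind) g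

theorem yP_not {k : ℤ} {n : ℕ} {z : B × Bool} (h : ¬ c.IZ Y z) : (c.yP Y k n g).σ z = k := by
  simp [yP, pt, h]

theorem yP_l {k : ℤ} {n : ℕ} {u : B} (h : u ∉ Y) : (c.yP Y k n g).σ (u, false) = k :=
  yP_not (by simp [IZ, h])

theorem xP_r {k : ℤ} {K n : ℕ} {u : B} (hu : u ∈ c.U) (h : u ∉ X) :
    (c.xP X k K n g).σ (u, true) = k + K + 1 := by simp [xP, pt, h, hu]

theorem xy_le (hX : X ⊆ c.U) (hY : Y ⊆ c.U) (h : Me M X x Y y) : ∃ n : ℕ, ∀ k K n1 n2, n ≤ n1 →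
    K + n < n2 → (c.gs hQ).Le (c.xP X k K n1 x) (c.yP Y k n2 y) := by
  classical
  obtain ⟨w, h1, h2⟩ := h
  obtain ⟨a, ha⟩ := exec (hQ := hQ) hX h1
  obtain ⟨b, hb⟩ := exec (hQ := hQ) hY h2.symm
  refine ⟨a + b, fun k K n1 n2 e1 e2 => ?_⟩
  let μ : Ty B := fun z => if z.1 ∈ c.U ∧ z.2 then k + K + 1 else k
  have hμ : c.Val μ := fun u hu v hv _ => by have := c.le u v; simp [μ, hv]; omega
  refine (ha _ (pt μ hμ w) (k - n1) x (mem_pt _ _) (by simpa using mem_pt hμ w) (fun z => ?_)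
    (fun u hu => ?_) (fun u hu => ?_) fun u hu => ?_).trans
    (hb _ _ (k + K + 1) w (mem_pt _ _) (by rw [mul_inv_cancel_left]; exact mem_pt _ y) (fun z => ?_) (fun u hu => ?_)
      (fun u hu => ?_) fun u hu => ?_)
  · simp only [xP, pt, μ]; split_ifs <;> simp_all <;> omega
  · simp [xP, pt, hu, hX hu]
  · simp [pt, μ]; omega
  · simp [pt, μ, hu]; omega
  · simp only [yP, pt, μ, IZ]; split_ifs <;> simp_all <;> omega
  · simp [pt, μ, hY hu]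
  · simp [yP, pt, IZ, hu, hY hu]; omega
  · simp [yP, pt, IZ, hu]; omega

include hQ in
theorem q4 : Q4 M c.U := by
  intro X1 u1 X2 u2 Y1 u3 Y2 u4 g11 g12 g21 g22 r1 r2 r3 r4
  obtain ⟨n1, h1⟩ := xy_le (hQ := hQ) u1 u3 (x := g11) (y := g11) ⟨_, Rl.refl _, Rl.refl _⟩
  obtain ⟨n2, h2⟩ := xy_le (hQ := hQ) u1 u4 ⟨_, r1, Rl.refl _⟩
  obtain ⟨n3, h3⟩ := xy_le (hQ := hQ) u2 u3 ⟨_, Rl.refl _, r3⟩
  obtain ⟨n4, h4⟩ := xy_le (hQ := hQ) u2 u4 ⟨_, r2, r4⟩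
  obtain ⟨N, hN⟩ : ∃ N, N = Fintype.card B := ⟨_, rfl⟩
  obtain ⟨n, hn⟩ : ∃ n, n = n1 + n2 + n3 + n4 + 2 * N + 2 := ⟨_, rfl⟩
  obtain ⟨m, a1, a2, a3, a4⟩ := GS.interp (h1 0 (2 * N + 1) n n (by omega) (by omega))
    (h2 0 (2 * N + 1) n n (by omega) (by omega)) (h3 0 (2 * N + 1) n n (by omega) (by omega))
    (h4 0 (2 * N + 1) n n (by omega) (by omega))
  obtain ⟨g, hg⟩ := m.ne
  refine ⟨_, _, g, ?_, ?_, ?_, ?_, ?_,
    (taint_lo a1 (mem_pt _ _) (fun u hu e => (xP_r hu e).ge) hg).symm,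
    (taint_lo a2 (mem_pt _ _) (fun u hu e => (xP_r hu e).ge) hg).symm,
    (taint_hi a3 (mem_pt _ _) (fun u _ e => (yP_l e).le) hg).symm,
    (taint_hi a4 (mem_pt _ _) (fun u _ e => (yP_l e).le) hg).symm⟩
  · intro u hu; by_contra e
    have := ap (le_ty a3) (u, false); rw [yP_l e] at this; have := hu.2; omega
  · intro u hu; by_contra e
    have := ap (le_ty a4) (u, false); rw [yP_l e] at this; have := hu.2; omega
  · intro u hu; by_contra e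
    have := ap (le_ty a1) (u, true); rw [xP_r hu.1 e] at this; have := hu.2; omega
  · intro u hu; by_contra e
    have := ap (le_ty a2) (u, true); rw [xP_r hu.1 e] at this; have := hu.2; omega
  · intro u hu v hv; by_contra e
    have := m.val u hu.1 v hv.1 e; have := c.ge u v; have := hu.2; have := hv.2; omega

/-- the ideal of points below the direction of a coset -/
def II (hQ : ∀ σ, c.Val σ → Q4 M (c.FF σ)) (Y : Set B) (k : ℤ) (g : Artin M) (p : c.Pt) : Prop :=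
  ∃ n, (c.gs hQ).Le p (c.yP Y k n g)

variable {k : ℤ}

theorem yP_mono {n m : ℕ} (h : n ≤ m) : (c.gs hQ).Le (c.yP Y k n g) (c.yP Y k m g) :=
  le_of (fun z => by simp only [yP, pt]; split_ifs <;> omega) (mem_pt _ _) (mem_pt _ _)

theorem idl : (c.gs hQ).Idl (II hQ Y k g) :=
  ⟨fun h ⟨n, h'⟩ => ⟨n, h.trans h'⟩, fun ⟨n, h⟩ ⟨m, h'⟩ => ⟨_, ⟨n + m, GS.Le.refl _⟩,
    h.trans (yP_mono (by omega)), h'.trans (yP_mono (by omega))⟩⟩

/-- aligned types and their one-sided shift -/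
def Al (c : Cv M) (Y : Set B) (k : ℤ) (σ τ : Ty B) : Prop :=
  (∀ z, (c.IZ Y z ∧ τ z = σ z + 1) ∨ (¬ c.IZ Y z ∧ τ z = k ∧ σ z = k)) ∧
    ∀ u ∈ c.U, k < σ (u, true)

/-- certificate for a trivial local meet -/
def LMC (c : Cv M) (D : Set B → Set B → Set B → Artin M → Artin M → Prop) (σ τ1 τ2 : Ty B)
    (g1 g2 : Artin M) : Prop := ∀ μ, c.Val μ → σ ≤ μ → μ ≤ τ1 → μ ≤ τ2 → μ ≠ σ →
  D (c.FF σ ∩ c.FF τ1) (c.FF σ ∩ c.FF μ) (c.FF σ ∩ c.FF τ2) g1 g2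

def NT (M : CoxeterMatrix B) (Y1 X Y2 : Set B) (x y : Artin M) : Prop := ¬ Tr M Y1 X Y2 x y

theorem lm_iff {b p q : c.Pt} (h1 : S b p) (h2 : S b q) (a1 : x ∈ b.C) (a2 : x ∈ p.C)
    (a3 : y ∈ b.C) (a4 : y ∈ q.C) : (c.gs hQ).LM b p q ↔ c.LMC (NT M) b.σ p.σ q.σ x y := by
  constructor
  · rintro h μ hμ b1 b2 b3 b4 ⟨w, w', c1, c2, c3⟩
    have t := b2.trans h1.2.1
    exact b4 (congrArg Pt.σ (h (pt μ hμ w)
      ⟨b1, t, w, Pt.mem a1 (c1.mono Set.inter_subset_left), mem_pt _ _⟩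
      ⟨b2, h1.2.1.trans (add_le_add_left b1 _), w, mem_pt _ _,
        Pt.mem a2 (c1.mono Set.inter_subset_right)⟩
      ⟨b3, h2.2.1.trans (add_le_add_left b1 _), w', c2.mono Set.inter_subset_right,
        Pt.mem a4 (c3.mono Set.inter_subset_right)⟩))
  · intro h m b1 b2 b3
    obtain ⟨w, c1, c2, c3⟩ := hel b1.2.2 h1.2.2 b2.2.2
    obtain ⟨w', d1, d2, d3⟩ := hel b1.2.2 h2.2.2 b3.2.2
    by_contra e
    exact h m.σ m.val b1.1 b2.1 b3.1 (fun e' => e (Pt.eq e' c2 c1)) ⟨w, w',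
      (Pt.rl a1 c1).inter (Pt.rl a2 c3), (Pt.rl c1 d1).inter (Pt.rl c2 d2),
      (Pt.rl a3 d1).inter (Pt.rl a4 d3)⟩

/-- the meaning of the head judgment -/
def SH (hQ : ∀ σ, c.Val σ → Q4 M (c.FF σ)) (k : ℤ) (Y : Set B) (y : Artin M) (σ τ : Ty B)
    (g : Artin M) : Prop :=
  ∃ h h', (c.gs hQ).Hd (II hQ Y k y) (pt σ h g) (pt τ h' g)

theorem sh_base (hY : Y ⊆ c.U) (h : c.Val σ) (ha : c.Al Y k σ τ) (hg : Rl M Y g y) :
    SH hQ k Y y σ τ g := by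
  have le : ∀ z, σ z ≤ τ z ∧ τ z ≤ σ z + 1 := fun z => by have := ha.1 z; omega
  have h' : c.Val τ := fun u hu v hv e => by
    have := h u hu v hv e; have := (le (u, false)).2
    have := ((ha.1 (v, true)).resolve_right fun e => e.1 ⟨hv, Or.inl rfl⟩).2
    omega
  refine ⟨h, h', ⟨fun z => (le z).1, fun z => (le z).2, g, mem_pt _ _, mem_pt _ _⟩, ?_,
    fun x b1 ⟨n, b2⟩ => ⟨fun z => ?_, fun z => (le z).2.trans (add_le_add_left (b1.1 z) _), ?_⟩⟩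
  · obtain ⟨n, hn⟩ := exec (hQ := hQ) hY hg
    obtain ⟨N, hN⟩ := (Set.finite_range fun z => (τ z - k).toNat).bddAbove
    have hN' : ∀ z, τ z ≤ k + N := fun z => by
      have : (τ z - k).toNat ≤ N := hN ⟨z, rfl⟩
      omega
    refine ⟨N + n, hn _ _ (k + N) g (mem_pt _ _) (by rw [mul_inv_cancel_left]; exact mem_pt _ y) (fun z => ?_)
      (fun u _ => hN' _) (fun u hu => ?_) fun u hu => ?_⟩
    · have := hN' z; have := ha.1 z
      simp only [yP, pt]; split_ifs <;> simp_all <;> omega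
    · simp [yP, pt, IZ, hu, hY hu]; omega
    · simp [yP, pt, IZ, hu]; omega
  · change (x.σ z : ℤ) ≤ τ z
    rcases ha.1 z with e | e
    · rw [e.2]; exact ap1 b1.2.1 z
    · have := ap (le_ty b2) z
      rwa [yP_not e.1, ← e.2.1] at this
  · obtain ⟨w, c1, c2⟩ := b1.2.2
    refine ⟨w, c2, Rl.mono c1 fun u hu => ⟨hu.1, ?_⟩⟩
    have := ha.1 (u, false); have := ha.2 u hu.1; have := hu.2
    have := ((ha.1 (u, true)).resolve_right fun e => e.1 ⟨hu.1, Or.inl rfl⟩).2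
    change σ _ = σ _ at *
    omega

theorem sh_step {τ' : Ty B} {g' : Artin M} (h : c.Val σ) (h1 : σ ≤ τ) (h2 : τ ≤ σ + fun _ => 1)
    (hg : Rl M (c.FF τ) g' g) (h3 : SH hQ k Y y τ τ' g')
    (h4 : c.LMC (NT M) τ τ' (σ + fun _ => 1) g' g) : SH hQ k Y y σ τ g := by
  obtain ⟨a1, a2, a3⟩ := h3
  have s : S (pt σ h g) (pt τ a1 g') := ⟨h1, h2, g, mem_pt _ _, hg⟩
  refine ⟨h, a1, ?_⟩
  rw [Pt.eq (p := pt τ a1 g) (q := pt τ a1 g') rfl (mem_pt _ _) hg]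
  exact idl.step s a3 ((lm_iff a3.1 ((c.gs hQ).to_up s) (mem_pt _ _) (mem_pt _ _) hg
    (mem_pt h g)).2 h4)

theorem sh_fin {τ1 τ2 : Ty B} {g1 g2 : Artin M} (u1 : Y1 ⊆ c.U) (u2 : X ⊆ c.U) (u3 : Y2 ⊆ c.U)
    {u : B} (hu : u ∈ c.U) (hX : u ∉ X) (h1 : SH hQ k Y1 x σ τ1 g1) (h2 : SH hQ k Y2 y σ τ2 g2)
    (hg : Rl M (c.FF σ) g1 g2) (h : c.LMC (NT M) σ τ1 τ2 g1 g2) : NT M Y1 X Y2 x y := by
  rintro ⟨a, b, a1, a2, a3⟩
  obtain ⟨b1, b2, b3⟩ := h1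
  obtain ⟨c1, c2, c3⟩ := h2
  rw [Pt.eq (p := pt σ c1 g2) (q := pt σ b1 g1) rfl (mem_pt _ _) hg] at c3
  obtain ⟨n1, d1⟩ := xy_le (hQ := hQ) u2 u1 ⟨a, Rl.refl _, a1⟩
  obtain ⟨n2, d2⟩ := xy_le (hQ := hQ) u2 u3 ⟨b, a2, a3⟩
  have := ap (le_ty (GS.meet_top idl idl b3 c3
    ((lm_iff b3.1 c3.1 (mem_pt _ _) (mem_pt _ _) hg (mem_pt _ _)).2 h)
    (x := c.xP X k (σ (u, true) - k).toNat (n1 + n2) a) ⟨_, d1 _ _ _ _ (by omega) (Nat.lt_succ_self _)⟩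
    ⟨_, d2 _ _ _ _ (by omega) (Nat.lt_succ_self _)⟩)) (u, true)
  rw [xP_r hu hX] at this
  change _ ≤ σ _ at this
  omega

include hQ in
theorem complete {D : Set B → Set B → Set B → Artin M → Artin M → Prop}
    (hD : ∀ σ, c.Val σ → ∀ Y1 ⊆ c.FF σ, ∀ X ⊆ c.FF σ, ∀ Y2 ⊆ c.FF σ, ∀ x y,
      Rl M (c.FF σ) x y → NT M Y1 X Y2 x y → D Y1 X Y2 x y)
    {DH : ℕ → Set B → Artin M → Ty B → Ty B → Artin M → Prop}
    (hb : ∀ (k : ℕ) Y y σ τ g, Y ⊆ c.U → 0 ≤ σ → c.Val σ → c.Al Y k σ τ → Rl M Y g y →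
      DH k Y y σ τ g)
    (hs : ∀ k Y y σ τ τ' g g', 0 ≤ σ → c.Val σ → σ ≤ τ → τ ≤ (σ + fun _ => 1) → τ ≤ τ' →
      Rl M (c.FF τ) g' g → DH k Y y τ τ' g' → c.LMC D τ τ' (σ + fun _ => 1) g' g → DH k Y y σ τ g)
    (u1 : Y1 ⊆ c.U) (u3 : Y2 ⊆ c.U) (hxy : Rl M c.U x y)
    (h : ∀ u ∈ c.U, NT M Y1 (c.U \ {u}) Y2 x y) : ∃ k σ τ1 τ2 g1 g2, 0 ≤ σ ∧ σ ≤ τ1 ∧ σ ≤ τ2 ∧
      τ1 ≤ (σ + fun _ => 1) ∧ DH k Y1 x σ τ1 g1 ∧ DH k Y2 y σ τ2 g2 ∧ Rl M (c.FF σ) g1 g2 ∧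
      c.LMC D σ τ1 τ2 g1 g2 := by
  classical
  have lmc : ∀ {b p q : c.Pt} {x y}, S b p → S b q → x ∈ b.C → x ∈ p.C → y ∈ b.C → y ∈ q.C →
      (c.gs hQ).LM b p q → c.LMC D b.σ p.σ q.σ x y := fun {b p q x y} h1 h2 a1 a2 a3 a4 h μ b1 b2
      b3 b4 b5 => hD _ b.val _ Set.inter_subset_left _ Set.inter_subset_left _
        Set.inter_subset_left _ _ (Pt.rl a1 a3) ((lm_iff h1 h2 a1 a2 a3 a4).1 h μ b1 b2 b3 b4 b5)
  have hd : ∀ (k : ℕ), ∀ Y ⊆ c.U, ∀ y (p h : c.Pt) g, 0 ≤ p.σ → (c.gs hQ).Hd (II hQ Y k y) p h →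
      g ∈ p.C → g ∈ h.C → DH k Y y p.σ h.σ g := by
    intro k Y hY y p h g a1 a2 a3 a4
    obtain ⟨n, hn⟩ := idl.low (GS.le a2.1) a2.2.1
    obtain ⟨j, hj⟩ := (hn.trans (yP_mono (Nat.le_add_right n (Fintype.card B)))).le_up
    clear hn
    induction j generalizing p h g with
    | zero =>
      obtain ⟨m, hm⟩ := idl.low (GS.le a2.1) a2.2.1
      have e1 := ap (le_ty hj)
      have e2 := ap (le_ty hm)
      have e3 : ∀ u ∈ c.U, (k : ℤ) + Fintype.card B < p.σ (u, true) := fun u hu => by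
        have := e1 (u, true)
        simp [yP, pt, IZ, hu] at this; omega
      have al : c.Al Y k p.σ fun z => if c.IZ Y z then p.σ z + 1 else k := ⟨fun z => by
        by_cases e : c.IZ Y z
        · simp [e]
        · have := e1 z; have := e2 z
          simp only [Function.iterate_zero, id, yP_not e] at *
          simp [e]; omega, fun u hu => by have := e3 u hu; omega⟩
      obtain ⟨w, b1, b2⟩ := taint_hi (Y := Y) hm (mem_pt _ _) (fun u _ e => (yP_l e).le) a3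
      have r : Rl M Y g y :=
        (b2.mono fun u hu => absurd hu.2 (not_le.2 (e3 u hu.1))).trans b1.symm
      obtain ⟨c1, c2, c3⟩ := sh_base (hQ := hQ) hY p.val al r
      rw [← Pt.eq (p := p) (q := pt p.σ c1 g) rfl a3 (mem_pt _ _)] at c3
      rw [GS.anti (a2.2.2 _ c3.1 c3.2.1) (c3.2.2 _ a2.1 a2.2.1) |>.symm]
      exact hb k Y y _ _ g hY a1 p.val al r
    | succ j ih =>
      obtain ⟨h', b1⟩ := idl.exists_hd a2.2.1
      obtain ⟨g', b2, b3⟩ := b1.1.2.2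
      rw [Function.iterate_succ_apply'] at hj
      exact hs k Y y _ _ _ g g' a1 p.val a2.1.1 a2.1.2.1 b1.1.1 (Pt.rl b2 a4)
        (ih h h' g' (a1.trans a2.1.1) b1 b2 b3 (a2.low idl ⟨_, GS.dn_le j _⟩ hj))
        (lmc b1.1 ((c.gs hQ).to_up a2.1) b2 b3 a4 a3 (a2.lm idl b1))
  obtain ⟨n1, d1⟩ := xy_le (hQ := hQ) subset_rfl u1 (x := x) (y := x) ⟨x, Rl.refl _, Rl.refl _⟩
  obtain ⟨n2, d2⟩ := xy_le (hQ := hQ) subset_rfl u3 ⟨y, hxy, Rl.refl _⟩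
  obtain ⟨k, hk⟩ : ∃ k : ℕ, k = n1 + n2 + 1 := ⟨_, rfl⟩
  obtain ⟨m, ⟨a1, a2, a3⟩, hm⟩ := exists_max_rk (c.gs hQ).rk (fun p => 0 ≤ p.σ ∧
    II hQ Y1 k x p ∧ II hQ Y2 k y p) (∑ _ : B × Bool, ((k : ℤ) + Fintype.card B))
    ⟨c.xP c.U k 0 (n1 + n2) x, fun z => by
      simp only [xP, pt, Pi.zero_apply]; split_ifs <;> omega,
      ⟨_, d1 _ _ _ _ (by omega) (Nat.lt_succ_self _)⟩,
      ⟨_, d2 _ _ _ _ (by omega) (Nat.lt_succ_self _)⟩⟩ (by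
    rintro p ⟨-, ⟨n, hn⟩, ⟨m, hm⟩⟩
    obtain ⟨g, hg⟩ := p.ne
    obtain ⟨w, b1, b2⟩ := taint_hi (Y := Y1) hn (mem_pt _ _) (fun u _ e => (yP_l e).le) hg
    obtain ⟨w', c1, c2⟩ := taint_hi (Y := Y2) hm (mem_pt _ _) (fun u _ e => (yP_l e).le) hg
    have r : ∀ u ∈ c.U, p.σ (u, true) ≤ k + Fintype.card B := fun u hu => by
      by_contra e
      exact h u hu ⟨w, w', b1, (b2.symm.trans c2).mono fun v hv =>
        ⟨hv.1, fun e' => e (e' ▸ hv.2)⟩, c1⟩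
    refine Finset.sum_le_sum fun z _ => ?_
    by_cases e : z.1 ∈ c.U
    · obtain ⟨u, _ | _⟩ := z
      · exact (p.val.le e).trans (r u e)
      · exact r u e
    · have := ap (le_ty hn) z
      rw [yP_not fun e' => e e'.1] at this
      omega)
  obtain ⟨h1, b1⟩ := idl.exists_hd a2
  obtain ⟨h2, b2⟩ := idl.exists_hd a3
  obtain ⟨g1, c1, c2⟩ := b1.1.2.2
  obtain ⟨g2, e1, e2⟩ := b2.1.2.2
  exact ⟨k, _, _, _, g1, g2, a1, b1.1.1, b2.1.1, b1.1.2.1, hd k _ u1 _ _ _ _ a1 b1 c1 c2,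
    hd k _ u3 _ _ _ _ a1 b2 e1 e2, Pt.rl c1 e1, lmc b1.1 b2.1 c1 c2 e1 e2 fun m' f1 f2 f3 =>
      (GS.eq_of_rk f1 (hm m' ⟨a1.trans f1.1, idl.low (GS.le f2) b1.2.1,
        idl.low (GS.le f3) b2.2.1⟩)).symm⟩

end Cv

end Pool.Agent.Lib.MP_a1ec0a_al.TR
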