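import Pool.Agent.Lib.MP_a1ec0a_al.TCyc

/-! Pentagons of cosets of maximal standard parabolic subgroups. -/

set_option linter.unusedSectionVars false

namespace Pool.Agent.Lib.MP_a1ec0a_al.TR

open Pool.Agent.H51 Relation

variable {B : Type} [Fintype B] [DecidableEq B] {M : CoxeterMatrix B}

namespace Cv

variable {c : Cv M} {hQ : ∀ σ, c.Val σ → Q4 M (c.FF σ)} {p q : c.Pt} {x y g g' : Artin M}
  {s t : B} {i : ℤ}

theorem Pt.rl_cut (h : p.σ (t, false) < p.σ (t, true)) (hx : x ∈ p.C) (hy : y ∈ p.C) :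
    Rl M (c.U \ {t}) x y :=
  (Pt.rl hx hy).mono fun u hu => ⟨hu.1, by rintro rfl; have := hu.2; omega⟩

theorem stay (h : (c.gs hQ).Le p q) (ht : q.σ (t, false) < p.σ (t, true)) (hx : x ∈ p.C)
    (hy : y ∈ q.C) : Rl M (c.U \ {t}) x y := by
  induction h generalizing y with
  | refl => exact Pt.rl_cut ht hx hy
  | @tail q r h h' ih =>
    obtain ⟨w, a1, a2⟩ := h'.2.2
    have := ap h'.1 (t, false)
    have := ap ((le_ty h).trans h'.1) (t, true)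
    exact (ih (by omega) a1).trans (Pt.rl_cut (by omega) a2 hy)

/-- a high point of a coset -/
def tp (c : Cv M) (t : B) (i : ℤ) (n : ℕ) (g : Artin M) : c.Pt :=
  pt (fun z => if z = (t, false) then i else i + n + if z.2 then 1 else 0) (fun u _ v _ _ => by
    have := c.le u v
    simp only [Prod.mk.injEq, Bool.true_eq_false, and_false, if_false, if_true, and_true]
    split_ifs <;> simp_all <;> omega) g

/-- a low point of a coset -/
def bt (c : Cv M) (t : B) (i : ℤ) (n : ℕ) (g : Artin M) : c.Pt :=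
  pt (fun z => if z = (t, true) then i else i - n - if z.2 then 0 else 1) (fun u _ v _ _ => by
    have := c.le u v
    simp only [Prod.mk.injEq, Bool.false_eq_true, and_false, if_false, if_true, and_true]
    split_ifs <;> simp_all <;> omega) g

theorem tp_l {n : ℕ} : (c.tp t i n g).σ (t, false) = i := by simp [tp, pt]
theorem bt_r {n : ℕ} : (c.bt t i n g).σ (t, true) = i := by simp [bt, pt]

/-- the point meets the coset -/
def Sees (p : c.Pt) (t : B) (g : Artin M) : Prop := ∃ x ∈ p.C, Rl M (c.U \ {t}) g x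

def Lo (hQ : ∀ σ, c.Val σ → Q4 M (c.FF σ)) (t : B) (i : ℤ) (g : Artin M) (p : c.Pt) : Prop :=
  ∃ n, (c.gs hQ).Le p (c.tp t i n g)

def Hi (hQ : ∀ σ, c.Val σ → Q4 M (c.FF σ)) (t : B) (i : ℤ) (g : Artin M) (p : c.Pt) : Prop :=
  ∃ n, (c.gs hQ).Le (c.bt t i n g) p

theorem tp_mono {n m : ℕ} (h : n ≤ m) : (c.gs hQ).Le (c.tp t i n g) (c.tp t i m g) :=
  le_of (fun z => by simp only [tp, pt]; split_ifs <;> omega) (mem_pt _ _) (mem_pt _ _)

theorem bt_mono {n m : ℕ} (h : n ≤ m) : (c.gs hQ).Le (c.bt t i m g) (c.bt t i n g) :=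
  le_of (fun z => by simp only [bt, pt]; split_ifs <;> omega) (mem_pt _ _) (mem_pt _ _)

theorem lo_idl : (c.gs hQ).Idl (Lo hQ t i g) :=
  ⟨fun h ⟨n, h'⟩ => ⟨n, h.trans h'⟩, fun ⟨n, h⟩ ⟨m, h'⟩ => ⟨_, ⟨n + m, GS.Le.refl _⟩,
    h.trans (tp_mono (by omega)), h'.trans (tp_mono (by omega))⟩⟩

theorem exists_bd (σ : Ty B) (i : ℤ) : ∃ N : ℕ, ∀ z, σ z ≤ i + N ∧ i - N ≤ σ z := by
  obtain ⟨N, hN⟩ := (Set.finite_range fun z => (σ z - i).natAbs).bddAbove
  exact ⟨N, fun z => by have : (σ z - i).natAbs ≤ N := hN ⟨z, rfl⟩; omega⟩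

theorem Sees.lo (h : Sees p t g) (hi : p.σ (t, false) ≤ i) : Lo hQ t i g p := by
  obtain ⟨x, h1, h2⟩ := h
  obtain ⟨n, hn⟩ := exec (hQ := hQ) Set.sdiff_subset h2.symm
  obtain ⟨N, hN⟩ := exists_bd p.σ i
  refine ⟨N + n, hn _ _ (i + N) x h1 (by rw [mul_inv_cancel_left]; exact mem_pt _ g) (fun z => ?_)
    (fun u _ => (hN _).1) (fun u hu => ?_) fun u _ => ?_⟩
  · have := hN z
    simp only [tp, pt]; split_ifs <;> simp_all <;> omega
  · have : u ≠ t := hu.2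
    simp [tp, pt, this]; omega
  · simp [tp, pt]; omega

theorem Sees.hi (h : Sees p t g) (hi : i ≤ p.σ (t, true)) : Hi hQ t i g p := by
  obtain ⟨x, h1, h2⟩ := h
  obtain ⟨n, hn⟩ := exec (hQ := hQ) Set.sdiff_subset h2
  obtain ⟨N, hN⟩ := exists_bd p.σ i
  refine ⟨N + n, hn _ _ (i - (N + n)) g (mem_pt _ g) (by rwa [mul_inv_cancel_left]) (fun z => ?_)
    (fun u hu => ?_) (fun u _ => ?_) fun u _ => ?_⟩
  · have := hN z
    simp only [bt, pt]; split_ifs <;> simp_all <;> omega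
  · have : u ≠ t := hu.2
    simp [bt, pt, this]
  · have := hN (u, false); omega
  · have := hN (u, true); omega

theorem Lo.l (h : Lo hQ t i g p) : p.σ (t, false) ≤ i :=
  let ⟨_, h⟩ := h; (ap (le_ty h) (t, false)).trans_eq tp_l

theorem Hi.r (h : Hi hQ t i g p) : i ≤ p.σ (t, true) :=
  let ⟨_, h⟩ := h; bt_r.symm.trans_le (ap (le_ty h) (t, true))

theorem Lo.sub (h : Lo hQ t i g p) (hi : i < p.σ (t, true)) (hx : x ∈ p.C) :
    Rl M (c.U \ {t}) g x := let ⟨_, h⟩ := h; (stay h (by rwa [tp_l]) hx (mem_pt _ _)).symm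

theorem Hi.sub (h : Hi hQ t i g p) (hi : p.σ (t, false) < i) (hx : x ∈ p.C) :
    Rl M (c.U \ {t}) g x := let ⟨_, h⟩ := h; stay h (by rwa [bt_r]) (mem_pt _ _) hx

theorem see (h : Hi hQ t i g p) (h' : Lo hQ t i g p) : Sees p t g := by
  obtain ⟨n, h⟩ := h
  induction h with
  | refl => exact ⟨g, mem_pt _ _, Rl.refl _⟩
  | @tail p q h e ih =>
    obtain ⟨w, a1, a2⟩ := ih (lo_idl.low (GS.le (X := c.gs hQ) e) h')
    have l := h'.l
    have l' := ap e.1 (t, false)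
    by_cases k : i < p.σ (t, true)
    · obtain ⟨x, -, hx⟩ := e.2.2
      exact ⟨x, hx, h'.sub (k.trans_le (ap e.1 _)) hx⟩
    have r := Hi.r ⟨n, h⟩
    let μ : Ty B := fun z => if z = (t, true) then i + 1 else p.σ z
    have hμ : c.Val μ := fun u hu v hv d => by
      have := p.val u hu v hv d
      simp only [μ, Prod.mk.injEq, Bool.false_eq_true, and_false, if_false, and_true]
      split_ifs with e
      · subst e; omega
      · exact this
    have s : S p (pt μ hμ w) := ⟨fun z => ?_, fun z => ?_, w, a1, mem_pt _ _⟩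
    rotate_left
    · simp only [pt, μ]; split_ifs with e
      · subst e; omega
      · rfl
    · simp only [pt, μ, Pi.add_apply]; split_ifs with e
      · subst e; omega
      · omega
    obtain ⟨m, b1, b2, b3, b4⟩ := lo_idl.itp h' (Sees.lo (p := pt μ hμ w) ⟨w, mem_pt _ _, a2⟩
      (by simp [pt, μ]; omega)) (GS.le ((c.gs hQ).to_up e)) (GS.le ((c.gs hQ).to_up s))
    obtain ⟨x, c1, c2⟩ := (GS.convex b1 b3 ((c.gs hQ).to_up e)).1.2.2
    have := ap (le_ty b2) (t, true)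
    simp only [pt, μ, if_true] at this
    exact ⟨x, c1, b4.sub (by omega) c2⟩

theorem lo_mid (hs : s ∈ c.U) (ht : t ∈ c.U) (hst : M s t ≠ 2) (h : Rl M (c.U \ {t}) g g')
    (hn : ¬ Rl M (c.U \ {s}) g g') (h1 : Lo hQ s i g p) (h2 : Lo hQ s i g' p) :
    Lo hQ t (i + c.δ s t) g p := by
  have k : ∀ g', Rl M (c.U \ {t}) g g' → ∃ n, Lo hQ s i g' (c.bt t (i + c.δ s t + 1) n g) := by
    intro g' h
    obtain ⟨n, hn⟩ := Sees.hi (hQ := hQ) (p := c.tp s i 2 g') (i := i + c.δ s t + 1)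
      ⟨g', mem_pt _ _, h⟩ (by have := c.le s t; simp [tp, pt]; omega)
    exact ⟨n, 2, hn⟩
  obtain ⟨n1, a1⟩ := k g (Rl.refl _)
  obtain ⟨n2, a2⟩ := k g' h
  obtain ⟨d, d0, d1, d2⟩ := lo_idl.dir h1 (lo_idl.low (bt_mono (Nat.le_add_right n1 n2)) a1)
  obtain ⟨m, b1, b2, b3, b4⟩ := lo_idl.itp h2
    (lo_idl.low (bt_mono (Nat.le_add_left n2 n1)) a2) d1 d2
  obtain ⟨x, hx⟩ := m.ne
  have r : m.σ (s, true) ≤ i := le_of_not_gt fun e =>
    hn (((lo_idl.low b3 d0).sub e hx).trans (b4.sub e hx).symm)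
  have := m.val t ht s hs (M.symmetric s t ▸ hst)
  have := c.sum s t
  exact lo_idl.low b1 (Sees.lo ⟨x, hx, Hi.sub ⟨_, b2⟩ (by omega) hx⟩ (by omega))

theorem hi_mid (hs : s ∈ c.U) (ht : t ∈ c.U) (hst : M s t ≠ 2) (h : Rl M (c.U \ {t}) g g')
    (hn : ¬ Rl M (c.U \ {s}) g g') (h1 : Hi hQ s i g p) (h2 : Hi hQ s i g' p) :
    Hi hQ t (i + c.δ s t) g p := by
  have k : ∀ g', Rl M (c.U \ {t}) g g' → ∃ n, (c.gs hQ).Le (c.bt s i 2 g')
      (c.tp t (i + c.δ s t - 1) n g) := fun g' h =>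
    Sees.lo (hQ := hQ) (p := c.bt s i 2 g') ⟨g', mem_pt _ _, h⟩
      (by have := c.ge s t; simp [bt, pt]; omega)
  obtain ⟨n1, a1⟩ := k g (Rl.refl _)
  obtain ⟨n2, a2⟩ := k g' h
  obtain ⟨m1, h1⟩ := h1
  obtain ⟨m2, h2⟩ := h2
  obtain ⟨m, b1, b2, b3, b4⟩ := GS.interp ((bt_mono (Nat.le_add_left m1 2)).trans h1)
    ((bt_mono (Nat.le_add_right 2 m1)).trans (a1.trans (tp_mono (Nat.le_add_right n1 n2))))
    ((bt_mono (Nat.le_add_left m2 2)).trans h2)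
    ((bt_mono (Nat.le_add_right 2 m2)).trans (a2.trans (tp_mono (Nat.le_add_left n2 n1))))
  obtain ⟨x, hx⟩ := m.ne
  have r : i ≤ m.σ (s, false) := le_of_not_gt fun e =>
    hn ((Hi.sub ⟨_, b1⟩ e hx).trans (Hi.sub ⟨_, b2⟩ e hx).symm)
  have := m.val s hs t ht hst
  obtain ⟨n, hn⟩ := Sees.hi (hQ := hQ) (i := i + c.δ s t)
    ⟨x, hx, Lo.sub ⟨_, b4⟩ (by omega) hx⟩ (by omega)
  exact ⟨n, hn.trans b3⟩

end Cv

/-- the covering dual to one edge -/
def cvE (M : CoxeterMatrix B) (U : Set B) (a b : B) : Cv M where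
  U := U
  δ u v := if u = a ∧ v = b ∧ a ≠ b then 1 else if u = b ∧ v = a ∧ a ≠ b then -1 else 0
  le u v := by grind
  ge u v := by grind
  sum u v := by grind
  fin u v h := by grind

theorem Q4.mono {U V : Set B} (h : Q4 M U) (hV : V ⊆ U) : Q4 M V :=
  fun X1 a X2 b Y1 c Y2 d => h X1 (a.trans hV) X2 (b.trans hV) Y1 (c.trans hV) Y2 (d.trans hV)

open Cv in
theorem five {U : Set B} (hU : Q4 M U) {a b y z : B} (ha : a ∈ U) (hb : b ∈ U) (hy : y ∈ U)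
    (hz : z ∈ U) (hne : a ≠ b) (hab : M a b ≠ 2) (hyz : M y z ≠ 2) {c1 c2 c3 c4 c5 : Artin M}
    (h1 : Rl M (U \ {z}) c1 c2) (h2 : Rl M (U \ {y}) c2 c3) (h3 : Rl M (U \ {a}) c3 c4)
    (h4 : Rl M (U \ {b}) c4 c5) (h5 : Rl M (U \ {y}) c1 c5) (hn : ¬ Rl M (U \ {y}) c1 c2) :
    Me M (U \ {z}) c1 (U \ {a}) c4 ∨ Me M (U \ {z}) c1 (U \ {b}) c4 := by
  let c := cvE M U a b
  have hQ : ∀ σ, c.Val σ → Q4 M (c.FF σ) := fun σ _ => hU.mono (FF_sub σ)
  let σ : Ty B := fun w => if w = (a, false) then -1 else 0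
  let τ : Ty B := fun w => if w = (b, true) then 1 else 0
  have hσ : c.Val σ := fun u _ v _ _ => by simp only [σ, c, cvE, Prod.mk.injEq]; grind
  have hτ : c.Val τ := fun u _ v _ _ => by simp only [τ, c, cvE, Prod.mk.injEq]; grind
  have s : S (pt σ hσ c4) (pt τ hτ c4) := ⟨fun w => ?_, fun w => ?_, c4, mem_pt _ _, mem_pt _ _⟩
  rotate_left
  · simp only [pt, σ, τ]; split_ifs <;> omega
  · simp only [pt, σ, τ, Pi.add_apply]; split_ifs with e1 e2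
    · simp [e1] at e2
    all_goals omega
  have s' := GS.le (X := c.gs hQ) s
  have u2 : Sees (pt σ hσ c4) y c2 :=
    ⟨c3, h3.symm.mono fun u hu => ⟨hu.1, by have : u ≠ a := hu.2; simp [σ, this]⟩, h2⟩
  have v0 : Sees (pt τ hτ c4) y c1 :=
    ⟨c5, h4.mono fun u hu => ⟨hu.1, by have : u ≠ b := hu.2; simp [τ, this]⟩, h5⟩
  obtain ⟨n1, a1⟩ := lo_mid (hQ := hQ) (i := 0) hy hz hyz h1 hn
    (lo_idl.low s' (v0.lo (by simp [pt, τ]))) (u2.lo (by simp only [pt, σ]; split_ifs <;> omega))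
  obtain ⟨n, e⟩ := u2.hi (hQ := hQ) (i := 0) (by simp [pt, σ])
  obtain ⟨n2, a2⟩ := hi_mid (hQ := hQ) (i := 0) hy hz hyz h1 hn
    (v0.hi (by simp only [pt, τ]; split_ifs <;> omega)) ⟨n, e.trans s'⟩
  obtain ⟨J, b1, b2, b3, b4⟩ := GS.interp s' a1 a2 (le_of (fun w => by
    simp only [tp, bt, pt]; split_ifs <;> omega) (mem_pt _ _) (mem_pt _ _))
  obtain ⟨x, d1, d2⟩ := see ⟨_, b2⟩ ⟨_, b4⟩
  obtain ⟨⟨f1, -, x1, f2, f3⟩, ⟨g1, -, x2, g2, g3⟩⟩ := GS.convex b1 b3 s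
  have e1 : J.σ (a, false) + 1 ≤ J.σ (b, true) := by
    simpa [c, cvE, hne] using J.val a ha b hb hab
  have e2 : 0 ≤ J.σ (a, true) := by simpa [pt, σ] using ap f1 (a, true)
  have e3 : J.σ (a, false) ≤ 0 := by simpa [pt, τ] using ap g1 (a, false)
  have e4 : J.σ (b, false) ≤ 0 := by simpa [pt, τ] using ap g1 (b, false)
  have f2 : Rl M (c.FF σ) c4 x1 := f2
  have g3 : Rl M (c.FF τ) c4 x2 := g3
  by_cases k : J.σ (a, false) < 0
  · refine Or.inl ⟨x, d2, (f2.mono fun u hu => And.intro hu.1 ?_).trans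
      (Pt.rl_cut (by omega) f3 d1)⟩
    rintro rfl; simpa [σ] using hu.2
  · refine Or.inr ⟨x, d2, (g3.mono fun u hu => And.intro hu.1 ?_).trans
      (Pt.rl_cut (by omega) g2 d1)⟩
    rintro rfl; simpa [τ] using hu.2

theorem Q4.four {U : Set B} (hU : Q4 M U) {a b : B} (hab : M a b ≠ 2) {x11 x12 x21 x22 : Artin M}
    (h1 : Rl M (U \ {a}) x11 x12) (h2 : Rl M (U \ {a}) x21 x22) (h3 : Rl M (U \ {b}) x11 x21)
    (h4 : Rl M (U \ {b}) x12 x22) : Rl M (U \ {a}) x11 x21 ∨ Rl M (U \ {b}) x11 x12 := by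
  obtain ⟨L, R, m, f1, -, f3, -, f5, ⟨_, a1, a2⟩, ⟨_, b1, b2⟩, ⟨_, c1, c2⟩, ⟨_, d1, d2⟩⟩ :=
    hU _ Set.sdiff_subset _ Set.sdiff_subset _ Set.sdiff_subset _ Set.sdiff_subset _ _ _ _
      h1 h2 h3 h4
  by_cases k : a ∈ L
  · have : R ⊆ U \ {b} := fun u hu => ⟨(f3 hu).1, by rintro rfl; exact hab (f5 a k _ hu)⟩
    exact Or.inr ((c2.trans ((c1.symm.trans d1).mono this)).trans d2.symm)
  · have : L ⊆ U \ {a} := fun u hu => ⟨(f1 hu).1, by rintro rfl; exact k hu⟩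
    exact Or.inl ((a2.trans ((a1.symm.trans b1).mono this)).trans b2.symm)

end Pool.Agent.Lib.MP_a1ec0a_al.TR
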