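import Mathlib

/-! Abstract Garside systems: local lattices and simple connectivity give a global lattice. -/

namespace Pool.Agent.Lib.MP_a1ec0a_al.TR

open Relation

/-- Coverings of the flag complex of a relation. -/
structure Cover {P : Type} (S : P → P → Prop) (E : Type) where
  base : E → P
  R : E → E → Prop
  rel : ∀ {e e'}, R e e' → S (base e) (base e')
  ex_l : ∀ {a} e', S a (base e') → ∃ e, base e = a ∧ R e e'
  ex_r : ∀ e {b}, S (base e) b → ∃ e', base e' = b ∧ R e e'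
  un_l : ∀ {e1 e2 e'}, R e1 e' → R e2 e' → base e1 = base e2 → e1 = e2
  un_r : ∀ {e e1 e2}, R e e1 → R e e2 → base e1 = base e2 → e1 = e2
  tri : ∀ {e1 e2 e3}, R e1 e2 → R e2 e3 → S (base e1) (base e3) → R e1 e3

structure GS (P : Type) where
  S : P → P → Prop
  up : P → P
  dn : P → P
  rk : P → ℤ
  up_dn : ∀ a, up (dn a) = a
  dn_up : ∀ a, dn (up a) = a
  refl : ∀ a, S a a
  rk_lt : ∀ {a b}, S a b → a ≠ b → rk a < rk b
  trans : ∀ {a b c d}, S a b → S a c → S a d → S b c → S c d → S b d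
  to_up : ∀ {a b}, S a b → S b (up a)
  of_dn : ∀ {a b}, S a b → S (dn b) a
  itp : ∀ {b x1 x2 y1 y2}, S b x1 → S b x2 → S b y1 → S b y2 → S x1 y1 → S x1 y2 → S x2 y1 →
    S x2 y2 → ∃ m, S b m ∧ S x1 m ∧ S x2 m ∧ S m y1 ∧ S m y2
  sc : ∀ (E : Type) (C : Cover S E) e e', EqvGen C.R e e' → C.base e = C.base e' → e = e'

theorem exists_max_rk {P : Type} (rk : P → ℤ) (p : P → Prop) (c : ℤ) (h : ∃ a, p a)
    (hb : ∀ a, p a → rk a ≤ c) : ∃ m, p m ∧ ∀ a, p a → rk a ≤ rk m := by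
  obtain ⟨k, ⟨m, hm, rfl⟩, hk⟩ := Int.exists_greatest_of_bdd (P := fun k => ∃ a, p a ∧ rk a = k)
    ⟨c, by rintro _ ⟨a, ha, rfl⟩; exact hb a ha⟩ (let ⟨a, ha⟩ := h; ⟨_, a, ha, rfl⟩)
  exact ⟨m, hm, fun a ha => hk _ ⟨a, ha, rfl⟩⟩

namespace GS

variable {P : Type} {X : GS P}

theorem rk_le {a b : P} (h : X.S a b) : X.rk a ≤ X.rk b := by
  by_cases e : a = b
  · rw [e]
  · exact (X.rk_lt h e).le

theorem eq_of_rk {a b : P} (h : X.S a b) (h' : X.rk b ≤ X.rk a) : a = b := by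
  by_contra e; have := X.rk_lt h e; omega

theorem anti {a b : P} (h : X.S a b) (h' : X.S b a) : a = b := eq_of_rk h (rk_le h')

theorem S_dn {a b : P} : X.S (X.dn a) (X.dn b) ↔ X.S a b :=
  ⟨fun h => by simpa only [X.up_dn] using X.to_up (X.to_up h), fun h => X.of_dn (X.of_dn h)⟩

theorem of_up {a m : P} (h : X.S m (X.up a)) : X.S a m := by simpa only [X.dn_up] using X.of_dn h

def IsH (X : GS P) (a b c m : P) : Prop :=
  X.S b m ∧ X.S m c ∧ X.S a m ∧ ∀ m', X.S b m' → X.S m' c → X.S a m' → X.S m' m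

theorem exists_H {a b c : P} (h1 : X.S a b) (h2 : X.S b c) : ∃ m, X.IsH a b c m := by
  obtain ⟨m, ⟨a1, a2, a3⟩, hm⟩ := exists_max_rk X.rk (fun m => X.S b m ∧ X.S m c ∧ X.S a m)
    (X.rk c) ⟨b, X.refl b, h2, h1⟩ fun m hm => rk_le hm.2.1
  refine ⟨m, a1, a2, a3, fun m' b1 b2 b3 => ?_⟩
  obtain ⟨k, c1, c2, c3, c4, c5⟩ := X.itp a1 b1 h2 (X.to_up h1) a2 (X.to_up a3) b2 (X.to_up b3)
  rwa [eq_of_rk c2 (hm k ⟨c1, c4, of_up c5⟩)]

open Classical in
noncomputable def H (X : GS P) (a b c : P) : P := if h : ∃ m, X.IsH a b c m then h.choose else b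

theorem H_spec {a b c : P} (h1 : X.S a b) (h2 : X.S b c) : X.IsH a b c (X.H a b c) := by
  have := exists_H h1 h2
  rw [H, dif_pos this]; exact this.choose_spec

theorem H_eq {a b c m : P} (h1 : X.S a b) (h2 : X.S b c) (h : X.IsH a b c m) : X.H a b c = m := by
  obtain ⟨a1, a2, a3, a4⟩ := H_spec h1 h2
  exact anti (h.2.2.2 _ a1 a2 a3) (a4 _ h.1 h.2.1 h.2.2.1)

theorem H_of_S {a b c : P} (h1 : X.S a b) (h2 : X.S b c) (h3 : X.S a c) : X.H a b c = c :=
  H_eq h1 h2 ⟨h2, X.refl c, h3, fun _ _ h _ => h⟩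

theorem H_dn {b c : P} (h2 : X.S b c) : X.H (X.dn b) b c = b :=
  H_eq (X.of_dn (X.refl b)) h2 ⟨X.refl b, h2, X.of_dn (X.refl b), fun m' _ _ h => by
    have := X.to_up h; rwa [X.up_dn] at this⟩

theorem H_law {a b c d : P} (h1 : X.S a b) (h2 : X.S b c) (h3 : X.S a c) (h4 : X.S c d) :
    X.H a b (X.H b c d) = X.H a c d := by
  obtain ⟨a1, a2, a3, a4⟩ := H_spec h2 h4
  obtain ⟨b1, b2, b3, b4⟩ := H_spec h1 a3
  obtain ⟨c1, c2, c3, c4⟩ := H_spec h3 h4
  have e1 := X.trans h1 h3 c3 h2 c1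
  have e2 := b4 _ h2 a1 h3
  exact anti (c4 _ e2 (X.trans e2 a1 h4 b2 a2) b3) (b4 _ e1 (a4 _ c1 c2 e1) c3)

def Chain (X : GS P) (w : ℕ → P) : Prop := ∀ i, X.S (w i) (w (i + 1))
def Normal (X : GS P) (w : ℕ → P) : Prop :=
  X.Chain w ∧ ∀ i, X.H (w i) (w (i + 1)) (w (i + 2)) = w (i + 1)

noncomputable def Phi (X : GS P) (a : P) (w : ℕ → P) : ℕ → P
  | 0 => a
  | i + 1 => X.H (X.Phi a w i) (w i) (w (i + 1))

variable {a b : P} {w : ℕ → P}

theorem Phi_S (hw : X.Chain w) (ha : X.S a (w 0)) (i : ℕ) : X.S (X.Phi a w i) (w i) := by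
  induction i with
  | zero => exact ha
  | succ i ih => exact (H_spec ih (hw i)).2.1

theorem Phi_chain (hw : X.Chain w) (ha : X.S a (w 0)) : X.Chain (X.Phi a w) :=
  fun i => (H_spec (Phi_S hw ha i) (hw i)).2.2.1

theorem S_Phi (hw : X.Chain w) (ha : X.S a (w 0)) (i : ℕ) : X.S (w i) (X.Phi a w (i + 1)) :=
  (H_spec (Phi_S hw ha i) (hw i)).1

theorem Phi_Phi (hw : X.Chain w) (hb : X.S b (w 0)) (hab : X.S a b) (ha : X.S a (w 0)) :
    X.Phi a (X.Phi b w) = X.Phi a w := by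
  funext i
  induction i with
  | zero => rfl
  | succ i ih =>
    have h1 := Phi_S (Phi_chain hw hb) (a := a) hab i
    rw [Phi, Phi, Phi, ← ih]
    exact H_law h1 (Phi_S hw hb i) (ih ▸ Phi_S hw ha i) (hw i)

theorem Phi_normal (hw : X.Normal w) (ha : X.S a (w 0)) : X.Normal (X.Phi a w) := by
  refine ⟨Phi_chain hw.1 ha, fun i => ?_⟩
  have h1 := H_law (S_Phi hw.1 ha i) (Phi_S hw.1 ha (i + 1)) (hw.1 i) (hw.1 (i + 1))
  have h2 := H_law (Phi_S hw.1 ha i) (S_Phi hw.1 ha i) (Phi_chain hw.1 ha i)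
    (Phi_chain hw.1 ha (i + 1))
  rw [← h2]
  conv_lhs => rw [show X.Phi a w (i + 1 + 1) =
    X.H (X.Phi a w (i + 1)) (w (i + 1)) (w (i + 1 + 1)) from rfl, h1, hw.2 i]
  rfl

def cons (a : P) (w : ℕ → P) : ℕ → P
  | 0 => a
  | i + 1 => w i

theorem Phi_cons (hw : X.Normal w) (h : X.H a (w 0) (w 1) = w 0) : X.Phi a w = cons a w := by
  funext i
  induction i with
  | zero => rfl
  | succ i ih =>
    rw [Phi, ih]
    cases i with
    | zero => exact h
    | succ i => exact hw.2 i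

theorem Phi_dn (hw : X.Normal w) : X.Phi (X.dn (w 0)) w = cons (X.dn (w 0)) w :=
  Phi_cons hw (H_dn (hw.1 0))

theorem Normal.tail (hw : X.Normal w) : X.Normal fun i => w (i + 1) :=
  ⟨fun i => hw.1 (i + 1), fun i => hw.2 (i + 1)⟩

theorem Phi_tail (hw : X.Normal w) : X.Phi (w 0) (fun i => w (i + 1)) = w := by
  rw [Phi_cons hw.tail (hw.2 0)]
  funext i; cases i <;> rfl

def NRay (X : GS P) := {w : ℕ → P // X.Normal w}

noncomputable def ph (a : P) (w : X.NRay) (h : X.S a (w.1 0)) : X.NRay :=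
  ⟨X.Phi a w.1, Phi_normal w.2 h⟩

noncomputable def sh (w : X.NRay) : X.NRay := ph (X.dn (w.1 0)) w (X.of_dn (X.refl _))

theorem sh_inj : Function.Injective (sh (X := X)) := fun u v e => Subtype.ext (funext fun i => by
  have := congrFun (congrArg Subtype.val e) (i + 1)
  simp only [sh, ph] at this
  rwa [Phi_dn u.2, Phi_dn v.2] at this)

/-- `u` is obtained from `v` by pulling back along an edge -/
def Q (u v : X.NRay) : Prop := X.S (u.1 0) (v.1 0) ∧ u.1 = X.Phi (u.1 0) v.1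

theorem Q_ph (w : X.NRay) (h : X.S a (w.1 0)) : Q (ph a w h) w := ⟨h, rfl⟩

theorem Q.tri {u v x : X.NRay} (h : Q u v) (h' : Q v x) (e : X.S (u.1 0) (x.1 0)) : Q u x :=
  ⟨e, by rw [← Phi_Phi x.2.1 h'.1 h.1 e, ← h'.2, ← h.2]⟩

theorem Q.un_l {u v x : X.NRay} (h : Q u x) (h' : Q v x) (e : u.1 0 = v.1 0) : u = v :=
  Subtype.ext (by rw [h.2, h'.2, e])

theorem Q_sh (w : X.NRay) : Q (sh w) w := Q_ph _ _

theorem Q.un_r {u v x : X.NRay} (h : Q u v) (h' : Q u x) (e : v.1 0 = x.1 0) : v = x := by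
  have h1 := Q_ph u (X.of_dn h.1)
  exact sh_inj (((Q_sh v).un_l (h1.tri h (X.of_dn (X.refl _))) rfl).trans
    ((h1.tri h' (e ▸ X.of_dn (X.refl _))).un_l (Q_sh x) (congrArg X.dn e)))

theorem Q.ex_r (u : X.NRay) (h : X.S (X.dn (u.1 0)) b) (h' : X.S b (u.1 0)) :
    Q (sh u) (ph b u h') :=
  ⟨h, (Phi_Phi u.2.1 h' h (X.of_dn (X.refl _))).symm⟩

theorem Q_sh_iff {u v : X.NRay} : Q (sh u) (sh v) ↔ Q u v := by
  have key : ∀ {u v : X.NRay}, Q u v → Q (sh u) (sh v) := fun {u v} h => by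
    have h1 := Q.ex_r u (S_dn.2 h.1) (X.of_dn h.1)
    rwa [((Q_ph u (X.of_dn h.1)).tri h (X.of_dn (X.refl _))).un_l (Q_sh v) rfl] at h1
  refine ⟨fun h => ?_, key⟩
  have h1 := Q_ph v (S_dn.1 h.1)
  rwa [sh_inj ((key h1).un_l h rfl)] at h1

theorem Q_iter {u v : X.NRay} (n : ℕ) : Q (sh^[n] u) (sh^[n] v) ↔ Q u v := by
  induction n with
  | zero => rfl
  | succ n ih => rw [Function.iterate_succ_apply', Function.iterate_succ_apply', Q_sh_iff, ih]

def rs (X : GS P) : Setoid (ℕ × X.NRay) where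
  r x y := sh^[y.1] x.2 = sh^[x.1] y.2
  iseqv := ⟨fun _ => rfl, Eq.symm, fun {x y z} h h' => by
    apply sh_inj.iterate y.1
    rw [← Function.iterate_add_apply, add_comm, Function.iterate_add_apply, h,
      ← Function.iterate_add_apply, add_comm, Function.iterate_add_apply, h',
      ← Function.iterate_add_apply, add_comm, Function.iterate_add_apply]⟩

def cls (n : ℕ) (w : X.NRay) : Quotient X.rs := Quotient.mk _ (n, w)

theorem up_sh (n m : ℕ) (w : X.NRay) :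
    X.up^[n + m] ((sh^[m] w).1 0) = X.up^[n] (w.1 0) := by
  induction m with
  | zero => rfl
  | succ m ih =>
    rw [Function.iterate_succ_apply' sh, ← add_assoc, Function.iterate_succ_apply, ← ih]
    exact congrArg _ (X.up_dn _)

def base : Quotient X.rs → P := Quotient.lift (fun x => X.up^[x.1] (x.2.1 0)) fun x y h => by
  have h' : sh^[y.1] x.2 = sh^[x.1] y.2 := h
  rw [← up_sh x.1 y.1, h', add_comm, up_sh]

theorem mk_sh (n m : ℕ) (w : X.NRay) : cls (n + m) (sh^[m] w) = cls n w :=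
  Quotient.sound (show sh^[n] (sh^[m] w) = sh^[n + m] w from (Function.iterate_add_apply ..).symm)

theorem mk_inj {n : ℕ} {u v : X.NRay} (h : cls n u = cls n v) : u = v :=
  sh_inj.iterate n (Quotient.exact h)

def RR (e e' : Quotient X.rs) : Prop := ∃ n u v, e = cls n u ∧ e' = cls n v ∧ Q u v

theorem RR_iff {n : ℕ} {u v : X.NRay} : RR (cls n u) (cls n v) ↔ Q u v := by
  refine ⟨?_, fun h => ⟨n, u, v, rfl, rfl, h⟩⟩
  rintro ⟨m, u', v', h1, h2, h3⟩
  have e1 : sh^[m] u = sh^[n] u' := Quotient.exact h1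
  have e2 : sh^[m] v = sh^[n] v' := Quotient.exact h2
  rw [← Q_iter m, e1, e2, Q_iter]; exact h3

theorem rep3 (e1 e2 e3 : Quotient X.rs) :
    ∃ n u v x, e1 = cls n u ∧ e2 = cls n v ∧ e3 = cls n x := by
  obtain ⟨n1, u⟩ := e1
  obtain ⟨n2, v⟩ := e2
  obtain ⟨n3, x⟩ := e3
  refine ⟨n1 + n2 + n3, sh^[n2 + n3] u, sh^[n1 + n3] v, sh^[n1 + n2] x, ?_, ?_, ?_⟩
  · rw [add_assoc]; exact (mk_sh ..).symm
  · rw [add_comm n1, add_assoc]; exact (mk_sh ..).symm
  · rw [add_comm _ n3]; exact (mk_sh ..).symm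

theorem S_up_iter (n : ℕ) : X.S (X.up^[n] a) (X.up^[n] b) ↔ X.S a b := by
  induction n with
  | zero => rfl
  | succ n ih =>
    rw [Function.iterate_succ_apply', Function.iterate_succ_apply', ← S_dn, X.dn_up, X.dn_up, ih]

theorem up_dn_iter (n : ℕ) (a : P) : X.up^[n] (X.dn^[n] a) = a :=
  Function.LeftInverse.iterate X.up_dn n a

theorem up_inj (n : ℕ) : Function.Injective X.up^[n] :=
  (Function.LeftInverse.injective X.dn_up).iterate n

noncomputable def cover (X : GS P) : Cover X.S (Quotient X.rs) where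
  base := base
  R := RR
  rel := by
    rintro _ _ ⟨n, u, v, rfl, rfl, h⟩
    exact (S_up_iter n).2 h.1
  ex_l := by
    rintro a ⟨n, v⟩ h
    have h' : X.S (X.dn^[n] a) (v.1 0) := (S_up_iter n).1 (by rwa [up_dn_iter])
    exact ⟨cls n (ph _ v h'), up_dn_iter n a, RR_iff.2 (Q_ph _ _)⟩
  ex_r := by
    rintro ⟨n, u⟩ b h
    have h' : X.S (u.1 0) (X.dn^[n] b) := (S_up_iter n).1 (by rwa [up_dn_iter])
    refine ⟨cls (n + 1) (ph _ u (X.of_dn h')), ?_, n + 1, sh u, _, (mk_sh n 1 u).symm, rfl,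
      Q.ex_r u (S_dn.2 h') _⟩
    change X.up^[n] (X.up (X.dn _)) = b
    rw [X.up_dn, up_dn_iter]
  un_l := by
    intro e1 e2 e3 h1 h2 h
    obtain ⟨n, u, v, x, rfl, rfl, rfl⟩ := rep3 e1 e2 e3
    rw [(RR_iff.1 h1).un_l (RR_iff.1 h2) (up_inj n h)]
  un_r := by
    intro e1 e2 e3 h1 h2 h
    obtain ⟨n, u, v, x, rfl, rfl, rfl⟩ := rep3 e1 e2 e3
    rw [(RR_iff.1 h1).un_r (RR_iff.1 h2) (up_inj n h)]
  tri := by
    intro e1 e2 e3 h1 h2 h
    obtain ⟨n, u, v, x, rfl, rfl, rfl⟩ := rep3 e1 e2 e3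
    exact RR_iff.2 ((RR_iff.1 h1).tri (RR_iff.1 h2) ((S_up_iter n).1 h))

theorem normal_const (z : P) : X.Normal fun _ => z :=
  ⟨fun _ => X.refl z, fun _ => H_of_S (X.refl z) (X.refl z) (X.refl z)⟩

theorem ray_eqv {z : P} (n : ℕ) (w : X.NRay) (h : ∀ i, n ≤ i → w.1 i = z) :
    EqvGen RR (cls 0 w) (cls 0 ⟨_, normal_const z⟩) := by
  induction n generalizing w with
  | zero =>
    rw [show w = ⟨_, normal_const z⟩ from Subtype.ext (funext fun i => h i (Nat.zero_le i))]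
    exact EqvGen.refl _
  | succ n ih =>
    exact EqvGen.trans _ _ _ (EqvGen.rel _ _ (RR_iff.2 ⟨w.2.1 0, (Phi_tail w.2).symm⟩))
      (ih ⟨_, w.2.tail⟩ fun i hi => h (i + 1) (by omega))

theorem ray_uniq {z : P} {u v : ℕ → P} (hu : X.Normal u) (hv : X.Normal v) {n m : ℕ}
    (h : ∀ i, n ≤ i → u i = z) (h' : ∀ i, m ≤ i → v i = z) (e : u 0 = v 0) : u = v :=
  congrArg Subtype.val (mk_inj (X.sc _ X.cover _ _
    (EqvGen.trans _ _ _ (ray_eqv n ⟨u, hu⟩ h) (EqvGen.symm _ _ (ray_eqv m ⟨v, hv⟩ h'))) e))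

/-- the order generated by the germ -/
def Le (X : GS P) : P → P → Prop := ReflTransGen X.S

theorem Le.refl (a : P) : X.Le a a := ReflTransGen.refl
theorem Le.trans {a b c : P} (h : X.Le a b) (h' : X.Le b c) : X.Le a c := ReflTransGen.trans h h'
theorem le (h : X.S a b) : X.Le a b := ReflTransGen.single h

theorem Le.rk (h : X.Le a b) : X.rk a ≤ X.rk b := by
  induction h with
  | refl => rfl
  | tail _ h ih => exact ih.trans (rk_le h)

theorem Phi_const {z : P} (hw : X.Chain w) (ha : X.S a (w 0)) {n : ℕ}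
    (h : ∀ i, n ≤ i → w i = z) : ∀ i, n + 1 ≤ i → X.Phi a w i = z := by
  intro i hi
  obtain ⟨j, rfl⟩ : ∃ j, i = j + 1 := ⟨i - 1, by omega⟩
  have := Phi_S hw ha j
  rw [Phi, h (j + 1) (by omega), h j (by omega)] at *
  exact H_of_S this (X.refl _) this

theorem Le.ray {z : P} (h : X.Le a z) :
    ∃ w n, X.Normal w ∧ w 0 = a ∧ ∀ i, n ≤ i → w i = z := by
  induction h using ReflTransGen.head_induction_on with
  | refl => exact ⟨_, 0, normal_const z, rfl, fun _ _ => rfl⟩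
  | head h _ ih =>
    obtain ⟨w, n, a1, rfl, a3⟩ := ih
    exact ⟨_, n + 1, Phi_normal a1 h, rfl, Phi_const a1.1 h a3⟩

theorem Chain.le (hw : X.Chain w) (i j : ℕ) : X.Le (w i) (w (i + j)) := by
  induction j with
  | zero => exact Le.refl _
  | succ j ih => exact ih.trans (GS.le (hw _))

theorem Le.hd {z : P} (h : X.Le a z) :
    ∃ m, X.S a m ∧ X.Le m z ∧ (X.S a z → m = z) ∧ ∀ x, X.S a x → X.Le x z → X.S x m := by
  obtain ⟨w, n, a1, rfl, a3⟩ := h.ray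
  refine ⟨w 1, a1.1 0, a3 (1 + n) (by omega) ▸ a1.1.le 1 n, fun hz => ?_, fun x h1 h2 => ?_⟩
  · rw [ray_uniq a1 (Phi_normal (normal_const z) hz) a3
      (Phi_const (normal_const z).1 hz (n := 0) fun _ _ => rfl) rfl]
    exact H_of_S hz (X.refl z) hz
  · obtain ⟨v, m, b1, rfl, b3⟩ := h2.ray
    rw [ray_uniq a1 (Phi_normal b1 h1) a3 (Phi_const b1.1 h1 b3) rfl]
    exact S_Phi b1.1 h1 0

theorem convex {x z : P} (h1 : X.Le a x) (h2 : X.Le x z) (h : X.S a z) : X.S a x ∧ X.S x z := by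
  have key : ∀ {a x : P}, X.S a x → X.Le x z → X.S a z → X.S x z := fun h1 h2 h => by
    obtain ⟨m, -, -, a3, a4⟩ := (le h).hd
    exact a3 h ▸ a4 _ h1 h2
  induction h1 with
  | refl => exact ⟨X.refl _, h⟩
  | tail _ h3 ih =>
    obtain ⟨a1, a2⟩ := ih ((le h3).trans h2)
    have := key h3 h2 a2
    exact ⟨X.trans (X.of_dn h) (X.of_dn a2) (X.of_dn this) a1 h3, this⟩

theorem Le.eq_of_rk (h : X.Le a b) (h' : X.rk b ≤ X.rk a) : a = b := by
  induction h with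
  | refl => rfl
  | tail h1 h2 ih =>
    have := Le.rk h1
    have := rk_le h2
    rw [ih (by omega)]; exact GS.eq_of_rk h2 (by omega)

theorem Le.le_up (h : X.Le a b) : ∃ n, X.Le (X.dn^[n] b) a := by
  have key : ∀ {a b : P}, X.Le a b → X.Le (X.dn a) (X.dn b) := fun h => by
    induction h with
    | refl => exact Le.refl _
    | tail _ h ih => exact ih.trans (le (S_dn.2 h))
  induction h using ReflTransGen.head_induction_on with
  | refl => exact ⟨0, Le.refl _⟩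
  | head h _ ih =>
    obtain ⟨n, hn⟩ := ih
    exact ⟨n + 1, by rw [Function.iterate_succ_apply']; exact (key hn).trans (le (X.of_dn h))⟩

theorem dn_le (n : ℕ) (a : P) : X.Le (X.dn^[n] a) a := by
  induction n with
  | zero => exact Le.refl _
  | succ n ih => rw [Function.iterate_succ_apply']; exact (le (X.of_dn (X.refl _))).trans ih

/-- global interpolation -/
theorem interp {x1 x2 y1 y2 : P} (h11 : X.Le x1 y1) (h12 : X.Le x1 y2) (h21 : X.Le x2 y1)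
    (h22 : X.Le x2 y2) : ∃ m, X.Le x1 m ∧ X.Le x2 m ∧ X.Le m y1 ∧ X.Le m y2 := by
  have dia : ∀ {b m : P}, X.Le b m → ∀ x, X.S b x → X.Le m y1 → X.Le m y2 → X.Le x y1 →
      X.Le x y2 → ∃ m', X.Le m m' ∧ X.Le x m' ∧ X.Le m' y1 ∧ X.Le m' y2 := by
    intro b m h
    induction h using ReflTransGen.head_induction_on with
    | refl => exact fun x h _ _ a b => ⟨x, le h, Le.refl _, a, b⟩
    | @head b c h h' ih =>
      intro x hx a1 a2 a3 a4
      have c1 := Le.trans h' a1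
      have c2 := Le.trans h' a2
      obtain ⟨k1, b1, b2, -, b4⟩ := ((le h).trans c1).hd
      obtain ⟨k2, d1, d2, -, d4⟩ := ((le h).trans c2).hd
      obtain ⟨k, -, e2, e3, e4, e5⟩ := X.itp h hx b1 d1 (b4 _ h c1) (d4 _ h c2) (b4 _ hx a3)
        (d4 _ hx a4)
      obtain ⟨m', f1, f2, f3⟩ := ih k e2 a1 a2 ((le e4).trans b2) ((le e5).trans d2)
      exact ⟨m', f1, (le e3).trans f2, f3⟩
  have key : ∀ {b x : P}, X.Le b x → ∀ m, X.Le b m → X.Le m y1 → X.Le m y2 → X.Le x y1 →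
      X.Le x y2 → ∃ m', X.Le m m' ∧ X.Le x m' ∧ X.Le m' y1 ∧ X.Le m' y2 := by
    intro b x h
    induction h with
    | refl => exact fun m h a b _ _ => ⟨m, Le.refl _, h, a, b⟩
    | tail h h' ih =>
      intro m hm a1 a2 a3 a4
      obtain ⟨m', b1, b2, b3, b4⟩ := ih m hm a1 a2 ((le h').trans a3) ((le h').trans a4)
      obtain ⟨m'', c1, c2⟩ := dia b2 _ h' b3 b4 a3 a4
      exact ⟨m'', b1.trans c1, c2⟩
  obtain ⟨n, hn⟩ := h11.le_up
  obtain ⟨k, hk⟩ := h21.le_up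
  refine key (b := X.dn^[n + k] y1) ?_ x1 ?_ h11 h12 h21 h22
  · rw [Function.iterate_add_apply]; exact (dn_le n _).trans hk
  · rw [add_comm, Function.iterate_add_apply]; exact (dn_le k _).trans hn

/-- directed lower sets -/
structure Idl (X : GS P) (I : P → Prop) : Prop where
  low : ∀ {a b}, X.Le a b → I b → I a
  dir : ∀ {a b}, I a → I b → ∃ c, I c ∧ X.Le a c ∧ X.Le b c

def Hd (X : GS P) (I : P → Prop) (p h : P) : Prop :=
  X.S p h ∧ I h ∧ ∀ x, X.S p x → I x → X.S x h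

/-- `c₁` and `c₂` meet trivially over `b` -/
def LM (X : GS P) (b c1 c2 : P) : Prop := ∀ m, X.S b m → X.S m c1 → X.S m c2 → m = b

variable {I J : P → Prop} {p h h' : P}

theorem Idl.itp (hI : X.Idl I) {x1 x2 y : P} (h1 : I x1) (h2 : I x2) (h3 : X.Le x1 y)
    (h4 : X.Le x2 y) : ∃ m, X.Le x1 m ∧ X.Le x2 m ∧ X.Le m y ∧ I m := by
  obtain ⟨c, c1, c2, c3⟩ := hI.dir h1 h2
  obtain ⟨m, a1, a2, a3, a4⟩ := interp h3 c2 h4 c3
  exact ⟨m, a1, a2, a3, hI.low a4 c1⟩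

theorem Idl.exists_hd (hI : X.Idl I) (hp : I p) : ∃ h, X.Hd I p h := by
  obtain ⟨m, ⟨a1, a2⟩, hm⟩ := exists_max_rk X.rk (fun m => X.S p m ∧ I m)
    (X.rk (X.up p)) ⟨p, X.refl p, hp⟩ fun m hm => rk_le (X.to_up hm.1)
  refine ⟨m, a1, a2, fun x b1 b2 => ?_⟩
  obtain ⟨k, c1, c2, c3, c4⟩ := hI.itp a2 b2 (le (X.to_up a1)) (le (X.to_up b1))
  have := (convex ((le a1).trans c1) c3 (X.to_up (X.refl p))).1
  rw [c1.eq_of_rk (hm k ⟨this, c4⟩)]
  exact (convex (le b1) c2 this).2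

theorem Idl.step (hI : X.Idl I) (h1 : X.S p h) (h2 : X.Hd I h h') (h3 : X.LM h h' (X.up p)) :
    X.Hd I p h := by
  have hh := hI.low (le h2.1) h2.2.1
  refine ⟨h1, hh, fun x b1 b2 => ?_⟩
  obtain ⟨k, c1, c2, c3, c4⟩ := hI.itp hh b2 (le (X.to_up h1)) (le (X.to_up b1))
  obtain ⟨d1, d2⟩ := convex c1 c3 (X.to_up h1)
  rw [h3 k d1 (h2.2.2 k d1 c4) d2] at c2
  exact (convex (le b1) c2 h1).2

theorem Hd.lm (hI : X.Idl I) (h1 : X.Hd I p h) (h2 : X.Hd I h h') : X.LM h h' (X.up p) :=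
  fun m a1 a2 a3 => anti (h1.2.2 m (of_up a3) (hI.low (le a2) h2.2.1)) a1

theorem Hd.low (hI : X.Idl I) (h1 : X.Hd I p h) {x : P} (hx : I x) (h2 : X.Le (X.dn x) p) :
    X.Le x h := by
  have key : ∀ {a b : P}, X.Le a b → X.Le (X.up a) (X.up b) := fun h => by
    induction h with
    | refl => exact Le.refl _
    | tail _ h ih => exact ih.trans (le (X.to_up (X.to_up h)))
  have := key h2
  rw [X.up_dn] at this
  obtain ⟨k, c1, c2, c3, c4⟩ := hI.itp (hI.low (le h1.1) h1.2.1) hx (le (X.to_up (X.refl p))) this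
  exact c2.trans (le (h1.2.2 k (convex c1 c3 (X.to_up (X.refl p))).1 c4))

theorem meet_top (hI : X.Idl I) (hJ : X.Idl J) (h1 : X.Hd I p h) (h2 : X.Hd J p h')
    (h3 : X.LM p h h') {x : P} (xI : I x) (xJ : J x) : X.Le x p := by
  obtain ⟨c, c1, c2, c3⟩ := hI.dir (hI.low (le h1.1) h1.2.1) xI
  obtain ⟨d, d1, d2, d3⟩ := hJ.dir (hJ.low (le h2.1) h2.2.1) xJ
  obtain ⟨m, a1, a2, a3, a4⟩ := interp c2 d2 c3 d3
  have : ∀ m, X.Le p m → I m → J m → m = p := by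
    intro m hm
    induction hm with
    | refl => exact fun _ _ => rfl
    | tail _ e ih =>
      intro i j
      rw [ih (hI.low (le e) i) (hJ.low (le e) j)] at e
      exact h3 _ e (h1.2.2 _ e i) (h2.2.2 _ e j)
  rwa [← this m a1 (hI.low a3 c1) (hJ.low a4 d1)]

end GS

end Pool.Agent.Lib.MP_a1ec0a_al.TR
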