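import Pool.Agent.Lib.MP_a1ec0a_al.TPar

/-! Spherical subsets: four-cycles and finite certificates for triple products. -/

set_option linter.unusedSectionVars false

namespace Pool.Agent.Lib.MP_a1ec0a_al.TR

open Pool.Agent.H51

variable {B : Type} [Fintype B] [DecidableEq B] {M : CoxeterMatrix B}
variable {U X Y Y1 Y2 : Set B} {a b p q : List B} {s t : B}

def LR (M : CoxeterMatrix B) (X : Set B) (p : List B) : Prop := ∀ s ∈ X, ¬ Dv M [s] p
def RR (M : CoxeterMatrix B) (Y : Set B) (q : List B) : Prop := LR M Y q.reverse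

theorem RR.not (h : RR M Y q) (hs : s ∈ Y) (e : BE M (a ++ [s]) q) : False :=
  h s hs ⟨a.reverse, by simpa using e.reverse⟩

theorem RR.nil (h : RR M Y q) (hb : Ov Y b) (e : BE M (a ++ b) q) : b = [] := by
  rcases b.eq_nil_or_concat' with rfl | ⟨c, s, rfl⟩
  · rfl
  · exact (h.not (hb s (by simp)) (List.append_assoc .. ▸ e)).elim

theorem exists_lr (X : Set B) (p : List B) : ∃ c p', Ov X c ∧ LR M X p' ∧ BE M (c ++ p') p := by
  induction hn : p.length using Nat.strong_induction_on generalizing p with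
  | _ n ih =>
    by_cases h : LR M X p
    · exact ⟨[], p, Ov.nil, h, BE.refl _⟩
    simp only [LR, not_forall, not_not] at h
    obtain ⟨s, hs, d, hd⟩ := h
    obtain ⟨c, p', a1, a2, a3⟩ := ih d.length (by have := hd.length_eq; simp at this; omega) d rfl
    exact ⟨s :: c, p', ov_cons.2 ⟨hs, a1⟩, a2, (a3.cons s).trans hd⟩

theorem exists_rr (Y : Set B) (q : List B) : ∃ q' c, Ov Y c ∧ RR M Y q' ∧ BE M (q' ++ c) q := by
  obtain ⟨c, p', a1, a2, a3⟩ := exists_lr (M := M) Y q.reverse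
  exact ⟨p'.reverse, c.reverse, a1.reverse, by simpa [RR] using a2, by simpa using a3.reverse⟩

theorem be_comm (h : ∀ s ∈ a, M t s = 2) : BE M (t :: (a ++ b)) (a ++ t :: b) := by
  induction a with
  | nil => exact BE.refl _
  | cons s a ih =>
    have := (BE.braid (M := M) t s).append (BE.refl (a ++ b))
    rw [h s (by simp)] at this
    exact BE.trans this ((ih fun s hs => h s (by simp [hs])).cons s)

theorem claimC (ha : RR M Y a) (hb : Ov Y b) (ht : t ∉ a) (h : Dv M [t] (a ++ b)) :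
    (∀ s ∈ a, M t s = 2) ∧ Dv M [t] b := by
  induction a generalizing t b with
  | nil => exact ⟨by simp, h⟩
  | cons s a ih =>
    have ha' : RR M Y a := fun y hy hd => ha y hy (hd.trans (by simpa using Dv.append _ [s]))
    simp only [List.mem_cons, not_or] at ht
    obtain ⟨h0, h1⟩ := dv_braid (Dv.append [s] (a ++ b)) h
    rw [alt_M h0] at h1
    have h2 := Dv.cancel (p := [s]) h1
    have h3 := M.off_diagonal s t (Ne.symm ht.1)
    obtain ⟨k, hk⟩ : ∃ k, M s t - 1 = k + 1 := ⟨M s t - 2, by omega⟩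
    rw [hk, alt] at h2
    obtain ⟨c1, b', c2⟩ := ih ha' hb ht.2 h2.head
    by_cases e : M t s = 2
    · exact ⟨by simpa [e] using c1, b', c2⟩
    obtain ⟨k, rfl⟩ : ∃ j, k = j + 1 := ⟨k - 1, by have := M.symmetric s t; omega⟩
    have h4 := Dv.cancel (p := [t])
      (h2.trans (((BE.refl a).append c2.symm).trans (be_comm c1).symm).dv)
    obtain ⟨d1, d2⟩ := ih ha' (ov_cons.1 (hb.be c2)).2 (fun hs => e (c1 s hs)) h4.head
    exact (ha.not (hb s (c2.mem (List.mem_cons_of_mem _ (d2.mem (by simp)))))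
      (by simpa using (be_comm (b := []) d1).symm)).elim

def HH (M : CoxeterMatrix B) (X Y : Set B) (w : List B) : Prop :=
  ∃ a b, Ov X a ∧ Ov Y b ∧ BE M w (a ++ b)

theorem lcm_step (hs : s ∈ X) (ha : Ov X a) (h : Dv M [s] (a ++ b)) :
    ∃ a' d b', Ov X a' ∧ BE M (s :: a') (a ++ d) ∧ BE M (d ++ b') b ∧
      ∀ c, Dv M [s] c → Dv M a c → Dv M (s :: a') c := by
  obtain ⟨l, l0, ⟨a', l1⟩, ⟨d, l2⟩, l3⟩ := exists_lcm (T := X) (u := [s]) (by simpa using hs) ha h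
    (Dv.append _ _)
  obtain ⟨b', hb'⟩ := (l2.dv.trans (l3 _ h (Dv.append _ _))).cancel
  exact ⟨a', d, b', (ov_append.1 (Ov.be l0 l1)).2, l1.trans l2.symm, hb',
    fun c h1 h2 => l1.dv.trans (l3 c h1 h2)⟩

theorem HH.left (ha : Ov X a) (h : HH M X Y (a ++ p)) : HH M X Y p := by
  induction a with
  | nil => exact h
  | cons s a ih =>
    refine ih (ov_cons.1 ha).2 ?_
    obtain ⟨c, b, h1, h2, h3⟩ := h
    obtain ⟨a', d, b', e1, e2, e3, -⟩ := lcm_step (ov_cons.1 ha).1 h1 (Dv.head h3.dv)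
    refine ⟨a', b', e1, (ov_append.1 (h2.be e3)).2, BE.cancel_left (p := [s]) (h3.trans ?_)⟩
    refine ((BE.refl c).append e3.symm).trans ?_
    rw [← List.append_assoc]
    exact e2.symm.append (BE.refl b')

theorem HH.rev (h : HH M X Y p) : HH M Y X p.reverse :=
  let ⟨a, b, h1, h2, h3⟩ := h; ⟨_, _, h2.reverse, h1.reverse, by simpa using h3.reverse⟩

theorem HH.right (hb : Ov Y b) (h : HH M X Y (p ++ b)) : HH M X Y p := by
  simpa using (HH.left (p := p.reverse) hb.reverse (by simpa using h.rev)).rev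

theorem HH.be (h : HH M X Y p) (e : BE M q p) : HH M X Y q :=
  let ⟨a, b, h1, h2, h3⟩ := h; ⟨a, b, h1, h2, e.trans h3⟩

theorem lemK (hp : LR M X p) (hq : RR M Y q) (h : HH M X Y (p ++ q)) :
    Ov Y p ∧ Ov X q ∧ ∀ s ∈ p, ∀ t ∈ q, M s t = 2 := by
  obtain ⟨a0, b, h1, h2, h3⟩ := h
  obtain ⟨a, c, a1, a2, a3⟩ := exists_rr (M := M) Y a0
  have oa := (ov_append.1 (h1.be a3)).1
  have aux : ∀ p2 p1 b1, LR M X (p1 ++ p2) → (∀ s ∈ p1, ∀ t ∈ a, M s t = 2) → Ov Y b1 →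
      BE M (p2 ++ q) (a ++ b1) → (∀ s ∈ p2, ∀ t ∈ a, M s t = 2) ∧ Ov Y p2 ∧
        ∃ b2, Ov Y b2 ∧ BE M (a ++ b2) q := by
    intro p2
    induction p2 with
    | nil => exact fun _ b1 _ _ h e => ⟨by simp, Ov.nil, b1, h, e.symm⟩
    | cons t p2 ih =>
      intro p1 b1 c1 c2 c3 c4
      have ht : t ∉ a := fun ht => c1 t (oa t ht)
        (Dv.head (be_comm fun s hs => M.symmetric s t ▸ c2 s hs t ht).dv)
      obtain ⟨d1, b', d2⟩ := claimC a2 c3 ht (Dv.head c4.dv)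
      have := ov_cons.1 (c3.be d2)
      obtain ⟨e1, e2, e3⟩ := ih (p1 ++ [t]) b' (by simpa using c1)
        (by simpa [or_imp, forall_and] using ⟨c2, d1⟩) this.2 (BE.cancel_left (p := [t])
          (c4.trans (((BE.refl a).append d2.symm).trans (be_comm d1).symm)))
      exact ⟨by simpa using ⟨d1, e1⟩, ov_cons.2 ⟨this.1, e2⟩, e3⟩
  obtain ⟨e1, e2, b2, e3, e4⟩ := aux p [] (c ++ b) hp (by simp) (ov_append.2 ⟨a1, h2⟩)
    (h3.trans (by rw [← List.append_assoc]; exact a3.symm.append (BE.refl b)))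
  rw [hq.nil e3 e4, List.append_nil] at e4
  exact ⟨e2, oa.be e4.symm, fun s hs t ht => e1 s hs t (e4.symm.mem ht)⟩

theorem sph_q4 (hU : Sph M U) : Q4 M U := by
  intro X1 u1 X2 u2 Y1 u3 Y2 u4 g11 g12 g21 g22 r1 r2 r3 r4
  obtain ⟨x1, a11, a12, o11, o12, rfl, rfl⟩ := (hU.mono u1).exists_lower u1 r1
  obtain ⟨x2, a21, a22, o21, o22, rfl, rfl⟩ := (hU.mono u2).exists_lower u2 r2
  obtain ⟨b11, b21, v11, v21, e1⟩ := (hU.mono u3).exists_upper r3
  obtain ⟨b12, b22, v12, v22, e2⟩ := (hU.mono u4).exists_upper r4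
  obtain ⟨m, ⟨p1, w1, m1⟩, ⟨p2, w2, m2⟩, hm⟩ := hU.exists_join (x := x1) (y := x2)
    (((rl_pos x1 (o11.mono u1)).trans (r3.mono u3)).trans (rl_pos x2 (o21.mono u2)).symm)
  have le : ∀ {X Y a b} x, X ⊆ U → Y ⊆ U → Ov X a → Ov Y b →
      Le M U x (x * pos M a * pos M b) := fun x c d e f =>
    (le_pos x (e.mono c)).trans (le_pos _ (f.mono d))
  obtain ⟨q1, w3, n1⟩ := hm _ (le x1 u1 u3 o11 v11) (e1 ▸ le x2 u2 u3 o21 v21)
  obtain ⟨q2, w4, n2⟩ := hm _ (le x1 u1 u4 o12 v12) (e2 ▸ le x2 u2 u4 o22 v22)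
  obtain ⟨c1, p1', f1, f2, f3⟩ := exists_lr (M := M) X1 p1
  obtain ⟨c2, p2', g1, g2, g3⟩ := exists_lr (M := M) X2 p2
  obtain ⟨q1', d1, h1, h2, h3⟩ := exists_rr (M := M) Y1 q1
  obtain ⟨q2', d2, i1, i2, i3⟩ := exists_rr (M := M) Y2 q2
  have key : ∀ {X Y a b p q c d p' q'} {x : Artin M}, X ⊆ U → Y ⊆ U → Ov X a → Ov Y b → Ov U p →
      Ov U q → m = x * pos M p → x * pos M a * pos M b = m * pos M q → Ov X c → LR M X p' →
      BE M (c ++ p') p → Ov Y d → RR M Y q' → BE M (q' ++ d) q →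
      Ov Y p' ∧ Ov X q' ∧ ∀ s ∈ p', ∀ t ∈ q', M s t = 2 := by
    intro X Y a b p q c d p' q' x k1 k2 k3 k4 k5 k6 k7 k8 k9 k10 k11 k12 k13 k14
    rw [k7, mul_assoc, mul_assoc, mul_right_inj, ← pos_append, ← pos_append] at k8
    refine lemK k10 k13 (HH.right k12 (HH.left k9 ⟨a, b, k3, k4, ?_⟩))
    rw [List.append_assoc, ← List.append_assoc]
    exact (k11.append k14).trans (hU.be_of_pos_eq (ov_append.2 ⟨k5, k6⟩)
      (ov_append.2 ⟨k3.mono k1, k4.mono k2⟩) k8.symm)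
  have k11 := key u1 u3 o11 v11 w1 w3 m1 n1 f1 f2 f3 h1 h2 h3
  have k12 := key u1 u4 o12 v12 w1 w4 m1 n2 f1 f2 f3 i1 i2 i3
  have k21 := key u2 u3 o21 v21 w2 w3 m2 (e1 ▸ n1) g1 g2 g3 h1 h2 h3
  have k22 := key u2 u4 o22 v22 w2 w4 m2 (e2 ▸ n2) g1 g2 g3 i1 i2 i3
  have lo : ∀ {X L a c p p'} {x : Artin M}, Ov X a → Ov X c → m = x * pos M p →
      BE M (c ++ p') p → Ov L p' → Me M L m X (x * pos M a) := by
    intro X L a c p p' x k1 k2 k3 k4 k5
    refine ⟨x * pos M c, ?_, (rl_pos x k1).symm.trans (rl_pos x k2)⟩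
    rw [k3, ← k4.pos_eq, pos_append, ← mul_assoc]; exact (rl_pos _ k5).symm
  have hi : ∀ {Y R b d q q'} {x : Artin M}, Ov Y b → Ov Y d → x * pos M b = m * pos M q →
      BE M (q' ++ d) q → Ov R q' → Me M R m Y x := by
    intro Y R b d q q' x k1 k2 k3 k4 k5
    refine ⟨_, rl_pos m k5, (rl_pos x k1).trans ?_⟩
    rw [k3, ← k4.pos_eq, pos_append, ← mul_assoc]; exact (rl_pos _ k2).symm
  refine ⟨{s | s ∈ p1' ∨ s ∈ p2'}, {s | s ∈ q1' ∨ s ∈ q2'}, m, fun s h => h.elim (k11.1 s) (k21.1 s),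
    fun s h => h.elim (k12.1 s) (k22.1 s), fun s h => h.elim (k11.2.1 s) (k12.2.1 s),
    fun s h => h.elim (k21.2.1 s) (k22.2.1 s), ?_, lo o11 f1 m1 f3 fun _ => Or.inl,
    lo o21 g1 m2 g3 fun _ => Or.inr, hi v11 h1 n1 h3 fun _ => Or.inl,
    hi v12 i1 n2 i3 fun _ => Or.inr⟩
  rintro s (hs | hs) t (ht | ht)
  exacts [k11.2.2 s hs t ht, k12.2.2 s hs t ht, k21.2.2 s hs t ht, k22.2.2 s hs t ht]

/-- the letter `t` cannot be extracted from `q` followed by a word over `Y` -/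
def Dis (M : CoxeterMatrix B) (Y : Set B) (q : List B) (t : B) : Prop :=
  ∃ e, Dv M [t] (q ++ e) ∧ ∀ b, Ov Y b → b.length ≤ e.length → ¬ Dv M [t] (q ++ b)

theorem Dis.not (h : Dis M Y q t) (hb : Ov Y b) : ¬ Dv M [t] (q ++ b) := by
  intro h'
  obtain ⟨e, h1, h2⟩ := h
  obtain ⟨a', d, b', -, c2, c3, c4⟩ := lcm_step (X := Set.univ) trivial (fun _ _ => trivial) h'
  exact h2 d (ov_append.1 (hb.be c3)).1
    (c2.symm.dv.trans (c4 _ h1 (Dv.append _ _))).cancel.length_le (Dv.head c2.dv)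

structure SCert (M : CoxeterMatrix B) (U Y1 X Y2 : Set B) (x y : Artin M)
    (Q : Set (List B × List B)) : Prop where
  init : ∃ q ∈ Q, ∃ m, Rl M Y1 x (m * pos M q.1) ∧ Rl M Y2 y (m * pos M q.2)
  bad : ∀ q ∈ Q, Ov U q.1 ∧ Ov U q.2 ∧ (RR M Y1 q.1 ∧ ¬ Ov X q.1 ∨ RR M Y2 q.2 ∧ ¬ Ov X q.2)
  step : ∀ q ∈ Q, ∀ t ∈ U, Dis M Y1 q.1 t ∨ Dis M Y2 q.2 t ∨ ∃ q' ∈ Q,
    Rl M Y1 (pos M q.1) (gen M t * pos M q'.1) ∧ Rl M Y2 (pos M q.2) (gen M t * pos M q'.2)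

def Low (M : CoxeterMatrix B) (U Y : Set B) (z m : Artin M) : Prop :=
  ∃ w, Rl M Y z w ∧ Le M U m w

variable {x y z m : Artin M}

theorem Low.of_le {m' : Artin M} (h : Low M U Y z m') (e : Le M U m m') : Low M U Y z m :=
  let ⟨w, a, b⟩ := h; ⟨w, a, e.trans b⟩

theorem Low.dv (hU : Sph M U) (hY : Y ⊆ U) (hq : Ov U q) (ht : t ∈ U)
    (h1 : Rl M Y z (m * pos M q)) (h2 : Low M U Y z (m * gen M t)) :
    ∃ b, Ov Y b ∧ Dv M [t] (q ++ b) := by
  obtain ⟨w, a1, a2⟩ := h2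
  obtain ⟨b, b', c1, c2, c3⟩ := (hU.mono hY).exists_upper (h1.symm.trans a1)
  refine ⟨b, c1, (hU.le_iff (x := m) (by simpa [Ov] using ht)
    (ov_append.2 ⟨hq, c1.mono hY⟩)).1 ?_⟩
  rw [pos_append, ← mul_assoc, c3, pos_singleton]
  exact a2.trans (le_pos _ (c2.mono hY))

theorem Rl.left (g : Artin M) (h : Rl M Y x y) : Rl M Y (g * x) (g * y) := by
  simpa [Rl, mul_assoc] using h

theorem walk_par (hU : Sph M U) (hX : X ⊆ U) (hY : Y ⊆ U) {l : List B} (hl : Ov U l) (ha : Ov X a)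
    (h1 : Rl M Y z (m * pos M a)) (h2 : Low M U Y z (m * pos M l)) :
    ∃ a', Ov X a' ∧ Rl M Y z (m * pos M l * pos M a') := by
  induction l generalizing m a with
  | nil => exact ⟨a, ha, by simpa using h1⟩
  | cons t l ih =>
    rw [pos_cons, ← mul_assoc] at h2 ⊢
    obtain ⟨ht, hl⟩ := ov_cons.1 hl
    obtain ⟨a0, c, c1, c2, c3⟩ := exists_rr (M := M) Y a
    have o := (ov_append.1 (ha.be c3)).1
    rw [← c3.pos_eq, pos_append, ← mul_assoc] at h1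
    replace h1 := h1.trans (rl_pos _ c1).symm
    obtain ⟨b, d1, d2⟩ := Low.dv hU hY (o.mono hX) ht h1 (h2.of_le (le_pos _ hl))
    by_cases e : t ∈ X
    · obtain ⟨a', d, b', e1, e2, e3, -⟩ := lcm_step e o d2
      refine ih hl e1 (h1.trans ?_) h2
      rw [mul_assoc, ← pos_cons, e2.pos_eq, pos_append, ← mul_assoc]
      exact rl_pos _ (ov_append.1 (d1.be e3)).1
    · obtain ⟨e1, e2⟩ := claimC c2 d1 (fun h => e (o t h)) d2
      refine ih hl o (h1.trans ?_) h2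
      have := (be_comm (b := []) e1).pos_eq
      rw [List.append_nil, pos_append] at this
      rw [mul_assoc, ← pos_cons, this, ← mul_assoc]
      exact rl_pos _ (d1.of_dv e2)

theorem RR.dv (hq : RR M Y q) {b' : List B} (hb : Ov Y b) (hb' : Ov Y b')
    (e : BE M (q ++ b) (a ++ b')) : Dv M q a := by
  have e' := e.reverse
  rw [List.reverse_append, List.reverse_append] at e'
  obtain ⟨l, l0, ⟨d, l1⟩, ⟨d', l2⟩, l3⟩ := exists_lcm hb.reverse hb'.reverse (Dv.append _ _)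
    ((Dv.append _ _).trans e'.symm.dv)
  have h1 := (l1.dv.trans (l3 _ (Dv.append _ _) ((Dv.append _ _).trans e'.symm.dv))).cancel
  obtain rfl : d = [] := by
    cases d with
    | nil => rfl
    | cons s d => exact (hq s (l0 s (l1.mem (by simp))) h1.head).elim
  rw [List.append_nil] at l1
  have := (e'.symm.trans ((l1.trans l2.symm).append (BE.refl _)))
  rw [List.append_assoc] at this
  exact ⟨d'.reverse, by simpa using this.cancel_left.reverse.symm⟩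

theorem SCert.sound {Q : Set (List B × List B)} (h : SCert M U Y1 X Y2 x y Q) (hU : Sph M U)
    (u1 : Y1 ⊆ U) (u2 : X ⊆ U) (u3 : Y2 ⊆ U) : ¬ Tr M Y1 X Y2 x y := by
  rintro ⟨a, b, a1, a2, a3⟩
  obtain ⟨m1, p1, p2, o1, o2, rfl, rfl⟩ := (hU.mono u2).exists_lower u2 a2
  obtain ⟨q, hq, m0, b1, b2⟩ := h.init
  obtain ⟨m, ⟨l0, c1, c2⟩, ⟨l1, d1, d2⟩, hm⟩ := hU.exists_join (x := m0) (y := m1)
    (((rl_pos m0 (h.bad q hq).1).trans ((b1.symm.trans a1).mono u1)).trans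
      (rl_pos m1 (o1.mono u2)).symm)
  have low : ∀ {Y z p q}, Y ⊆ U → Ov X p → Ov U q → Rl M Y z (m1 * pos M p) →
      Rl M Y z (m0 * pos M q) → Low M U Y z m := by
    intro Y z p q k1 k2 k3 k4 k5
    obtain ⟨b, b', e1, e2, e3⟩ := (hU.mono k1).exists_upper (k4.symm.trans k5)
    exact ⟨_, k4.trans (rl_pos _ e1), hm _ (e3 ▸ (le_pos _ k3).trans (le_pos _ (e2.mono k1)))
      ((le_pos _ (k2.mono u2)).trans (le_pos _ (e1.mono k1)))⟩
  have L1 := low u1 o1 (h.bad q hq).1 a1 b1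
  have L2 := low u3 o2 (h.bad q hq).2.1 a3 b2
  obtain ⟨q', hq', e1, e2⟩ : ∃ q ∈ Q, Rl M Y1 x (m * pos M q.1) ∧ Rl M Y2 y (m * pos M q.2) := by
    rw [c2] at L1 L2 ⊢
    clear c2 hm low
    induction l0 generalizing m0 q with
    | nil => exact ⟨q, hq, by simpa using b1, by simpa using b2⟩
    | cons t l ih =>
      rw [pos_cons, ← mul_assoc] at L1 L2 ⊢
      obtain ⟨ht, hl⟩ := ov_cons.1 c1
      obtain ⟨e1, f1, f2⟩ := Low.dv hU u1 (h.bad q hq).1 ht b1 (L1.of_le (le_pos _ hl))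
      obtain ⟨e2, g1, g2⟩ := Low.dv hU u3 (h.bad q hq).2.1 ht b2 (L2.of_le (le_pos _ hl))
      rcases h.step q hq t ht with k | k | ⟨q', k1, k2, k3⟩
      · exact (k.not f1 f2).elim
      · exact (k.not g1 g2).elim
      · exact ih q' k1 _ (b1.trans (mul_assoc m0 _ _ ▸ k2.left m0))
          (b2.trans (mul_assoc m0 _ _ ▸ k3.left m0)) hl L1 L2
  have fin : ∀ {Y z p q}, Y ⊆ U → Ov X p → Ov U q → Rl M Y z (m1 * pos M p) → Low M U Y z m →
      Rl M Y z (m * pos M q) → RR M Y q → Ov X q := by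
    intro Y z p q k1 k2 k3 k4 k5 k6 k7
    obtain ⟨a', f1, f2⟩ := walk_par hU u2 k1 d1 k2 k4 (d2 ▸ k5)
    rw [← d2] at f2
    obtain ⟨b, b', g1, g2, g3⟩ := (hU.mono k1).exists_upper (k6.symm.trans f2)
    rw [mul_assoc, mul_assoc, mul_right_inj, ← pos_append, ← pos_append] at g3
    exact f1.of_dv (k7.dv g1 g2 (hU.be_of_pos_eq (ov_append.2 ⟨k3, g1.mono k1⟩)
      (ov_append.2 ⟨f1.mono u2, g2.mono k1⟩) g3))
  obtain ⟨k1, k2, k | k⟩ := h.bad q' hq'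
  · exact k.2 (fin u1 o1 k1 a1 L1 e1 k.1)
  · exact k.2 (fin u3 o2 k2 a3 L2 e2 k.1)

theorem exists_scert (hU : Sph M U) (hxy : Rl M U x y) (h : ¬ Tr M Y1 X Y2 x y) :
    ∃ Q, Q.Finite ∧ SCert M U Y1 X Y2 x y Q := by
  obtain ⟨δ, hδ⟩ := hU.exists_del
  obtain ⟨m0, a, b, o1, o2, rfl, rfl⟩ := hU.exists_lower subset_rfl hxy
  let N := a.length + b.length
  let St : Set B → Artin M → Artin M → List B → Prop := fun Y z m q =>
    RR M Y q ∧ Dv M q (wpow δ N) ∧ Rl M Y z (m * pos M q)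
  have red : ∀ Y z m q, Dv M q (wpow δ N) → Rl M Y z (m * pos M q) → ∃ q', St Y z m q' := by
    intro Y z m q k1 k2
    obtain ⟨q', c, c1, c2, c3⟩ := exists_rr (M := M) Y q
    rw [← c3.pos_eq, pos_append, ← mul_assoc] at k2
    exact ⟨q', c2, Dv.trans ⟨c, c3⟩ k1, k2.trans (rl_pos _ c1).symm⟩
  have ov : ∀ {q}, Dv M q (wpow δ N) → Ov U q := fun h => (hδ.1.wpow N).of_dv h
  have step : ∀ Y z m q, St Y z m q → ∀ t ∈ U, ¬ Dis M Y q t → ∃ q', St Y z (m * gen M t) q' := by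
    rintro Y z m q ⟨-, k2, k3⟩ t ht hd
    have ot : Ov U [t] := by simpa [Ov] using ht
    obtain ⟨c, e, -, -, c3⟩ := hU.common ot (ov k2)
    simp only [Dis, not_exists, not_and, not_forall, not_not] at hd
    obtain ⟨b, d1, -, d3⟩ := hd e ⟨c, c3⟩
    obtain ⟨a', d, b', -, e2, e3, e4⟩ := lcm_step (X := Set.univ) trivial (fun _ _ => trivial) d3
    obtain ⟨u, -, hu⟩ := hδ.move_pow ot N
    refine red Y z _ a' (Dv.cancel (p := [t]) (e4 _ (Dv.append _ _)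
      ((k2.trans (Dv.append _ u)).trans hu.symm.dv))) (k3.trans ?_)
    rw [mul_assoc, ← pos_cons, e2.pos_eq, pos_append, ← mul_assoc]
    exact rl_pos _ (ov_append.1 (d1.be e3)).1
  refine ⟨{q | ∃ m, St Y1 (m0 * pos M a) m q.1 ∧ St Y2 (m0 * pos M b) m q.2}, ?_, ?_, ?_, ?_⟩
  · refine ((List.finite_length_le B (wpow δ N).length).prod
      (List.finite_length_le B (wpow δ N).length)).subset ?_
    rintro q ⟨m, h1, h2⟩
    exact ⟨h1.2.1.length_le, h2.2.1.length_le⟩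
  · obtain ⟨q1, h1⟩ := red Y1 _ m0 a (by
      simp only [N, wpow_add]; exact (hδ.dv_pow o1).trans (Dv.append _ _)) (Rl.refl _)
    obtain ⟨q2, h2⟩ := red Y2 _ m0 b (by
      simp only [N, add_comm a.length, wpow_add]; exact (hδ.dv_pow o2).trans (Dv.append _ _))
      (Rl.refl _)
    exact ⟨(q1, q2), ⟨m0, h1, h2⟩, m0, h1.2.2, h2.2.2⟩
  · rintro q ⟨m, h1, h2⟩
    refine ⟨ov h1.2.1, ov h2.2.1, ?_⟩
    by_contra hn
    simp only [not_or, not_and, not_not] at hn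
    exact h ⟨_, _, h1.2.2, (rl_pos m (hn.1 h1.1)).symm.trans (rl_pos m (hn.2 h2.1)), h2.2.2⟩
  · rintro q ⟨m, h1, h2⟩ t ht
    rw [or_iff_not_imp_left, or_iff_not_imp_left]
    intro d1 d2
    obtain ⟨q1, k1⟩ := step _ _ _ _ h1 t ht d1
    obtain ⟨q2, k2⟩ := step _ _ _ _ h2 t ht d2
    exact ⟨(q1, q2), ⟨_, k1, k2⟩, by simpa [mul_assoc] using (h1.2.2.symm.trans k1.2.2).left m⁻¹,
      by simpa [mul_assoc] using (h2.2.2.symm.trans k2.2.2).left m⁻¹⟩

end Pool.Agent.Lib.MP_a1ec0a_al.TR
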