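import Pool.Agent.Lib.MP_a1ec0a_al.TCyc
import Pool.Agent.Lib.MP_a1ec0a_al.TSph

/-! The induction on subdiagrams. -/

set_option linter.unusedSectionVars false

namespace Pool.Agent.Lib.MP_a1ec0a_al.TR

open Pool.Agent.H51 Relation

variable {B : Type} [Fintype B] [DecidableEq B] {M : CoxeterMatrix B}

/-- the Coxeter diagram -/
def diag (M : CoxeterMatrix B) : SimpleGraph B where
  Adj s t := s ≠ t ∧ M s t ≠ 2
  symm := ⟨fun s t h => ⟨h.1.symm, M.symmetric s t ▸ h.2⟩⟩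
  loopless := ⟨fun _ h => h.1 rfl⟩

def TreeSph (M : CoxeterMatrix B) : Prop :=
  ∀ T : Set B, ((diag M).induce T).IsTree → (∀ s ∈ T, ∀ t ∈ T, M s t ≠ 0) → Sph M T

def cv (M : CoxeterMatrix B) (U : Set B) (a b : B) : Cv M where
  U := U
  δ u v := if u = a ∧ v = b ∧ a ≠ b then 1 else
    if u = b ∧ v = a ∧ a ≠ b ∧ M a b ≠ 0 then -1 else 0
  le u v := by grind
  ge u v := by grind
  sum u v := by grind
  fin u v h := by have := M.symmetric a b; grind

open Pointwise in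
theorem sph_union {L R : Set B} (h : Perp M L R) (hL : Sph M L) (hR : Sph M R) :
    Sph M (L ∪ R) := by
  refine (Set.Finite.mul hL hR).subset fun w hw => ?_
  refine par_induction (cx M) (T := L ∪ R)
    (P := fun w => w ∈ (par (cx M) L : Set M.Group) * (par (cx M) R : Set M.Group)) hw
    ⟨1, one_mem _, 1, one_mem _, mul_one _⟩ ?_
  rintro _ - i (hi | hi) ⟨a, ha, b, hb, rfl⟩
  · refine ⟨_, mul_mem ha (simple_mem_par _ hi), b, hb, ?_⟩
    have : Commute ((cx M).simple i) b := par_induction (cx M) (P := Commute ((cx M).simple i)) hb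
      (Commute.one_right _) fun w _ j hj ih => ih.mul_right (by
        simpa [h i hi j hj, alt, commute_iff_eq, CoxeterSystem.wordProd_cons] using
          wordProd_braid (cx M) i j)
    simp only [mul_assoc, this.eq]
  · exact ⟨a, ha, _, mul_mem hb (simple_mem_par _ hi), (mul_assoc _ _ _).symm⟩

def NoPot (M : CoxeterMatrix B) (U : Set B) (a b : B) : Prop :=
  ∀ l : B → ℤ, ¬ ∀ u ∈ U, ∀ v ∈ U, M u v ≠ 2 → l u + (cv M U a b).δ u v ≤ l v

theorem set_ind {P : Set B → Prop} (h : ∀ U, (∀ V, V ⊂ U → P V) → P U) (U : Set B) : P U :=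
  (Finite.to_wellFoundedLT (α := Set B)).wf.induction U h

theorem dich (hM : TreeSph M) (U : Set B) : Sph M U ∨ ∃ a b, NoPot M U a b := by
  induction U using set_ind with
  | h U ih =>
  by_cases h0 : ∃ a ∈ U, ∃ b ∈ U, M a b = 0
  · obtain ⟨a, ha, b, hb, e⟩ := h0
    have ne : a ≠ b := by rintro rfl; simp at e
    refine Or.inr ⟨a, b, fun l hl => ?_⟩
    have := hl a ha b hb (by omega)
    have := hl b hb a ha (by rw [M.symmetric]; omega)
    simp only [cv] at *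
    grind
  by_cases h1 : ((diag M).induce U).IsAcyclic
  swap
  · simp only [SimpleGraph.isAcyclic_iff_forall_adj_isBridge, SimpleGraph.isBridge_iff, not_forall,
      not_not, SimpleGraph.reachable_iff_reflTransGen] at h1
    obtain ⟨a, b, h, h'⟩ := h1
    refine Or.inr ⟨a, b, fun l hl => ?_⟩
    have : ∀ v, ReflTransGen (((diag M).induce U).deleteEdges {s(a, b)}).Adj a v → l v ≤ l a := by
      intro v hv
      induction hv with
      | refl => rfl
      | @tail u v _ e ih =>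
        simp only [SimpleGraph.deleteEdges_adj, Set.mem_singleton_iff, Sym2.eq_iff,
          Subtype.ext_iff] at e
        have := hl v v.2 u u.2 e.1.symm.2
        have := e.2
        simp only [cv] at *
        grind
    have := this b h'
    have := hl a a.2 b b.2 h.2
    have := h.1
    simp only [cv] at *
    grind
  by_cases h2 : ((diag M).induce U).Preconnected
  · rcases U.eq_empty_or_nonempty with rfl | hne
    · exact Or.inl (by simp [Sph])
    · have := hne.to_subtype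
      exact Or.inl (hM U ⟨⟨h2⟩, h1⟩ (by simpa using h0))
  simp only [SimpleGraph.Preconnected, not_forall] at h2
  obtain ⟨a, b, h⟩ := h2
  let C : Set B := {w | ∃ h : w ∈ U, ((diag M).induce U).Reachable a ⟨w, h⟩}
  have s1 : C ⊂ U := ⟨fun w hw => hw.1, fun h' => h (h' b.2).2⟩
  have s2 : U \ C ⊂ U := ⟨Set.sdiff_subset, fun h' => (h' a.2).2 ⟨a.2, by rfl⟩⟩
  have mo : ∀ V ⊆ U, (∃ a b, NoPot M V a b) → ∃ a b, NoPot M U a b :=
    fun V hV ⟨a, b, h⟩ => ⟨a, b, fun l hl => h l fun u hu v hv => hl u (hV hu) v (hV hv)⟩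
  rcases ih _ s1 with k1 | k1
  · rcases ih _ s2 with k2 | k2
    · left
      rw [← Set.union_sdiff_cancel s1.1]
      refine sph_union (fun s hs t ht => ?_) k1 k2
      by_contra e
      exact ht.2 ⟨ht.1, hs.2.trans (SimpleGraph.Adj.reachable
        (show (diag M).Adj s t from ⟨fun e' => ht.2 (e' ▸ hs), e⟩))⟩
    · exact Or.inr (mo _ s2.1 k2)
  · exact Or.inr (mo _ s1.1 k1)

theorem NoPot.ss {U : Set B} {a b : B} (h : NoPot M U a b) {σ : Ty B} (hσ : (cv M U a b).Val σ) :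
    (cv M U a b).FF σ ⊂ U := ⟨Cv.FF_sub σ, fun h' => h (fun u => σ (u, false)) fun u hu v hv e =>
      (hσ u hu v hv e).trans (h' hv).2.ge⟩

theorem q4_all (hM : TreeSph M) (U : Set B) : Q4 M U := by
  induction U using set_ind with
  | h U ih =>
  rcases dich hM U with h | ⟨a, b, h⟩
  · exact sph_q4 h
  · exact Cv.q4 (c := cv M U a b) (hQ := fun σ hσ => ih _ (h.ss hσ))

open Cv in
theorem nt_complete (hM : TreeSph M) {D : Set B → Set B → Set B → Artin M → Artin M → Prop}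
    {DH : Set B → B → B → ℕ → Set B → Artin M → Ty B → Ty B → Artin M → Prop}
    (hr : ∀ Y1 X Y2 R x y x' y', Rl M Y1 x x' → Rl M Y2 y y' → Rl M R x' y' →
      D (Y1 ∩ R) (X ∩ R) (Y2 ∩ R) x' y' → D Y1 X Y2 x y)
    (hp : ∀ U Y1 X Y2 x y Q, Sph M U → Y1 ⊆ U → X ⊆ U → Y2 ⊆ U → Q.Finite →
      SCert M U Y1 X Y2 x y Q → D Y1 X Y2 x y)
    (hb : ∀ U a b (k : ℕ) Y y σ τ g, Y ⊆ U → 0 ≤ σ → (cv M U a b).Val σ → (cv M U a b).Al Y k σ τ →
      Rl M Y g y → DH U a b k Y y σ τ g)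
    (hs : ∀ U a b k Y y σ τ τ' g g', 0 ≤ σ → (cv M U a b).Val σ → σ ≤ τ → τ ≤ (σ + fun _ => 1) →
      τ ≤ τ' → Rl M ((cv M U a b).FF τ) g' g → DH U a b k Y y τ τ' g' →
      (cv M U a b).LMC D τ τ' (σ + fun _ => 1) g' g → DH U a b k Y y σ τ g)
    (hf : ∀ U a b k Y1 X Y2 x y σ τ1 τ2 g1 g2 u, Y1 ⊆ U → X ⊆ U → Y2 ⊆ U → u ∈ U → u ∉ X → 0 ≤ σ →
      σ ≤ τ1 → σ ≤ τ2 → τ1 ≤ (σ + fun _ => 1) → DH U a b k Y1 x σ τ1 g1 → DH U a b k Y2 y σ τ2 g2 →
      Rl M ((cv M U a b).FF σ) g1 g2 → (cv M U a b).LMC D σ τ1 τ2 g1 g2 → D Y1 X Y2 x y)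
    (U : Set B) : ∀ Y1 ⊆ U, ∀ X ⊆ U, ∀ Y2 ⊆ U, ∀ x y, Rl M U x y → NT M Y1 X Y2 x y →
      D Y1 X Y2 x y := by
  induction U using set_ind with
  | h U ih =>
  intro Y1 u1 X u2 Y2 u3 x y hxy h
  rcases dich hM U with k | ⟨a, b, k⟩
  · obtain ⟨Q, h1, h2⟩ := exists_scert k hxy h
    exact hp U _ _ _ _ _ Q k u1 u2 u3 h1 h2
  by_cases e : ∀ u ∈ U, NT M Y1 (U \ {u}) Y2 x y
  · obtain ⟨j, σ, τ1, τ2, g1, g2, a1, a2, a3, a4, a5, a6, a7, a8⟩ :=
      complete (c := cv M U a b) (hQ := fun _ _ => q4_all hM _) (fun σ hσ => ih _ (k.ss hσ))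
        (hb U a b) (hs U a b) u1 u3 hxy e
    obtain ⟨u, hu, hX⟩ := Set.not_subset.1 fun h' : U ⊆ X =>
      h ⟨x, y, Rl.refl _, hxy.mono h', Rl.refl _⟩
    exact hf U a b j _ _ _ _ _ _ _ _ _ _ u u1 u2 u3 hu hX a1 a2 a3 a4 a5 a6 a7 a8
  · simp only [NT, not_forall, not_not] at e
    obtain ⟨u, hu, x', y', a1, a2, a3⟩ := e
    refine hr _ _ _ _ _ _ _ _ a1 a3 a2 (ih _ (Set.sdiff_singleton_ssubset.2 hu) _
      Set.inter_subset_right _ Set.inter_subset_right _ Set.inter_subset_right _ _ a2 ?_)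
    rintro ⟨v, w, b1, b2, b3⟩
    exact h ⟨v, w, a1.trans (b1.mono Set.inter_subset_left), b2.mono Set.inter_subset_left,
      a3.trans (b3.mono Set.inter_subset_left)⟩

end Pool.Agent.Lib.MP_a1ec0a_al.TR
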