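import Pool.Agent.Lib.MP_a1ec0a_al.TRule

/-! The complement of a triple product of standard parabolic subgroups is recursively
enumerable. -/

namespace Pool.Agent.Lib.MP_a1ec0a_al.TR

open Pool.Agent.H51 Relation Cv

variable {M : Mat}

theorem DJ_nt (hM : TreeSph (cm M)) {Y1 X Y2 : List ℕ} {w : Wd}
    (h : NT (cm M) (SL M Y1) (SL M X) (SL M Y2) 1 (ev M w)) : DJ (jN M Y1 X Y2 [] w) := by
  let D : Set (Fin M.length) → Set (Fin M.length) → Set (Fin M.length) → Artin (cm M) →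
      Artin (cm M) → Prop := fun Y1 X Y2 x y => ∀ a b c v w, SL M a = Y1 → SL M b = X →
        SL M c = Y2 → ev M v = x → ev M w = y → DJ (jN M a b c v w)
  have lmc : ∀ {U a b σ τ1 τ2 g1 g2}, (cv (cm M) (SL M U) a b).LMC D (ty M σ) (ty M τ1) (ty M τ2)
      (ev M g1) (ev M g2) → LMCW DJ M U a b σ τ1 τ2 g1 g2 := fun h =>
    lmcW_iff.2 fun μ _ h1 h2 h3 h4 h5 => h _ h1 h2 h3 h4 (fun e => h5 e.le) _ _ _ _ _
      (by rw [SL_int, SL_ff, SL_ff]) (by rw [SL_int, SL_ff, SL_ff]) (by rw [SL_int, SL_ff, SL_ff])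
      rfl rfl
  refine nt_complete hM (D := D) (DH := fun U a b k Y y σ τ g => ∀ U' Y' y' σ' τ' g',
    SL M U' = U → SL M Y' = Y → ev M y' = y → ty M σ' = σ → ty M τ' = τ → ev M g' = g →
      DJ (jH M U' a b k Y' y' σ' τ' g')) ?_ ?_ ?_ ?_ ?_ Set.univ _ (by simp) _ (by simp) _
    (by simp) 1 (ev M w) (by simp [Rl, apar_univ]) h _ _ _ _ _ rfl rfl rfl ev_nil rfl
  · rintro _ _ _ R _ _ x' y' h1 h2 h3 h4 Y1 X Y2 x y rfl rfl rfl rfl rfl
    obtain ⟨R, rfl⟩ := exists_SL R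
    obtain ⟨x', rfl⟩ := ev_surj x'
    obtain ⟨y', rfl⟩ := ev_surj y'
    exact DJ_closed _ (Or.inl ⟨rfl, Or.inl ⟨R, x', y', h1, h2, h3,
      h4 _ _ _ _ _ (SL_int _ _) (SL_int _ _) (SL_int _ _) rfl rfl⟩⟩)
  · rintro U _ _ _ _ _ Q h1 h2 h3 h4 h5 h6 Y1 X Y2 x y rfl rfl rfl rfl rfl
    obtain ⟨U, rfl⟩ := exists_SL U
    exact DJ_closed _ (Or.inl ⟨rfl, Or.inr (Or.inl ⟨U, h1, h2, h3, h4, Q, h5, h6⟩)⟩)
  · rintro _ a b k _ _ _ _ _ h1 - h2 h3 h4 U Y y σ τ g rfl rfl rfl rfl rfl rfl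
    exact DJ_closed _ (Or.inr ⟨rfl, valB_iff.2 h2, Or.inl ⟨h1, alB_iff.2 h3, h4⟩⟩)
  · rintro _ a b k _ _ _ _ τ' _ g' h1 h2 h3 h4 h5 h6 h7 h8 U Y y σ τ g rfl rfl rfl rfl rfl rfl
    obtain ⟨τ', rfl, -⟩ := exists_ty (ty_nonneg.trans h5)
    obtain ⟨g', rfl⟩ := ev_surj g'
    rw [← ty_s1] at h4 h8
    exact DJ_closed _ (Or.inr ⟨rfl, valB_iff.2 h2, Or.inr ⟨τ', g', leB_iff.2 h3, leB_iff.2 h4,
      by rwa [← SL_ff] at h6, h7 _ _ _ _ _ _ rfl rfl rfl rfl rfl rfl, lmc h8⟩⟩)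
  · rintro U a b k _ _ _ _ _ σ τ1 τ2 g1 g2 u h1 h2 h3 h4 h5 h6 h7 h8 - h9 h10 h11 h12 Y1 X Y2 x y
      rfl rfl rfl rfl rfl
    obtain ⟨U, rfl⟩ := exists_SL U
    obtain ⟨τ1, rfl, -⟩ := exists_ty (h6.trans h7)
    obtain ⟨τ2, rfl, -⟩ := exists_ty (h6.trans h8)
    obtain ⟨σ, rfl, -⟩ := exists_ty h6
    obtain ⟨g1, rfl⟩ := ev_surj g1
    obtain ⟨g2, rfl⟩ := ev_surj g2
    exact DJ_closed _ (Or.inl ⟨rfl, Or.inr (Or.inr ⟨U, a, b, k, σ, τ1, τ2, g1, g2, u, by simp [jN],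
      by simp [jN], by simp [jN], h1, h2, h3, h4, by simpa [← Bool.not_eq_true, SL, jN] using h5,
      h9 _ _ _ _ _ _ rfl rfl rfl rfl rfl rfl, h10 _ _ _ _ _ _ rfl rfl rfl rfl rfl rfl,
      by rwa [← SL_ff] at h11, lmc h12⟩)⟩)

theorem s1_nt {n : ℕ} {M : CoxeterMatrix (Fin n)} (hM : TreeSph M) (Y1 X Y2 : Set (Fin n)) :
    S1 fun w : List (Fin n × Bool) => NT M Y1 X Y2 1 (FreeGroup.lift (gen M) (FreeGroup.mk w)) := by
  generalize hL : (List.ofFn fun s => List.ofFn fun t => M s t) = L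
  obtain rfl : L.length = n := by simp [← hL]
  have e : ∀ i j : Fin L.length, ent L i j = M i j := fun i j =>
    (congrArg (ent · i j) hL).symm.trans (by simp [ent])
  obtain rfl : M = cm L := by
    ext i j
    have := M.off_diagonal i j
    rw [cm_apply, me, e, e, M.symmetric j i]
    by_cases hij : i = j
    · simp [hij]
    · simp [Fin.val_inj, hij, this hij, Bool.cond_eq_ite]
  obtain ⟨Y1, rfl⟩ := exists_SL Y1
  obtain ⟨X, rfl⟩ := exists_SL X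
  obtain ⟨Y2, rfl⟩ := exists_SL Y2
  have p : PR fun w : List (Fin L.length × Bool) => w.map fun l => (l.1.val, l.2) :=
    PR.map (PR.comp (f := fun l : Fin L.length × Bool => (l.1.val, l.2)) (Primrec.dom_finite _)
      (by fun_prop)) PR.id'
  have ee : ∀ w : List (Fin L.length × Bool), ev L (w.map fun l => (l.1.val, l.2)) =
      FreeGroup.lift (gen (cm L)) (FreeGroup.mk w) := fun w => by
    rw [ev, FreeGroup.lift_mk, FreeGroup.lift_mk, List.map_map]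
    simp [Function.comp_def]
  refine (DJ_s1.comp (g := fun w : List (Fin L.length × Bool) =>
    jN L Y1 X Y2 [] (w.map fun l => (l.1.val, l.2))) (by fun_prop)).congr fun w => ?_
  rw [← ee]
  exact ⟨fun h => by simpa only [jN, ev_nil] using (sound h hM).1 rfl, DJ_nt hM⟩

end Pool.Agent.Lib.MP_a1ec0a_al.TR
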