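import Pool.Agent.Lib.MP_a1ec0a_al.H.Mon2

/-! Cosets of standard parabolic subgroups: Helly property, four-cycles, triple products. -/

set_option linter.unusedSectionVars false

namespace Pool.Agent.Lib.MP_a1ec0a_al.TR

open Pool.Agent.H51

variable {B : Type} [Fintype B] [DecidableEq B] {M : CoxeterMatrix B}

/-- same left coset -/
def Rl (M : CoxeterMatrix B) (T : Set B) (x y : Artin M) : Prop := x⁻¹ * y ∈ apar M T

variable {T X Y Z L R : Set B} {x y z : Artin M}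

theorem Rl.refl (x : Artin M) : Rl M T x x := by simp [Rl]
theorem Rl.symm (h : Rl M T x y) : Rl M T y x := by simpa [Rl] using inv_mem h
theorem Rl.trans (h : Rl M T x y) (h' : Rl M T y z) : Rl M T x z := by
  simpa [Rl, mul_assoc] using mul_mem h h'
theorem Rl.mono (h : Rl M T x y) (hT : T ⊆ X) : Rl M X x y := apar_mono hT h
theorem Rl.inter (h : Rl M X x y) (h' : Rl M Y x y) : Rl M (X ∩ Y) x y := mem_apar_inter h h'
theorem rl_mul (x : Artin M) {k : Artin M} (h : k ∈ apar M T) : Rl M T x (x * k) := by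
  simpa [Rl] using h
theorem rl_pos (x : Artin M) {l : List B} (h : Ov T l) : Rl M T x (x * pos M l) :=
  rl_mul x (pos_mem_apar h)

theorem helly (h1 : Rl M X x y) (h2 : Rl M Y x z) (h3 : Rl M Z y z) :
    ∃ w, Rl M X x w ∧ Rl M Y x w ∧ Rl M Z y w := by
  refine ⟨x * retr X (x⁻¹ * z), rl_mul _ (retr_mem' _ _),
    rl_mul _ (apar_mono Set.inter_subset_right (retr_mem h2)), ?_⟩
  rw [show x⁻¹ * z = x⁻¹ * y * (y⁻¹ * z) by group, retr_mul h1, ← mul_assoc, mul_inv_cancel_left]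
  exact rl_mul _ (apar_mono Set.inter_subset_right (retr_mem h3))

/-- no edge of the diagram between `L` and `R` -/
def Perp (M : CoxeterMatrix B) (L R : Set B) : Prop := ∀ s ∈ L, ∀ t ∈ R, M s t = 2

theorem Perp.symm (h : Perp M L R) : Perp M R L := fun s hs t ht => M.symmetric t s ▸ h t ht s hs
theorem Perp.mono (h : Perp M L R) (h1 : X ⊆ L) (h2 : Y ⊆ R) : Perp M X Y :=
  fun s hs t ht => h s (h1 hs) t (h2 ht)

theorem Perp.comm (h : Perp M L R) {a b : Artin M} (ha : a ∈ apar M L) (hb : b ∈ apar M R) :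
    Commute a b := by
  have h0 : ∀ s ∈ L, ∀ t ∈ R, Commute (gen M s) (gen M t) := fun s hs t ht => by
    simpa [h s hs t ht, alt, commute_iff_eq] using brOn_gen (M := M) s trivial t trivial
  have : ∀ s ∈ L, Commute (gen M s) b := fun s hs =>
    apar_induction (P := fun b => Commute (gen M s) b) hb (Commute.one_right _)
      (fun g _ t ht ih => ih.mul_right (h0 s hs t ht))
      fun g _ t ht ih => ih.mul_right (h0 s hs t ht).inv_right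
  exact apar_induction (P := fun a => Commute a b) ha (Commute.one_left _)
    (fun g _ s hs ih => ih.mul_left (this s hs)) fun g _ s hs ih => ih.mul_left (this s hs).inv_left

theorem Perp.square (h : Perp M L R) (h1 : Rl M L x y) (h2 : Rl M R x z) :
    ∃ w, Rl M R y w ∧ Rl M L z w :=
  ⟨y * (x⁻¹ * z), rl_mul _ h2, by
    rw [show y * (x⁻¹ * z) = x * (x⁻¹ * y * (x⁻¹ * z)) by group, (h.comm h1 h2).eq,
      ← mul_assoc, mul_inv_cancel_left]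
    exact rl_mul _ h1⟩

theorem Perp.split (h : Perp M L R) (h1 : Rl M (L ∪ R) x y) : ∃ w, Rl M L x w ∧ Rl M R w y := by
  have step : ∀ g k, (k ∈ apar M L ∨ k ∈ apar M R) → (∃ w, Rl M L x w ∧ Rl M R w (x * g)) →
      ∃ w, Rl M L x w ∧ Rl M R w (x * (g * k)) := by
    rintro g k (hk | hk) ⟨w, a1, a2⟩ <;> rw [← mul_assoc]
    · obtain ⟨v, b1, b2⟩ := h.square (rl_mul _ hk) a2.symm
      exact ⟨v, a1.trans b2, b1.symm⟩
    · exact ⟨w, a1, a2.trans (rl_mul _ hk)⟩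
  simpa using apar_induction (P := fun g => ∃ w, Rl M L x w ∧ Rl M R w (x * g)) h1
    ⟨x, Rl.refl _, by simpa using Rl.refl x⟩
    (fun g _ s hs => step g _ (hs.imp gen_mem_apar gen_mem_apar))
    fun g _ s hs => step g _ (hs.imp (fun h => inv_mem (gen_mem_apar h))
      fun h => inv_mem (gen_mem_apar h))

/-- two cosets meet -/
def Me (M : CoxeterMatrix B) (X : Set B) (x : Artin M) (Y : Set B) (y : Artin M) : Prop :=
  ∃ z, Rl M X x z ∧ Rl M Y y z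

theorem Me.mono {X' Y' : Set B} (h : Me M X x Y y) (h1 : X ⊆ X') (h2 : Y ⊆ Y') :
    Me M X' x Y' y := let ⟨z, a, b⟩ := h; ⟨z, a.mono h1, b.mono h2⟩
theorem Me.symm (h : Me M X x Y y) : Me M Y y X x := let ⟨z, a, b⟩ := h; ⟨z, b, a⟩
theorem Me.congr (h : Me M X x Y y) (h' : Rl M Y y z) : Me M X x Y z :=
  let ⟨w, a, b⟩ := h; ⟨w, a, h'.symm.trans b⟩

/-- every four-cycle of standard cosets over `U` has a centre -/
def Q4 (M : CoxeterMatrix B) (U : Set B) : Prop :=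
  ∀ X1 ⊆ U, ∀ X2 ⊆ U, ∀ Y1 ⊆ U, ∀ Y2 ⊆ U, ∀ g11 g12 g21 g22 : Artin M, Rl M X1 g11 g12 →
    Rl M X2 g21 g22 → Rl M Y1 g11 g21 → Rl M Y2 g12 g22 → ∃ L R m, L ⊆ Y1 ∧ L ⊆ Y2 ∧ R ⊆ X1 ∧
      R ⊆ X2 ∧ Perp M L R ∧ Me M L m X1 g11 ∧ Me M L m X2 g21 ∧ Me M R m Y1 g11 ∧ Me M R m Y2 g12

theorem Q4.itp {U L1 R1 L2 R2 K1 S1 K2 S2 : Set B} (h : Q4 M U) (u1 : R1 ⊆ U) (u2 : R2 ⊆ U)
    (u3 : K1 ⊆ U) (u4 : K2 ⊆ U) (p1 : Perp M L1 R1) (p2 : Perp M L2 R2) (p3 : Perp M K1 S1)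
    (p4 : Perp M K2 S2) (l11 : L1 ⊆ K1) (l12 : L1 ⊆ K2) (l21 : L2 ⊆ K1) (l22 : L2 ⊆ K2)
    (r11 : S1 ⊆ R1) (r12 : S2 ⊆ R1) (r21 : S1 ⊆ R2) (r22 : S2 ⊆ R2) {g11 g12 g21 g22 : Artin M}
    (a1 : Rl M (L1 ∪ R1) g11 g12) (a2 : Rl M (L2 ∪ R2) g21 g22) (a3 : Rl M (K1 ∪ S1) g11 g21)
    (a4 : Rl M (K2 ∪ S2) g12 g22) : ∃ L R m, L1 ∪ L2 ⊆ L ∧ L ⊆ K1 ∩ K2 ∧ S1 ∪ S2 ⊆ R ∧
      R ⊆ R1 ∩ R2 ∧ Perp M L R ∧ Me M (L ∪ R) m (L1 ∪ R1) g11 ∧ Me M (L ∪ R) m (L2 ∪ R2) g21 ∧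
      Me M (L ∪ R) m (K1 ∪ S1) g11 ∧ Me M (L ∪ R) m (K2 ∪ S2) g12 := by
  obtain ⟨h12, b1, b2⟩ := p1.symm.split (Set.union_comm _ _ ▸ a1)
  obtain ⟨h22, c1, c2⟩ := p2.symm.split (Set.union_comm _ _ ▸ a2)
  obtain ⟨k21, d1, d2⟩ := p3.split a3
  have e0 := b2.mono (l12.trans (Set.subset_union_left (t := S2)))
  obtain ⟨k22, e1, e2⟩ := p4.split (e0.trans
    (a4.trans (c2.symm.mono (l22.trans Set.subset_union_left))))
  obtain ⟨L, R, m, f1, f2, f3, f4, f5, f6, f7, f8, f9⟩ := h _ u1 _ u2 _ u3 _ u4 _ _ _ _ b1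
    (((d2.mono r21).trans c1).trans (e2.symm.mono r22)) d1 e1
  refine ⟨L ∪ (L1 ∪ L2), R ∪ (S1 ∪ S2), m, Set.subset_union_right, by grind,
    Set.subset_union_right, by grind, ?_, f6.mono (by grind) (by grind),
    (f7.congr (d2.mono r21)).mono (by grind) (by grind), f8.mono (by grind) (by grind),
    (f9.mono (by grind) Set.subset_union_left).congr e0⟩
  rintro s (hs | hs | hs) t (ht | ht | ht)
  exacts [f5 s hs t ht, p3 s (f1 hs) t ht, p4 s (f2 hs) t ht, p1 s hs t (f3 ht),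
    p1 s hs t (r11 ht), p1 s hs t (r12 ht), p2 s hs t (f4 ht), p2 s hs t (r21 ht),
    p2 s hs t (r22 ht)]

/-- membership in a triple product of standard parabolic subgroups -/
def Tr (M : CoxeterMatrix B) (Y1 X Y2 : Set B) (x y : Artin M) : Prop :=
  ∃ a b, Rl M Y1 x a ∧ Rl M X a b ∧ Rl M Y2 y b

theorem Tr.red {Y1 Y2 : Set B} (hQ : Q4 M Set.univ) {x' y' : Artin M} (h1 : Rl M Y1 x x')
    (h2 : Rl M Y2 y y') (h3 : Rl M R x' y') (h : Tr M Y1 X Y2 x y) :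
    Tr M (Y1 ∩ R) (X ∩ R) (Y2 ∩ R) x' y' := by
  obtain ⟨a, b, a1, a2, a3⟩ := h
  obtain ⟨L, R', m, f1, f2, f3, f4, f5, ⟨m1, b1, b2⟩, -, ⟨n1, c1, c2⟩, ⟨n2, d1, d2⟩⟩ :=
    hQ R (by simp) X (by simp) Y1 (by simp) Y2 (by simp) _ _ _ _ h3 a2 (h1.symm.trans a1)
      (h2.symm.trans a3)
  obtain ⟨z1, e1, e2⟩ := f5.square b1 c1
  obtain ⟨z2, e3, e4⟩ := f5.square b1 d1
  exact ⟨z1, z2, (c2.trans (e2.mono f1)).inter (b2.trans (e1.mono f3)),
    (e1.symm.trans e3).mono (Set.subset_inter f4 f3),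
    (d2.trans (e4.mono f2)).inter (h3.symm.trans (b2.trans (e3.mono f3)))⟩

end Pool.Agent.Lib.MP_a1ec0a_al.TR
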