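import Pool.Agent.Lib.MP_a1ec0a_al.TCode

/-! A recursively enumerable system of certificates; soundness, completeness, the procedure. -/

namespace Pool.Agent.Lib.MP_a1ec0a_al.TR

open Pool.Agent.H51 Relation Cv

def ix (u : ℕ) (b : Bool) : ℕ := bif b then 2 * u + 1 else 2 * u
def ty (M : Mat) (σ : List ℕ) : Ty (Fin M.length) := fun z => (σ.getD (ix z.1 z.2) 0 : ℕ)
def leB (M : Mat) (σ τ : List ℕ) : Bool := (List.range M.length).all fun u =>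
  Nat.ble (σ.getD (ix u false) 0) (τ.getD (ix u false) 0) &&
    Nat.ble (σ.getD (ix u true) 0) (τ.getD (ix u true) 0)
def valB (M : Mat) (U : List ℕ) (a b : ℕ) (σ : List ℕ) : Bool :=
  (fl M U).all fun u => (fl M U).all fun v => me M u v == 2 ||
    Nat.ble (σ.getD (ix u false) 0 + bif u == a && v == b && !(a == b) then 1 else 0)
      (σ.getD (ix v true) 0 + bif u == b && v == a && !(a == b) && !(me M a b == 0) then 1 else 0)
def ff (U σ : List ℕ) : List ℕ := U.filter fun u => σ.getD (ix u false) 0 == σ.getD (ix u true) 0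
def s1 (M : Mat) (σ : List ℕ) : List ℕ := (List.range (2 * M.length)).map fun i => σ.getD i 0 + 1
def alB (M : Mat) (U Y : List ℕ) (k : ℕ) (σ τ : List ℕ) : Bool :=
  (List.range M.length).all fun u => ([false, true].all fun b =>
    bif memb U u && (b || memb Y u) then τ.getD (ix u b) 0 == σ.getD (ix u b) 0 + 1
    else τ.getD (ix u b) 0 == k && σ.getD (ix u b) 0 == k) &&
      (!memb U u || Nat.ble (k + 1) (σ.getD (ix u true) 0))
def sm (l : List ℕ) : ℕ := l.foldr (fun a b => a + b) 0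

variable {M : Mat} {U Y σ τ : List ℕ} {a b : Fin M.length}

theorem ix_lt (z : Fin M.length × Bool) : ix z.1 z.2 < 2 * M.length := by
  have := z.1.2; unfold ix; cases z.2 <;> simp <;> omega

theorem all_range' {p : ℕ → Bool} :
    (List.range M.length).all p = true ↔ ∀ s : Fin M.length, p s = true := by
  rw [List.all_eq_true]; exact all_range (p := fun s => p s = true)

theorem all_fl' {p : ℕ → Bool} :
    (fl M U).all p = true ↔ ∀ s : Fin M.length, s.1 ∈ U → p s = true := by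
  rw [List.all_eq_true]; exact all_fl (p := fun s => p s = true)

theorem leB_iff : leB M σ τ = true ↔ ty M σ ≤ ty M τ := by
  rw [leB, all_range']; simp [Pi.le_def, ty]

theorem valB_iff : valB M U a b σ = true ↔ (cv (cm M) (SL M U) a b).Val (ty M σ) := by
  simp only [valB, all_fl', Val, cv, ty, cm_apply, SL, Set.mem_ofPred_eq, Bool.or_eq_true,
    beq_iff_eq, Nat.ble_eq, Bool.cond_eq_ite, Bool.and_eq_true, Bool.not_eq_true', Fin.ext_iff,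
    ne_eq, beq_eq_false_iff_ne]
  refine forall₄_congr fun u _ v _ => ?_
  grind

theorem SL_ff : SL M (ff U σ) = (cv (cm M) (SL M U) a b).FF (ty M σ) := by
  ext u; simp [SL, ff, FF, cv, ty]

theorem ty_s1 : ty M (s1 M σ) = ty M σ + fun _ => 1 := by
  funext z; simp [ty, s1, ix_lt z]

theorem alB_iff {k : ℕ} :
    alB M U Y k σ τ = true ↔ (cv (cm M) (SL M U) a b).Al (SL M Y) k (ty M σ) (ty M τ) := by
  simp only [alB, all_range', Al, IZ, cv, ty, SL, Set.mem_ofPred_eq, Prod.forall, ← forall_and,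
    Bool.forall_bool, Bool.and_eq_true, List.all_cons, List.all_nil, Bool.cond_eq_ite, memb_iff,
    Bool.or_eq_true, Nat.ble_eq, Bool.not_eq_true', ← Bool.not_eq_true]
  refine forall_congr' fun u => ?_
  by_cases h : u.1 ∈ U <;> by_cases h' : u.1 ∈ Y <;> simp [h, h'] <;> omega

theorem getD_le_sm (l : List ℕ) (i : ℕ) : l.getD i 0 ≤ sm l := by
  induction l generalizing i with
  | nil => simp
  | cons a l ih =>
    cases i with
    | zero => simp [sm]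
    | succ i => exact (ih i).trans (Nat.le_add_left _ _)

theorem exists_ty {μ : Ty (Fin M.length)} (h : 0 ≤ μ) : ∃ l, ty M l = μ ∧ ∀ τ, μ ≤ ty M τ →
    l ∈ wordsP (List.range (sm τ + 1)) (2 * M.length) := by
  refine ⟨(List.range (2 * M.length)).map fun i => if h : i / 2 < M.length then
    (μ (⟨_, h⟩, i % 2 == 1)).toNat else 0, funext fun z => ?_, fun τ hτ => ?_⟩
  · have e1 : ix z.1 z.2 / 2 = z.1 := by unfold ix; cases z.2 <;> simp; omega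
    have e2 : (ix z.1 z.2 % 2 == 1) = z.2 := by unfold ix; cases z.2 <;> simp
    simpa [ty, ix_lt z, e1, e2] using ap h z
  · simp only [mem_wordsP, List.mem_map, List.mem_range, List.length_map, List.length_range,
      le_refl, and_true]
    rintro _ ⟨i, -, rfl⟩
    split_ifs with hi
    · have := ap hτ (⟨_, hi⟩, i % 2 == 1)
      have := getD_le_sm τ (ix (i / 2) (i % 2 == 1))
      simp only [ty] at *
      omega
    · omega

theorem ty_nonneg : 0 ≤ ty M σ := fun _ => Int.natCast_nonneg _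

abbrev J := Mat × Bool × (List ℕ × List ℕ × List ℕ × List ℕ) × (ℕ × ℕ × ℕ) × Wd × Wd

def jN (M : Mat) (Y1 X Y2 : List ℕ) (x y : Wd) : J := (M, false, (Y1, X, Y2, []), (0, 0, 0), x, y)
def jH (M : Mat) (U : List ℕ) (a b k : ℕ) (Y : List ℕ) (y : Wd) (σ τ : List ℕ) (g : Wd) : J :=
  (M, true, (U, Y, σ, τ), (a, b, k), y, g)

section Defs
variable (P : J → Prop) (M : Mat)

def LMCW (U : List ℕ) (a b : ℕ) (σ τ1 τ2 : List ℕ) (g1 g2 : Wd) : Prop :=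
  AllL (wordsP (List.range (sm τ1 + 1)) (2 * M.length)) fun μ =>
    (valB M U a b μ && leB M σ μ && leB M μ τ1 && leB M μ τ2 && !leB M μ σ) = false ∨
      P (jN M (int (ff U σ) (ff U τ1)) (int (ff U σ) (ff U μ)) (int (ff U σ) (ff U τ2)) g1 g2)
def RN (Y1 X Y2 : List ℕ) (x y : Wd) : Prop :=
  (∃ R x' y', RlW M Y1 x x' ∧ RlW M Y2 y y' ∧ RlW M R x' y' ∧
    P (jN M (int Y1 R) (int X R) (int Y2 R) x' y')) ∨ SphW M Y1 X Y2 x y ∨
  ∃ U a b k σ τ1 τ2 g1 g2 u, Nat.ble (a + 1) M.length = true ∧ Nat.ble (b + 1) M.length = true ∧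
    Nat.ble (u + 1) M.length = true ∧ SubW M Y1 U ∧ SubW M X U ∧ SubW M Y2 U ∧ MemL U u ∧
    memb X u = false ∧ P (jH M U a b k Y1 x σ τ1 g1) ∧ P (jH M U a b k Y2 y σ τ2 g2) ∧
    RlW M (ff U σ) g1 g2 ∧ LMCW P M U a b σ τ1 τ2 g1 g2
def RH (U : List ℕ) (a b k : ℕ) (Y : List ℕ) (y : Wd) (σ τ : List ℕ) (g : Wd) : Prop :=
  valB M U a b σ = true ∧ ((SubW M Y U ∧ alB M U Y k σ τ = true ∧ RlW M Y g y) ∨
    ∃ τ' g', leB M σ τ = true ∧ leB M τ (s1 M σ) = true ∧ RlW M (ff U τ) g' g ∧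
      P (jH M U a b k Y y τ τ' g') ∧ LMCW P M U a b τ τ' (s1 M σ) g' g)
def Step (j : J) : Prop :=
  (j.2.1 = false ∧ RN P j.1 j.2.2.1.1 j.2.2.1.2.1 j.2.2.1.2.2.1 j.2.2.2.2.1 j.2.2.2.2.2) ∨
  (j.2.1 = true ∧ RH P j.1 j.2.2.1.1 j.2.2.2.1.1 j.2.2.2.1.2.1 j.2.2.2.1.2.2 j.2.2.1.2.1
    j.2.2.2.2.1 j.2.2.1.2.2.1 j.2.2.1.2.2.2 j.2.2.2.2.2)

end Defs

theorem step_cpt (j : J) : Cpt fun P => Step P j := by
  unfold Step RN RH LMCW
  repeat' first
    | exact Cpt.const _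
    | exact Cpt.atom _
    | apply Cpt.and
    | apply Cpt.or
    | (apply Cpt.ex; intro)
    | (apply Cpt.all; intro)

section Eff
variable {α : Type} [Primcodable α] {M : α → Mat} {U X Y Z σ τ : α → List ℕ} {l : α → List J}
  {w x : α → Wd} {s t r : α → ℕ} {o : α → Bool}

@[fun_prop] theorem pr_ix (hs : PR s) (ho : PR o) : PR fun a => ix (s a) (o a) := by
  unfold ix; fun_prop
@[fun_prop] theorem pr_leB (hM : PR M) (hX : PR X) (hY : PR Y) :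
    PR fun a => leB (M a) (X a) (Y a) := by unfold leB; fun_prop
@[fun_prop] theorem pr_valB (hM : PR M) (hX : PR X) (hs : PR s) (ht : PR t) (hY : PR Y) :
    PR fun a => valB (M a) (X a) (s a) (t a) (Y a) := by unfold valB; fun_prop
@[fun_prop] theorem pr_ff (hX : PR X) (hY : PR Y) : PR fun a => ff (X a) (Y a) := by
  unfold ff; fun_prop
@[fun_prop] theorem pr_s1 (hM : PR M) (hY : PR Y) : PR fun a => s1 (M a) (Y a) := by
  unfold s1; fun_prop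
@[fun_prop] theorem pr_alB (hM : PR M) (hX : PR X) (hY : PR Y) (hs : PR s) (hσ : PR σ) (hτ : PR τ) :
    PR fun a => alB (M a) (X a) (Y a) (s a) (σ a) (τ a) := by unfold alB; fun_prop
@[fun_prop] theorem pr_sm (hY : PR Y) : PR fun a => sm (Y a) := by unfold sm; fun_prop
@[fun_prop] theorem pr_jN (hM : PR M) (hX : PR X) (hY : PR Y) (hZ : PR Z) (hw : PR w) (hx : PR x) :
    PR fun a => jN (M a) (X a) (Y a) (Z a) (w a) (x a) := by unfold jN; fun_prop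
@[fun_prop] theorem pr_jH (hM : PR M) (hU : PR U) (hs : PR s) (ht : PR t) (hr : PR r) (hY : PR Y)
    (hw : PR w) (hσ : PR σ) (hτ : PR τ) (hx : PR x) :
    PR fun a => jH (M a) (U a) (s a) (t a) (r a) (Y a) (w a) (σ a) (τ a) (x a) := by
  unfold jH; fun_prop
@[fun_prop] theorem s1_lmcW (hl : PR l) (hM : PR M) (hU : PR U) (hs : PR s) (ht : PR t) (hX : PR X)
    (hY : PR Y) (hZ : PR Z) (hw : PR w) (hx : PR x) :
    S1 fun a => LMCW (MemL (l a)) (M a) (U a) (s a) (t a) (X a) (Y a) (Z a) (w a) (x a) := by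
  unfold LMCW; fun_prop
@[fun_prop] theorem s1_rn (hl : PR l) (hM : PR M) (hX : PR X) (hY : PR Y) (hZ : PR Z) (hw : PR w)
    (hx : PR x) : S1 fun a => RN (MemL (l a)) (M a) (X a) (Y a) (Z a) (w a) (x a) := by
  unfold RN; fun_prop
@[fun_prop] theorem s1_rh (hl : PR l) (hM : PR M) (hU : PR U) (hs : PR s) (ht : PR t) (hr : PR r)
    (hY : PR Y) (hw : PR w) (hσ : PR σ) (hτ : PR τ) (hx : PR x) :
    S1 fun a => RH (MemL (l a)) (M a) (U a) (s a) (t a) (r a) (Y a) (w a) (σ a) (τ a) (x a) := by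
  unfold RH; fun_prop

end Eff

/-- The derivable judgments. -/
def DJ : J → Prop := Der fun j l => Step (MemL l) j

theorem DJ_s1 : S1 DJ := Der.s1 (by unfold Step; fun_prop)

theorem DJ_closed (j : J) (h : Step DJ j) : DJ j :=
  let ⟨l, a, b⟩ := (step_cpt j).2 _ h; Der.mk j l b a

theorem DJ_ind {Sem : J → Prop} (h : ∀ j, Step Sem j → Sem j) {j : J} (hj : DJ j) : Sem j :=
  Der.sound (fun j _ a b => h j ((step_cpt j).1 _ _ b a)) hj

theorem lmcW_iff {P : J → Prop} {τ1 τ2 : List ℕ} {g1 g2 : Wd} : LMCW P M U a b σ τ1 τ2 g1 g2 ↔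
    ∀ μ ∈ wordsP (List.range (sm τ1 + 1)) (2 * M.length), (cv (cm M) (SL M U) a b).Val (ty M μ) →
      ty M σ ≤ ty M μ → ty M μ ≤ ty M τ1 → ty M μ ≤ ty M τ2 → ¬ ty M μ ≤ ty M σ →
      P (jN M (int (ff U σ) (ff U τ1)) (int (ff U σ) (ff U μ)) (int (ff U σ) (ff U τ2)) g1 g2) := by
  simp only [LMCW, AllL, ← Bool.not_eq_true, Bool.and_eq_true, Bool.not_eq_true', valB_iff,
    leB_iff]
  refine forall₂_congr fun μ _ => ?_
  tauto

def Sem (j : J) : Prop := ∀ hM : TreeSph (cm j.1),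
  (j.2.1 = false → NT (cm j.1) (SL _ j.2.2.1.1) (SL _ j.2.2.1.2.1) (SL _ j.2.2.1.2.2.1)
    (ev _ j.2.2.2.2.1) (ev _ j.2.2.2.2.2)) ∧
  (j.2.1 = true → ∀ a b : Fin j.1.length, a.1 = j.2.2.2.1.1 → b.1 = j.2.2.2.1.2.1 →
    SH (c := cv (cm j.1) (SL _ j.2.2.1.1) a b) (fun _ _ => q4_all hM _) j.2.2.2.1.2.2
      (SL _ j.2.2.1.2.1) (ev _ j.2.2.2.2.1) (ty _ j.2.2.1.2.2.1) (ty _ j.2.2.1.2.2.2)
      (ev _ j.2.2.2.2.2))

theorem lmc_sound (hM : TreeSph (cm M)) {τ1 τ2 : List ℕ} {g1 g2 : Wd}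
    (h : LMCW Sem M U a b σ τ1 τ2 g1 g2) : (cv (cm M) (SL M U) a b).LMC (NT (cm M)) (ty M σ)
      (ty M τ1) (ty M τ2) (ev M g1) (ev M g2) := by
  intro μ h1 h2 h3 h4 h5
  obtain ⟨l, rfl, hl⟩ := exists_ty (ty_nonneg.trans h2)
  have := (lmcW_iff.1 h l (hl _ h3) h1 h2 h3 h4 (fun e => h5 (le_antisymm e h2)) hM).1 rfl
  simpa only [jN, SL_int, SL_ff (a := a) (b := b)] using this

theorem sound {j : J} (h : DJ j) : Sem j := by
  refine DJ_ind ?_ h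
  rintro ⟨M, o, ⟨l1, l2, l3, l4⟩, ⟨a, b, k⟩, x, y⟩ (⟨rfl, h⟩ | ⟨rfl, h⟩) hM
  · refine ⟨fun _ => ?_, by simp⟩
    rcases h with ⟨R, x', y', h1, h2, h3, h4⟩ | ⟨U, h1, h2, h3, h4, Q, -, h5⟩ |
      ⟨U, a, b, k, σ, τ1, τ2, g1, g2, u, h1, h2, h3, h4, h5, h6, h7, h8, h9, h10, h11, h12⟩
    · exact fun e => (h4 hM).1 rfl (by
        simpa only [jN, SL_int] using e.red (q4_all hM _) h1 h2 h3)
    · exact h5.sound h1 h2 h3 h4
    · rw [Nat.ble_eq] at h1 h2 h3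
      exact sh_fin (c := cv (cm M) (SL M U) ⟨a, h1⟩ ⟨b, h2⟩) h4 h5 h6 (u := ⟨u, h3⟩) h7
        (fun e => by simp [memb_iff.2 e] at h8) ((h9 hM).2 rfl _ _ rfl rfl)
        ((h10 hM).2 rfl _ _ rfl rfl) (SL_ff ▸ h11) (lmc_sound (a := ⟨a, h1⟩) (b := ⟨b, h2⟩) hM h12)
  · refine ⟨by simp, ?_⟩
    dsimp only at h hM ⊢
    rintro - a b rfl rfl
    obtain ⟨h0, ⟨h1, h2, h3⟩ | ⟨τ', g', h1, h2, h3, h4, h5⟩⟩ := h
    · exact sh_base h1 (valB_iff.1 h0) (alB_iff.1 h2) h3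
    · exact sh_step (valB_iff.1 h0) (leB_iff.1 h1) (ty_s1 ▸ leB_iff.1 h2) (SL_ff ▸ h3)
        ((h4 hM).2 rfl _ _ rfl rfl) (ty_s1 ▸ lmc_sound hM h5)

theorem DJ_complete (hM : TreeSph (cm M)) {w : Wd} (h : ev M w ≠ 1) : DJ (jN M [] [] [] [] w) := by
  let D : Set (Fin M.length) → Set (Fin M.length) → Set (Fin M.length) → Artin (cm M) →
      Artin (cm M) → Prop := fun Y1 X Y2 x y => ∀ a b c v w, SL M a = Y1 → SL M b = X →
        SL M c = Y2 → ev M v = x → ev M w = y → DJ (jN M a b c v w)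
  have lmc : ∀ {U a b σ τ1 τ2 g1 g2}, (cv (cm M) (SL M U) a b).LMC D (ty M σ) (ty M τ1) (ty M τ2)
      (ev M g1) (ev M g2) → LMCW DJ M U a b σ τ1 τ2 g1 g2 := fun h =>
    lmcW_iff.2 fun μ _ h1 h2 h3 h4 h5 => h _ h1 h2 h3 h4 (fun e => h5 e.le) _ _ _ _ _
      (by rw [SL_int, SL_ff, SL_ff]) (by rw [SL_int, SL_ff, SL_ff]) (by rw [SL_int, SL_ff, SL_ff])
      rfl rfl
  have e0 : SL M [] = ∅ := by simp [SL]
  refine nt_complete hM (D := D) (DH := fun U a b k Y y σ τ g => ∀ U' Y' y' σ' τ' g',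
    SL M U' = U → SL M Y' = Y → ev M y' = y → ty M σ' = σ → ty M τ' = τ → ev M g' = g →
      DJ (jH M U' a b k Y' y' σ' τ' g')) ?_ ?_ ?_ ?_ ?_ Set.univ ∅ (by simp) ∅ (by simp) ∅
    (by simp) 1 (ev M w) (by simp [Rl, apar_univ]) ?_ _ _ _ _ _ e0 e0 e0 ev_nil rfl
  · rintro _ _ _ R _ _ x' y' h1 h2 h3 h4 Y1 X Y2 x y rfl rfl rfl rfl rfl
    obtain ⟨R, rfl⟩ := exists_SL R
    obtain ⟨x', rfl⟩ := ev_surj x'
    obtain ⟨y', rfl⟩ := ev_surj y'
    exact DJ_closed _ (Or.inl ⟨rfl, Or.inl ⟨R, x', y', h1, h2, h3,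
      h4 _ _ _ _ _ (SL_int _ _) (SL_int _ _) (SL_int _ _) rfl rfl⟩⟩)
  · rintro U _ _ _ _ _ Q h1 h2 h3 h4 h5 h6 Y1 X Y2 x y rfl rfl rfl rfl rfl
    obtain ⟨U, rfl⟩ := exists_SL U
    exact DJ_closed _ (Or.inl ⟨rfl, Or.inr (Or.inl ⟨U, h1, h2, h3, h4, Q, h5, h6⟩)⟩)
  · rintro _ a b k _ _ _ _ _ h1 - h2 h3 h4 U Y y σ τ g rfl rfl rfl rfl rfl rfl
    exact DJ_closed _ (Or.inr ⟨rfl, valB_iff.2 h2, Or.inl ⟨h1, alB_iff.2 h3, h4⟩⟩)
  · rintro _ a b k _ _ _ _ τ' _ g' h1 h2 h3 h4 h5 h6 h7 h8 U Y y σ τ g rfl rfl rfl rfl rfl rfl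
    obtain ⟨τ', rfl, -⟩ := exists_ty (ty_nonneg.trans h5)
    obtain ⟨g', rfl⟩ := ev_surj g'
    rw [← ty_s1] at h4 h8
    exact DJ_closed _ (Or.inr ⟨rfl, valB_iff.2 h2, Or.inr ⟨τ', g', leB_iff.2 h3, leB_iff.2 h4,
      by rwa [← SL_ff] at h6, h7 _ _ _ _ _ _ rfl rfl rfl rfl rfl rfl, lmc h8⟩⟩)
  · rintro U a b k _ _ _ _ _ σ τ1 τ2 g1 g2 u h1 h2 h3 h4 h5 h6 h7 h8 - h9 h10 h11 h12 Y1 X Y2 x y
      rfl rfl rfl rfl rfl
    obtain ⟨U, rfl⟩ := exists_SL U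
    obtain ⟨τ1, rfl, -⟩ := exists_ty (h6.trans h7)
    obtain ⟨τ2, rfl, -⟩ := exists_ty (h6.trans h8)
    obtain ⟨σ, rfl, -⟩ := exists_ty h6
    obtain ⟨g1, rfl⟩ := ev_surj g1
    obtain ⟨g2, rfl⟩ := ev_surj g2
    exact DJ_closed _ (Or.inl ⟨rfl, Or.inr (Or.inr ⟨U, a, b, k, σ, τ1, τ2, g1, g2, u, by simp [jN],
      by simp [jN], by simp [jN], h1, h2, h3, h4, by simpa [← Bool.not_eq_true, SL, jN] using h5,
      h9 _ _ _ _ _ _ rfl rfl rfl rfl rfl rfl, h10 _ _ _ _ _ _ rfl rfl rfl rfl rfl rfl,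
      by rwa [← SL_ff] at h11, lmc h12⟩)⟩)
  · rintro ⟨a, b, h1, h2, h3⟩
    simpa [Rl, apar, h] using (h1.trans h2).trans h3.symm

theorem exists_proc : ∃ f : Mat × Wd →. Bool, Partrec f ∧
    ∀ M w, TreeSph (cm M) → ∃ b ∈ f (M, w), (b = true ↔ ev M w = 1) := by
  obtain ⟨R1, a1, a2⟩ : S1 fun x : Mat × Wd => OneW x.1 x.2 := by fun_prop
  obtain ⟨R2, b1, b2⟩ : S1 fun x : Mat × Wd => DJ (jN x.1 [] [] [] [] x.2) :=
    DJ_s1.comp (by fun_prop)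
  have h1 : PR fun y : (Mat × Wd) × ℕ => R1 y || R2 y := by fun_prop
  refine ⟨fun x => (Nat.rfind fun n => (Part.some (R1 (x, n) || R2 (x, n)) : Part Bool)).map
    fun n => R1 (x, n), (Partrec.rfind (Primrec.to_comp h1).partrec.to₂).map
      (Primrec.to_comp a1).to₂, fun M w hM => ?_⟩
  have : ∃ n, (R1 ((M, w), n) || R2 ((M, w), n)) = true := by
    by_cases h : ev M w = 1
    · exact ((a2 (M, w)).1 h).imp fun n hn => by simp [hn]
    · exact ((b2 (M, w)).1 (DJ_complete hM h)).imp fun n hn => by simp [hn]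
  obtain ⟨n, hn⟩ := this
  obtain ⟨m, hm, -⟩ := Nat.rfind_min' (p := fun n => R1 ((M, w), n) || R2 ((M, w), n)) hn
  refine ⟨_, Part.mem_map _ hm, fun h => (a2 (M, w)).2 ⟨m, h⟩, fun h => ?_⟩
  have := Nat.rfind_spec hm
  simp only [PFun.coe_val, Part.mem_some_iff, Bool.true_eq, Bool.or_eq_true] at this
  refine this.resolve_right fun e => (sound ((b2 (M, w)).2 ⟨m, e⟩) hM).1 rfl ⟨1, 1, ?_, ?_, ?_⟩ <;>
    simp only [jN, h, ev_nil] <;> exact Rl.refl _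

end Pool.Agent.Lib.MP_a1ec0a_al.TR
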