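import Pool.Agent.Lib.MP_a1ec0a_al.TNt
import Pool.Agent.Lib.MP_a1ec0a_al.TFive
import Pool.Agent.Lib.helper10.Asm

/-! Transfer of the results on tree-spherical diagrams to subdiagrams. -/

set_option linter.unusedSectionVars false

namespace Pool.Agent.Lib.MP_a1ec0a_al.TR

open Pool.Agent

variable {B : Type} [Fintype B] [DecidableEq B] {M : CoxeterMatrix B} {U T : Set B}

open Classical in
/-- the matrix that agrees with `M` on `U`, the other generators being central -/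
noncomputable def rs (M : CoxeterMatrix B) (U : Set B) : CoxeterMatrix B where
  M := Matrix.of fun s t => if s = t ∨ (s ∈ U ∧ t ∈ U) then M s t else 2
  isSymm := by
    ext s t; have := M.symmetric s t
    simp only [Matrix.transpose_apply, Matrix.of_apply]; grind
  diagonal s := by simp
  off_diagonal s t h := by
    have := M.off_diagonal s t h
    simp only [Matrix.of_apply]; grind

theorem rs_in {s t : B} (hs : s ∈ U) (ht : t ∈ U) : rs M U s t = M s t := by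
  simp [rs, hs, ht]

theorem rs_out {s t : B} (h : s ≠ t) (h' : ¬ (s ∈ U ∧ t ∈ U)) : rs M U s t = 2 := by
  simp only [rs, Matrix.of_apply, h, h', or_self, if_false]

theorem be_rs {l l' : List B} (h : H51.BE M l l') (hl : H51.Ov U l') : H51.BE (rs M U) l l' := by
  induction h with
  | refl => exact H51.BE.refl _
  | tail h e ih =>
    refine (ih (hl.be (Relation.ReflTransGen.single e))).trans ?_
    obtain ⟨x, y, i, j⟩ := e
    by_cases h0 : M i j = 0
    · rw [h0]; exact H51.BE.refl _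
    have h1 : j ∈ H51.alt j i (M i j) := by
      obtain ⟨m, hm⟩ := Nat.exists_eq_succ_of_ne_zero h0
      simp [hm, H51.alt]
    have h2 : i ∈ H51.alt j i (M i j) := H51.mem_alt_braid (by rw [H51.alt_M h0]; simp)
    rw [← rs_in (hl i (by simp [h2])) (hl j (by simp [h1]))]
    exact (H51.BE.braid i j).ctx x y

theorem sph_rs (h : H51.Sph M T) (hT : T ⊆ U) : H51.Sph (rs M U) T := by
  obtain ⟨δ, hδ⟩ := h.exists_del
  refine H51.sph_of_dv (V := δ) fun s hs => ?_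
  obtain ⟨c, hc⟩ := hδ.red_dv (p := [s]) (by simpa [H51.Ov] using hs)
    (by simp [CoxeterSystem.IsReduced])
  exact ⟨c, be_rs hc (hδ.1.mono hT)⟩

/-- finite-label subtrees of `U` are spherical -/
def TSU (M : CoxeterMatrix B) (U : Set B) : Prop :=
  ∀ T ⊆ U, ((diag M).induce T).IsTree → (∀ s ∈ T, ∀ t ∈ T, M s t ≠ 0) → H10.Sph M T

theorem TSU.rs (h : TSU M U) : TreeSph (rs M U) := by
  intro T h1 h2
  by_cases hT : T ⊆ U
  · refine sph_rs (h T hT ?_ fun s hs t ht => rs_in (M := M) (hT hs) (hT ht) ▸ h2 s hs t ht) hT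
    convert h1 using 1
    ext s t
    simp [diag, rs_in (hT s.2) (hT t.2)]
  obtain ⟨s, hs, hs'⟩ := Set.not_subset.1 hT
  refine H51.sph_of_dv (V := [s]) fun t ht => ?_
  obtain rfl : s = t := by
    obtain ⟨w⟩ := h1.connected.preconnected ⟨s, hs⟩ ⟨t, ht⟩
    generalize e : (⟨s, hs⟩ : T) = a at w
    cases w with
    | nil => exact congrArg Subtype.val e
    | cons k _ => subst e; exact (k.2 (rs_out k.1 fun e => hs' e.1)).elim
  exact H51.Dv.refl _

theorem alt_eq (s t : B) (m : ℕ) : H10.alt s t m = H51.alt s t m := by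
  induction m generalizing s t with
  | zero => rfl
  | succ m ih => rw [H10.alt, ih, H51.alt]

open Classical in
noncomputable def fw (M : CoxeterMatrix B) (U : Set B) : H51.Artin (rs M U) →* H10.Artin M :=
  H51.alift (fun s => if s ∈ U then H10.gen M s else 1) (by
    intro i _ j _
    by_cases hij : i = j
    · rw [hij]
    by_cases h : i ∈ U ∧ j ∈ U
    · have k : ∀ a b, a ∈ U → b ∈ U → ∀ m, (H51.alt a b m).map
          (fun s => if s ∈ U then H10.gen M s else 1) = (H10.alt a b m).map (H10.gen M) :=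
        fun a b ha hb m => by
          rw [alt_eq]; exact List.map_congr_left fun c hc => by
            rcases H51.mem_alt hc with rfl | rfl <;> simp [*]
      rw [rs_in h.1 h.2, k _ _ h.1 h.2, k _ _ h.2 h.1]
      exact H10.brOn_gen i trivial j trivial
    · rw [rs_out hij h]
      by_cases hi : i ∈ U <;> by_cases hj : j ∈ U <;> simp_all [H51.alt])

theorem fw_gen {s : B} (hs : s ∈ U) : fw M U (H51.gen _ s) = H10.gen M s := by simp [fw, hs]

theorem fw_mem {g : H51.Artin (rs M U)} (hT : T ⊆ U) (h : g ∈ H51.apar _ T) :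
    fw M U g ∈ H10.apar M T := by
  refine H51.apar_induction (P := fun g => fw M U g ∈ H10.apar M T) h (by simp) ?_ ?_ <;>
    intro g _ s hs ih
  · rw [map_mul, fw_gen (hT hs)]; exact mul_mem ih (H10.gen_mem_apar hs)
  · rw [map_mul, map_inv, fw_gen (hT hs)]; exact mul_mem ih (inv_mem (H10.gen_mem_apar hs))

theorem bw_br (M : CoxeterMatrix B) (U : Set B) : H10.BrOn M U (H51.gen (rs M U)) :=
  fun i hi j hj => by
    rw [alt_eq, alt_eq, ← rs_in hi hj]; exact H51.brOn_gen i trivial j trivial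

noncomputable def bw (M : CoxeterMatrix B) (U : Set B) (g : H10.Artin M) : H51.Artin (rs M U) :=
  H10.rext (bw_br M U) g

theorem bw_spec {g : H10.Artin M} (hT : T ⊆ U) (h : g ∈ H10.apar M T) :
    bw M U g ∈ H51.apar _ T ∧ fw M U (bw M U g) = g := by
  refine H10.apar_induction (P := fun g => bw M U g ∈ H51.apar _ T ∧ fw M U (bw M U g) = g) h
    (by simp [bw]) ?_ ?_ <;> intro g hg s hs ih <;>
    rw [bw, H10.rext_mul _ (H10.apar_mono hT hg), ← bw]
  · rw [H10.rext_gen _ (hT hs), map_mul, ih.2, fw_gen (hT hs)]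
    exact ⟨mul_mem ih.1 (H51.gen_mem_apar hs), rfl⟩
  · rw [H10.rext_inv _ (H10.gen_mem_apar (hT hs)), H10.rext_gen _ (hT hs), map_mul, map_inv, ih.2,
      fw_gen (hT hs)]
    exact ⟨mul_mem ih.1 (inv_mem (H51.gen_mem_apar hs)), rfl⟩

theorem bw_rl {o x y : H10.Artin M} (hT : T ⊆ U) (hx : o⁻¹ * x ∈ H10.apar M U)
    (h : x⁻¹ * y ∈ H10.apar M T) : Rl (rs M U) T (bw M U (o⁻¹ * x)) (bw M U (o⁻¹ * y)) := by
  rw [show o⁻¹ * y = o⁻¹ * x * (x⁻¹ * y) by group, bw, bw, H10.rext_mul _ hx]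
  exact rl_mul _ (bw_spec hT h).1

theorem fw_rl {o x : H10.Artin M} {y : H51.Artin (rs M U)} (hT : T ⊆ U)
    (hx : o⁻¹ * x ∈ H10.apar M U) (h : Rl (rs M U) T (bw M U (o⁻¹ * x)) y) :
    x⁻¹ * (o * fw M U y) ∈ H10.apar M T := by
  have := fw_mem hT h
  rw [map_mul, map_inv, (bw_spec subset_rfl hx).2] at this
  simpa [mul_assoc] using this

theorem fw_rl' {o x y : H10.Artin M} (hT : T ⊆ U) (hx : o⁻¹ * x ∈ H10.apar M U)
    (hy : o⁻¹ * y ∈ H10.apar M U) (h : Rl (rs M U) T (bw M U (o⁻¹ * x)) (bw M U (o⁻¹ * y))) :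
    x⁻¹ * y ∈ H10.apar M T := by
  simpa [(bw_spec subset_rfl hy).2] using fw_rl hT hx h

open H10

theorem ge_ne {a b : B} (h : Ge M 3 a b) (ha : a ∈ U) (hb : b ∈ U) : rs M U a b ≠ 2 := by
  rw [rs_in ha hb]; have := h.2; omega

variable [Primcodable B]

theorem TSU.g3 (h : TSU M U) : G3 M U := by
  have k : ∀ a ∈ U, ∀ b ∈ U, Ge M 3 a b → ∀ x11 x12 x21 x22 : Artin M,
      H10.Rl M (U \ {a}) x11 x12 → H10.Rl M (U \ {a}) x21 x22 → H10.Rl M (U \ {b}) x11 x21 →
      H10.Rl M (U \ {b}) x12 x22 → H10.Rl M (U \ {a}) x11 x21 ∨ H10.Rl M (U \ {b}) x11 x12 := by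
    intro a ha b hb e x11 x12 x21 x22 h1 h2 h3 h4
    have m0 : x11⁻¹ * x11 ∈ apar M U := by simp
    have m1 := kv_le _ _ h1
    have m2 := kv_le _ _ h3
    exact ((q4_all h.rs U).four (ge_ne e ha hb) (bw_rl Set.sdiff_subset m0 h1)
      (bw_rl Set.sdiff_subset m2 h2) (bw_rl Set.sdiff_subset m0 h3)
      (bw_rl Set.sdiff_subset m1 h4)).imp (fw_rl' Set.sdiff_subset m0 m2)
      (fw_rl' Set.sdiff_subset m0 m1)
  refine g3_of fun a ha b hb e => girth_of_star (fa_le U a b) (fb_le U a b) fun i g h1 h2 => ?_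
  interval_cases i
  · exact ⟨star_one, by rw [Set.pair_comm]; exact star_one⟩
  · exact ⟨star_two (k a ha b hb e), by rw [Set.pair_comm]; exact star_two (k b hb a ha e.symm)⟩

theorem TSU.five (h : TSU M U) : Five M U := by
  rintro ⟨y, e0⟩ ⟨z, e1⟩ ⟨_, e2⟩ ⟨a, u⟩ ⟨b, v⟩ ⟨rfl, a2, a3, a4, a5⟩ huv hge h0 h2
  by_cases ha : a ∈ U
  swap
  · exact Or.inr (mt_univ ha (mem_symm (mem_trans a4.co h2.co))).symm
  by_cases hb : b ∈ U
  swap
  · exact Or.inl (mt_univ hb (mem_symm (mem_trans h2.co huv.co))).symm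
  by_cases hy : y ∈ U
  swap
  · exact Or.inl (mt_univ hy (mem_trans h2.co huv.co))
  by_cases hz : z ∈ U
  swap
  · exact Or.inr (mt_univ hz (mem_trans a4.co h2.co))
  obtain ⟨c1, b1, b2⟩ := id a3
  obtain ⟨c2, b3, b4⟩ := id a4
  obtain ⟨c3, b5, b6⟩ := id h2
  obtain ⟨c4, b7, b8⟩ := id huv
  obtain ⟨c5, b9, b0⟩ := id h0
  have m1 : c1⁻¹ * c1 ∈ apar M U := by simp
  have m2 := kv_le _ _ (b2.div b3)
  have m3 := mem_trans m2 (kv_le _ _ (b4.div b5))
  have m4 := mem_trans m3 (kv_le _ _ (b6.div b7))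
  have s : ∀ t, U \ {t} ⊆ U := fun _ => Set.sdiff_subset
  rcases TR.five (q4_all h.rs U) ha hb hy hz hge.1 (ge_ne hge ha hb) (ge_ne a2 hy hz)
    (bw_rl (s _) m1 (b2.div b3)) (bw_rl (s _) m2 (b4.div b5)) (bw_rl (s _) m3 (b6.div b7))
    (bw_rl (s _) m4 (b8.div b0)) (bw_rl (s _) m1 (b1.div b9))
    (fun e => a5 ⟨c2, b1.mul (fw_rl' (s _) m1 m2 e), b4⟩) with ⟨x, d1, d2⟩ | ⟨x, d1, d2⟩
  · exact Or.inr ⟨_, b2.mul (fw_rl (s _) m1 d1), b7.mul (fw_rl (s _) m4 d2)⟩
  · exact (h.g3.Q (s := (a, u)) (t := (b, v)) hge a4.symm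
      ⟨_, b2.mul (fw_rl (s _) m1 d1), b8.mul (fw_rl (s _) m4 d2)⟩ huv.symm h2.symm).symm.imp
      Mt.symm Mt.symm

theorem bw_evalW {w : List (B × Bool)} (h : ∀ c ∈ w, c.1 ∈ U) :
    bw M U (evalW M w) = FreeGroup.lift (H51.gen _) (FreeGroup.mk w) := by
  induction w with
  | nil => simp [bw]
  | cons c w ih =>
    obtain ⟨s, b⟩ := c
    have hs : s ∈ U := h (s, b) (by simp)
    have ih := ih fun c hc => h c (by simp [hc])
    rw [← List.singleton_append, evalW_append, ← FreeGroup.mul_mk, map_mul, ← ih, bw, bw]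
    cases b
    · rw [evalW_false, rext_mul _ (inv_mem (gen_mem_apar hs)), rext_inv _ (gen_mem_apar hs),
        rext_gen _ hs]
      simp
    · rw [evalW_true, rext_mul _ (gen_mem_apar hs), rext_gen _ hs]
      simp

theorem sig_of_s1 {α : Type} [Primcodable α] {p : α → Prop} (h : S1 p) : Sig p :=
  let ⟨R, h1, h2⟩ := h
  ⟨fun x => R x = true, Primrec.eq.comp h1 (Primrec.const true), h2⟩

section
variable {n : ℕ} {M : CoxeterMatrix (Fin n)} {U : Set (Fin n)}

theorem TSU.re_nt (h : TSU M U) {Y1 X Y2 : Set (Fin n)} (u1 : Y1 ⊆ U) (u2 : X ⊆ U) (u3 : Y2 ⊆ U) :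
    RE (effA M) fun g => g ∈ apar M U ∧
      ¬ ∃ p ∈ apar M Y1, ∃ q ∈ apar M X, q⁻¹ * (p⁻¹ * g) ∈ apar M Y2 := by
  have k := sig_of_s1 (s1_nt h.rs Y1 X Y2)
  have : Sig fun w : List (Fin n × Bool) => ∃ w' : List (Fin n × Bool),
      (BAll w' fun c => c.1 ∈ U) ∧ (effA M).ev w' = (effA M).ev w ∧
      Cv.NT (TR.rs M U) Y1 X Y2 1 (FreeGroup.lift (H51.gen _) (FreeGroup.mk w')) :=
    Sig.ex (Sig.and (Sig.ball (by fun_prop) (sig_memSet _ (by fun_prop)))
      (Sig.and (EC.sig_eq (EC.ev Primrec.snd) (EC.ev Primrec.fst)) (k.comp (by fun_prop))))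
  have b1 : bw M U (1⁻¹ * 1) = 1 := by simp [bw]
  have m1 : (1 : Artin M)⁻¹ * 1 ∈ apar M U := by simp
  refine this.of_eq fun w => ⟨?_, ?_⟩
  · rintro ⟨w', a1, a2, a3⟩
    rw [← a2, effA_ev]
    refine ⟨evalW_mem a1, ?_⟩
    rintro ⟨p, c1, q, c2, c3⟩
    have m2 : 1⁻¹ * evalW M w' ∈ apar M U := by simpa using evalW_mem a1
    have m3 : 1⁻¹ * p ∈ apar M Y1 := by simpa using c1
    have := bw_rl u3 m2 (y := p * q) (by simpa [mul_assoc] using inv_mem c3)
    rw [inv_one, one_mul, bw_evalW a1] at this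
    exact a3 ⟨_, _, b1 ▸ bw_rl u1 m1 m3, by
      simpa using bw_rl u2 (apar_mono u1 m3) (y := p * q) (by simpa using c2), this⟩
  · rintro ⟨a1, a2⟩
    obtain ⟨w', c1, c2⟩ := exists_evalW a1
    refine ⟨w', c1, c2.symm, ?_⟩
    rintro ⟨p, q, d1, d2, d3⟩
    rw [← bw_evalW c1, ← c2] at d3
    have := fw_mem u3 d3
    rw [map_mul, map_inv, (bw_spec subset_rfl a1).2] at this
    refine a2 ⟨_, by simpa using fw_mem u1 d1, _, fw_mem u2 d2, ?_⟩
    simpa [mul_assoc] using inv_mem this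

theorem TSU.wp (h : TSU M U) : WP M U :=
  (h.re_nt (Y1 := ∅) (X := ∅) (Y2 := ∅) (by simp) (by simp) (by simp)).of_eq fun g => by
    simp [apar]

theorem TSU.agp3 (h : TSU M U) {a b : Fin n} (hab : Ge M 3 a b) : AGP M U a b 3 := by
  refine ⟨h.g3 a b hab, fun k hk => ?_⟩
  by_cases hk2 : k ≤ 2
  · exact ⟨h.wp.re_pr a b hk2, by rw [Set.pair_comm]; exact h.wp.re_pr b a hk2⟩
  obtain rfl : k = 3 := by omega
  exact ⟨(h.re_nt Set.sdiff_subset Set.sdiff_subset Set.sdiff_subset).of_eq fun g => by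
      rw [pr_three (fa_le U a b) (fb_le U a b)],
    (h.re_nt Set.sdiff_subset Set.sdiff_subset Set.sdiff_subset).of_eq fun g => by
      rw [pr_three (fb_le U a b) (fa_le U a b)]⟩

end

end Pool.Agent.Lib.MP_a1ec0a_al.TR
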