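import Pool.Agent.Lib.MP_a1ec0a_al.UInd

/-! Diagrams whose minimal non-spherical subdiagrams are triples or simply laced cycles. -/

set_option linter.unusedSectionVars false

namespace Pool.Agent.Lib.MP_a1ec0a_al.TR

open Pool.Agent H10

section
variable {B : Type} {M : CoxeterMatrix B} [Fintype B] [DecidableEq B] [Primcodable B]
  {U : Set B}

theorem not_sph_vec' {v : B → ℝ} (hv : ∀ x, 0 ≤ v x) (hs : ∀ j, j ∉ U → v j = 0) (hne : v ≠ 0)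
    (h : ∀ x, v x = 0 ∨ ∃ S : Finset B, x ∉ S ∧ v x ≤ ∑ j ∈ S, kc M x j * v j) : ¬ Sph M U := by
  rw [sph_iff]
  refine not_finite_of_vec (cx M) hv hs hne fun x _ => ?_
  obtain ⟨S, h1, h2⟩ := (h x).elim (fun e => (⟨∅, by simp, by simp [e]⟩ :
    ∃ S : Finset B, x ∉ S ∧ v x ≤ ∑ j ∈ S, kc M x j * v j)) id
  change ∑ j, -kc M x j * v j ≤ 0
  rw [← Finset.add_sum_erase _ _ (Finset.mem_univ x), kc_self]
  have := Finset.sum_le_sum_of_subset_of_nonneg (f := fun j => kc M x j * v j)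
    (show S ⊆ Finset.univ.erase x from fun j hj => by simp; rintro rfl; exact h1 hj)
    fun j hj _ => mul_nonneg (kc_nonneg (Finset.ne_of_mem_erase hj).symm) (hv j)
  simp only [neg_mul, Finset.sum_neg_distrib]
  linarith

theorem not_sph_gad {n : ℕ} {f : ℕ → B} {E0 E1 : Finset B} {w0 w1 : B → ℝ}
    (h1 : ∀ i < n, Ge M 3 (f i) (f (i + 1))) (h2 : ∀ i ≤ n, ∀ j ≤ n, f i = f j → i = j)
    (d0 : ∀ i ≤ n, f i ∉ E0) (d1 : ∀ i ≤ n, f i ∉ E1) (d : Disjoint E0 E1)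
    (p0 : ∀ c ∈ E0, 0 ≤ w0 c ∧ w0 c ≤ kc M c (f 0)) (p1 : ∀ c ∈ E1, 0 ≤ w1 c ∧ w1 c ≤ kc M c (f n))
    (s0 : 1 / 2 ≤ ∑ c ∈ E0, kc M (f 0) c * w0 c) (s1 : 1 / 2 ≤ ∑ c ∈ E1, kc M (f n) c * w1 c) :
    ¬ Sph M {x | x ∈ E0 ∨ x ∈ E1 ∨ ∃ i ≤ n, x = f i} := by
  classical
  let v : B → ℝ := fun x => if x ∈ E0 then w0 x else if x ∈ E1 then w1 x else
    if ∃ i ≤ n, x = f i then 1 else 0
  have hv : ∀ i ≤ n, v (f i) = 1 := fun i hi => by
    simp only [v]; rw [if_neg (d0 i hi), if_neg (d1 i hi), if_pos ⟨i, hi, rfl⟩]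
  have v0 : ∀ c ∈ E0, v c = w0 c := fun c hc => if_pos hc
  have v1 : ∀ c ∈ E1, v c = w1 c := fun c hc => by
    simp only [v]; rw [if_neg (Finset.disjoint_right.1 d hc), if_pos hc]
  refine not_sph_vec' (v := v) (fun x => ?_) (fun j hj => ?_)
    (fun e => by simpa [e] using hv 0 (by omega)) fun x => ?_
  · simp only [v]; split_ifs with a b
    exacts [(p0 x a).1, (p1 x b).1, zero_le_one, le_rfl]
  · simp only [Set.mem_ofPred_eq, not_or] at hj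
    simp only [v]; rw [if_neg hj.1, if_neg hj.2.1, if_neg hj.2.2]
  by_cases e0 : x ∈ E0
  · exact Or.inr ⟨{f 0}, by simp; rintro rfl; exact d0 0 (by omega) e0, by
      simpa [v0 x e0, hv 0] using (p0 x e0).2⟩
  by_cases e1 : x ∈ E1
  · exact Or.inr ⟨{f n}, by simp; rintro rfl; exact d1 n le_rfl e1, by
      simpa [v1 x e1, hv n] using (p1 x e1).2⟩
  by_cases e : ∃ i ≤ n, x = f i
  swap
  · exact Or.inl (by simp only [v]; rw [if_neg e0, if_neg e1, if_neg e])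
  obtain ⟨i, hi, rfl⟩ := e
  obtain ⟨S0, a1, a2, a3⟩ : ∃ S : Finset B, (∀ c ∈ S, c ∈ E0 ∨ ∃ j < i, c = f j) ∧ f i ∉ S ∧
      1 / 2 ≤ ∑ c ∈ S, kc M (f i) c * v c := by
    rcases i with _ | i
    · exact ⟨E0, fun _ => Or.inl, e0, by
        rwa [Finset.sum_congr rfl fun c hc => by rw [v0 c hc]]⟩
    · have := h1 i hi
      exact ⟨{f i}, by simp; exact Or.inr ⟨i, le_rfl, rfl⟩, by simpa using this.1.symm, by
        simpa [hv i (by omega)] using this.symm.half⟩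
  obtain ⟨S1, b1, b2, b3⟩ : ∃ S : Finset B, (∀ c ∈ S, c ∈ E1 ∨ ∃ j ≤ n, i < j ∧ c = f j) ∧
      f i ∉ S ∧ 1 / 2 ≤ ∑ c ∈ S, kc M (f i) c * v c := by
    by_cases e : i = n
    · subst e
      exact ⟨E1, fun _ => Or.inl, e1, by
        rwa [Finset.sum_congr rfl fun c hc => by rw [v1 c hc]]⟩
    · have := h1 i (by omega)
      exact ⟨{f (i + 1)}, by simp; exact Or.inr ⟨i + 1, by omega, by omega, rfl⟩,
        by simpa using this.1, by simpa [hv (i + 1) (by omega)] using this.half⟩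
  refine Or.inr ⟨S0 ∪ S1, by simp [a2, b2], ?_⟩
  rw [Finset.sum_union (Finset.disjoint_left.2 fun c c0 c1 => ?_), hv i hi]
  · linarith
  rcases a1 c c0 with k | ⟨j, k, rfl⟩ <;> rcases b1 _ c1 with k' | ⟨j', k1, k2, k3⟩
  · exact Finset.disjoint_left.1 d k k'
  · exact d0 j' k1 (k3 ▸ k)
  · exact d1 j (by omega) k'
  · have := h2 _ (by omega) _ k1 k3; omega

/-- the properties of a simply laced cycle that are used -/
structure Cy (M : CoxeterMatrix B) (C : Set B) : Prop where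
  ne : C.Nonempty
  deg : ∀ p ∈ C, ∃ c1 ∈ C, ∃ c2 ∈ C, c1 ≠ c2 ∧ M p c1 = 3 ∧ M p c2 = 3
  lab : ∀ p ∈ C, ∀ q ∈ C, ¬ Ge M 4 p q
  cyc : ∀ T, C ⊆ T → ¬ ((diag M).induce T).IsAcyclic

theorem ge3 {a b : B} (h : M a b = 3) : Ge M 3 a b := ⟨by rintro rfl; simp at h, by omega⟩

theorem Cy.small {C : Set B} (h : Cy M C) (hT : TB M U) (hU : C ⊆ U) {a b c : B}
    (hs : C ⊆ {a, b, c}) : False := by
  obtain ⟨p, hp⟩ := h.ne
  obtain ⟨c1, a1, c2, a2, a3, a4, a5⟩ := h.deg p hp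
  obtain ⟨d1, b1, d2, b2, b3, b4, b5⟩ := h.deg c1 a1
  have := hT.1 _ (hU hp) _ (hU a1) _ (hU a2) (ge3 a4)
  have e : d1 = c2 ∨ d2 = c2 := by
    have := hs hp; have := hs a1; have := hs a2; have := hs b1; have := hs b2
    have := (ge3 a4).1; have := (ge3 a5).1; have := (ge3 b4).1; have := (ge3 b5).1
    simp only [Set.mem_insert_iff, Set.mem_singleton_iff] at *
    grind
  rcases e with rfl | rfl
  exacts [this (ge3 b4) (ge3 a5), this (ge3 b5) (ge3 a5)]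

end

variable {n : ℕ} {M : CoxeterMatrix (Fin n)} {U : Set (Fin n)}

/-- sphericity is decided on triples and simply laced cycles -/
def Hyp2 (M : CoxeterMatrix (Fin n)) : Prop :=
  ∀ T : Set (Fin n), (∀ i ∈ T, ∀ j ∈ T, ∀ k ∈ T, Sph M {i, j, k}) → (∀ C ⊆ T, ¬ Cy M C) → Sph M T

theorem Hyp2.core (H : Hyp2 M) (hT : TB M U) (h6 : ∀ a ∈ U, ∀ b ∈ U, ¬ Ge M 6 a b) {y z : Fin n}
    (na : ∀ s, ∀ t ∈ U, Ge M 4 s t → s = y ∨ s = z → t = y ∨ t = z) {O : Set (Fin n)}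
    (o1 : ∀ C ⊆ U, Cy M C → C ⊆ O)
    (o2 : ∀ p ∈ U, ¬ (p = y ∨ p = z) → ∀ q ∈ U, Ge M 4 p q → p ∈ O)
    {m : ℕ} {f : ℕ → Fin n} {e0 c1 c2 : Fin n} {E : Finset (Fin n)} {w : Fin n → ℝ}
    (h1 : ∀ i < m, Ge M 3 (f i) (f (i + 1))) (h2 : ∀ i ≤ m, ∀ j ≤ m, f i = f j → i = j)
    (hU : ∀ i ≤ m, f i ∈ U) (he : e0 ∈ U) (a1 : f 0 = y ∨ f 0 = z) (a2 : e0 = y ∨ e0 = z)
    (a3 : Ge M 4 (f 0) e0) (a5 : ∀ i ≤ m, f i = y ∨ f i = z → i = 0)
    (a6 : ∀ i ≤ m, f i ∈ O → i = m) (a7 : e0 ∈ O → m = 0) (b1 : ∀ c ∈ E, c ∈ U ∧ c ∈ O ∧ c ≠ f m ∧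
      c ≠ e0 ∧ (c = c1 ∨ c = c2) ∧ 0 ≤ w c ∧ w c ≤ kc M c (f m))
    (b2 : 1 / 2 ≤ ∑ c ∈ E, kc M (f m) c * w c)
    (b3 : ∀ a, a ∈ E ∨ a = f m → ∀ b, b ∈ E ∨ b = f m → ∀ c, c ∈ E ∨ c = f m → Ge M 4 a b →
      Ge M 4 b c → a = c) : False := by
  have d0 : ∀ i ≤ m, f i ≠ e0 := fun i hi e => a3.1 (a5 i hi (e ▸ a2) ▸ e)
  have k0 := kc_nonneg (M := M) a3.1
  have sub : {x | x ∈ ({e0} : Finset (Fin n)) ∨ x ∈ E ∨ ∃ i ≤ m, x = f i} ⊆ U := by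
    rintro x (h | h | ⟨i, hi, rfl⟩)
    exacts [Finset.mem_singleton.1 h ▸ he, (b1 x h).1, hU i hi]
  have inO : ∀ x ∈ {x | x ∈ ({e0} : Finset (Fin n)) ∨ x ∈ E ∨ ∃ i ≤ m, x = f i}, x ∈ O →
      x = e0 ∨ x ∈ E ∨ x = f m := by
    rintro x (h | h | ⟨i, hi, rfl⟩) hx
    exacts [Or.inl (Finset.mem_singleton.1 h), Or.inr (Or.inl h),
      Or.inr (Or.inr (by rw [a6 i hi hx]))]
  refine not_sph_gad (E0 := {e0}) (w0 := fun _ => kc M (f 0) e0) h1 h2 (by simpa using d0)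
    (fun i hi e => (b1 _ e).2.2.1 (by rw [a6 i hi (b1 _ e).2.1]))
    (by simpa using fun e => (b1 _ e).2.2.2.1 rfl) (by simp [k0, kc_symm M e0])
    (fun c hc => (b1 c hc).2.2.2.2.2) (by simpa [← sq] using kc_sq_four a3.2) b2
    (H _ (trip (hT.mono sub) (fun a ha b hb => h6 a (sub ha) b (sub hb))
      fun a ha b hb c hc k1 k2 => ?_) fun C hC hy => ?_)
  · have := k1.1
    have := k2.1
    by_cases e : b = y ∨ b = z
    · have := na _ _ (sub ha) k1.symm e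
      have := na _ _ (sub hc) k2 e
      grind
    · have e1 : ¬ (a = y ∨ a = z) := fun k => e (na _ _ (sub hb) k1 k)
      have e2 : ¬ (c = y ∨ c = z) := fun k => e (na _ _ (sub hb) k2.symm k)
      exact b3 a ((inO a ha (o2 a (sub ha) e1 b (sub hb) k1)).resolve_left fun k => e1 (k ▸ a2))
        b ((inO b hb (o2 b (sub hb) e c (sub hc) k2)).resolve_left fun k => e (k ▸ a2))
        c ((inO c hc (o2 c (sub hc) e2 b (sub hb) k2.symm)).resolve_left fun k => e2 (k ▸ a2)) k1 k2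
  · have s := fun x hx => inO x (hC hx) (o1 C (hC.trans sub) hy hx)
    by_cases e : e0 ∈ C
    · obtain rfl := a7 (o1 C (hC.trans sub) hy e)
      refine hy.small hT (hC.trans sub) (a := e0) (b := c1) (c := c2) fun x hx => ?_
      rcases s x hx with k | k | rfl
      exacts [Or.inl k, Or.inr (b1 x k).2.2.2.2.1, (hy.lab _ hx _ e a3).elim]
    · refine hy.small hT (hC.trans sub) (a := f m) (b := c1) (c := c2) fun x hx => ?_
      rcases s x hx with rfl | k | k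
      exacts [(e hx).elim, Or.inr (b1 x k).2.2.2.2.1, Or.inl k]

theorem Hyp2.empty (H : Hyp2 M) (hc : ∀ y ∈ U, ∀ z ∈ U, (gr M U).Reachable y z) (hT : TB M U)
    (h6 : ∀ a ∈ U, ∀ b ∈ U, ¬ Ge M 6 a b) {y z : Fin n} (hy : y ∈ U) (hz : z ∈ U) (h4 : Ge M 4 y z)
    (na : ∀ s, ∀ t ∈ U, Ge M 4 s t → s = y ∨ s = z → t = y ∨ t = z) {o : Fin n} (ho : o ∈ U) :
    ¬ ((∃ C ⊆ U, Cy M C ∧ o ∈ C) ∨ (¬ (o = y ∨ o = z) ∧ ∃ q ∈ U, Ge M 4 o q)) := by
  intro k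
  set O := {p | p ∈ U ∧ ((∃ C ⊆ U, Cy M C ∧ p ∈ C) ∨ (¬ (p = y ∨ p = z) ∧ ∃ q ∈ U, Ge M 4 p q))}
  obtain ⟨m, f, e0, h1, h2, hU, he, a1, a2, a3, a4, a5, a6, a7⟩ : ∃ (m : ℕ) (f : ℕ → Fin n)
      (e0 : Fin n), (∀ i < m, Ge M 3 (f i) (f (i + 1))) ∧
      (∀ i ≤ m, ∀ j ≤ m, f i = f j → i = j) ∧ (∀ i ≤ m, f i ∈ U) ∧ e0 ∈ U ∧
      (f 0 = y ∨ f 0 = z) ∧ (e0 = y ∨ e0 = z) ∧ Ge M 4 (f 0) e0 ∧ f m ∈ O ∧
      (∀ i ≤ m, f i = y ∨ f i = z → i = 0) ∧ (∀ i ≤ m, f i ∈ O → i = m) ∧ (e0 ∈ O → m = 0) := by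
    by_cases e1 : y ∈ O
    · exact ⟨0, fun _ => y, z, by simp, by simp, by simpa, hz, by simp, by simp, h4, e1, by simp,
        by simp, by simp⟩
    by_cases e2 : z ∈ O
    · exact ⟨0, fun _ => z, y, by simp, by simp, by simpa, hy, by simp, by simp, h4.symm, e2,
        by simp, by simp, by simp⟩
    obtain ⟨m, f, a1, a2, a3, a4, a5, a6⟩ := exists_min_path (S := {y, z}) (O := O) (Or.inl rfl)
      ⟨ho, k⟩ (hc y hy o ho)
    have hU : ∀ i ≤ m, f i ∈ U := fun i hi => by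
      by_cases e : i = m
      exacts [e ▸ a2.1, (a3 i (by omega)).2.1]
    rcases id a1 with e | e
    · exact ⟨m, f, z, fun i hi => (a3 i hi).1, a4, hU, hz, a1, Or.inr rfl, e ▸ h4, a2, a5, a6,
        fun k => (e2 k).elim⟩
    · exact ⟨m, f, y, fun i hi => (a3 i hi).1, a4, hU, hy, a1, Or.inl rfl, e ▸ h4.symm, a2, a5, a6,
        fun k => (e1 k).elim⟩
  have core := fun c1 c2 E w => H.core hT h6 na (O := O)
    (fun C hC h p hp => ⟨hC hp, Or.inl ⟨C, hC, h, hp⟩⟩)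
    (fun p hp e q hq k => ⟨hp, Or.inr ⟨e, q, hq, k⟩⟩) (c1 := c1) (c2 := c2) (E := E) (w := w)
    h1 h2 hU he a1 a2 a3 a5 a6 a7
  rcases a4.2 with ⟨C, b1, b2, b3⟩ | ⟨b1, q, b2, b3⟩
  · obtain ⟨c1, d1, c2, d2, d3, d4, d5⟩ := b2.deg _ b3
    have l : ∀ c ∈ C, M (f m) c = 3 → c ∈ U ∧ c ∈ O ∧ c ≠ f m ∧ c ≠ e0 ∧ 1 / 2 ≤ kc M c (f m) := by
      intro c hc e
      have cO : c ∈ O := ⟨b1 hc, Or.inl ⟨C, b1, b2, hc⟩⟩
      refine ⟨b1 hc, cO, (ge3 e).1.symm, ?_, (ge3 e).symm.half⟩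
      rintro rfl
      obtain rfl := a7 cO
      exact b2.lab _ b3 _ hc a3
    refine core c1 c2 {c1, c2} (fun _ => 1 / 2) (fun c hc => ?_) ?_ fun a ha b hb c _ k _ => ?_
    · have hc : c = c1 ∨ c = c2 := by simpa using hc
      obtain ⟨g1, g2, g3, g4, g5⟩ := l c (by rcases hc with rfl | rfl <;> assumption)
        (by rcases hc with rfl | rfl <;> assumption)
      exact ⟨g1, g2, g3, g4, hc, by norm_num, g5⟩
    · rw [Finset.sum_pair d3]; linarith [(ge3 d4).half, (ge3 d5).half]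
    · have t : ∀ a, a ∈ ({c1, c2} : Finset (Fin n)) ∨ a = f m → a ∈ C := by
        simp only [Finset.mem_insert, Finset.mem_singleton]
        rintro a ((rfl | rfl) | rfl) <;> assumption
      exact (b2.lab _ (t a ha) _ (t b hb) k).elim
  · have c3 : ¬ (q = y ∨ q = z) := fun e => b1 (na _ _ a4.1 b3.symm e)
    refine core q q {q} (fun _ => kc M (f m) q) (fun c hc => ?_)
      (by simpa [← sq] using kc_sq_four b3.2) fun a ha b hb c hc k k' => ?_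
    · obtain rfl : c = q := by simpa using hc
      exact ⟨b2, ⟨b2, Or.inr ⟨c3, _, a4.1, b3.symm⟩⟩, b3.1.symm, fun e => c3 (e ▸ a2), Or.inl rfl,
        kc_nonneg b3.1, (kc_symm M _ _).le⟩
    · have := k.1
      have := k'.1
      simp only [Finset.mem_singleton] at ha hb hc
      grind

theorem Hyp2.cls (H : Hyp2 M) : Cls M := by
  refine ⟨fun U h T hT h1 _ => H T (fun i hi j hj k hk => h i (hT hi) j (hT hj) k (hT hk))
    fun C hC hy => hy.cyc T hC h1.isAcyclic, fun U _ hc hT h6 y hy z hz h na => ?_⟩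
  have e := fun o ho => not_or.1 (H.empty hc hT h6 hy hz h na (o := o) ho)
  have un : ∀ s ∈ U, ∀ t ∈ U, Ge M 4 s t → s = y ∨ s = z := fun s hs t ht k =>
    by_contra fun k' => (e s hs).2 ⟨k', t, ht, k⟩
  have k := H U (trip hT h6 fun a ha b hb c hc h1 h2 => by
    have := un a ha b hb h1; have := un b hb c hc h2; have := un c hc b hb h2.symm
    have := h1.1; have := h2.1; grind) fun C hC hy =>
      let ⟨p, hp⟩ := hy.ne; (e p (hC hp)).1 ⟨C, hC, hy, hp⟩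
  have k' := k.four hy hz h (h6 y hy z hz) fun s hs t ht e => by
    have := un s hs t ht e; have := un t ht s hs e.symm; have := e.1; grind
  exact ⟨k', k.cv hy hz (by omega) h k'.1⟩

end Pool.Agent.Lib.MP_a1ec0a_al.TR
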