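import Pool.Agent.Lib.MP_a1ec0a_al.UBr

/-! The induction over subdiagrams, relative to the treatment of isolated edges with label four
or five. -/

set_option linter.unusedSectionVars false

namespace Pool.Agent.Lib.MP_a1ec0a_al.TR

open Pool.Agent H10

variable {n : ℕ} {M : CoxeterMatrix (Fin n)} {U : Set (Fin n)}

theorem trip (hT : TB M U) (h6 : ∀ a ∈ U, ∀ b ∈ U, ¬ Ge M 6 a b)
    (h4 : ∀ a ∈ U, ∀ b ∈ U, ∀ c ∈ U, Ge M 4 a b → Ge M 4 b c → a = c) :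
    ∀ i ∈ U, ∀ j ∈ U, ∀ k ∈ U, Sph M {i, j, k} := by
  have h0 : ∀ a ∈ U, ∀ b ∈ U, M a b ≠ 0 := fun a ha b hb e =>
    h6 a ha b hb ⟨by rintro rfl; simp at e, Or.inl e⟩
  refine fun i hi j hj k hk => sph3 (h0 i hi j hj) (h0 j hj k hk) (h0 i hi k hk)
    fun e1 e2 e3 => ?_
  have a1 := hT.1 i hi j hj k hk
  have a2 := h6 i hi j hj
  have a3 := h6 j hj k hk
  have a4 := h6 i hi k hk
  have a5 := h4 i hi j hj k hk
  have a6 := fun a b => h4 j hj k hk i hi a (Ge.symm b)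
  have a7 := fun a b => h4 j hj i hi k hk (Ge.symm a) b
  simp only [Ge, ne_eq, e1, e2, e3, Ne.symm e1, not_false_eq_true, true_and, imp_false] at *
  unfold NSph; omega

/-- what the induction needs -/
structure Cls (M : CoxeterMatrix (Fin n)) : Prop where
  tsu : ∀ U, (∀ i ∈ U, ∀ j ∈ U, ∀ k ∈ U, Sph M {i, j, k}) → TSU M U
  four : ∀ U, (∀ V ⊂ U, Inv M V) → (∀ y ∈ U, ∀ z ∈ U, (gr M U).Reachable y z) → TB M U →
    (∀ a ∈ U, ∀ b ∈ U, ¬ Ge M 6 a b) → ∀ y ∈ U, ∀ z ∈ U, Ge M 4 y z →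
    (∀ s, ∀ t ∈ U, Ge M 4 s t → s = y ∨ s = z → t = y ∨ t = z) → AGP M U y z 4 ∧ CV M U y z 3

theorem Cls.conn (H : Cls M) (IH : ∀ V ⊂ U, Inv M V)
    (hc : ∀ y ∈ U, ∀ z ∈ U, (gr M U).Reachable y z) : Inv M U := by
  by_cases hd : ∃ a b, Ge M 6 a b ∧ U = {a, b}
  · obtain ⟨a, b, h, rfl⟩ := hd
    refine dih_inv h ?_
    by_cases e : M a b = 0
    exacts [wp_free e, (sph2 e).wp]
  have nb : ∀ y ∈ U, ∀ z ∈ U, Ge M 6 y z → ∃ c ∈ U, c ≠ y ∧ c ≠ z ∧ (Ge M 3 y c ∨ Ge M 3 z c) := by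
    intro y hy z hz h
    obtain ⟨c, a1, a2⟩ : ∃ c ∈ U, c ∉ ({y, z} : Set (Fin n)) := by
      by_contra! k
      exact hd ⟨y, z, h, Set.Subset.antisymm k (by rintro _ (rfl | rfl) <;> assumption)⟩
    obtain ⟨m, f, b1, b2, b3, -, b5, -⟩ := exists_min_path (S := {y, z}) (O := {y, z}ᶜ)
      (Or.inl rfl) a2 (hc y hy c a1)
    have hn : 0 < m := Nat.pos_of_ne_zero fun e => b2 (e ▸ b1)
    have := mt (b5 1 hn) (by omega)
    exact ⟨f 1, (b3 0 hn).2.2, fun e => this (Or.inl e), fun e => this (Or.inr e),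
      Or.imp (fun e : f 0 = y => e ▸ (b3 0 hn).1) (fun e : f 0 = z => e ▸ (b3 0 hn).1) b1⟩
  have t6 : ∀ y ∈ U, ∀ z ∈ U, Ge M 6 y z →
      ∃ C : TC M U, C.τ = 2 ∧ ∃ t ≠ 0, C.x t = y ∧ C.x (th 0 t) = z := by
    intro y hy z hz h
    obtain ⟨c, a1, a2, a3, a4 | a4⟩ := nb y hy z hz h
    · obtain ⟨C, b1, b2⟩ := mk_tc IH 2 a1 hz hy h.symm a4
        ⟨a3, by have := M.off_diagonal c z a3; rw [mu_gN]; simp; omega⟩ (by simp)
      exact ⟨C, b1, 2, by decide, by rw [b2]; rfl, by rw [b2]; rfl⟩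
    · obtain ⟨C, b1, b2⟩ := mk_tc IH 2 a1 hy hz h a4
        ⟨a2, by have := M.off_diagonal c y a2; rw [mu_gN]; simp; omega⟩ (by simp)
      exact ⟨C, b1, 1, by decide, by rw [b2]; rfl, by rw [b2]; rfl⟩
  have t4 : TB M U → ∀ a ∈ U, ∀ b ∈ U, ∀ c ∈ U, Ge M 4 a b → Ge M 4 b c → a ≠ c →
      ∃ C : TC M U, C.τ = 1 ∧ C.x = ![a, b, c] := fun hT a ha b hb c hc h1 h2 e =>
    mk_tc IH 1 ha hb hc h2 ⟨e.symm, by have := M.off_diagonal c a e.symm; rw [mu_gN]; simp; omega⟩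
      h1 fun _ => hT
  have n6 : TB M U → ∀ a ∈ U, ∀ b ∈ U, ¬ Ge M 6 a b := fun hT a ha b hb h => by
    obtain ⟨c, a1, a2, a3, a4 | a4⟩ := nb a ha b hb h
    exacts [a3 (hT.2 b hb a ha c a1 h.symm a4), a2 (hT.2 a ha b hb c a1 h a4)]
  have alt : Nonempty (TC M U) ∨ TSU M U := by
    by_contra! k
    have k6 : ∀ a ∈ U, ∀ b ∈ U, ¬ Ge M 6 a b := fun a ha b hb h => k.1.false (t6 a ha b hb h).choose
    have hT : TB M U := ⟨fun a ha b hb c hc h1 h2 h3 =>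
      k.1.false (mk_tc IH 0 ha hb hc h2 h3.symm h1 (by simp)).choose,
      fun a ha b hb _ _ h => (k6 a ha b hb h).elim⟩
    exact k.2 (H.tsu U (trip hT k6 fun a ha b hb c hc h1 h2 => by_contra fun e =>
      k.1.false (t4 hT a ha b hb c hc h1 h2 e).choose))
  refine ⟨alt.elim (fun ⟨C⟩ => C.wp) TSU.wp, fun y z μ ⟨h, hy, hz, e⟩ => ?_,
    fun y z ⟨h, hy, hz, _⟩ => ?_⟩
  swap
  · obtain ⟨C, b1, t, b2, rfl, rfl⟩ := t6 y hy z hz h
    exact C.six b1 b2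
  rcases e with rfl | rfl | ⟨rfl, hT⟩
  · rcases alt with ⟨⟨C⟩⟩ | k
    · exact ⟨C.agp3 h, C.five.cv C.g3 h⟩
    · exact ⟨k.agp3 h, k.five.cv k.g3 h⟩
  · obtain ⟨C, b1, t, b2, b3, b4⟩ := t6 y hy z hz h
    exact C.edge b2 b3 b4 (by rw [b1]; rfl)
  by_cases na : ∀ s, ∀ t ∈ U, Ge M 4 s t → s = y ∨ s = z → t = y ∨ t = z
  · exact H.four U IH hc hT (n6 hT) y hy z hz h na
  push Not at na
  obtain ⟨s, t, ht, a1, rfl | rfl, a2, a3⟩ := na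
  · obtain ⟨C, b1, b2⟩ := t4 hT t ht s hy z hz a1.symm h a3
    exact C.edge (p := 1) (r := 0) (by decide) (by rw [b2]; rfl) (by rw [b2]; rfl) (by rw [b1]; rfl)
  · obtain ⟨C, b1, b2⟩ := t4 hT t ht s hz y hy a1.symm h.symm a2
    exact C.edge (p := 2) (r := 0) (by decide) (by rw [b2]; rfl) (by rw [b2]; rfl) (by rw [b1]; rfl)

theorem Cls.inv (H : Cls M) (U : Set (Fin n)) : Inv M U := by
  induction U using WellFoundedLT.induction with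
  | _ U IH =>
  by_cases hc : ∀ y ∈ U, ∀ z ∈ U, (gr M U).Reachable y z
  · exact H.conn IH hc
  push Not at hc
  obtain ⟨y, hy, z, hz, h⟩ := hc
  refine Dec.inv (K := {x | x ∈ U ∧ (gr M U).Reachable y x})
    (K' := {x | x ∈ U ∧ ¬ (gr M U).Reachable y x}) ⟨fun a ha b hb => not_ge ?_ fun k => ?_,
      fun x hx => by by_cases e : (gr M U).Reachable y x <;> simp [hx, e], fun _ k => k.1,
      fun _ k => k.1, fun _ k k' => k'.2 k.2⟩ (IH _ ⟨fun _ k => k.1, fun k => h (k hz).2⟩)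
    (IH _ ⟨fun _ k => k.1, fun k => (k hy).2 .rfl⟩)
  · rintro rfl; exact hb.2 ha.2
  · exact hb.2 (ha.2.trans (SimpleGraph.Adj.reachable ⟨k, ha.1, hb.1⟩))

theorem Cls.computable (H : Cls M) :
    ComputablePred fun w : List (Fin n × Bool) => evalW M w = 1 :=
  computablePred_of_sig (effA M).eq_one
    (Sig.of_eq (H.inv Set.univ).wp fun w => by simp [apar_univ, effA_ev])

end Pool.Agent.Lib.MP_a1ec0a_al.TR
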